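import Pool.Agent.Helper506.ArcExample

set_option autoImplicit false
open Complex Set Filter Metric Topology

namespace Pool.Agent.Helper506.Arc

/-- parametrisation of the omitted arc by `t = r - 1/4` -/
noncomputable def gam (X : ℝ → ℝ) (c t : ℝ) : ℂ := arcPt X c (t + 1 / 4)

theorem inv_mem {t : ℝ} (ht : 0 ≤ t) : 1 / (t + 1 / 4) ∈ Icc (0 : ℝ) 4 := by
  have h : 0 < t + 1 / 4 := by linarith
  refine ⟨by positivity, ?_⟩
  rw [div_le_iff₀ h]; linarith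

theorem gam_hasDerivAt {X : ℝ → ℝ} {c t : ℝ} (ht : 0 ≤ t)
    (hX : ∀ T ∈ Icc (0 : ℝ) 4, AnalyticAt ℝ X T) :
    HasDerivAt (gam X c) (gam X c t * (((1 / (t + 1 / 4) : ℝ) : ℂ) *
      (1 - ((2 * (1 / (t + 1 / 4)) * deriv X (1 / (t + 1 / 4)) : ℝ) : ℂ) * I))) t := by
  have h0 : (t + 1 / 4 : ℝ) ≠ 0 := by positivity
  set T : ℝ := 1 / (t + 1 / 4) with hT
  have hT1 : T * (t + 1 / 4) = 1 := by rw [hT]; field_simp
  have h1 : HasDerivAt (fun t : ℝ => 1 / (t + 1 / 4)) (-T ^ 2) t := by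
    have h2 : HasDerivAt (fun t : ℝ => (t + 1 / 4)⁻¹) (-1 / (t + 1 / 4) ^ 2) t :=
      ((hasDerivAt_id t).add_const (1 / 4)).inv h0
    have h3 : -1 / (t + 1 / 4) ^ 2 = -T ^ 2 := by rw [hT]; field_simp
    rw [h3] at h2
    simpa only [one_div] using h2
  have hXd : HasDerivAt X (deriv X T) (1 / (t + 1 / 4)) :=
    (hX _ (inv_mem ht)).differentiableAt.hasDerivAt
  have h2 : HasDerivAt (fun t : ℝ => 2 * X (1 / (t + 1 / 4)))
      (2 * (deriv X T * -T ^ 2)) t :=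
    (hXd.comp t h1).const_mul 2
  have h3 : HasDerivAt (fun t : ℝ => Complex.exp (((2 * X (1 / (t + 1 / 4)) : ℝ) : ℂ) * I))
      (Complex.exp (((2 * X (1 / (t + 1 / 4)) : ℝ) : ℂ) * I)
        * (((2 * (deriv X T * -T ^ 2) : ℝ) : ℂ) * I)) t :=
    (h2.ofReal_comp.mul_const I).cexp
  have h4 : HasDerivAt (fun t : ℝ => (((-((t + 1 / 4) / c)) : ℝ) : ℂ)) (((-(1 / c)) : ℝ) : ℂ) t := by
    have : HasDerivAt (fun t : ℝ => (-((t + 1 / 4) / c))) (-(1 / c)) t :=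
      (((hasDerivAt_id t).add_const (1 / 4)).div_const c).neg
    exact this.ofReal_comp
  have h5 := h4.mul h3
  refine h5.congr_deriv ?_
  simp only [gam, arcPt]
  rw [← hT]
  have hT1C : (T : ℂ) * ((t : ℂ) + 1 / 4) = 1 := by
    have : ((T * (t + 1 / 4) : ℝ) : ℂ) = ((1 : ℝ) : ℂ) := by rw [hT1]
    push_cast at this; exact this
  generalize Complex.exp (((2 * X T : ℝ) : ℂ) * I) = E
  generalize deriv X T = Y
  clear_value T
  push_cast
  simp only [div_eq_mul_inv]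
  rw [div_eq_mul_inv] at hT1C
  linear_combination (E * (c : ℂ)⁻¹) * hT1C

theorem gam_ne {X : ℝ → ℝ} {c t : ℝ} (hc : 0 < c) (ht : 0 ≤ t) : gam X c t ≠ 0 := by
  simp only [gam, arcPt]
  refine mul_ne_zero ?_ (Complex.exp_ne_zero _)
  have : -((t + 1 / 4) / c) ≠ 0 := by
    have : 0 < (t + 1 / 4) / c := by positivity
    linarith
  exact_mod_cast this

theorem gam_norm {X : ℝ → ℝ} {c t : ℝ} (hc : 0 < c) (ht : 0 ≤ t) :
    ‖gam X c t‖ = (t + 1 / 4) / c := by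
  simp only [gam, arcPt, norm_mul, Complex.norm_real, Complex.norm_exp_ofReal_mul_I, mul_one]
  rw [norm_neg, Real.norm_of_nonneg (by positivity)]

theorem gam_arg {X : ℝ → ℝ} {c t : ℝ} (hc : 0 < c) (ht : 0 ≤ t)
    (hX : ∀ T ∈ Icc (0 : ℝ) 4, AnalyticAt ℝ X T) :
    Complex.arg (deriv (gam X c) t / gam X c t)
      = Real.arctan (-(2 * (1 / (t + 1 / 4)) * deriv X (1 / (t + 1 / 4)))) := by
  have hne := gam_ne (X := X) hc ht
  have hpos : 0 < 1 / (t + 1 / 4) := by positivity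
  rw [(gam_hasDerivAt ht hX).deriv, mul_div_cancel_left₀ _ hne]
  rw [Complex.arg_real_mul _ hpos]
  set y : ℝ := 2 * (1 / (t + 1 / 4)) * deriv X (1 / (t + 1 / 4)) with hy
  have hre : (1 - (y : ℂ) * I).re = 1 := by simp
  have him : (1 - (y : ℂ) * I).im = -y := by simp
  have hn : ‖(1 - (y : ℂ) * I)‖ = Real.sqrt (1 + (-y) ^ 2) := by
    rw [Complex.norm_def, Complex.normSq_apply, hre, him]
    congr 1; ring
  rw [Complex.arg_of_re_nonneg (by rw [hre]; norm_num), him, hn, Real.arctan_eq_arcsin]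

end Pool.Agent.Helper506.Arc
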