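import Mathlib

set_option autoImplicit false
open Complex Set Filter Metric Topology MeasureTheory

namespace Pool.Agent.Helper506.ArcJ

theorem fubini_kernel {R B : ℝ}
    (hint : ∀ c : ℂ, ‖c‖ < R → IntegrableOn (fun v : ℂ => (c - v)⁻¹) (ball (0 : ℂ) R) volume)
    (hval : ∀ c : ℂ, ‖c‖ < R →
      ∫ v in ball (0 : ℂ) R, (c - v)⁻¹ = (Real.pi : ℂ) * (starRingEnd ℂ) c)
    (hB : ∀ c : ℂ, ‖c‖ < R → ∫ v in ball (0 : ℂ) R, ‖(c - v)⁻¹‖ ≤ B)
    {c c' : ℝ → ℂ} (hc : Continuous c) (hc' : Continuous c') (hcR : ∀ θ, ‖c θ‖ < R) :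
    (Real.pi : ℂ) * ∫ θ in (0 : ℝ)..(2 * Real.pi), (starRingEnd ℂ) (c θ) * c' θ
      = ∫ v in ball (0 : ℂ) R, ∫ θ in (0 : ℝ)..(2 * Real.pi), c' θ * (c θ - v)⁻¹ := by
  have h2π : (0 : ℝ) ≤ 2 * Real.pi := by positivity
  simp only [intervalIntegral.integral_of_le h2π]
  have hmeas : Measurable (fun p : ℝ × ℂ => c' p.1 * (c p.1 - p.2)⁻¹) := by
    have h1 : Measurable (fun p : ℝ × ℂ => c' p.1) := hc'.measurable.comp measurable_fst
    have h2 : Measurable (fun p : ℝ × ℂ => c p.1) := hc.measurable.comp measurable_fst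
    exact h1.mul (h2.sub measurable_snd).inv
  have haesm : AEStronglyMeasurable (fun p : ℝ × ℂ => c' p.1 * (c p.1 - p.2)⁻¹)
      ((volume.restrict (Ioc 0 (2 * Real.pi))).prod (volume.restrict (ball (0 : ℂ) R))) :=
    hmeas.aestronglyMeasurable
  have hI : Integrable (Function.uncurry (fun (θ : ℝ) (v : ℂ) => c' θ * (c θ - v)⁻¹))
      ((volume.restrict (Ioc 0 (2 * Real.pi))).prod (volume.restrict (ball (0 : ℂ) R))) := by
    refine (integrable_prod_iff haesm).mpr ⟨?_, ?_⟩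
    · apply Eventually.of_forall
      intro θ
      exact (hint (c θ) (hcR θ)).const_mul (c' θ)
    · have hg : Integrable (fun θ => ‖c' θ‖ * B) (volume.restrict (Ioc 0 (2 * Real.pi))) :=
        (hc'.norm.mul continuous_const).integrableOn_Ioc
      refine hg.mono' haesm.norm.integral_prod_right' ?_
      apply Eventually.of_forall
      intro θ
      have h0 : 0 ≤ ∫ v in ball (0 : ℂ) R, ‖c' θ * (c θ - v)⁻¹‖ :=
        integral_nonneg (fun _ => norm_nonneg _)
      show ‖∫ v in ball (0 : ℂ) R, ‖c' θ * (c θ - v)⁻¹‖‖ ≤ ‖c' θ‖ * B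
      rw [Real.norm_of_nonneg h0]
      simp only [norm_mul]
      rw [integral_const_mul]
      exact mul_le_mul_of_nonneg_left (hB (c θ) (hcR θ)) (norm_nonneg _)
  rw [← integral_integral_swap hI, ← integral_const_mul]
  apply integral_congr_ae
  apply Eventually.of_forall
  intro θ
  simp only
  rw [integral_const_mul, hval (c θ) (hcR θ)]
  ring


end Pool.Agent.Helper506.ArcJ
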