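import Mathlib

set_option autoImplicit false
open Complex Set Filter Metric Topology MeasureTheory

namespace Pool.Agent.Helper506.ArcJ

/-- the exponential `e^{ikt}` -/
noncomputable def parsevalE (k : ℤ) (t : ℝ) : ℂ := Complex.exp ((k : ℂ) * I * t)

theorem parsevalE_norm (k : ℤ) (t : ℝ) : ‖parsevalE k t‖ = 1 := by
  unfold parsevalE
  have : (k : ℂ) * I * t = ((k * t : ℝ) : ℂ) * I := by push_cast; ring
  rw [this, norm_exp_ofReal_mul_I]

theorem parsevalE_cont (k : ℤ) : Continuous (parsevalE k) := by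
  unfold parsevalE
  fun_prop

theorem parsevalE_mul (k l : ℤ) (t : ℝ) : parsevalE k t * parsevalE l t = parsevalE (k + l) t := by
  unfold parsevalE
  rw [← Complex.exp_add]
  congr 1
  push_cast
  ring

theorem parsevalE_conj (k : ℤ) (t : ℝ) :
    (starRingEnd ℂ) (parsevalE k t) = parsevalE (-k) t := by
  unfold parsevalE
  rw [← Complex.exp_conj]
  congr 1
  simp

theorem parsevalE_int (k : ℤ) : ∫ t in (0 : ℝ)..(2 * Real.pi), parsevalE k t =
    if k = 0 then (2 * Real.pi : ℂ) else 0 := by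
  unfold parsevalE
  split_ifs with h
  · subst h
    simp
  · have hc : (k : ℂ) * I ≠ 0 := mul_ne_zero (Int.cast_ne_zero.2 h) I_ne_zero
    rw [integral_exp_mul_complex hc]
    have h1 : (k : ℂ) * I * ((2 * Real.pi : ℝ) : ℂ) = (k : ℂ) * (2 * Real.pi * I) := by
      push_cast
      ring
    rw [h1, Complex.exp_int_mul_two_pi_mul_I]
    simp

theorem parseval_congr {f g : ℕ → ℂ} {a : ℂ} (h : ∀ n, f n = g n) : HasSum f a ↔ HasSum g a := by
  rw [funext h]

/-- termwise integration -/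
theorem parseval_term (c : ℕ → ℂ) (hc : Summable (fun n => ‖c n‖)) (g : ℝ → ℂ) (hg : Continuous g)
    (B : ℝ) (hB : ∀ t, ‖g t‖ ≤ B) (f : ℕ → ℝ → ℂ) (hf : ∀ n, Continuous (f n))
    (hf1 : ∀ n t, ‖f n t‖ = 1) (S : ℝ → ℂ) (hS : ∀ t, HasSum (fun n => c n * f n t) (S t)) :
    HasSum (fun n => c n * ∫ t in (0 : ℝ)..(2 * Real.pi), g t * f n t)
      (∫ t in (0 : ℝ)..(2 * Real.pi), g t * S t) := by
  have h := intervalIntegral.hasSum_integral_of_dominated_convergence (μ := volume)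
    (a := 0) (b := 2 * Real.pi) (F := fun n t => g t * (c n * f n t)) (f := fun t => g t * S t)
    (fun n _ => B * ‖c n‖) ?_ ?_ ?_ ?_ ?_
  · refine (parseval_congr (fun n => ?_)).1 h
    rw [← intervalIntegral.integral_const_mul]
    congr 1
    funext t
    ring
  · intro n
    exact (hg.mul (continuous_const.mul (hf n))).aestronglyMeasurable
  · intro n
    refine Filter.Eventually.of_forall fun t _ => ?_
    rw [norm_mul, norm_mul, hf1, mul_one]
    exact mul_le_mul_of_nonneg_right (hB t) (norm_nonneg _)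
  · exact Filter.Eventually.of_forall fun t _ => hc.mul_left B
  · exact intervalIntegrable_const
  · exact Filter.Eventually.of_forall fun t _ => (hS t).mul_left (g t)

theorem parseval_aux (a b : ℕ → ℂ) (ha : Summable (fun n => ‖a n‖))
    (hb : Summable (fun n => ‖b n‖)) (A B : ℝ → ℂ)
    (hA : ∀ t, HasSum (fun n : ℕ => a n * parsevalE n t) (A t))
    (hB : ∀ t, HasSum (fun n : ℕ => b n * parsevalE n t) (B t)) :
    HasSum (fun n => (2 * Real.pi : ℂ) * ((starRingEnd ℂ) (a n) * b n))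
      (∫ t in (0 : ℝ)..(2 * Real.pi), (starRingEnd ℂ) (A t) * B t) := by
  set Ac : ℝ → ℂ := fun t => (starRingEnd ℂ) (A t) with hAc
  have hAc' : ∀ t, HasSum (fun n : ℕ => (starRingEnd ℂ) (a n) * parsevalE (-(n : ℤ)) t) (Ac t) := by
    intro t
    have h1 := (hA t).map (starRingEnd ℂ) Complex.continuous_conj
    refine (parseval_congr (fun n => ?_)).1 h1
    simp only [Function.comp_apply, map_mul, parsevalE_conj]
  have hca : Summable (fun n => ‖(starRingEnd ℂ) (a n)‖) := by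
    simpa using ha
  have hAcont : Continuous Ac := by
    have h1 : Ac = fun t => ∑' n : ℕ, (starRingEnd ℂ) (a n) * parsevalE (-(n : ℤ)) t := by
      funext t
      exact (hAc' t).tsum_eq.symm
    rw [h1]
    apply continuous_tsum (fun n => continuous_const.mul (parsevalE_cont _)) hca
    intro n t
    show ‖(starRingEnd ℂ) (a n) * parsevalE (-(n : ℤ)) t‖ ≤ _
    rw [norm_mul, parsevalE_norm, mul_one]
  have hAb : ∀ t, ‖Ac t‖ ≤ ∑' n, ‖(starRingEnd ℂ) (a n)‖ := by
    intro t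
    rw [← (hAc' t).tsum_eq]
    have h2 : ∀ n : ℕ, ‖(starRingEnd ℂ) (a n) * parsevalE (-(n : ℤ)) t‖ =
        ‖(starRingEnd ℂ) (a n)‖ := by
      intro n
      rw [norm_mul, parsevalE_norm, mul_one]
    have h3 := norm_tsum_le_tsum_norm (f := fun n : ℕ => (starRingEnd ℂ) (a n) * parsevalE (-(n : ℤ)) t)
      (by simpa only [h2] using hca)
    simpa only [h2] using h3
  have hcoef : ∀ l : ℕ, ∫ t in (0 : ℝ)..(2 * Real.pi), Ac t * parsevalE l t =
      (2 * Real.pi : ℂ) * (starRingEnd ℂ) (a l) := by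
    intro l
    have h1 := parseval_term (fun n => (starRingEnd ℂ) (a n)) hca (parsevalE l) (parsevalE_cont _) 1
      (fun t => (parsevalE_norm _ _).le) (fun n => parsevalE (-(n : ℤ))) (fun n => parsevalE_cont _)
      (fun n t => parsevalE_norm _ _) Ac hAc'
    have h2 : ∀ n : ℕ, ∫ t in (0 : ℝ)..(2 * Real.pi), parsevalE l t * parsevalE (-(n : ℤ)) t =
        if n = l then (2 * Real.pi : ℂ) else 0 := by
      intro n
      simp only [parsevalE_mul]
      rw [parsevalE_int]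
      congr 1
      simp only [eq_iff_iff]
      omega
    simp only [h2] at h1
    have h3 : HasSum (fun n => (starRingEnd ℂ) (a n) * if n = l then (2 * Real.pi : ℂ) else 0)
        ((starRingEnd ℂ) (a l) * (2 * Real.pi : ℂ)) := by
      have h4 := hasSum_single (f := fun n => (starRingEnd ℂ) (a n) *
        if n = l then (2 * Real.pi : ℂ) else 0) l (by
          intro n hn
          simp [hn])
      simpa using h4
    have h5 := h1.unique h3
    calc ∫ t in (0 : ℝ)..(2 * Real.pi), Ac t * parsevalE l t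
        = ∫ t in (0 : ℝ)..(2 * Real.pi), parsevalE l t * Ac t := by
          congr 1
          funext t
          ring
      _ = _ := by rw [h5]; ring
  have h6 := parseval_term b hb Ac hAcont _ hAb (fun n => parsevalE n) (fun n => parsevalE_cont _)
    (fun n t => parsevalE_norm _ _) B hB
  simp only [hcoef] at h6
  refine (parseval_congr (fun n => ?_)).1 h6
  ring

theorem parseval_summ (κ : ℕ → ℂ) (K : ℂ → ℂ)
    (hK : ∀ z : ℂ, ‖z‖ < 1 → HasSum (fun n => κ n * z ^ n) (K z)) {ρ : ℝ} (hρ : 0 < ρ)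
    (hρ1 : ρ < 1) :
    Summable (fun n : ℕ => ‖κ n‖ * ρ ^ n) ∧ Summable (fun n : ℕ => (n : ℝ) * (‖κ n‖ * ρ ^ n)) := by
  obtain ⟨s, hs1, hs2⟩ := exists_between hρ1
  have hs0 : 0 < s := hρ.trans hs1
  have h1 : Tendsto (fun n => κ n * (s : ℂ) ^ n) atTop (𝓝 0) :=
    (hK s (by rw [norm_real, Real.norm_of_nonneg hs0.le]; exact hs2)).summable.tendsto_atTop_zero
  obtain ⟨C, hC⟩ := (h1.norm).bddAbove_range
  have hC' : ∀ n, ‖κ n‖ * s ^ n ≤ C := by
    intro n
    have := hC ⟨n, rfl⟩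
    simp only [norm_mul, norm_pow, norm_real, Real.norm_of_nonneg hs0.le] at this
    exact this
  have hx : ‖ρ / s‖ < 1 := by
    rw [Real.norm_of_nonneg (by positivity)]
    exact (div_lt_one hs0).2 hs1
  have hb : ∀ n, ‖κ n‖ * ρ ^ n ≤ C * (ρ / s) ^ n := by
    intro n
    have e : ‖κ n‖ * ρ ^ n = (‖κ n‖ * s ^ n) * (ρ / s) ^ n := by
      rw [div_pow]
      field_simp
    rw [e]
    exact mul_le_mul_of_nonneg_right (hC' n) (by positivity)
  constructor
  · have h2 := (summable_pow_mul_geometric_of_norm_lt_one 0 hx).mul_left C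
    refine Summable.of_nonneg_of_le (fun n => by positivity) hb ?_
    simpa using h2
  · have h2 := (summable_pow_mul_geometric_of_norm_lt_one 1 hx).mul_left C
    refine Summable.of_nonneg_of_le (fun n => by positivity)
      (fun n => mul_le_mul_of_nonneg_left (hb n) (Nat.cast_nonneg n)) ?_
    refine h2.congr (fun n => ?_)
    rw [pow_one]
    ring

theorem parseval_deriv (κ : ℕ → ℂ) (K : ℂ → ℂ)
    (hK : ∀ z : ℂ, ‖z‖ < 1 → HasSum (fun n => κ n * z ^ n) (K z)) {z : ℂ} (hz : ‖z‖ < 1) :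
    ∃ K' : ℂ, HasDerivAt K K' z ∧ HasSum (fun n : ℕ => (n : ℂ) * (κ n * z ^ n)) (z * K') := by
  obtain ⟨r, hr1, hr2⟩ := exists_between hz
  have hr0 : 0 < r := (norm_nonneg z).trans_lt hr1
  obtain ⟨-, hs⟩ := parseval_summ κ K hK hr0 hr2
  have hu : Summable (fun n : ℕ => (n : ℝ) * (‖κ n‖ * r ^ n) * r⁻¹) := hs.mul_right _
  have hbound : ∀ (n : ℕ) (y : ℂ), y ∈ ball (0 : ℂ) r →
      ‖κ n * ((n : ℂ) * y ^ (n - 1))‖ ≤ (n : ℝ) * (‖κ n‖ * r ^ n) * r⁻¹ := by
    intro n y hy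
    rw [mem_ball_zero_iff] at hy
    rcases Nat.eq_zero_or_pos n with h | h
    · subst h
      simp
    · rw [norm_mul, norm_mul, norm_pow, norm_natCast]
      have h1 : r ^ n * r⁻¹ = r ^ (n - 1) := by
        obtain ⟨m, rfl⟩ := Nat.exists_eq_succ_of_ne_zero h.ne'
        rw [Nat.succ_sub_one, pow_succ]
        field_simp
      have h2 : ‖y‖ ^ (n - 1) ≤ r ^ (n - 1) := pow_le_pow_left₀ (norm_nonneg _) hy.le _
      calc ‖κ n‖ * ((n : ℝ) * ‖y‖ ^ (n - 1)) ≤ ‖κ n‖ * ((n : ℝ) * r ^ (n - 1)) := by gcongr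
        _ = (n : ℝ) * (‖κ n‖ * r ^ n) * r⁻¹ := by rw [← h1]; ring
  have hzb : z ∈ ball (0 : ℂ) r := by rwa [mem_ball_zero_iff]
  have hd := hasDerivAt_tsum_of_isPreconnected (g := fun n y => κ n * y ^ n)
    (g' := fun n y => κ n * ((n : ℂ) * y ^ (n - 1))) (y₀ := z) (y := z) hu isOpen_ball
    (convex_ball (0 : ℂ) r).isPreconnected
    (fun n y _ => (hasDerivAt_pow n y).const_mul (κ n)) hbound hzb (hK z hz).summable hzb
  refine ⟨_, hd.congr_of_eventuallyEq ?_, ?_⟩
  · filter_upwards [isOpen_ball.mem_nhds hzb] with y hy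
    rw [mem_ball_zero_iff] at hy
    exact (hK y (hy.trans hr2)).tsum_eq.symm
  · have hsum : Summable (fun n : ℕ => κ n * ((n : ℂ) * z ^ (n - 1))) :=
      Summable.of_norm_bounded hu (fun n => hbound n z hzb)
    have h1 := hsum.hasSum.mul_left z
    refine (parseval_congr (fun n => ?_)).1 h1
    rcases Nat.eq_zero_or_pos n with h | h
    · subst h
      simp
    · obtain ⟨m, rfl⟩ := Nat.exists_eq_succ_of_ne_zero h.ne'
      rw [Nat.succ_sub_one, pow_succ]
      ring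

theorem parseval_area (κ : ℕ → ℂ) (K : ℂ → ℂ)
    (hK : ∀ z : ℂ, ‖z‖ < 1 → HasSum (fun n => κ n * z ^ n) (K z)) (m : ℕ) {ρ : ℝ} (hρ : 0 < ρ)
    (hρ1 : ρ < 1) :
    HasSum (fun k : ℕ => ((((k : ℝ) - m) * ‖κ k‖ ^ 2 * (ρ ^ 2) ^ k : ℝ) : ℂ))
      ((2 * Real.pi * I)⁻¹ * (ρ : ℂ) ^ (2 * m) *
        ∫ θ in (0 : ℝ)..(2 * Real.pi),
          (starRingEnd ℂ) (K (circleMap 0 ρ θ) / (circleMap 0 ρ θ) ^ m)
            * (circleMap 0 ρ θ * I * deriv (fun w => K w / w ^ m) (circleMap 0 ρ θ))) := by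
  have hρc : (ρ : ℂ) ≠ 0 := ofReal_ne_zero.2 hρ.ne'
  have hpi : (Real.pi : ℂ) ≠ 0 := ofReal_ne_zero.2 Real.pi_ne_zero
  have hnorm : ∀ θ, ‖circleMap 0 ρ θ‖ = ρ := by
    intro θ
    rw [norm_circleMap_zero, abs_of_pos hρ]
  have hne : ∀ θ, circleMap 0 ρ θ ≠ 0 := by
    intro θ h
    have := hnorm θ
    rw [h, norm_zero] at this
    exact hρ.ne this
  have hpow : ∀ (n : ℕ) θ, (circleMap 0 ρ θ) ^ n = (ρ : ℂ) ^ n * parsevalE n θ := by
    intro n θ
    rw [circleMap_zero, mul_pow, ← Complex.exp_nat_mul]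
    unfold parsevalE
    congr 2
    push_cast
    ring
  choose K' hK'1 hK'2 using fun θ : ℝ => parseval_deriv κ K hK (z := circleMap 0 ρ θ)
    (by rw [hnorm]; exact hρ1)
  obtain ⟨hs1, hs2⟩ := parseval_summ κ K hK hρ hρ1
  set a : ℕ → ℂ := fun n => κ n * (ρ : ℂ) ^ n with ha
  set b : ℕ → ℂ := fun n => ((n : ℂ) - m) * a n with hb
  have hna : ∀ n, ‖a n‖ = ‖κ n‖ * ρ ^ n := by
    intro n
    simp only [ha]
    rw [norm_mul, norm_pow, norm_real, Real.norm_of_nonneg hρ.le]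
  have hsa : Summable (fun n => ‖a n‖) := by simpa only [hna] using hs1
  have hsb : Summable (fun n => ‖b n‖) := by
    refine Summable.of_nonneg_of_le (fun n => norm_nonneg _) (fun n => ?_)
      (hs2.add (hs1.mul_left (m : ℝ)))
    simp only [hb]
    rw [norm_mul, hna]
    have : ‖(n : ℂ) - m‖ ≤ n + m := by
      refine (norm_sub_le _ _).trans ?_
      rw [norm_natCast, norm_natCast]
    calc ‖(n : ℂ) - m‖ * (‖κ n‖ * ρ ^ n) ≤ (n + m) * (‖κ n‖ * ρ ^ n) := by gcongr
      _ = _ := by ring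
  have hA : ∀ t, HasSum (fun n : ℕ => a n * parsevalE n t) (K (circleMap 0 ρ t)) := by
    intro t
    have h1 := hK (circleMap 0 ρ t) (by rw [hnorm]; exact hρ1)
    refine (parseval_congr (fun n => ?_)).1 h1
    rw [hpow]
    simp only [ha]
    ring
  have hB : ∀ t, HasSum (fun n : ℕ => b n * parsevalE n t)
      (circleMap 0 ρ t * K' t - m * K (circleMap 0 ρ t)) := by
    intro t
    have h1 := (hK'2 t).sub ((hK (circleMap 0 ρ t) (by rw [hnorm]; exact hρ1)).mul_left (m : ℂ))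
    refine (parseval_congr (fun n => ?_)).1 h1
    rw [hpow]
    simp only [hb, ha]
    ring
  have hmain := parseval_aux a b hsa hsb _ _ hA hB
  have hint : (∫ θ in (0 : ℝ)..(2 * Real.pi),
          (starRingEnd ℂ) (K (circleMap 0 ρ θ) / (circleMap 0 ρ θ) ^ m)
            * (circleMap 0 ρ θ * I * deriv (fun w => K w / w ^ m) (circleMap 0 ρ θ))) =
      (I * ((ρ : ℂ) ^ (2 * m))⁻¹) * ∫ t in (0 : ℝ)..(2 * Real.pi),
        (starRingEnd ℂ) (K (circleMap 0 ρ t)) * (circleMap 0 ρ t * K' t - m * K (circleMap 0 ρ t)) := by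
    rw [← intervalIntegral.integral_const_mul]
    congr 1
    funext θ
    set z := circleMap 0 ρ θ with hz
    have hz0 : z ≠ 0 := hne θ
    have hd : HasDerivAt (fun w => K w / w ^ m)
        ((K' θ * z ^ m - K z * ((m : ℂ) * z ^ (m - 1))) / (z ^ m) ^ 2) z :=
      (hK'1 θ).div (hasDerivAt_pow m z) (pow_ne_zero m hz0)
    rw [hd.deriv]
    have hzz : (starRingEnd ℂ) z * z = (ρ : ℂ) ^ 2 := by
      rw [Complex.conj_mul', hnorm]
    have hzc : (starRingEnd ℂ) z ≠ 0 := by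
      intro h
      rw [h, zero_mul] at hzz
      exact pow_ne_zero 2 hρc hzz.symm
    have h2m : (ρ : ℂ) ^ (2 * m) = ((starRingEnd ℂ) z) ^ m * z ^ m := by
      rw [pow_mul, ← hzz, mul_pow]
    have hzm : z * ((m : ℂ) * z ^ (m - 1)) = m * z ^ m := by
      rcases Nat.eq_zero_or_pos m with h | h
      · subst h
        simp
      · obtain ⟨k, rfl⟩ := Nat.exists_eq_succ_of_ne_zero h.ne'
        rw [Nat.succ_sub_one, pow_succ]
        ring
    rw [map_div₀, map_pow, h2m]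
    have e1 : z * I * ((K' θ * z ^ m - K z * ((m : ℂ) * z ^ (m - 1))) / (z ^ m) ^ 2) =
        I * (z * K' θ - m * K z) / z ^ m := by
      have : z * I * ((K' θ * z ^ m - K z * ((m : ℂ) * z ^ (m - 1))) / (z ^ m) ^ 2) =
          I * (z * K' θ * z ^ m - K z * (z * ((m : ℂ) * z ^ (m - 1)))) / (z ^ m) ^ 2 := by ring
      rw [this, hzm]
      have hzm0 := pow_ne_zero m hz0
      field_simp
    rw [e1]
    have h1 := pow_ne_zero m hz0
    have h2 := pow_ne_zero m hzc
    field_simp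
  rw [hint]
  have hfin := hmain.mul_left ((2 * Real.pi : ℂ)⁻¹)
  have hρ2m : (ρ : ℂ) ^ (2 * m) ≠ 0 := pow_ne_zero _ hρc
  have hval : (2 * Real.pi * I : ℂ)⁻¹ * (ρ : ℂ) ^ (2 * m) *
      ((I * ((ρ : ℂ) ^ (2 * m))⁻¹) * ∫ t in (0 : ℝ)..(2 * Real.pi),
        (starRingEnd ℂ) (K (circleMap 0 ρ t)) * (circleMap 0 ρ t * K' t - m * K (circleMap 0 ρ t))) =
      (2 * Real.pi : ℂ)⁻¹ * ∫ t in (0 : ℝ)..(2 * Real.pi),
        (starRingEnd ℂ) (K (circleMap 0 ρ t)) * (circleMap 0 ρ t * K' t - m * K (circleMap 0 ρ t)) := by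
    have hI := I_ne_zero
    field_simp
  rw [hval]
  refine (parseval_congr (fun n => ?_)).1 hfin
  · simp only [hb]
    have e2 : (starRingEnd ℂ) (a n) * (((n : ℂ) - m) * a n) =
        ((n : ℂ) - m) * ((starRingEnd ℂ) (a n) * a n) := by ring
    rw [e2, Complex.conj_mul', hna]
    push_cast
    field_simp
    ring


end Pool.Agent.Helper506.ArcJ
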