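import Pool.Agent.Helper506.ArcDefs

set_option autoImplicit false
open Complex Set Filter Metric Topology

namespace Pool.Agent.Helper506.Arc

/-- Cauchy product of coefficient sequences -/
noncomputable def cv (a b : ℕ → ℂ) (n : ℕ) : ℂ := ∑ i ∈ Finset.range (n + 1), a i * b (n - i)

theorem exists_PS {f : ℂ → ℂ} (hf : DifferentiableOn ℂ f (ball (0 : ℂ) 1)) : ∃ a, PS a f := by
  refine ⟨fun n => (n.factorial : ℂ)⁻¹ * iteratedDeriv n f 0, ?_⟩
  intro z hz
  have h := Complex.hasSum_taylorSeries_on_ball (r := (1 : NNReal)) (c := (0 : ℂ)) (z := z) (f := f)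
    (by simpa using hf) (by simpa using hz)
  simp only [sub_zero, smul_eq_mul] at h
  have h2 : (fun n : ℕ => (n.factorial : ℂ)⁻¹ * iteratedDeriv n f 0 * z ^ n)
      = fun n : ℕ => (n.factorial : ℂ)⁻¹ * (z ^ n * iteratedDeriv n f 0) := by
    funext n; ring
  simpa only [h2] using h

theorem PS.summable_norm {a : ℕ → ℂ} {f : ℂ → ℂ} (ha : PS a f) {r : ℝ} (h0 : 0 ≤ r) (h1 : r < 1) :
    Summable (fun n => ‖a n‖ * r ^ n) := by
  obtain ⟨ρ, hρ1, hρ2⟩ := exists_between h1
  have hρ0 : 0 < ρ := lt_of_le_of_lt h0 hρ1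
  have hs := (ha (ρ : ℂ) (by simpa [abs_of_pos hρ0] using hρ2)).summable
  have hb : ∃ C, ∀ n, ‖a n * (ρ : ℂ) ^ n‖ ≤ C := by
    have := hs.tendsto_atTop_zero.norm
    obtain ⟨C, hC⟩ := this.bddAbove_range
    exact ⟨C, fun n => hC ⟨n, rfl⟩⟩
  obtain ⟨C, hC⟩ := hb
  have hgeo : Summable (fun n => C * (r / ρ) ^ n) :=
    (summable_geometric_of_lt_one (by positivity) ((div_lt_one hρ0).2 hρ1)).mul_left C
  refine Summable.of_nonneg_of_le (fun n => by positivity) (fun n => ?_) hgeo
  have h2 := hC n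
  rw [norm_mul, norm_pow, Complex.norm_real, Real.norm_of_nonneg hρ0.le] at h2
  calc ‖a n‖ * r ^ n = (‖a n‖ * ρ ^ n) * (r / ρ) ^ n := by
        rw [div_pow]; field_simp
    _ ≤ C * (r / ρ) ^ n := by gcongr

theorem PS.summable_norm' {a : ℕ → ℂ} {f : ℂ → ℂ} (ha : PS a f) {z : ℂ} (hz : ‖z‖ < 1) :
    Summable (fun n => ‖a n * z ^ n‖) := by
  have := ha.summable_norm (norm_nonneg z) hz
  simpa [norm_mul, norm_pow] using this

theorem PS.mul {a b : ℕ → ℂ} {f g : ℂ → ℂ} (ha : PS a f) (hb : PS b g) :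
    PS (cv a b) (fun z => f z * g z) := by
  intro z hz
  have h1 := ha.summable_norm' hz
  have h2 := hb.summable_norm' hz
  have h3 := summable_norm_sum_mul_range_of_summable_norm h1 h2
  have h4 := tsum_mul_tsum_eq_tsum_sum_range_of_summable_norm h1 h2
  rw [(ha z hz).tsum_eq, (hb z hz).tsum_eq] at h4
  have h5 : ∀ n, ∑ k ∈ Finset.range (n + 1), a k * z ^ k * (b (n - k) * z ^ (n - k))
      = cv a b n * z ^ n := by
    intro n
    rw [cv, Finset.sum_mul]
    refine Finset.sum_congr rfl fun p hp => ?_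
    have hp' : p ≤ n := Nat.lt_succ_iff.1 (Finset.mem_range.1 hp)
    have h6 : z ^ n = z ^ p * z ^ (n - p) := by rw [← pow_add]; congr 1; omega
    rw [h6]; ring
  simp only [h5] at h3 h4
  have h6 : HasSum (fun n => cv a b n * z ^ n) (∑' n, cv a b n * z ^ n) := h3.of_norm.hasSum
  simpa only [← h4] using h6

theorem PS.hasFPowerSeries {a : ℕ → ℂ} {f : ℂ → ℂ} (ha : PS a f) :
    HasFPowerSeriesOnBall f (FormalMultilinearSeries.ofScalars ℂ a) 0 1 := by
  refine ⟨?_, by norm_num, ?_⟩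
  · refine ENNReal.le_of_forall_nnreal_lt fun r hr => ?_
    have hr1 : (r : ℝ) < 1 := by exact_mod_cast hr
    apply FormalMultilinearSeries.le_radius_of_summable_norm
    have := ha.summable_norm r.2 hr1
    refine Summable.of_nonneg_of_le (fun n => by positivity) (fun n => ?_) this
    have h3 : ‖FormalMultilinearSeries.ofScalars ℂ a n‖ ≤ ‖a n‖ := by simp
    exact mul_le_mul_of_nonneg_right h3 (pow_nonneg r.2 n)
  · intro y hy
    have hy1 : ‖y‖ < 1 := by
      have : ‖y‖₊ < 1 := by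
        simpa [Metric.eball, edist_zero_right, enorm_eq_nnnorm] using hy
      exact_mod_cast this
    have := ha y hy1
    simpa [FormalMultilinearSeries.ofScalars, smul_eq_mul, mul_comm] using this

theorem PS.unique {a b : ℕ → ℂ} {f : ℂ → ℂ} (ha : PS a f) (hb : PS b f) : a = b := by
  have h := ha.hasFPowerSeries.hasFPowerSeriesAt.eq_formalMultilinearSeries
    hb.hasFPowerSeries.hasFPowerSeriesAt
  funext n
  have h2 := congrArg (fun p => FormalMultilinearSeries.coeff p n) h
  simpa [FormalMultilinearSeries.coeff_ofScalars] using h2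

theorem PS.differentiableOn {a : ℕ → ℂ} {f : ℂ → ℂ} (ha : PS a f) :
    DifferentiableOn ℂ f (ball (0 : ℂ) 1) := by
  have := ha.hasFPowerSeries.differentiableOn
  intro z hz
  have h2 : z ∈ Metric.eball (0 : ℂ) 1 := by
    have h3 : ‖z‖ < 1 := by simpa using hz
    have h4 : ‖z‖₊ < 1 := by exact_mod_cast h3
    simpa [Metric.eball, edist_zero_right, enorm_eq_nnnorm] using h4
  have h5 := this z h2
  exact (h5.differentiableAt (EMetric.isOpen_ball.mem_nhds h2)).differentiableWithinAt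

theorem PS.zero {a : ℕ → ℂ} {f : ℂ → ℂ} (ha : PS a f) : f 0 = a 0 := by
  have h := ha 0 (by simp)
  have h2 := hasSum_single (f := fun n => a n * (0 : ℂ) ^ n) 0 (fun n hn => by simp [hn])
  simpa using h.unique h2

theorem PS.deriv_zero {a : ℕ → ℂ} {f : ℂ → ℂ} (ha : PS a f) : deriv f 0 = a 1 := by
  have h := ha.hasFPowerSeries.hasFPowerSeriesAt.hasDerivAt.deriv
  rw [h]
  simp [FormalMultilinearSeries.ofScalars]

theorem PS.congr {a : ℕ → ℂ} {f g : ℂ → ℂ} (ha : PS a f) (h : ∀ z, ‖z‖ < 1 → f z = g z) :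
    PS a g := fun z hz => (h z hz) ▸ ha z hz

theorem PS.add {a b : ℕ → ℂ} {f g : ℂ → ℂ} (ha : PS a f) (hb : PS b g) :
    PS (fun n => a n + b n) (fun z => f z + g z) := by
  intro z hz
  have := (ha z hz).add (hb z hz)
  simpa only [add_mul] using this

theorem PS.const_mul {a : ℕ → ℂ} {f : ℂ → ℂ} (ha : PS a f) (c : ℂ) :
    PS (fun n => c * a n) (fun z => c * f z) := by
  intro z hz
  have := (ha z hz).mul_left c
  simpa only [mul_assoc] using this

/-- coefficients of `z ^ m` -/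
theorem PS_pow (m : ℕ) : PS (fun n => if n = m then 1 else 0) (fun z => z ^ m) := by
  intro z hz
  have h2 := hasSum_single (f := fun n => (if n = m then (1 : ℂ) else 0) * z ^ n) m
    (fun n hn => by simp [hn])
  simpa using h2

end Pool.Agent.Helper506.Arc
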