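import Pool.Agent.Helper506.ArcCoef

set_option autoImplicit false
open Complex Set Filter Metric Topology

namespace Pool.Agent.Helper506.Arc

theorem exists_root {f : ℂ → ℂ} (hf : InS f) : ∃ s, IsRoot f s := by
  obtain ⟨hd, hinj, h0, h1⟩ := hf
  set k : ℂ → ℂ := dslope f 0 with hk
  have hball : ball (0 : ℂ) 1 ∈ 𝓝 (0 : ℂ) := ball_mem_nhds _ one_pos
  have hkd : DifferentiableOn ℂ k (ball (0 : ℂ) 1) :=
    (Complex.differentiableOn_dslope hball).2 hd
  have hk0 : k 0 = 1 := by rw [hk, dslope_same, h1]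
  have hfk : ∀ z, f z = z * k z := by
    intro z
    rcases eq_or_ne z 0 with rfl | hz
    · simp [h0]
    · rw [hk, dslope_of_ne _ hz, slope_def_field, h0]
      field_simp
      ring
  have hkne : ∀ z ∈ ball (0 : ℂ) 1, k z ≠ 0 := by
    intro z hz hkz
    rcases eq_or_ne z 0 with rfl | hz0
    · rw [hk0] at hkz; exact one_ne_zero hkz
    · have : f z = f 0 := by rw [hfk z, hkz, h0, mul_zero]
      exact hz0 (hinj hz (mem_ball_self one_pos) this)
  have hkd' : DifferentiableOn ℂ (fun z => deriv k z / k z) (ball (0 : ℂ) 1) :=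
    (hkd.deriv isOpen_ball).div hkd hkne
  obtain ⟨L, hL⟩ := (hkd'.isExactOn_ball).with_val_at 0 0
  obtain ⟨hL0, hL⟩ := hL
  have hLd : ∀ z ∈ ball (0 : ℂ) 1, HasDerivAt L (deriv k z / k z) z := hL
  set s : ℂ → ℂ := fun z => Complex.exp (-(L z) / 2) with hs
  have hsd : ∀ z ∈ ball (0 : ℂ) 1, HasDerivAt s (s z * (-(deriv k z / k z) / 2)) z := by
    intro z hz
    exact ((hLd z hz).neg.div_const 2).cexp
  have hconst : ∀ z ∈ ball (0 : ℂ) 1, s z ^ 2 * k z = s 0 ^ 2 * k 0 := by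
    have hD : ∀ z ∈ ball (0 : ℂ) 1, HasDerivAt (fun z => s z ^ 2 * k z) 0 z := by
      intro z hz
      have h2 : HasDerivAt k (deriv k z) z :=
        (hkd.differentiableAt (isOpen_ball.mem_nhds hz)).hasDerivAt
      have h3 := ((hsd z hz).pow 2).mul h2
      have h5 : (((2 : ℕ) : ℂ) * s z ^ (2 - 1) * (s z * (-(deriv k z / k z) / 2))) * k z
          + s z ^ 2 * deriv k z = 0 := by
        have h6 := hkne z hz
        have h7 : deriv k z / k z * k z = deriv k z := div_mul_cancel₀ _ h6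
        push_cast
        linear_combination (-(s z ^ 2)) * h7
      rw [← h5]
      exact h3
    intro z hz
    exact (convex_ball (0 : ℂ) 1).is_const_of_fderivWithin_eq_zero (𝕜 := ℂ)
      (f := fun z => s z ^ 2 * k z) (fun z hz => (hD z hz).differentiableAt.differentiableWithinAt)
      (fun z hz => by
        rw [fderivWithin_of_isOpen isOpen_ball hz]
        ext
        simp [(hD z hz).deriv]) hz (mem_ball_self one_pos)
  have hs0 : s 0 = 1 := by simp [hs, hL0]
  refine ⟨s, fun z hz => (hsd z hz).differentiableAt.differentiableWithinAt, hs0,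
    fun z _ => Complex.exp_ne_zero _, fun z hz => ?_⟩
  have := hconst z hz
  rw [hs0, hk0] at this
  rw [hfk z]
  linear_combination z * this

theorem root_inj {f s : ℂ → ℂ} (hf : InS f) (hs : IsRoot f s) :
    ∀ x y : ℂ, x ≠ 0 → y ≠ 0 → ‖x‖ < 1 → ‖y‖ < 1 → s (x ^ 2) / x = s (y ^ 2) / y → x = y := by
  intro x y hx hy hx1 hy1 h
  have hx2 : x ^ 2 ∈ ball (0 : ℂ) 1 := by
    simp only [mem_ball_zero_iff, norm_pow]; exact pow_lt_one₀ (norm_nonneg _) hx1 two_ne_zero
  have hy2 : y ^ 2 ∈ ball (0 : ℂ) 1 := by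
    simp only [mem_ball_zero_iff, norm_pow]; exact pow_lt_one₀ (norm_nonneg _) hy1 two_ne_zero
  have e1 := hs.2.2.2 _ hx2
  have e2 := hs.2.2.2 _ hy2
  have n1 := hs.2.2.1 _ hx2
  have n2 := hs.2.2.1 _ hy2
  have h2 : s (x ^ 2) ^ 2 / x ^ 2 = s (y ^ 2) ^ 2 / y ^ 2 := by
    rw [← div_pow, ← div_pow, h]
  have h3 : f (x ^ 2) = f (y ^ 2) := by
    have a1 : f (x ^ 2) * (s (x ^ 2) ^ 2 / x ^ 2) = 1 := by
      rw [← mul_div_assoc, e1]; exact div_self (pow_ne_zero 2 hx)
    have a2 : f (y ^ 2) * (s (x ^ 2) ^ 2 / x ^ 2) = 1 := by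
      rw [h2, ← mul_div_assoc, e2]; exact div_self (pow_ne_zero 2 hy)
    have a3 : s (x ^ 2) ^ 2 / x ^ 2 ≠ 0 := div_ne_zero (pow_ne_zero 2 n1) (pow_ne_zero 2 hx)
    exact mul_right_cancel₀ a3 (a1.trans a2.symm)
  have h4 : x ^ 2 = y ^ 2 := hf.2.1 hx2 hy2 h3
  rcases sq_eq_sq_iff_eq_or_eq_neg.1 h4 with h5 | h5
  · exact h5
  · exfalso
    subst h5
    rw [neg_sq] at h
    have : s (y ^ 2) / y = 0 := by
      have h6 : s (y ^ 2) / (-y) = -(s (y ^ 2) / y) := by rw [div_neg]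
      rw [h6] at h
      have : (2 : ℂ) * (s (y ^ 2) / y) = 0 := by linear_combination -h
      simpa using this
    exact div_ne_zero n2 hy this

end Pool.Agent.Helper506.Arc
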