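import Pool.Agent.Helper506.ArcArea
import Pool.Agent.Helper506.ArcRoot

set_option autoImplicit false
open Complex Set Filter Metric Topology

namespace Pool.Agent.Helper506.Arc

theorem sum_even (N : ℕ) (κ : ℕ → ℂ) :
    ∑ k ∈ Finset.range (2 * N), ((k : ℝ) - (5 : ℕ)) * ‖(if Even k then κ (k / 2) else 0)‖ ^ 2
      = ∑ k ∈ Finset.range N, (2 * (k : ℝ) - 5) * ‖κ k‖ ^ 2 := by
  induction N with
  | zero => simp
  | succ N ih =>
    rw [show 2 * (N + 1) = 2 * N + 1 + 1 by ring, Finset.sum_range_succ, Finset.sum_range_succ, ih,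
      Finset.sum_range_succ]
    have h1 : Even (2 * N) := even_two_mul N
    have h2 : ¬ Even (2 * N + 1) := by simp
    rw [if_pos h1, if_neg h2]
    have h3 : 2 * N / 2 = N := by omega
    rw [h3]
    push_cast
    simp

theorem area_s {f s : ℂ → ℂ} (hf : InS f) (hs : IsRoot f s) {c3 c5 : ℂ} {κ : ℕ → ℂ}
    (hκ : PS κ (KK c3 c5 s)) (N : ℕ) (hN : 3 ≤ N) :
    ∑ k ∈ Finset.range N, (2 * (k : ℝ) - 5) * ‖κ k‖ ^ 2 ≤ 0 := by
  have hsq : ∀ w : ℂ, ‖w‖ < 1 → ‖w ^ 2‖ < 1 := fun w hw => by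
    rw [norm_pow]; exact pow_lt_one₀ (norm_nonneg _) hw two_ne_zero
  have hh : DifferentiableOn ℂ (fun w => s (w ^ 2)) (ball (0 : ℂ) 1) := by
    refine hs.1.comp (by fun_prop) ?_
    intro w hw
    simpa using hsq w (by simpa using hw)
  have hK : PS (fun k => if Even k then κ (k / 2) else 0) (fun w => KK c3 c5 s (w ^ 2)) := by
    intro w hw
    have h1 := hκ (w ^ 2) (hsq w hw)
    have hinj : Function.Injective (fun j : ℕ => 2 * j) := fun a b h => by
      have : 2 * a = 2 * b := h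
      omega
    rw [← hinj.hasSum_iff]
    · convert h1 using 1
      funext j
      simp only [Function.comp_apply, even_two_mul, if_true]
      rw [show 2 * j / 2 = j by omega, pow_mul]
    · intro x hx
      have : ¬ Even x := by
        intro he
        obtain ⟨j, rfl⟩ := he
        exact hx ⟨j, by ring⟩
      simp only [if_neg this, zero_mul]
  have := area_poly (fun w => s (w ^ 2)) hh (by simp [hs.2.1]) (root_inj hf hs)
    (Polynomial.X + Polynomial.C c3 * Polynomial.X ^ 3 + Polynomial.C c5 * Polynomial.X ^ 5)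
    5 _ _ hK (by
      intro w hw hw1
      simp only [KK, Polynomial.eval_add, Polynomial.eval_mul, Polynomial.eval_C,
        Polynomial.eval_pow, Polynomial.eval_X]
      field_simp) (2 * N) (by omega)
  rw [sum_even] at this
  exact this

/-- coefficients of the root are bounded by one -/
theorem root_coeff_le {f s : ℂ → ℂ} (hf : InS f) (hs : IsRoot f s) {σ : ℕ → ℂ} (hσ : PS σ s)
    (n : ℕ) : ‖σ n‖ ≤ 1 := by
  rcases Nat.eq_zero_or_pos n with rfl | hn
  · rw [← hσ.zero, hs.2.1]; simp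
  · have hκ : PS (fun k => if k < 2 then 0 else σ (k - 2)) (KK 0 0 s) := by
      intro w hw
      have h1 := (hσ w hw).mul_left (w ^ 2)
      have hinj : Function.Injective (fun j : ℕ => j + 2) := fun a b h => by
        have : a + 2 = b + 2 := h
        omega
      rw [← hinj.hasSum_iff]
      · have e : KK 0 0 s w = w ^ 2 * s w := by simp [KK]
        rw [e]
        have e2 : ((fun n => (if n < 2 then (0 : ℂ) else σ (n - 2)) * w ^ n) ∘ fun j => j + 2)
            = fun i => w ^ 2 * (σ i * w ^ i) := by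
          funext j
          have h2 : ¬ (j + 2 < 2) := by omega
          simp only [Function.comp_apply, if_neg h2, Nat.add_sub_cancel]
          ring
        rw [e2]
        exact h1
      · intro x hx
        have : x < 2 := by
          by_contra h
          exact hx ⟨x - 2, by simp only; omega⟩
        simp only [if_pos this, zero_mul]
    have h1 := area_s hf hs hκ (n + 2 + 1) (by omega)
    rw [Finset.sum_range_succ] at h1
    have h2 : (-1 : ℝ) ≤ ∑ k ∈ Finset.range (n + 2), (2 * (k : ℝ) - 5) *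
        ‖(if k < 2 then 0 else σ (k - 2))‖ ^ 2 := by
      rw [← Finset.add_sum_erase _ _ (Finset.mem_range.2 (show 2 < n + 2 by omega))]
      have h3 : 0 ≤ ∑ k ∈ (Finset.range (n + 2)).erase 2, (2 * (k : ℝ) - 5) *
          ‖(if k < 2 then 0 else σ (k - 2))‖ ^ 2 := by
        refine Finset.sum_nonneg fun k hk => ?_
        rcases Nat.lt_or_ge k 2 with h | h
        · simp [h]
        · have hk2 : k ≠ 2 := (Finset.mem_erase.1 hk).1
          have h4 : 3 ≤ k := by omega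
          have h5 : (3 : ℝ) ≤ k := by exact_mod_cast h4
          have h6 : 0 ≤ 2 * (k : ℝ) - 5 := by linarith
          positivity
      have h7 : ‖(if (2 : ℕ) < 2 then 0 else σ (2 - 2))‖ = 1 := by
        simp [← hσ.zero, hs.2.1]
      rw [h7]
      push_cast
      linarith
    have h8 : ¬ (n + 2 < 2) := by omega
    simp only [if_neg h8, Nat.add_sub_cancel] at h1
    have h9 : (1 : ℝ) ≤ n := by exact_mod_cast hn
    push_cast at h1
    have h10 : (2 * ((n : ℝ) + 2) - 5) * ‖σ n‖ ^ 2 ≤ 1 := by linarith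
    have h11 : ‖σ n‖ ^ 2 ≤ 1 := by nlinarith [sq_nonneg ‖σ n‖]
    exact (sq_le_one_iff₀ (norm_nonneg _)).1 h11

theorem Psi_eq {s : ℂ → ℂ} {σ κ : ℕ → ℂ} (hσ : PS σ s) (h0 : s 0 = 1) {c3 c5 : ℂ}
    (hκ : PS κ (KK c3 c5 s)) :
    Psi c3 c5 (vec σ) = 5 * ‖κ 0‖ ^ 2 + 3 * ‖κ 1‖ ^ 2 + ‖κ 2‖ ^ 2
      + (5 * (κ 0 * κ 5) + 3 * (κ 1 * κ 4) + κ 2 * κ 3).re := by
  obtain ⟨e0, e1, e2, e3, e4, e5⟩ := KK_coeffs hσ h0 hκ
  rw [Psi, e0, e1, e2, e3, e4, e5]

theorem norm_add_conj_sq (a b : ℂ) :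
    ‖a + (starRingEnd ℂ) b‖ ^ 2 = ‖a‖ ^ 2 + ‖b‖ ^ 2 + 2 * (b * a).re := by
  rw [← Complex.normSq_eq_norm_sq, ← Complex.normSq_eq_norm_sq, ← Complex.normSq_eq_norm_sq,
    Complex.normSq_add]
  simp
  ring

/-- consequence of the area theorem -/
theorem e_sum {f s : ℂ → ℂ} (hf : InS f) (hs : IsRoot f s) {c3 c5 : ℂ} {σ κ : ℕ → ℂ}
    (hσ : PS σ s) (hκ : PS κ (KK c3 c5 s)) (N : ℕ) :
    ‖κ 3 + (starRingEnd ℂ) (κ 2)‖ ^ 2 + 3 * ‖κ 4 + (starRingEnd ℂ) (κ 1)‖ ^ 2
      + 5 * ‖κ 5 + (starRingEnd ℂ) (κ 0)‖ ^ 2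
      + ∑ k ∈ Finset.range N, (2 * ((6 + k : ℕ) : ℝ) - 5) * ‖κ (6 + k)‖ ^ 2
      ≤ 2 * Psi c3 c5 (vec σ) := by
  have h1 := area_s hf hs hκ (6 + N) (by omega)
  rw [Finset.sum_range_add] at h1
  simp only [Finset.sum_range_succ, Finset.sum_range_zero] at h1
  rw [Psi_eq hσ hs.2.1 hκ, norm_add_conj_sq, norm_add_conj_sq, norm_add_conj_sq]
  simp only [Complex.add_re]
  have r1 : (5 * (κ 0 * κ 5)).re = 5 * (κ 0 * κ 5).re := by
    rw [show (5 : ℂ) = ((5 : ℝ) : ℂ) by norm_num, Complex.re_ofReal_mul]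
  have r2 : (3 * (κ 1 * κ 4)).re = 3 * (κ 1 * κ 4).re := by
    rw [show (3 : ℂ) = ((3 : ℝ) : ℂ) by norm_num, Complex.re_ofReal_mul]
  rw [r1, r2]
  push_cast at h1 ⊢
  linarith

end Pool.Agent.Helper506.Arc
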