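import Pool.Agent.Helper506.ArcPS

set_option autoImplicit false
open Complex Set Filter Metric Topology

namespace Pool.Agent.Helper506.Arc

/-- coefficients of KK -/
theorem KK_PS {s : ℂ → ℂ} {σ : ℕ → ℂ} (hσ : PS σ s) (c3 c5 : ℂ) :
    PS (fun n => (cv (fun n => if n = 2 then 1 else 0) σ n
      + c3 * cv (fun n => if n = 1 then 1 else 0) (cv σ (cv σ σ)) n)
      + c5 * cv (cv σ σ) (cv σ (cv σ σ)) n) (KK c3 c5 s) := by
  have h1 := (PS_pow 2).mul hσ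
  have h2 := ((PS_pow 1).mul (hσ.mul (hσ.mul hσ))).const_mul c3
  have h3 := ((hσ.mul hσ).mul (hσ.mul (hσ.mul hσ))).const_mul c5
  have h4 := (h1.add h2).add h3
  refine h4.congr fun z _ => ?_
  simp only [KK]; ring

theorem KK_coeffs {s : ℂ → ℂ} {σ κ : ℕ → ℂ} (hσ : PS σ s) (h0 : s 0 = 1) {c3 c5 : ℂ}
    (hκ : PS κ (KK c3 c5 s)) :
    κ 0 = k0 c3 c5 (vec σ) ∧ κ 1 = k1 c3 c5 (vec σ) ∧ κ 2 = k2 c3 c5 (vec σ) ∧
    κ 3 = k3 c3 c5 (vec σ) ∧ κ 4 = k4 c3 c5 (vec σ) ∧ κ 5 = k5 c3 c5 (vec σ) := by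
  have hs0 : σ 0 = 1 := by rw [← hσ.zero, h0]
  have h := (KK_PS hσ c3 c5).unique hκ
  have e : ∀ n, κ n = _ := fun n => (congrFun h n).symm
  refine ⟨?_, ?_, ?_, ?_, ?_, ?_⟩ <;> rw [e] <;>
    simp [-mul_eq_mul_left_iff, -mul_eq_mul_right_iff, -add_right_inj, -add_left_inj, cv,
      Finset.sum_range_succ, k0, k1, k2, k3, k4, k5, vec, hs0] <;> ring

theorem coeffs_rel {f s : ℂ → ℂ} {a σ : ℕ → ℂ} (ha : PS a f) (hσ : PS σ s)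
    (h : ∀ z ∈ ball (0 : ℂ) 1, f z * s z ^ 2 = z) (h0 : s 0 = 1) (ha0 : a 0 = 0) (ha1 : a 1 = 1) :
    vec σ = Sm (fun i => a (i + 2)) ∧ (fun i : Fin 5 => a (i + 2)) = Am (vec σ) := by
  have hs0 : σ 0 = 1 := by rw [← hσ.zero, h0]
  have h1 : PS (cv a (cv σ σ)) (fun z => z ^ 1) := by
    refine (ha.mul (hσ.mul hσ)).congr fun z hz => ?_
    have := h z (by simpa using hz)
    rw [pow_one]
    rw [← sq]; exact this
  have h2 := h1.unique (PS_pow 1)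
  have e2 := congrFun h2 2
  have e3 := congrFun h2 3
  have e4 := congrFun h2 4
  have e5 := congrFun h2 5
  have e6 := congrFun h2 6
  simp [cv, Finset.sum_range_succ, hs0, ha0, ha1] at e2 e3 e4 e5 e6
  constructor
  · have g1 : σ 1 = -(a 2) / 2 := by linear_combination e2 / 2
    have g2 : σ 2 = -(a 3 + 2 * a 2 * σ 1 + σ 1 ^ 2) / 2 := by linear_combination e3 / 2
    have g3 : σ 3 = -(a 4 + 2 * a 3 * σ 1 + a 2 * (2 * σ 2 + σ 1 ^ 2) + 2 * σ 1 * σ 2) / 2 := by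
      linear_combination e4 / 2
    have g4 : σ 4 = -(a 5 + 2 * a 4 * σ 1 + a 3 * (2 * σ 2 + σ 1 ^ 2)
        + a 2 * (2 * σ 3 + 2 * σ 1 * σ 2) + (2 * σ 1 * σ 3 + σ 2 ^ 2)) / 2 := by
      linear_combination e5 / 2
    have g5 : σ 5 = -(a 6 + 2 * a 5 * σ 1 + a 4 * (2 * σ 2 + σ 1 ^ 2)
        + a 3 * (2 * σ 3 + 2 * σ 1 * σ 2) + a 2 * (2 * σ 4 + 2 * σ 1 * σ 3 + σ 2 ^ 2)
        + (2 * σ 1 * σ 4 + 2 * σ 2 * σ 3)) / 2 := by
      linear_combination e6 / 2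
    have k1 : Sm (fun i : Fin 5 => a (i + 2)) = ![σ 1, σ 2, σ 3, σ 4, σ 5] := by
      simp only [Sm]
      have z0 : ((0 : Fin 5) : ℕ) + 2 = 2 := rfl
      have z1 : ((1 : Fin 5) : ℕ) + 2 = 3 := rfl
      have z2 : ((2 : Fin 5) : ℕ) + 2 = 4 := rfl
      have z3 : ((3 : Fin 5) : ℕ) + 2 = 5 := rfl
      have z4 : ((4 : Fin 5) : ℕ) + 2 = 6 := rfl
      simp only [z0, z1, z2, z3, z4]
      rw [← g1, ← g2, ← g3, ← g4, ← g5]
    rw [k1]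
    funext i
    fin_cases i <;> rfl
  · have g1 : a 2 = -(2 * σ 1) := by linear_combination e2
    have g2 : a 3 = -((2 * σ 2 + σ 1 ^ 2) + a 2 * (2 * σ 1)) := by linear_combination e3
    have g3 : a 4 = -((2 * σ 3 + 2 * σ 1 * σ 2) + a 2 * (2 * σ 2 + σ 1 ^ 2)
        + a 3 * (2 * σ 1)) := by linear_combination e4
    have g4 : a 5 = -((2 * σ 4 + 2 * σ 1 * σ 3 + σ 2 ^ 2) + a 2 * (2 * σ 3 + 2 * σ 1 * σ 2)
        + a 3 * (2 * σ 2 + σ 1 ^ 2) + a 4 * (2 * σ 1)) := by linear_combination e5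
    have g5 : a 6 = -((2 * σ 5 + 2 * σ 1 * σ 4 + 2 * σ 2 * σ 3)
        + a 2 * (2 * σ 4 + 2 * σ 1 * σ 3 + σ 2 ^ 2) + a 3 * (2 * σ 3 + 2 * σ 1 * σ 2)
        + a 4 * (2 * σ 2 + σ 1 ^ 2) + a 5 * (2 * σ 1)) := by linear_combination e6
    have k1 : Am (vec σ) = ![a 2, a 3, a 4, a 5, a 6] := by
      simp only [Am, vec]
      have z0 : ((0 : Fin 5) : ℕ) + 1 = 1 := rfl
      have z1 : ((1 : Fin 5) : ℕ) + 1 = 2 := rfl
      have z2 : ((2 : Fin 5) : ℕ) + 1 = 3 := rfl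
      have z3 : ((3 : Fin 5) : ℕ) + 1 = 4 := rfl
      have z4 : ((4 : Fin 5) : ℕ) + 1 = 5 := rfl
      simp only [z0, z1, z2, z3, z4]
      rw [← g1, ← g2, ← g3, ← g4, ← g5]
    rw [k1]
    funext i
    fin_cases i <;> rfl

end Pool.Agent.Helper506.Arc
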