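import Pool.Agent.Helper506.ArcDefs

set_option autoImplicit false
open Complex Set Filter Metric Topology

namespace Pool.Agent.Helper506.Arc

noncomputable def V2 (x : E5) : ℂ := 5 * x 1 + 10 * x 0 ^ 2
noncomputable def V3 (x : E5) : ℂ := 5 * x 2 + 20 * x 0 * x 1 + 10 * x 0 ^ 3
noncomputable def T2 (x : E5) : ℂ := 3 * x 1 + 3 * x 0 ^ 2
noncomputable def XX (c3 c5 : ℂ) (x : E5) : ℂ := c3 * (3 * x 0) + c5 * V2 x

noncomputable def Q1 (c3 c5 : ℂ) (x : E5) : ℂ :=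
  3 * (starRingEnd ℂ) (k1 c3 c5 x) + 3 * x 0 * (2 + (starRingEnd ℂ) (XX c3 c5 x)) + 3 * k4 c3 c5 x
    + T2 x * (1 + XX c3 c5 x) + 3 * x 0 ^ 2
noncomputable def Q2 (c3 c5 : ℂ) (x : E5) : ℂ :=
  5 * (starRingEnd ℂ) c5 + 15 * x 0 * (starRingEnd ℂ) (k1 c3 c5 x) + V2 x * (2 + (starRingEnd ℂ) (XX c3 c5 x))
    + 5 * k5 c3 c5 x + 15 * x 0 * k4 c3 c5 x + V3 x * (1 + XX c3 c5 x) + V2 x * x 0

theorem sq_norm_eq (z : ℂ) : ‖z‖ ^ 2 = (z * (starRingEnd ℂ) z).re := by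
  rw [Complex.mul_conj, Complex.ofReal_re, Complex.normSq_eq_norm_sq]

theorem Psi_decomp (c3 c5 : ℂ) (x : E5) :
    Psi c3 c5 x = 1 + (x 0).re + (c3 * Q1 c3 c5 x).re + (c5 * Q2 c3 c5 x).re := by
  have h2 : k2 c3 c5 x = 1 + XX c3 c5 x := by simp only [k2, XX, V2]; ring
  have h3 : k3 c3 c5 x = x 0 + c3 * T2 x + c5 * V3 x := by simp only [k3, T2, V3]
  have h1 : k1 c3 c5 x = c3 + c5 * (5 * x 0) := rfl
  have hX : XX c3 c5 x = c3 * (3 * x 0) + c5 * V2 x := rfl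
  have e1 : ((3 : ℝ) : ℂ) = 3 := by norm_num
  have key : (((5 * ‖k0 c3 c5 x‖ ^ 2 + 3 * ‖k1 c3 c5 x‖ ^ 2 + ‖k2 c3 c5 x‖ ^ 2 : ℝ)) : ℂ)
      + (5 * (k0 c3 c5 x * k5 c3 c5 x) + 3 * (k1 c3 c5 x * k4 c3 c5 x)
        + k2 c3 c5 x * k3 c3 c5 x)
      = 1 + x 0 + c3 * Q1 c3 c5 x + c5 * Q2 c3 c5 x + ((starRingEnd ℂ) (XX c3 c5 x) - XX c3 c5 x) := by
    have n0 : ((‖k0 c3 c5 x‖ ^ 2 : ℝ) : ℂ) = c5 * (starRingEnd ℂ) c5 := by
      rw [Complex.mul_conj, Complex.normSq_eq_norm_sq]; rfl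
    have n1 : ((‖k1 c3 c5 x‖ ^ 2 : ℝ) : ℂ) = k1 c3 c5 x * (starRingEnd ℂ) (k1 c3 c5 x) := by
      rw [Complex.mul_conj, Complex.normSq_eq_norm_sq]
    have n2 : ((‖k2 c3 c5 x‖ ^ 2 : ℝ) : ℂ) = (1 + XX c3 c5 x) * (1 + (starRingEnd ℂ) (XX c3 c5 x)) := by
      have : (1 : ℂ) + (starRingEnd ℂ) (XX c3 c5 x) = (starRingEnd ℂ) (1 + XX c3 c5 x) := by simp
      rw [this, ← h2, Complex.mul_conj, Complex.normSq_eq_norm_sq]
    have m1 : (((5 * ‖k0 c3 c5 x‖ ^ 2 + 3 * ‖k1 c3 c5 x‖ ^ 2 + ‖k2 c3 c5 x‖ ^ 2 : ℝ)) : ℂ)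
        = 5 * ((‖k0 c3 c5 x‖ ^ 2 : ℝ) : ℂ) + 3 * ((‖k1 c3 c5 x‖ ^ 2 : ℝ) : ℂ)
          + ((‖k2 c3 c5 x‖ ^ 2 : ℝ) : ℂ) := by push_cast; ring
    rw [m1, n0, n1, n2, h2, h3]
    simp only [Q1, Q2]
    generalize hK1 : (starRingEnd ℂ) (k1 c3 c5 x) = K1
    generalize (starRingEnd ℂ) (XX c3 c5 x) = Y
    rw [h1]
    generalize k4 c3 c5 x = K4
    generalize k5 c3 c5 x = K5
    have h0 : k0 c3 c5 x = c5 := rfl
    rw [h0, hX]
    ring
  have := congrArg Complex.re key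
  simp only [Complex.add_re, Complex.sub_re, Complex.ofReal_re, Complex.conj_re, Complex.one_re,
    sub_self, add_zero] at this
  simp only [Psi, Complex.add_re]
  linarith

theorem conj_contDiff {E : Type*} [NormedAddCommGroup E] [NormedSpace ℝ E] {f : E → ℂ}
    (hf : ContDiff ℝ 2 f) : ContDiff ℝ 2 (fun x => (starRingEnd ℂ) (f x)) :=
  Complex.conjCLE.contDiff.comp hf

noncomputable def S1 (a : E5) : ℂ := -(a 0) / 2
noncomputable def S2 (a : E5) : ℂ := -(a 1 + 2 * a 0 * S1 a + S1 a ^ 2) / 2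
noncomputable def S3 (a : E5) : ℂ :=
  -(a 2 + 2 * a 1 * S1 a + a 0 * (2 * S2 a + S1 a ^ 2) + 2 * S1 a * S2 a) / 2
noncomputable def S4 (a : E5) : ℂ :=
  -(a 3 + 2 * a 2 * S1 a + a 1 * (2 * S2 a + S1 a ^ 2) + a 0 * (2 * S3 a + 2 * S1 a * S2 a)
      + (2 * S1 a * S3 a + S2 a ^ 2)) / 2
noncomputable def S5 (a : E5) : ℂ :=
  -(a 4 + 2 * a 3 * S1 a + a 2 * (2 * S2 a + S1 a ^ 2) + a 1 * (2 * S3 a + 2 * S1 a * S2 a)
      + a 0 * (2 * S4 a + 2 * S1 a * S3 a + S2 a ^ 2) + (2 * S1 a * S4 a + 2 * S2 a * S3 a)) / 2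

theorem S1_cd : ContDiff ℝ 2 S1 := by unfold S1; fun_prop
theorem S2_cd : ContDiff ℝ 2 S2 := by
  have := S1_cd
  unfold S2; fun_prop
theorem S3_cd : ContDiff ℝ 2 S3 := by
  have := S1_cd
  have := S2_cd
  unfold S3; fun_prop
theorem S4_cd : ContDiff ℝ 2 S4 := by
  have := S1_cd
  have := S2_cd
  have := S3_cd
  unfold S4; fun_prop
theorem S5_cd : ContDiff ℝ 2 S5 := by
  have := S1_cd
  have := S2_cd
  have := S3_cd
  have := S4_cd
  unfold S5; fun_prop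

theorem Sm_contDiff : ContDiff ℝ 2 Sm := by
  rw [contDiff_pi]
  intro i
  fin_cases i
  · exact S1_cd
  · exact S2_cd
  · exact S3_cd
  · exact S4_cd
  · exact S5_cd

noncomputable def q1 (x : E5) : ℂ := 2 * x 0
noncomputable def q2 (x : E5) : ℂ := 2 * x 1 + x 0 ^ 2
noncomputable def q3 (x : E5) : ℂ := 2 * x 2 + 2 * x 0 * x 1
noncomputable def q4 (x : E5) : ℂ := 2 * x 3 + 2 * x 0 * x 2 + x 1 ^ 2
noncomputable def q5 (x : E5) : ℂ := 2 * x 4 + 2 * x 0 * x 3 + 2 * x 1 * x 2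
noncomputable def A1 (x : E5) : ℂ := -q1 x
noncomputable def A2 (x : E5) : ℂ := -(q2 x + A1 x * q1 x)
noncomputable def A3 (x : E5) : ℂ := -(q3 x + A1 x * q2 x + A2 x * q1 x)
noncomputable def A4 (x : E5) : ℂ := -(q4 x + A1 x * q3 x + A2 x * q2 x + A3 x * q1 x)
noncomputable def A5 (x : E5) : ℂ :=
  -(q5 x + A1 x * q4 x + A2 x * q3 x + A3 x * q2 x + A4 x * q1 x)

theorem q1_cd : ContDiff ℝ 2 q1 := by unfold q1; fun_prop
theorem q2_cd : ContDiff ℝ 2 q2 := by unfold q2; fun_prop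
theorem q3_cd : ContDiff ℝ 2 q3 := by unfold q3; fun_prop
theorem q4_cd : ContDiff ℝ 2 q4 := by unfold q4; fun_prop
theorem q5_cd : ContDiff ℝ 2 q5 := by unfold q5; fun_prop
theorem A1_cd : ContDiff ℝ 2 A1 := by
  have := q1_cd
  unfold A1; fun_prop
theorem A2_cd : ContDiff ℝ 2 A2 := by
  have := q1_cd
  have := q2_cd
  have := A1_cd
  unfold A2; fun_prop
theorem A3_cd : ContDiff ℝ 2 A3 := by
  have := q1_cd
  have := q2_cd
  have := q3_cd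
  have := A1_cd
  have := A2_cd
  unfold A3; fun_prop
theorem A4_cd : ContDiff ℝ 2 A4 := by
  have := q1_cd
  have := q2_cd
  have := q3_cd
  have := q4_cd
  have := A1_cd
  have := A2_cd
  have := A3_cd
  unfold A4; fun_prop
theorem A5_cd : ContDiff ℝ 2 A5 := by
  have := q1_cd
  have := q2_cd
  have := q3_cd
  have := q4_cd
  have := q5_cd
  have := A1_cd
  have := A2_cd
  have := A3_cd
  have := A4_cd
  unfold A5; fun_prop

theorem Am_contDiff : ContDiff ℝ 2 Am := by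
  rw [contDiff_pi]
  intro i
  fin_cases i
  · exact A1_cd
  · exact A2_cd
  · exact A3_cd
  · exact A4_cd
  · exact A5_cd

/-- parameters (c3, c5) and the coefficient vector -/
abbrev PP := (ℂ × ℂ) × E5

theorem c3_cd : ContDiff ℝ 2 (fun p : PP => p.1.1) := by fun_prop
theorem c5_cd : ContDiff ℝ 2 (fun p : PP => p.1.2) := by fun_prop
theorem x_cd (i : Fin 5) : ContDiff ℝ 2 (fun p : PP => Sm p.2 i) := by
  have := Sm_contDiff
  fun_prop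

noncomputable def R1 (p : PP) : ℂ := Q1 p.1.1 p.1.2 (Sm p.2)
noncomputable def R2 (p : PP) : ℂ := Q2 p.1.1 p.1.2 (Sm p.2)

theorem V2_cd : ContDiff ℝ 2 (fun p : PP => V2 (Sm p.2)) := by
  have := x_cd
  unfold V2; fun_prop
theorem V3_cd : ContDiff ℝ 2 (fun p : PP => V3 (Sm p.2)) := by
  have := x_cd
  unfold V3; fun_prop
theorem T2_cd : ContDiff ℝ 2 (fun p : PP => T2 (Sm p.2)) := by
  have := x_cd
  unfold T2; fun_prop
theorem XX_cd : ContDiff ℝ 2 (fun p : PP => XX p.1.1 p.1.2 (Sm p.2)) := by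
  have := x_cd
  have := V2_cd
  unfold XX; fun_prop
theorem k1_cd : ContDiff ℝ 2 (fun p : PP => k1 p.1.1 p.1.2 (Sm p.2)) := by
  have := x_cd
  unfold k1; fun_prop
theorem k4_cd : ContDiff ℝ 2 (fun p : PP => k4 p.1.1 p.1.2 (Sm p.2)) := by
  have := x_cd
  unfold k4; fun_prop
theorem k5_cd : ContDiff ℝ 2 (fun p : PP => k5 p.1.1 p.1.2 (Sm p.2)) := by
  have := x_cd
  unfold k5; fun_prop

theorem R1_cd : ContDiff ℝ 2 R1 := by
  have h1 := x_cd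
  have h2 := conj_contDiff k1_cd
  have h3 := conj_contDiff XX_cd
  have h4 := k4_cd
  have h5 := T2_cd
  have h6 := XX_cd
  unfold R1 Q1
  fun_prop

theorem R2_cd : ContDiff ℝ 2 R2 := by
  have h1 := x_cd
  have h2 := conj_contDiff k1_cd
  have h3 := conj_contDiff XX_cd
  have h4 := k4_cd
  have h5 := V2_cd
  have h6 := XX_cd
  have h7 := V3_cd
  have h8 := k5_cd
  have h9 := conj_contDiff c5_cd
  unfold R2 Q2
  fun_prop

theorem Psi_Sm (c3 c5 : ℂ) (a : E5) :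
    Psi c3 c5 (Sm a) = 1 - (a 0).re / 2 + (c3 * R1 ((c3, c5), a)).re
      + (c5 * R2 ((c3, c5), a)).re := by
  rw [Psi_decomp]
  have : (Sm a 0).re = -(a 0).re / 2 := by
    have h : Sm a 0 = -(a 0) / 2 := rfl
    rw [h]
    simp
  rw [this]
  simp only [R1, R2]
  ring

end Pool.Agent.Helper506.Arc
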