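import Mathlib

set_option autoImplicit false
open Complex Set Filter Metric Topology

namespace Pool.Agent.Helper506.Arc

/-- the class S -/
def InS (f : ℂ → ℂ) : Prop :=
  DifferentiableOn ℂ f (ball (0 : ℂ) 1) ∧ Set.InjOn f (ball (0 : ℂ) 1) ∧ f 0 = 0 ∧ deriv f 0 = 1

/-- f is a support point of S -/
def IsSupp (f : ℂ → ℂ) : Prop :=
  ∃ L : (ℂ → ℂ) →ₗ[ℂ] ℂ, ∃ r : ℝ, ∃ C : ℝ, 0 ≤ r ∧ r < 1 ∧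
      (∀ g : ℂ → ℂ, DifferentiableOn ℂ g (Metric.ball (0 : ℂ) 1) →
        ∀ M : ℝ, (∀ z : ℂ, ‖z‖ ≤ r → ‖g z‖ ≤ M) → ‖L g‖ ≤ C * M) ∧
      (∃ g h : ℂ → ℂ, InS g ∧ InS h ∧ L g ≠ L h) ∧
      (∀ g : ℂ → ℂ, InS g → (L g).re ≤ (L f).re)

/-- power series expansion in the unit disc -/
def PS (a : ℕ → ℂ) (f : ℂ → ℂ) : Prop :=
  ∀ z : ℂ, ‖z‖ < 1 → HasSum (fun n => a n * z ^ n) (f z)

/-- `s` is the normalised square root of `z / f z` -/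
def IsRoot (f s : ℂ → ℂ) : Prop :=
  DifferentiableOn ℂ s (ball (0 : ℂ) 1) ∧ s 0 = 1 ∧ (∀ z ∈ ball (0 : ℂ) 1, s z ≠ 0) ∧
    ∀ z ∈ ball (0 : ℂ) 1, f z * s z ^ 2 = z

/-- `zeta^5 F(s/zeta)` as function of `z = zeta^2`, where `F u = u + c3 u^3 + c5 u^5` -/
noncomputable def KK (c3 c5 : ℂ) (s : ℂ → ℂ) (z : ℂ) : ℂ :=
  z ^ 2 * s z + c3 * z * s z ^ 3 + c5 * s z ^ 5

abbrev E5 := Fin 5 → ℂ

/-- the coefficients of `KK` in terms of those of `s` -/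
noncomputable def k0 (_ c5 : ℂ) (_ : E5) : ℂ := c5
noncomputable def k1 (c3 c5 : ℂ) (x : E5) : ℂ := c3 + c5 * (5 * x 0)
noncomputable def k2 (c3 c5 : ℂ) (x : E5) : ℂ :=
  1 + c3 * (3 * x 0) + c5 * (5 * x 1 + 10 * x 0 ^ 2)
noncomputable def k3 (c3 c5 : ℂ) (x : E5) : ℂ :=
  x 0 + c3 * (3 * x 1 + 3 * x 0 ^ 2) + c5 * (5 * x 2 + 20 * x 0 * x 1 + 10 * x 0 ^ 3)
noncomputable def k4 (c3 c5 : ℂ) (x : E5) : ℂ :=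
  x 1 + c3 * (3 * x 2 + 6 * x 0 * x 1 + x 0 ^ 3)
    + c5 * (5 * x 3 + 20 * x 0 * x 2 + 10 * x 1 ^ 2 + 30 * x 0 ^ 2 * x 1 + 5 * x 0 ^ 4)
noncomputable def k5 (c3 c5 : ℂ) (x : E5) : ℂ :=
  x 2 + c3 * (3 * x 3 + 6 * x 0 * x 2 + 3 * x 1 ^ 2 + 3 * x 0 ^ 2 * x 1)
    + c5 * (5 * x 4 + 20 * x 0 * x 3 + 20 * x 1 * x 2 + 30 * x 0 ^ 2 * x 2 + 30 * x 0 * x 1 ^ 2
        + 20 * x 0 ^ 3 * x 1 + x 0 ^ 5)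

noncomputable def Psi (c3 c5 : ℂ) (x : E5) : ℝ :=
  5 * ‖k0 c3 c5 x‖ ^ 2 + 3 * ‖k1 c3 c5 x‖ ^ 2 + ‖k2 c3 c5 x‖ ^ 2
    + (5 * (k0 c3 c5 x * k5 c3 c5 x) + 3 * (k1 c3 c5 x * k4 c3 c5 x)
        + k2 c3 c5 x * k3 c3 c5 x).re

/-- coefficients (x 0, .., x 4) = (s_1, .., s_5) of `s` from those (a 0, .., a 4) = (a_2, .., a_6)
of f, where f s^2 = z -/
noncomputable def Sm (a : E5) : E5 :=
  let s1 := -(a 0) / 2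
  let s2 := -(a 1 + 2 * a 0 * s1 + s1 ^ 2) / 2
  let s3 := -(a 2 + 2 * a 1 * s1 + a 0 * (2 * s2 + s1 ^ 2) + 2 * s1 * s2) / 2
  let s4 := -(a 3 + 2 * a 2 * s1 + a 1 * (2 * s2 + s1 ^ 2) + a 0 * (2 * s3 + 2 * s1 * s2)
      + (2 * s1 * s3 + s2 ^ 2)) / 2
  let s5 := -(a 4 + 2 * a 3 * s1 + a 2 * (2 * s2 + s1 ^ 2) + a 1 * (2 * s3 + 2 * s1 * s2)
      + a 0 * (2 * s4 + 2 * s1 * s3 + s2 ^ 2) + (2 * s1 * s4 + 2 * s2 * s3)) / 2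
  ![s1, s2, s3, s4, s5]

/-- the inverse of `Sm` -/
noncomputable def Am (x : E5) : E5 :=
  let q1 := 2 * x 0
  let q2 := 2 * x 1 + x 0 ^ 2
  let q3 := 2 * x 2 + 2 * x 0 * x 1
  let q4 := 2 * x 3 + 2 * x 0 * x 2 + x 1 ^ 2
  let q5 := 2 * x 4 + 2 * x 0 * x 3 + 2 * x 1 * x 2
  let a1 := -q1
  let a2 := -(q2 + a1 * q1)
  let a3 := -(q3 + a1 * q2 + a2 * q1)
  let a4 := -(q4 + a1 * q3 + a2 * q2 + a3 * q1)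
  let a5 := -(q5 + a1 * q4 + a2 * q3 + a3 * q2 + a4 * q1)
  ![a1, a2, a3, a4, a5]

/-- vector of the coefficients number 1..5 -/
def vec (σ : ℕ → ℂ) : E5 := fun i => σ (i + 1)

/-- F maps the boundary arc into the imaginary axis: the coefficients of `KK` are skew symmetric -/
def Sym (κ : ℕ → ℂ) : Prop :=
  κ 3 = -(starRingEnd ℂ) (κ 2) ∧ κ 4 = -(starRingEnd ℂ) (κ 1) ∧ κ 5 = -(starRingEnd ℂ) (κ 0) ∧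
    ∀ k, 6 ≤ k → κ k = 0

end Pool.Agent.Helper506.Arc
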