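import Mathlib

set_option autoImplicit false
open Complex Set Filter Metric Topology

namespace Pool.Agent.Helper506.ArcJ

/-- open mapping for injective analytic functions on the disc -/
theorem bs_img_nhds (f : ℂ → ℂ) (hf : DifferentiableOn ℂ f (ball (0 : ℂ) 1))
    (hinj : Set.InjOn f (ball (0 : ℂ) 1)) {z : ℂ} (hz : z ∈ ball (0 : ℂ) 1) {U : Set ℂ}
    (hU : U ∈ 𝓝 z) : f '' U ∈ 𝓝 (f z) := by
  have han : AnalyticAt ℂ f z := hf.analyticAt (isOpen_ball.mem_nhds hz)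
  rcases han.eventually_constant_or_nhds_le_map_nhds with h | h
  · exfalso
    have h2 : ∀ᶠ w in 𝓝 z, w ∈ ball (0 : ℂ) 1 := isOpen_ball.mem_nhds hz
    have h3 : ∀ᶠ w in 𝓝[≠] z, (f w = f z ∧ w ∈ ball (0 : ℂ) 1) ∧ w ≠ z :=
      (((h.and h2).filter_mono nhdsWithin_le_nhds)).and self_mem_nhdsWithin
    obtain ⟨w, ⟨hw1, hw2⟩, hw3⟩ := h3.exists
    exact hw3 (hinj hw2 hz hw1)
  · exact h (image_mem_map hU)

theorem bs_step1 (f s : ℂ → ℂ)
    (hf : DifferentiableOn ℂ f (ball (0 : ℂ) 1)) (hinj : Set.InjOn f (ball (0 : ℂ) 1))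
    (hf0 : f 0 = 0)
    (hfs : ∀ z ∈ ball (0 : ℂ) 1, f z * s z ^ 2 = z)
    (c3 c5 : ℂ)
    (hΓ : ∀ w : ℂ, w ∉ f '' ball (0 : ℂ) 1 → ∀ u : ℂ, u ^ 2 * w = 1 →
      (u + c3 * u ^ 3 + c5 * u ^ 5).re = 0) (η : ℝ) (hη : 0 < η) :
    ∃ ρ < (1 : ℝ), 0 < ρ ∧ ∀ ζ : ℂ, ρ < ‖ζ‖ → ‖ζ‖ < 1 →
      |((s (ζ ^ 2) / ζ) + c3 * (s (ζ ^ 2) / ζ) ^ 3 + c5 * (s (ζ ^ 2) / ζ) ^ 5).re| < η := by
  by_contra hcon
  push Not at hcon
  have hn0 : ∀ n : ℕ, (1 : ℝ) / ((n : ℝ) + 4) ≤ 1 / 4 := by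
    intro n
    apply one_div_le_one_div_of_le (by norm_num)
    have : (0 : ℝ) ≤ n := n.cast_nonneg
    linarith
  have hn1 : ∀ n : ℕ, 0 < (1 : ℝ) / ((n : ℝ) + 4) := fun n => by positivity
  choose ζ hζ1 hζ2 hζ3 using fun n : ℕ => hcon (1 - 1 / ((n : ℝ) + 4)) (by linarith [hn1 n])
    (by linarith [hn0 n])
  set u : ℕ → ℂ := fun n => s ((ζ n) ^ 2) / ζ n with hu
  -- lower bound for f away from 0
  have h0 : (0 : ℂ) ∈ ball (0 : ℂ) 1 := by simp
  have hnb := bs_img_nhds f hf hinj h0 (ball_mem_nhds (0 : ℂ) (show (0 : ℝ) < 1 / 2 by norm_num))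
  rw [hf0] at hnb
  obtain ⟨d, hd0, hd⟩ := Metric.mem_nhds_iff.1 hnb
  have hlow : ∀ z ∈ ball (0 : ℂ) 1, 1 / 2 ≤ ‖z‖ → d ≤ ‖f z‖ := by
    intro z hz hz2
    by_contra hlt
    push Not at hlt
    obtain ⟨z', hz', hfz⟩ := hd (show f z ∈ ball (0 : ℂ) d by simpa using hlt)
    have hz'1 : z' ∈ ball (0 : ℂ) 1 := ball_subset_ball (by norm_num) hz'
    have := hinj hz'1 hz hfz
    rw [this] at hz'
    rw [mem_ball_zero_iff] at hz'
    linarith
  have hζ0 : ∀ n, ζ n ≠ 0 := by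
    intro n h
    have := hζ1 n
    rw [h, norm_zero] at this
    linarith [hn0 n]
  have hsq : ∀ n, (ζ n) ^ 2 ∈ ball (0 : ℂ) 1 := by
    intro n
    rw [mem_ball_zero_iff, norm_pow]
    have := hζ2 n
    have := norm_nonneg (ζ n)
    nlinarith
  have huf : ∀ n, (u n) ^ 2 * f ((ζ n) ^ 2) = 1 := by
    intro n
    have h1 := hfs _ (hsq n)
    have h2 := hζ0 n
    simp only [hu]
    rw [div_pow, div_mul_eq_mul_div, div_eq_one_iff_eq (pow_ne_zero 2 h2), mul_comm]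
    exact h1
  have hub : ∀ n, ‖u n‖ ≤ 1 / d + 1 := by
    intro n
    have h1 := congrArg norm (huf n)
    rw [norm_mul, norm_pow, norm_one] at h1
    have h2 : d ≤ ‖f ((ζ n) ^ 2)‖ := by
      refine hlow _ (hsq n) ?_
      rw [norm_pow]
      have h3 := hζ1 n
      have h4 := hn0 n
      nlinarith
    by_contra hcon2
    push Not at hcon2
    have hd1 : 0 < 1 / d := by positivity
    have h3 : 1 / d < ‖u n‖ ^ 2 := by nlinarith
    have h4 : 1 < ‖u n‖ ^ 2 * d := by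
      rw [div_lt_iff₀ hd0] at h3
      exact h3
    have h5 : 0 ≤ ‖u n‖ ^ 2 := by positivity
    nlinarith
  obtain ⟨us, -, φ, hφ, hlim⟩ := (isCompact_closedBall (0 : ℂ) (1 / d + 1)).tendsto_subseq
    (fun n => by rw [mem_closedBall_zero_iff]; exact hub n)
  have hFc : Continuous (fun v : ℂ => |(v + c3 * v ^ 3 + c5 * v ^ 5).re|) := by fun_prop
  have hFlim := (hFc.tendsto us).comp hlim
  have hge : η ≤ |(us + c3 * us ^ 3 + c5 * us ^ 5).re| :=
    ge_of_tendsto hFlim (Eventually.of_forall fun n => hζ3 (φ n))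
  have hus : us ≠ 0 := by
    intro h
    rw [h] at hge
    simp at hge
    linarith
  have hw : Tendsto (fun n => ((u (φ n)) ^ 2)⁻¹) atTop (𝓝 ((us ^ 2)⁻¹)) :=
    (hlim.pow 2).inv₀ (pow_ne_zero 2 hus)
  have hw' : ∀ n, ((u (φ n)) ^ 2)⁻¹ = f ((ζ (φ n)) ^ 2) := by
    intro n
    exact inv_eq_of_mul_eq_one_right (huf (φ n))
  by_cases hmem : (us ^ 2)⁻¹ ∈ f '' ball (0 : ℂ) 1
  · obtain ⟨zs, hzs, hfz⟩ := hmem
    have hzs' : ‖zs‖ < 1 := by simpa using hzs
    set r : ℝ := (1 + ‖zs‖) / 2 with hr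
    have hr1 : r < 1 := by rw [hr]; linarith
    have hr2 : ‖zs‖ < r := by rw [hr]; linarith
    have hU : ball (0 : ℂ) r ∈ 𝓝 zs := isOpen_ball.mem_nhds (by simpa using hr2)
    have h1 := bs_img_nhds f hf hinj hzs hU
    rw [hfz] at h1
    have h2 := hw.eventually h1
    have h3 : Tendsto (fun n : ℕ => (1 - 1 / (((φ n : ℕ) : ℝ) + 4)) ^ 2) atTop (𝓝 ((1 - 0) ^ 2)) := by
      have h4 : Tendsto (fun n : ℕ => (1 : ℝ) / ((n : ℝ) + 4)) atTop (𝓝 0) := by
        have h5 : Tendsto (fun n : ℕ => (n : ℝ) + 4) atTop atTop :=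
          tendsto_atTop_add_const_right _ _ tendsto_natCast_atTop_atTop
        exact tendsto_const_nhds.div_atTop h5
      exact ((h4.comp hφ.tendsto_atTop).const_sub 1).pow 2
    have h4 : ∀ᶠ n in atTop, r < (1 - 1 / (((φ n : ℕ) : ℝ) + 4)) ^ 2 := by
      refine h3.eventually (lt_mem_nhds ?_)
      norm_num
      exact hr1
    obtain ⟨n, hn, hn'⟩ := (h2.and h4).exists
    have h5 : f ((ζ (φ n)) ^ 2) ∈ f '' ball (0 : ℂ) r := by
      rw [← hw' n]; exact hn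
    obtain ⟨z', hz', hfz'⟩ := h5
    have h6 := hinj (ball_subset_ball hr1.le hz') (hsq (φ n)) hfz'
    rw [h6, mem_ball_zero_iff, norm_pow] at hz'
    have h7 := hζ1 (φ n)
    have h8 := hn0 (φ n)
    nlinarith
  · have h1 := hΓ _ hmem us (mul_inv_cancel₀ (pow_ne_zero 2 hus))
    rw [h1] at hge
    simp at hge
    linarith

/-- an analytic function on the disc with real part tending to `0` at the boundary and vanishing
at the centre is identically `0` -/
theorem bs_max (E : ℂ → ℂ) (hE : DifferentiableOn ℂ E (ball (0 : ℂ) 1)) (hE0 : E 0 = 0)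
    (hb : ∀ η > (0 : ℝ), ∃ ρ < (1 : ℝ), ∀ ζ : ℂ, ρ < ‖ζ‖ → ‖ζ‖ < 1 → |(E ζ).re| < η) :
    ∀ ζ ∈ ball (0 : ℂ) 1, E ζ = 0 := by
  -- real part is at most `0` in absolute value
  have key : ∀ G : ℂ → ℂ, DifferentiableOn ℂ G (ball (0 : ℂ) 1) →
      (∀ η > (0 : ℝ), ∃ ρ < (1 : ℝ), ∀ ζ : ℂ, ρ < ‖ζ‖ → ‖ζ‖ < 1 → |(G ζ).re| < η) →
      ∀ ζ ∈ ball (0 : ℂ) 1, (G ζ).re ≤ 0 := by
    intro G hG hGb ζ hζ
    refine le_of_forall_pos_le_add fun η hη => ?_
    rw [zero_add]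
    obtain ⟨ρ, hρ1, hρ⟩ := hGb η hη
    have hζ' : ‖ζ‖ < 1 := by simpa using hζ
    obtain ⟨r, hr1, hr2⟩ := exists_between (max_lt hρ1 hζ')
    have hrρ : ρ < r := lt_of_le_of_lt (le_max_left _ _) hr1
    have hrζ : ‖ζ‖ < r := lt_of_le_of_lt (le_max_right _ _) hr1
    have hr0 : 0 < r := lt_of_le_of_lt (norm_nonneg ζ) hrζ
    have hsub : closedBall (0 : ℂ) r ⊆ ball (0 : ℂ) 1 := closedBall_subset_ball hr2
    have hd : DiffContOnCl ℂ (fun z => Complex.exp (G z)) (ball (0 : ℂ) r) := by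
      refine DifferentiableOn.diffContOnCl ?_
      rw [closure_ball _ hr0.ne']
      exact (hG.mono hsub).cexp
    have h1 : ‖Complex.exp (G ζ)‖ ≤ Real.exp η := by
      refine Complex.norm_le_of_forall_mem_frontier_norm_le isBounded_ball hd ?_ ?_
      · intro z hz
        rw [frontier_ball _ hr0.ne', mem_sphere_zero_iff_norm] at hz
        rw [Complex.norm_exp]
        refine Real.exp_le_exp.2 ?_
        have := hρ z (by rw [hz]; exact hrρ) (by rw [hz]; exact hr2)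
        exact (le_abs_self _).trans this.le
      · exact subset_closure (by simpa using hrζ)
    rw [Complex.norm_exp] at h1
    exact Real.exp_le_exp.1 h1
  have h1 := key E hE hb
  have h2 := key (fun z => -E z) hE.neg (by
    intro η hη
    obtain ⟨ρ, hρ1, hρ⟩ := hb η hη
    exact ⟨ρ, hρ1, fun ζ h3 h4 => by simpa using hρ ζ h3 h4⟩)
  have hre : ∀ ζ ∈ ball (0 : ℂ) 1, (E ζ).re = 0 := by
    intro ζ hζ
    have h3 := h1 ζ hζ
    have h4 := h2 ζ hζ
    simp only [Complex.neg_re] at h4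
    linarith
  have hexp : ∀ t : ℝ, ∀ ζ ∈ ball (0 : ℂ) 1, Complex.exp (t * E ζ) = 1 := by
    intro t ζ hζ
    have hd : DifferentiableOn ℂ (fun z => Complex.exp (t * E z)) (ball (0 : ℂ) 1) :=
      (hE.const_mul _).cexp
    have hmax : IsMaxOn (norm ∘ fun z => Complex.exp (t * E z)) (ball (0 : ℂ) 1) 0 := by
      intro z hz
      simp only [mem_setOf_eq, Function.comp_apply, Complex.norm_exp]
      simp [hre z hz, hE0]
    have := Complex.eqOn_of_isPreconnected_of_isMaxOn_norm (convex_ball (0 : ℂ) 1).isPreconnected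
      isOpen_ball hd (by simp) hmax hζ
    simpa [hE0] using this
  intro ζ hζ
  have h3 := hre ζ hζ
  by_contra hne
  have him : (E ζ).im ≠ 0 := by
    intro h; exact hne (Complex.ext h3 h)
  have h4 := hexp (Real.pi / (E ζ).im) ζ hζ
  have h5 : ((Real.pi / (E ζ).im : ℝ) : ℂ) * E ζ = Real.pi * I := by
    apply Complex.ext
    · simp [h3]
    · simp [h3, him]
  rw [h5, Complex.exp_pi_mul_I] at h4
  norm_num at h4

theorem boundary_sym (f s : ℂ → ℂ)
    (hf : DifferentiableOn ℂ f (ball (0 : ℂ) 1)) (hinj : Set.InjOn f (ball (0 : ℂ) 1))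
    (hf0 : f 0 = 0)
    (hs : DifferentiableOn ℂ s (ball (0 : ℂ) 1)) (hs0 : ∀ z ∈ ball (0 : ℂ) 1, s z ≠ 0)
    (hfs : ∀ z ∈ ball (0 : ℂ) 1, f z * s z ^ 2 = z)
    (c3 c5 : ℂ)
    (hΓ : ∀ w : ℂ, w ∉ f '' ball (0 : ℂ) 1 → ∀ u : ℂ, u ^ 2 * w = 1 →
      (u + c3 * u ^ 3 + c5 * u ^ 5).re = 0)
    (κ : ℕ → ℂ)
    (hκ : ∀ z : ℂ, ‖z‖ < 1 →
      HasSum (fun n => κ n * z ^ n) (z ^ 2 * s z + c3 * z * s z ^ 3 + c5 * s z ^ 5)) :
    κ 3 = -(starRingEnd ℂ) (κ 2) ∧ κ 4 = -(starRingEnd ℂ) (κ 1) ∧ κ 5 = -(starRingEnd ℂ) (κ 0) ∧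
      ∀ k, 6 ≤ k → κ k = 0 := by
  set a0 := (starRingEnd ℂ) (κ 0) with ha0
  set a1 := (starRingEnd ℂ) (κ 1) with ha1
  set a2 := (starRingEnd ℂ) (κ 2) with ha2
  set K : ℂ → ℂ := fun z => z ^ 2 * s z + c3 * z * s z ^ 3 + c5 * s z ^ 5 with hK
  set P : ℂ → ℂ := fun z => K z - κ 0 - κ 1 * z - κ 2 * z ^ 2 + a2 * z ^ 3 + a1 * z ^ 4 + a0 * z ^ 5
    with hP
  set dd : ℕ → ℂ := fun n => if n = 0 then a2 else if n = 1 then a1 else if n = 2 then a0 else 0
    with hdd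
  set e : ℕ → ℂ := fun n => κ (n + 3) + dd n with he
  have hsumP : ∀ z : ℂ, ‖z‖ < 1 → HasSum (fun n => e n * z ^ (n + 3)) (P z) := by
    intro z hz
    have h1 := (hasSum_nat_add_iff' (f := fun n => κ n * z ^ n) 3).2 (hκ z hz)
    have h2 : HasSum (fun n => dd n * z ^ (n + 3)) (∑ n ∈ Finset.range 3, dd n * z ^ (n + 3)) := by
      refine hasSum_sum_of_ne_finset_zero ?_
      intro n hn
      rw [Finset.mem_range, not_lt] at hn
      have : dd n = 0 := by
        simp only [hdd]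
        rw [if_neg (by omega), if_neg (by omega), if_neg (by omega)]
      rw [this, zero_mul]
    have h3 := h1.add h2
    have e1 : (fun n => κ (n + 3) * z ^ (n + 3) + dd n * z ^ (n + 3)) = fun n => e n * z ^ (n + 3) := by
      funext n; simp only [he]; ring
    rw [e1] at h3
    have e2 : (z ^ 2 * s z + c3 * z * s z ^ 3 + c5 * s z ^ 5 - ∑ i ∈ Finset.range 3, κ i * z ^ i) +
        ∑ n ∈ Finset.range 3, dd n * z ^ (n + 3) = P z := by
      simp only [Finset.sum_range_succ, Finset.sum_range_zero, hdd, hP, hK]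
      simp
      ring
    rw [e2] at h3
    exact h3
  set E1 : ℂ → ℂ := fun z => if z = 0 then e 0 else P z / z ^ 3 with hE1
  have hsumE : ∀ z : ℂ, ‖z‖ < 1 → HasSum (fun n => e n * z ^ n) (E1 z) := by
    intro z hz
    by_cases h0 : z = 0
    · subst h0
      have h1 : HasSum (fun n => e n * (0 : ℂ) ^ n) (e 0 * (0 : ℂ) ^ 0) := by
        refine hasSum_single 0 ?_
        intro n hn
        rw [zero_pow hn, mul_zero]
      simpa [hE1] using h1
    · have h1 := (hsumP z hz).div_const (z ^ 3)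
      simp only [hE1, if_neg h0]
      have e3 : (fun i => e i * z ^ (i + 3) / z ^ 3) = fun n => e n * z ^ n := by
        funext n
        rw [pow_add, ← mul_assoc, mul_div_cancel_right₀ _ (pow_ne_zero 3 h0)]
      rw [e3] at h1
      exact h1
  have hKd : DifferentiableOn ℂ K (ball (0 : ℂ) 1) := by
    simp only [hK]
    fun_prop
  have hPd : DifferentiableOn ℂ P (ball (0 : ℂ) 1) := by
    simp only [hP]
    fun_prop
  have hE1d : DifferentiableOn ℂ E1 (ball (0 : ℂ) 1) := by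
    intro z hz
    apply DifferentiableAt.differentiableWithinAt
    by_cases h0 : z = 0
    · subst h0
      have h1 : HasFPowerSeriesAt E1 (FormalMultilinearSeries.ofScalars ℂ e) 0 := by
        rw [hasFPowerSeriesAt_iff]
        filter_upwards [isOpen_ball.mem_nhds hz] with y hy
        rw [zero_add]
        have h2 := hsumE y (by simpa using hy)
        have e4 : (fun n => y ^ n • (FormalMultilinearSeries.ofScalars ℂ e).coeff n) =
            fun n => e n * y ^ n := by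
          funext n
          rw [FormalMultilinearSeries.coeff_ofScalars, smul_eq_mul, mul_comm]
        rw [e4]
        exact h2
      exact h1.differentiableAt
    · have h1 : DifferentiableAt ℂ (fun y => P y / y ^ 3) z := by
        refine (hPd.differentiableAt (isOpen_ball.mem_nhds hz)).div (by fun_prop) (pow_ne_zero 3 h0)
      refine h1.congr_of_eventuallyEq ?_
      filter_upwards [isOpen_ne.mem_nhds h0] with y hy
      simp only [hE1, if_neg hy]
  set E : ℂ → ℂ := fun ζ => ζ * E1 (ζ ^ 2) with hE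
  have hmaps : MapsTo (fun ζ : ℂ => ζ ^ 2) (ball (0 : ℂ) 1) (ball (0 : ℂ) 1) := by
    intro ζ hζ
    rw [mem_ball_zero_iff] at hζ ⊢
    rw [norm_pow]
    have := norm_nonneg ζ
    nlinarith
  have hEd : DifferentiableOn ℂ E (ball (0 : ℂ) 1) := by
    refine differentiableOn_id.mul ?_
    exact hE1d.comp (by fun_prop) hmaps
  have hE0 : E 0 = 0 := by simp [hE]
  -- the boundary behaviour
  have hEb : ∀ η > (0 : ℝ), ∃ ρ < (1 : ℝ), ∀ ζ : ℂ, ρ < ‖ζ‖ → ‖ζ‖ < 1 → |(E ζ).re| < η := by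
    intro η hη
    obtain ⟨ρ1, hρ1, hρ1', h1⟩ := bs_step1 f s hf hinj hf0 hfs c3 c5 hΓ (η / 2) (by linarith)
    set hh : ℝ → ℝ := fun r => ‖κ 0‖ * |(r ^ 5)⁻¹ - r ^ 5| + ‖κ 1‖ * |(r ^ 3)⁻¹ - r ^ 3| +
      ‖κ 2‖ * |r⁻¹ - r| with hhh
    have hhc : ContinuousAt hh 1 := by
      simp only [hhh]
      have i5 : ContinuousAt (fun r : ℝ => (r ^ 5)⁻¹) 1 :=
        ContinuousAt.inv₀ (by fun_prop) (by norm_num)
      have i3 : ContinuousAt (fun r : ℝ => (r ^ 3)⁻¹) 1 :=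
        ContinuousAt.inv₀ (by fun_prop) (by norm_num)
      have i1 : ContinuousAt (fun r : ℝ => (r)⁻¹) 1 :=
        ContinuousAt.inv₀ (by fun_prop) (by norm_num)
      fun_prop
    have hh1 : hh 1 = 0 := by simp [hhh]
    have h2 : ∀ᶠ r in 𝓝 (1 : ℝ), hh r < η / 2 := by
      have := hhc.tendsto
      rw [hh1] at this
      exact this.eventually (gt_mem_nhds (by linarith))
    obtain ⟨δ, hδ0, hδ⟩ := Metric.eventually_nhds_iff.1 h2
    refine ⟨max ρ1 (1 - δ), max_lt hρ1 (by linarith), ?_⟩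
    intro ζ hζ1 hζ2
    have hζρ : ρ1 < ‖ζ‖ := lt_of_le_of_lt (le_max_left _ _) hζ1
    have hζδ : 1 - δ < ‖ζ‖ := lt_of_le_of_lt (le_max_right _ _) hζ1
    have hζ0 : ζ ≠ 0 := by
      intro h; rw [h, norm_zero] at hζρ; linarith
    have hr0 : 0 < ‖ζ‖ := norm_pos_iff.2 hζ0
    have h3 := h1 ζ hζρ hζ2
    have h4 : hh ‖ζ‖ < η / 2 := hδ (by
      rw [Real.dist_eq, abs_sub_lt_iff]; constructor <;> linarith)
    -- E = F(g) - H
    set T : ℂ → ℕ → ℂ := fun p n => p * (ζ ^ n)⁻¹ - (starRingEnd ℂ) p * ζ ^ n with hT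
    have hE' : E ζ = (s (ζ ^ 2) / ζ + c3 * (s (ζ ^ 2) / ζ) ^ 3 + c5 * (s (ζ ^ 2) / ζ) ^ 5) -
        (T (κ 0) 5 + T (κ 1) 3 + T (κ 2) 1) := by
      simp only [hE, hE1, if_neg (pow_ne_zero 2 hζ0), hP, hK, hT, ha0, ha1, ha2]
      field_simp
      ring
    have hTb : ∀ p n, |(T p n).re| ≤ ‖p‖ * |(‖ζ‖ ^ n)⁻¹ - ‖ζ‖ ^ n| := by
      intro p n
      have e1 : (T p n).re = (p * ((ζ ^ n)⁻¹ - (starRingEnd ℂ) (ζ ^ n))).re := by
        simp only [hT, Complex.sub_re, mul_sub, Complex.mul_re, Complex.conj_re, Complex.conj_im]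
        ring
      have e2 : (ζ ^ n)⁻¹ - (starRingEnd ℂ) (ζ ^ n) = (ζ ^ n)⁻¹ * (((1 - (‖ζ‖ ^ n) ^ 2 : ℝ)) : ℂ) := by
        have h5 : ζ ^ n * (starRingEnd ℂ) (ζ ^ n) = (((‖ζ‖ ^ n) ^ 2 : ℝ) : ℂ) := by
          rw [Complex.mul_conj, Complex.normSq_eq_norm_sq, norm_pow]
        have h6 : ζ ^ n ≠ 0 := pow_ne_zero n hζ0
        rw [Complex.ofReal_sub, ← h5, Complex.ofReal_one, mul_sub, mul_one, inv_mul_cancel_left₀ h6]
      rw [e1]
      refine (Complex.abs_re_le_norm _).trans ?_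
      rw [norm_mul, e2, norm_mul, norm_inv, norm_pow, Complex.norm_real, Real.norm_eq_abs]
      refine mul_le_mul_of_nonneg_left (le_of_eq ?_) (norm_nonneg _)
      have h7 : 0 < ‖ζ‖ ^ n := by positivity
      rw [← abs_of_pos (inv_pos.2 h7), ← abs_mul]
      congr 1
      rw [abs_of_pos (inv_pos.2 h7)]
      field_simp
    have h5 := hTb (κ 0) 5
    have h6 := hTb (κ 1) 3
    have h7 := hTb (κ 2) 1
    rw [pow_one] at h7
    rw [hE', Complex.sub_re, Complex.add_re (T (κ 0) 5 + T (κ 1) 3), Complex.add_re (T (κ 0) 5)]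
    simp only [hhh] at h4
    rw [abs_lt] at h3 ⊢
    rw [abs_le] at h5 h6 h7
    constructor <;> linarith [h3.1, h3.2, h5.1, h5.2, h6.1, h6.2, h7.1, h7.2]
  have hEz := bs_max E hEd hE0 hEb
  -- hence E1 = 0 and the coefficients vanish
  have hE1z : ∀ z ∈ ball (0 : ℂ) 1, z ≠ 0 → E1 z = 0 := by
    intro z hz h0
    obtain ⟨ζ, hζ⟩ := IsSquare.exists_sq z |> fun h => (⟨z ^ (1 / 2 : ℂ), by
      rw [← Complex.cpow_nat_mul]; norm_num⟩ : ∃ ζ : ℂ, ζ ^ 2 = z)
    have hζ1 : ζ ∈ ball (0 : ℂ) 1 := by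
      rw [mem_ball_zero_iff] at hz ⊢
      rw [← hζ, norm_pow] at hz
      by_contra hcon
      push Not at hcon
      nlinarith
    have h1 := hEz ζ hζ1
    simp only [hE, hζ] at h1
    rcases mul_eq_zero.1 h1 with h | h
    · exfalso; apply h0; rw [← hζ, h]; norm_num
    · exact h
  have hser : HasFPowerSeriesAt (fun _ : ℂ => (0 : ℂ)) (FormalMultilinearSeries.ofScalars ℂ e) 0 := by
    have hE10 : E1 0 = 0 := by
      have hc : ContinuousAt E1 0 := (hE1d.differentiableAt (isOpen_ball.mem_nhds (by simp))).continuousAt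
      have h1 : Tendsto E1 (𝓝[≠] 0) (𝓝 (E1 0)) := hc.tendsto.mono_left nhdsWithin_le_nhds
      have h2 : Tendsto E1 (𝓝[≠] 0) (𝓝 0) := by
        refine tendsto_const_nhds.congr' ?_
        have h3 : ∀ᶠ y in 𝓝[≠] (0 : ℂ), y ∈ ball (0 : ℂ) 1 :=
          nhdsWithin_le_nhds (isOpen_ball.mem_nhds (by simp))
        filter_upwards [h3, self_mem_nhdsWithin] with y hy hy'
        exact (hE1z y hy hy').symm
      exact tendsto_nhds_unique h1 h2
    rw [hasFPowerSeriesAt_iff]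
    filter_upwards [isOpen_ball.mem_nhds (show (0 : ℂ) ∈ ball (0 : ℂ) 1 by simp)] with y hy
    have h2 := hsumE y (by simpa using hy)
    have h3 : E1 y = 0 := by
      by_cases h : y = 0
      · rw [h]; exact hE10
      · exact hE1z y hy h
    rw [h3] at h2
    have e4 : (fun n => y ^ n • (FormalMultilinearSeries.ofScalars ℂ e).coeff n) =
        fun n => e n * y ^ n := by
      funext n
      rw [FormalMultilinearSeries.coeff_ofScalars, smul_eq_mul, mul_comm]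
    rw [e4]
    exact h2
  have hez : ∀ n, e n = 0 := by
    intro n
    have h1 := hser.eq_zero
    have h2 := congrArg (fun p => FormalMultilinearSeries.coeff p n) h1
    have h3 : (0 : FormalMultilinearSeries ℂ ℂ ℂ).coeff n = 0 := rfl
    rw [h3] at h2
    simpa [FormalMultilinearSeries.coeff_ofScalars] using h2
  refine ⟨?_, ?_, ?_, ?_⟩
  · have := hez 0
    simp only [he, hdd] at this
    simp at this
    exact eq_neg_of_add_eq_zero_left this
  · have := hez 1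
    simp only [he, hdd] at this
    simp at this
    exact eq_neg_of_add_eq_zero_left this
  · have := hez 2
    simp only [he, hdd] at this
    simp at this
    exact eq_neg_of_add_eq_zero_left this
  · intro k hk
    have := hez (k - 3)
    simp only [he, hdd] at this
    rw [if_neg (by omega), if_neg (by omega), if_neg (by omega), add_zero] at this
    have e2 : k - 3 + 3 = k := by omega
    rwa [e2] at this


end Pool.Agent.Helper506.ArcJ
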