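import Mathlib

set_option autoImplicit false
open Set Filter Metric Topology

namespace Pool.Agent.Helper506.ArcJ

namespace ImplicitCurve

open scoped ContDiff

/-- The equation. -/
noncomputable def ff (ε : ℝ) (p : ℝ × ℝ) : ℝ :=
  Real.sin p.2 - ε * (p.1 ^ 2 * Real.cos (5 * p.2) - 4 * p.1 * Real.cos (3 * p.2))

/-- Its derivative in the second variable. -/
noncomputable def DD (ε T x : ℝ) : ℝ :=
  Real.cos x + ε * (5 * T ^ 2 * Real.sin (5 * x) - 12 * T * Real.sin (3 * x))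

theorem ff_contDiff (ε : ℝ) : ContDiff ℝ ω (ff ε) := by
  unfold ff
  fun_prop

theorem ff_deriv (ε T x : ℝ) : HasDerivAt (fun x => ff ε (T, x)) (DD ε T x) x := by
  have h5 : HasDerivAt (fun x : ℝ => 5 * x) 5 x := by simpa using (hasDerivAt_id x).const_mul (5 : ℝ)
  have h3 : HasDerivAt (fun x : ℝ => 3 * x) 3 x := by simpa using (hasDerivAt_id x).const_mul (3 : ℝ)
  have h := (Real.hasDerivAt_sin x).sub
    (((h5.cos.const_mul (T ^ 2)).sub (h3.cos.const_mul (4 * T))).const_mul ε)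
  refine h.congr_deriv ?_
  unfold DD
  ring

theorem cos_low {x : ℝ} (hx : |x| ≤ 1 / 2) : 7 / 8 ≤ Real.cos x := by
  have h1 := Real.one_sub_sq_div_two_le_cos (x := x)
  have h2 : x ^ 2 ≤ 1 / 4 := by
    rw [← sq_abs]
    nlinarith [abs_nonneg x]
  linarith

theorem DD_low {ε T x : ℝ} (hε0 : 0 < ε) (hε : ε ≤ 1 / 1000) (hT : |T| ≤ 5) (hx : |x| ≤ 1 / 2) :
    1 / 2 ≤ DD ε T x := by
  have h1 := cos_low hx
  have h2 : |5 * T ^ 2 * Real.sin (5 * x) - 12 * T * Real.sin (3 * x)| ≤ 185 := by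
    have e1 : |5 * T ^ 2 * Real.sin (5 * x)| ≤ 125 := by
      rw [abs_mul, abs_mul, abs_of_pos (by norm_num : (0 : ℝ) < 5), abs_pow]
      have := Real.abs_sin_le_one (5 * x)
      have h25 : |T| ^ 2 ≤ 25 := by nlinarith [abs_nonneg T]
      calc 5 * |T| ^ 2 * |Real.sin (5 * x)| ≤ 5 * 25 * 1 := by gcongr
        _ = 125 := by norm_num
    have e2 : |12 * T * Real.sin (3 * x)| ≤ 60 := by
      rw [abs_mul, abs_mul, abs_of_pos (by norm_num : (0 : ℝ) < 12)]
      have := Real.abs_sin_le_one (3 * x)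
      calc 12 * |T| * |Real.sin (3 * x)| ≤ 12 * 5 * 1 := by gcongr
        _ = 60 := by norm_num
    have := abs_sub (5 * T ^ 2 * Real.sin (5 * x)) (12 * T * Real.sin (3 * x))
    linarith
  rw [abs_le] at h2
  unfold DD
  nlinarith

theorem sin_half : 2 / 5 < Real.sin (1 / 2) := by
  have := Real.sin_gt_sub_cube (x := 1 / 2) (by norm_num)
  linarith

theorem brac_bound {T x : ℝ} (hT : |T| ≤ 5) :
    |T ^ 2 * Real.cos (5 * x) - 4 * T * Real.cos (3 * x)| ≤ 45 := by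
  have e1 : |T ^ 2 * Real.cos (5 * x)| ≤ 25 := by
    rw [abs_mul, abs_pow]
    have := Real.abs_cos_le_one (5 * x)
    have h25 : |T| ^ 2 ≤ 25 := by nlinarith [abs_nonneg T]
    calc |T| ^ 2 * |Real.cos (5 * x)| ≤ 25 * 1 := by gcongr
      _ = 25 := by norm_num
  have e2 : |4 * T * Real.cos (3 * x)| ≤ 20 := by
    rw [abs_mul, abs_mul, abs_of_pos (by norm_num : (0 : ℝ) < 4)]
    have := Real.abs_cos_le_one (3 * x)
    calc 4 * |T| * |Real.cos (3 * x)| ≤ 4 * 5 * 1 := by gcongr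
      _ = 20 := by norm_num
  have := abs_sub (T ^ 2 * Real.cos (5 * x)) (4 * T * Real.cos (3 * x))
  linarith

theorem exists_zero {ε T : ℝ} (hε0 : 0 < ε) (hε : ε ≤ 1 / 1000) (hT : |T| ≤ 5) :
    ∃ x ∈ Ioo (-(1 / 2) : ℝ) (1 / 2), ff ε (T, x) = 0 := by
  have hcont : ContinuousOn (fun x => ff ε (T, x)) (Icc (-(1 / 2) : ℝ) (1 / 2)) :=
    fun x _ => (ff_deriv ε T x).continuousAt.continuousWithinAt
  have hs := sin_half
  have h1 : ff ε (T, -(1 / 2)) < 0 := by
    unfold ff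
    have := abs_le.1 (brac_bound (x := -(1 / 2)) hT)
    simp only [Real.sin_neg] at *
    nlinarith [this.1]
  have h2 : 0 < ff ε (T, 1 / 2) := by
    unfold ff
    have := abs_le.1 (brac_bound (x := 1 / 2) hT)
    simp only at *
    nlinarith [this.2]
  obtain ⟨x, hx, hx0⟩ := intermediate_value_Ioo (by norm_num : (-(1 / 2) : ℝ) ≤ 1 / 2) hcont ⟨h1, h2⟩
  exact ⟨x, hx, hx0⟩

theorem zero_unique {ε T x y : ℝ} (hε0 : 0 < ε) (hε : ε ≤ 1 / 1000) (hT : |T| ≤ 5)
    (hx : x ∈ Icc (-(1 / 2) : ℝ) (1 / 2)) (hy : y ∈ Icc (-(1 / 2) : ℝ) (1 / 2))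
    (h1 : ff ε (T, x) = 0) (h2 : ff ε (T, y) = 0) : x = y := by
  have hmono : StrictMonoOn (fun x => ff ε (T, x)) (Icc (-(1 / 2) : ℝ) (1 / 2)) := by
    apply strictMonoOn_of_deriv_pos (convex_Icc _ _)
      (fun x _ => (ff_deriv ε T x).continuousAt.continuousWithinAt)
    intro x hx
    rw [interior_Icc] at hx
    rw [(ff_deriv ε T x).deriv]
    have := DD_low hε0 hε hT (x := x) (by rw [abs_le]; constructor <;> linarith [hx.1, hx.2])
    linarith
  exact hmono.injOn hx hy (h1.trans h2.symm)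

theorem sin_sub {x : ℝ} (hx : |x| ≤ 1 / 2) : |Real.sin x - x| ≤ x ^ 2 / 4 := by
  have h1 := Real.sin_bound (x := x) (by linarith)
  have h2 : |Real.sin x - x| ≤ |Real.sin x - (x - x ^ 3 / 6)| + |x ^ 3 / 6| := by
    have : Real.sin x - x = (Real.sin x - (x - x ^ 3 / 6)) + (-(x ^ 3 / 6)) := by ring
    rw [this]
    refine (abs_add_le _ _).trans ?_
    rw [abs_neg]
  have h3 : |x ^ 3 / 6| = |x| * x ^ 2 / 6 := by
    rw [abs_div, abs_pow, abs_of_pos (by norm_num : (0 : ℝ) < 6), ← sq_abs x]; ring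
  have h4 : |x| ^ 5 = |x| * (x ^ 2 * x ^ 2) := by rw [← sq_abs x]; ring
  have h5 : x ^ 2 ≤ 1 / 4 := by
    rw [← sq_abs]; nlinarith [abs_nonneg x]
  rw [h3] at h2
  rw [h4] at h1
  have h6 : |x| * x ^ 2 ≤ 1 / 2 * x ^ 2 := by gcongr
  have h7 : |x| * (x ^ 2 * x ^ 2) ≤ 1 / 2 * (1 / 4 * x ^ 2) := by gcongr
  nlinarith [sq_nonneg x]

theorem cos_sub {x : ℝ} : |Real.cos x - 1| ≤ x ^ 2 / 2 := by
  have h1 := Real.one_sub_sq_div_two_le_cos (x := x)
  have h2 := Real.cos_le_one x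
  rw [abs_le]
  constructor <;> linarith

theorem X_small {ε T x : ℝ} (hε0 : 0 < ε) (hx : |x| ≤ 1 / 2) (hT : T ∈ Icc (0 : ℝ) 4)
    (h : ff ε (T, x) = 0) : |x| ≤ 90 * ε := by
  have hT5 : |T| ≤ 5 := by rw [abs_le]; constructor <;> linarith [hT.1, hT.2]
  have h1 := brac_bound (x := x) hT5
  have h2 : Real.sin x = ε * (T ^ 2 * Real.cos (5 * x) - 4 * T * Real.cos (3 * x)) := by
    unfold ff at h
    linarith
  have h3 : |Real.sin x| ≤ 45 * ε := by
    rw [h2, abs_mul, abs_of_pos hε0]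
    nlinarith
  have h4 := sin_sub hx
  have h5 : |x| ≤ |Real.sin x| + |Real.sin x - x| := by
    have := abs_sub_abs_le_abs_sub x (Real.sin x)
    rw [abs_sub_comm x] at this
    linarith
  have h6 : x ^ 2 / 4 ≤ |x| / 2 := by
    rw [← sq_abs]; nlinarith [abs_nonneg x]
  linarith

end ImplicitCurve

open ImplicitCurve in
open scoped ContDiff in
theorem implicit_curve : ∃ e0 C : ℝ, 0 < e0 ∧ 0 < C ∧ ∀ ε : ℝ, 0 < ε → ε ≤ e0 →
    ∃ X : ℝ → ℝ, ContinuousOn X (Icc 0 4) ∧ X 0 = 0 ∧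
      (∀ T ∈ Icc (0 : ℝ) 4, |X T| < 1 / 2) ∧
      (∀ T ∈ Icc (0 : ℝ) 4,
        Real.sin (X T) = ε * (T ^ 2 * Real.cos (5 * X T) - 4 * T * Real.cos (3 * X T))) ∧
      (∀ T ∈ Icc (0 : ℝ) 4, AnalyticAt ℝ X T) ∧
      (∀ T ∈ Icc (0 : ℝ) 4, |X T - ε * (T ^ 2 - 4 * T)| ≤ C * ε ^ 2) ∧
      (∀ T ∈ Icc (0 : ℝ) 4, |deriv X T - ε * (2 * T - 4)| ≤ C * ε ^ 2) := by
  classical
  refine ⟨1 / 1000, 1000000, by norm_num, by norm_num, ?_⟩
  intro ε hε0 hε
  set X : ℝ → ℝ := fun T => if h : |T| ≤ 5 then (exists_zero hε0 hε h).choose else 0 with hXdef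
  have hX1 : ∀ T, |T| ≤ 5 → X T ∈ Ioo (-(1 / 2) : ℝ) (1 / 2) ∧ ff ε (T, X T) = 0 := by
    intro T hT
    simp only [hXdef]
    rw [dif_pos hT]
    exact (exists_zero hε0 hε hT).choose_spec
  have hT5 : ∀ T ∈ Icc (0 : ℝ) 4, |T| ≤ 5 := fun T hT => by
    rw [abs_le]; constructor <;> linarith [hT.1, hT.2]
  have hXabs : ∀ T, |T| ≤ 5 → |X T| < 1 / 2 := fun T hT => abs_lt.2 (hX1 T hT).1
  have heq : ∀ T, |T| ≤ 5 →
      Real.sin (X T) = ε * (T ^ 2 * Real.cos (5 * X T) - 4 * T * Real.cos (3 * X T)) := by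
    intro T hT
    have := (hX1 T hT).2
    unfold ff at this
    simp only at this
    linarith
  have han : ∀ T ∈ Icc (0 : ℝ) 4, AnalyticAt ℝ X T := by
    intro T hT
    obtain ⟨hXT, hf⟩ := hX1 T (hT5 T hT)
    have cdf : ContDiffAt ℝ ω (ff ε) (T, X T) := (ff_contDiff ε).contDiffAt
    have pn : (ω : WithTop ℕ∞) ≠ 0 := by simp
    have hD := DD_low hε0 hε (hT5 T hT) (hXabs T (hT5 T hT)).le
    have hfd : HasFDerivAt (ff ε) (fderiv ℝ (ff ε) (T, X T)) (T, X T) :=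
      (cdf.differentiableAt (by simp)).hasFDerivAt
    have hline : HasDerivAt (fun x : ℝ => ((T, x) : ℝ × ℝ)) (0, 1) (X T) :=
      (hasDerivAt_const (X T) T).prodMk (hasDerivAt_id (X T))
    have hD2 : fderiv ℝ (ff ε) (T, X T) (0, 1) = DD ε T (X T) := by
      have h1 : HasDerivAt (fun x => ff ε (T, x)) (fderiv ℝ (ff ε) (T, X T) (0, 1)) (X T) :=
        HasFDerivAt.comp_hasDerivAt (X T) hfd hline
      exact h1.unique (ff_deriv ε T (X T))
    have if₂ : (fderiv ℝ (ff ε) (T, X T) ∘L .inr ℝ ℝ ℝ).IsInvertible := by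
      have hne : DD ε T (X T) ≠ 0 := by linarith
      refine ⟨ContinuousLinearEquiv.unitsEquivAut ℝ (Units.mk0 _ hne), ?_⟩
      apply ContinuousLinearMap.ext_ring
      simp [hD2]
    have hψ1 := cdf.eventually_apply_implicitFunction pn if₂
    have hψ2 := cdf.contDiffAt_implicitFunction pn if₂
    have hψ3 := cdf.implicitFunction_apply_self pn if₂
    simp only at hψ1 hψ2 hψ3
    set ψ := cdf.implicitFunction pn if₂
    have hψc : ContinuousAt ψ T := hψ2.continuousAt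
    have hψ4 : ∀ᶠ t in 𝓝 T, ψ t ∈ Ioo (-(1 / 2) : ℝ) (1 / 2) := by
      apply hψc.eventually
      rw [hψ3]
      exact Ioo_mem_nhds hXT.1 hXT.2
    have hT6 : ∀ᶠ t in 𝓝 T, |t| ≤ 5 := by
      have : Icc (-5 : ℝ) 5 ∈ 𝓝 T := Icc_mem_nhds (by linarith [hT.1]) (by linarith [hT.2])
      filter_upwards [this] with t ht
      exact abs_le.2 ht
    have hEq : X =ᶠ[𝓝 T] ψ := by
      filter_upwards [hψ1, hψ4, hT6] with t h1 h2 h3
      rw [hf] at h1
      exact zero_unique hε0 hε h3 ⟨(hX1 t h3).1.1.le, (hX1 t h3).1.2.le⟩ ⟨h2.1.le, h2.2.le⟩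
        (hX1 t h3).2 h1
    have h9 : ContDiffAt ℝ ω X T := hψ2.congr_of_eventuallyEq hEq
    exact h9.analyticAt
  have hsmall : ∀ T ∈ Icc (0 : ℝ) 4, |X T| ≤ 90 * ε := fun T hT =>
    X_small hε0 (hXabs T (hT5 T hT)).le hT (hX1 T (hT5 T hT)).2
  refine ⟨X, fun T hT => (han T hT).continuousAt.continuousWithinAt, ?_,
    fun T hT => hXabs T (hT5 T hT), fun T hT => heq T (hT5 T hT), han, ?_, ?_⟩
  · have h0 := hX1 0 (by simp)
    exact zero_unique hε0 hε (by simp) ⟨h0.1.1.le, h0.1.2.le⟩ (by constructor <;> norm_num) h0.2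
      (by unfold ff; simp)
  · intro T hT
    have h1 := hsmall T hT
    have h2 := sin_sub (hXabs T (hT5 T hT)).le
    have h3 := heq T (hT5 T hT)
    have h4 := cos_sub (x := 5 * X T)
    have h5 := cos_sub (x := 3 * X T)
    have hX2 : (X T) ^ 2 ≤ 8100 * ε ^ 2 := by
      rw [← sq_abs]
      calc |X T| ^ 2 ≤ (90 * ε) ^ 2 := by gcongr
        _ = 8100 * ε ^ 2 := by ring
    have h6 : X T - ε * (T ^ 2 - 4 * T) = -(Real.sin (X T) - X T) +
        ε * (T ^ 2 * (Real.cos (5 * X T) - 1) - 4 * T * (Real.cos (3 * X T) - 1)) := by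
      rw [h3]; ring
    rw [h6]
    have hT2 : T ^ 2 ≤ 16 := by nlinarith [hT.1, hT.2]
    have h7 : |T ^ 2 * (Real.cos (5 * X T) - 1) - 4 * T * (Real.cos (3 * X T) - 1)| ≤
        16 * ((5 * X T) ^ 2 / 2) + 16 * ((3 * X T) ^ 2 / 2) := by
      refine (abs_sub _ _).trans (add_le_add ?_ ?_)
      · rw [abs_mul, abs_of_nonneg (sq_nonneg T)]
        gcongr
      · rw [abs_mul, abs_of_nonneg (by linarith [hT.1] : 0 ≤ 4 * T)]
        have : 4 * T ≤ 16 := by linarith [hT.2]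
        gcongr
    refine (abs_add_le _ _).trans ?_
    rw [abs_neg, abs_mul, abs_of_pos hε0]
    have h8 : ε * |T ^ 2 * (Real.cos (5 * X T) - 1) - 4 * T * (Real.cos (3 * X T) - 1)| ≤
        1 / 1000 * (16 * ((5 * X T) ^ 2 / 2) + 16 * ((3 * X T) ^ 2 / 2)) := by gcongr
    nlinarith [sq_nonneg (X T), sq_nonneg ε]
  · intro T hT
    have h1 := hsmall T hT
    have hd := (han T hT).differentiableAt.hasDerivAt
    set X' := deriv X T with hX'
    have hc5 : HasDerivAt (fun t => Real.cos (5 * X t)) (-Real.sin (5 * X T) * (5 * X')) T :=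
      (hd.const_mul 5).cos
    have hc3 : HasDerivAt (fun t => Real.cos (3 * X t)) (-Real.sin (3 * X T) * (3 * X')) T :=
      (hd.const_mul 3).cos
    have hsq : HasDerivAt (fun t : ℝ => t ^ 2) (2 * T) T := by simpa using hasDerivAt_pow 2 T
    have h4t : HasDerivAt (fun t : ℝ => 4 * t) 4 T := by simpa using (hasDerivAt_id T).const_mul (4 : ℝ)
    have hder := hd.sin.sub (((hsq.mul hc5).sub (h4t.mul hc3)).const_mul ε)
    have hT6 : ∀ᶠ t in 𝓝 T, |t| ≤ 5 := by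
      have : Icc (-5 : ℝ) 5 ∈ 𝓝 T := Icc_mem_nhds (by linarith [hT.1]) (by linarith [hT.2])
      filter_upwards [this] with t ht
      exact abs_le.2 ht
    have hzero : HasDerivAt (fun _ : ℝ => (0 : ℝ)) 0 T := hasDerivAt_const T 0
    have hzero' := hzero.congr_of_eventuallyEq (f₁ := fun t => ff ε (t, X t)) (by
      filter_upwards [hT6] with t ht
      exact (hX1 t ht).2)
    have huniq := hzero'.unique hder
    have hrel : X' * DD ε T (X T) = ε * (2 * T * Real.cos (5 * X T) - 4 * Real.cos (3 * X T)) := by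
      unfold DD
      linarith
    have hDlow := DD_low hε0 hε (hT5 T hT) (hXabs T (hT5 T hT)).le
    have h4 := cos_sub (x := 5 * X T)
    have h5 := cos_sub (x := 3 * X T)
    have h6 := cos_sub (x := X T)
    have hX2 : (X T) ^ 2 ≤ 8100 * ε ^ 2 := by
      rw [← sq_abs]
      calc |X T| ^ 2 ≤ (90 * ε) ^ 2 := by gcongr
        _ = 8100 * ε ^ 2 := by ring
    have hε2 : ε ^ 2 ≤ 1 / 1000 * ε := by nlinarith
    have hDerr : |DD ε T (X T) - 1| ≤ 10 * ε + 544 * (90 * ε) * ε := by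
      have e1 : DD ε T (X T) - 1 = (Real.cos (X T) - 1) +
          ε * (5 * T ^ 2 * Real.sin (5 * X T) - 12 * T * Real.sin (3 * X T)) := by
        unfold DD; ring
      have s5 : |Real.sin (5 * X T)| ≤ 5 * |X T| := by
        have : |Real.sin (5 * X T)| ≤ |5 * X T| := Real.abs_sin_le_abs
        rwa [abs_mul, abs_of_pos (by norm_num : (0 : ℝ) < 5)] at this
      have s3 : |Real.sin (3 * X T)| ≤ 3 * |X T| := by
        have : |Real.sin (3 * X T)| ≤ |3 * X T| := Real.abs_sin_le_abs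
        rwa [abs_mul, abs_of_pos (by norm_num : (0 : ℝ) < 3)] at this
      have hT2 : T ^ 2 ≤ 16 := by nlinarith [hT.1, hT.2]
      have e2 : |5 * T ^ 2 * Real.sin (5 * X T) - 12 * T * Real.sin (3 * X T)| ≤
          5 * 16 * (5 * |X T|) + 12 * 4 * (3 * |X T|) := by
        refine (abs_sub _ _).trans (add_le_add ?_ ?_)
        · rw [abs_mul, abs_of_nonneg (by positivity : 0 ≤ 5 * T ^ 2)]
          gcongr
        · rw [abs_mul, abs_of_nonneg (by linarith [hT.1] : 0 ≤ 12 * T)]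
          have := hT.2
          have := hT.1
          gcongr
      rw [e1]
      refine (abs_add_le _ _).trans ?_
      rw [abs_mul, abs_of_pos hε0]
      have e3 : ε * |5 * T ^ 2 * Real.sin (5 * X T) - 12 * T * Real.sin (3 * X T)| ≤
          ε * (544 * (90 * ε)) := by
        apply mul_le_mul_of_nonneg_left _ hε0.le
        linarith
      have e4 : X T ^ 2 / 2 ≤ 10 * ε := by nlinarith
      linarith
    have hR : |ε * (2 * T * Real.cos (5 * X T) - 4 * Real.cos (3 * X T)) - ε * (2 * T - 4)| ≤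
        1000 * ε ^ 2 := by
      have e1 : ε * (2 * T * Real.cos (5 * X T) - 4 * Real.cos (3 * X T)) - ε * (2 * T - 4) =
          ε * (2 * T * (Real.cos (5 * X T) - 1) - 4 * (Real.cos (3 * X T) - 1)) := by ring
      have e2 : |2 * T * (Real.cos (5 * X T) - 1) - 4 * (Real.cos (3 * X T) - 1)| ≤
          8 * ((5 * X T) ^ 2 / 2) + 4 * ((3 * X T) ^ 2 / 2) := by
        refine (abs_sub _ _).trans (add_le_add ?_ ?_)
        · rw [abs_mul, abs_of_nonneg (by linarith [hT.1] : 0 ≤ 2 * T)]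
          have : 2 * T ≤ 8 := by linarith [hT.2]
          gcongr
        · rw [abs_mul, abs_of_pos (by norm_num : (0 : ℝ) < 4)]
          gcongr
      rw [e1, abs_mul, abs_of_pos hε0]
      have e3 : 8 * ((5 * X T) ^ 2 / 2) + 4 * ((3 * X T) ^ 2 / 2) = 118 * (X T) ^ 2 := by ring
      rw [e3] at e2
      calc ε * |2 * T * (Real.cos (5 * X T) - 1) - 4 * (Real.cos (3 * X T) - 1)|
          ≤ 1 / 1000 * (118 * (8100 * ε ^ 2)) := by
            have := e2.trans (mul_le_mul_of_nonneg_left hX2 (by norm_num : (0 : ℝ) ≤ 118))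
            gcongr
        _ ≤ 1000 * ε ^ 2 := by nlinarith [sq_nonneg ε]
    have hfin : (X' - ε * (2 * T - 4)) * DD ε T (X T) =
        (ε * (2 * T * Real.cos (5 * X T) - 4 * Real.cos (3 * X T)) - ε * (2 * T - 4)) -
          ε * (2 * T - 4) * (DD ε T (X T) - 1) := by
      linear_combination hrel
    have hc : |ε * (2 * T - 4)| ≤ 4 * ε := by
      rw [abs_mul, abs_of_pos hε0]
      have : |2 * T - 4| ≤ 4 := by rw [abs_le]; constructor <;> linarith [hT.1, hT.2]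
      nlinarith
    have hbd : |(X' - ε * (2 * T - 4)) * DD ε T (X T)| ≤
        1000 * ε ^ 2 + 4 * ε * (10 * ε + 544 * (90 * ε) * ε) := by
      rw [hfin]
      refine (abs_sub _ _).trans (add_le_add hR ?_)
      rw [abs_mul]
      gcongr
    rw [abs_mul, abs_of_pos (by linarith : 0 < DD ε T (X T))] at hbd
    have h10 : |X' - ε * (2 * T - 4)| * (1 / 2) ≤ |X' - ε * (2 * T - 4)| * DD ε T (X T) := by
      gcongr
    have h11 : ε ^ 3 ≤ 1 / 1000 * ε ^ 2 := by
      have : ε ^ 3 = ε * ε ^ 2 := by ring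
      rw [this]; gcongr
    nlinarith [sq_nonneg ε]


end Pool.Agent.Helper506.ArcJ
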