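import Mathlib

set_option autoImplicit false
open Complex Set Filter Metric Topology

namespace Pool.Agent.Helper506.ArcJ

/-- hrm is the Riemann mapping theorem for U, it is given as a hypothesis (already proved elsewhere) -/
theorem exists_normalized_map {U : Set ℂ} {r0 : ℝ} (hr0 : 0 < r0) (hUo : IsOpen U)
    (hball : ball (0 : ℂ) r0 ⊆ U)
    (hrm : ∃ g φ : ℂ → ℂ, DifferentiableOn ℂ g (ball 0 1) ∧ BijOn g (ball 0 1) U ∧
      (∀ z ∈ ball (0 : ℂ) 1, deriv g z ≠ 0) ∧ g 0 = 0 ∧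
      DifferentiableOn ℂ φ U ∧ MapsTo φ U (ball 0 1) ∧ (∀ z ∈ U, g (φ z) = z) ∧
      (∀ z ∈ ball (0 : ℂ) 1, φ (g z) = z)) :
    ∃ (c : ℝ) (f : ℂ → ℂ), r0 ≤ c ∧ DifferentiableOn ℂ f (ball (0 : ℂ) 1) ∧
      Set.InjOn f (ball (0 : ℂ) 1) ∧ f 0 = 0 ∧ deriv f 0 = 1 ∧
      f '' ball (0 : ℂ) 1 = {w : ℂ | (c : ℂ) * w ∈ U} := by
  obtain ⟨g, φ, hg, hbij, hgd, hg0, hφ, hφm, hgφ, hφg⟩ := hrm
  have h0 : (0 : ℂ) ∈ ball (0 : ℂ) 1 := mem_ball_self one_pos
  have h0U : (0 : ℂ) ∈ U := hball (mem_ball_self hr0)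
  have hφ0 : φ 0 = 0 := by
    have := hφg 0 h0
    rwa [hg0] at this
  set β := deriv g 0 with hβ
  have hβ0 : β ≠ 0 := hgd 0 h0
  have hc0 : 0 < ‖β‖ := norm_pos_iff.2 hβ0
  have hcc : ((‖β‖ : ℝ) : ℂ) ≠ 0 := by exact_mod_cast hc0.ne'
  set e : ℂ := (starRingEnd ℂ) β / (‖β‖ : ℂ) with he
  have hen : ‖e‖ = 1 := by
    rw [he, norm_div, RCLike.norm_conj, Complex.norm_real, norm_norm, div_self hc0.ne']
  have he0 : e ≠ 0 := by
    intro h
    rw [h, norm_zero] at hen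
    exact zero_ne_one hen
  have hmem : ∀ z ∈ ball (0 : ℂ) 1, z * e ∈ ball (0 : ℂ) 1 := by
    intro z hz
    rw [mem_ball_zero_iff] at hz ⊢
    rw [norm_mul, hen, mul_one]
    exact hz
  have hgD : HasDerivAt g β 0 := (hg.differentiableAt (isOpen_ball.mem_nhds h0)).hasDerivAt
  have hφD : HasDerivAt φ (deriv φ 0) 0 := (hφ.differentiableAt (hUo.mem_nhds h0U)).hasDerivAt
  refine ⟨‖β‖, fun z => g (z * e) / (‖β‖ : ℂ), ?_, ?_, ?_, ?_, ?_, ?_⟩
  · -- r0 ≤ c
    have h1 : ‖deriv φ 0‖ ≤ 1 / r0 := by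
      apply Complex.norm_deriv_le_div_of_mapsTo_ball (hφ.mono hball) _ hr0
      intro z hz
      rw [hφ0]
      exact ball_subset_closedBall (hφm (hball hz))
    have h2 : β * deriv φ 0 = 1 := by
      have h3 : HasDerivAt (g ∘ φ) (β * deriv φ 0) 0 := by
        apply HasDerivAt.comp 0 _ hφD
        rw [hφ0]
        exact hgD
      have h4 : HasDerivAt (g ∘ φ) 1 0 := by
        refine (hasDerivAt_id (0 : ℂ)).congr_of_eventuallyEq ?_
        filter_upwards [hUo.mem_nhds h0U] with w hw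
        exact hgφ w hw
      exact h3.unique h4
    have h3 : ‖β‖ * ‖deriv φ 0‖ = 1 := by rw [← norm_mul, h2, norm_one]
    have h4 : ‖β‖ * ‖deriv φ 0‖ ≤ ‖β‖ * (1 / r0) := mul_le_mul_of_nonneg_left h1 hc0.le
    rw [h3, mul_one_div, le_div_iff₀ hr0, one_mul] at h4
    exact h4
  · apply DifferentiableOn.div_const
    exact hg.comp (differentiableOn_id.mul_const e) hmem
  · intro z hz w hw h
    simp only at h
    rw [div_left_inj' hcc] at h
    have := hbij.injOn (hmem z hz) (hmem w hw) h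
    exact mul_right_cancel₀ he0 this
  · simp [hg0]
  · have h1 : HasDerivAt (fun z : ℂ => z * e) e 0 := by
      simpa using (hasDerivAt_id (0 : ℂ)).mul_const e
    have h2 : HasDerivAt (fun z : ℂ => g (z * e)) (β * e) 0 := by
      apply HasDerivAt.comp (0 : ℂ) _ h1
      simpa using hgD
    have h3 := (h2.div_const (‖β‖ : ℂ)).deriv
    rw [h3, he, mul_div_assoc', Complex.mul_conj, Complex.normSq_eq_norm_sq]
    push_cast
    field_simp
  · ext w
    simp only [mem_image]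
    constructor
    · rintro ⟨z, hz, rfl⟩
      change (‖β‖ : ℂ) * (g (z * e) / (‖β‖ : ℂ)) ∈ U
      rw [mul_div_cancel₀ _ hcc]
      exact hbij.mapsTo (hmem z hz)
    · intro hw
      have hw' : (‖β‖ : ℂ) * w ∈ U := hw
      refine ⟨φ ((‖β‖ : ℂ) * w) / e, ?_, ?_⟩
      · have := hφm hw'
        rw [mem_ball_zero_iff] at this ⊢
        rw [norm_div, hen, div_one]
        exact this
      · rw [div_mul_cancel₀ _ he0, hgφ _ hw', mul_div_cancel_left₀ _ hcc]


end Pool.Agent.Helper506.ArcJ
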