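import Mathlib

set_option autoImplicit false
open Complex Set Filter Metric Topology

namespace Pool.Agent.Helper506.ArcJ

/-- the twist homeomorphism -/
noncomputable def twistHomeo (Θ : ℝ → ℝ) (hΘ : Continuous Θ) : ℂ ≃ₜ ℂ where
  toFun w := w * Complex.exp (Θ ‖w‖ * I)
  invFun w := w * Complex.exp (-(Θ ‖w‖ * I))
  left_inv w := by
    have h : ‖w * Complex.exp (Θ ‖w‖ * I)‖ = ‖w‖ := by
      rw [norm_mul, Complex.norm_exp_ofReal_mul_I, mul_one]
    simp only [h]
    rw [mul_assoc, ← Complex.exp_add]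
    simp
  right_inv w := by
    have h : ‖w * Complex.exp (-(Θ ‖w‖ * I))‖ = ‖w‖ := by
      rw [norm_mul, ← neg_mul, ← Complex.ofReal_neg, Complex.norm_exp_ofReal_mul_I, mul_one]
    simp only [h]
    rw [mul_assoc, ← Complex.exp_add]
    simp
  continuous_toFun := by fun_prop
  continuous_invFun := by fun_prop

/-- the straight slit -/
def straight (r0 : ℝ) : Set ℂ := (fun r : ℝ => -(r : ℂ)) '' Ici r0

theorem slit_eq (Θ : ℝ → ℝ) (hΘ : Continuous Θ) {r0 : ℝ} (hr0 : 0 < r0) :
    (fun r : ℝ => -(r : ℂ) * Complex.exp (Θ r * I)) '' Ici r0 =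
      (twistHomeo Θ hΘ) '' straight r0 := by
  unfold straight
  rw [Set.image_image]
  apply Set.image_congr
  intro r hr
  have h0 : 0 ≤ r := hr0.le.trans hr
  show -(r : ℂ) * Complex.exp (Θ r * I) = -(r : ℂ) * Complex.exp (Θ ‖-(r : ℂ)‖ * I)
  rw [norm_neg, Complex.norm_real, Real.norm_of_nonneg h0]

theorem straight_eq (r0 : ℝ) : straight r0 = {z : ℂ | z.im = 0 ∧ z.re ≤ -r0} := by
  ext z
  constructor
  · rintro ⟨r, hr, rfl⟩
    have : r0 ≤ r := hr
    constructor
    · simp
    · simp only [Complex.neg_re, Complex.ofReal_re]; linarith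
  · rintro ⟨h1, h2⟩
    refine ⟨-z.re, ?_, ?_⟩
    · show r0 ≤ -z.re
      linarith
    · apply Complex.ext <;> simp [h1]

/-- a slit which is a graph over the modulus: closed, and its complement is simply connected -/
theorem slit_isClosed (Θ : ℝ → ℝ) (hΘ : Continuous Θ) {r0 : ℝ} (hr0 : 0 < r0) :
    IsClosed ((fun r : ℝ => -(r : ℂ) * Complex.exp (Θ r * I)) '' Ici r0) := by
  rw [slit_eq Θ hΘ hr0, (twistHomeo Θ hΘ).isClosed_image, straight_eq]
  exact (isClosed_eq Complex.continuous_im continuous_const).inter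
    (isClosed_le Complex.continuous_re continuous_const)

theorem slit_compl_simplyConnected (Θ : ℝ → ℝ) (hΘ : Continuous Θ) {r0 : ℝ} (hr0 : 0 < r0) :
    IsSimplyConnected ((fun r : ℝ => -(r : ℂ) * Complex.exp (Θ r * I)) '' Ici r0)ᶜ := by
  rw [slit_eq Θ hΘ hr0, ← Set.image_compl_eq (twistHomeo Θ hΘ).bijective,
    Homeomorph.isSimplyConnected_image, straight_eq]
  have hstar : StarConvex ℝ (0 : ℂ) {z : ℂ | z.im = 0 ∧ z.re ≤ -r0}ᶜ := by
    intro z hz a b ha hb hab
    rintro ⟨h1, h2⟩
    simp only [smul_zero, zero_add, Complex.real_smul, Complex.mul_im, Complex.ofReal_re,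
      Complex.ofReal_im, zero_mul, add_zero, Complex.mul_re, sub_zero] at h1 h2
    apply hz
    have hbpos : 0 < b := by
      rcases hb.lt_or_eq with h | h
      · exact h
      · rw [← h] at h2; linarith
    have hb1 : b ≤ 1 := by linarith
    refine ⟨?_, ?_⟩
    · rcases mul_eq_zero.1 h1 with h | h
      · exact absurd h hbpos.ne'
      · exact h
    · by_contra h3
      push Not at h3
      nlinarith
  have hne : ({z : ℂ | z.im = 0 ∧ z.re ≤ -r0}ᶜ).Nonempty := by
    refine ⟨0, ?_⟩
    rintro ⟨-, h2⟩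
    simp only [Complex.zero_re] at h2
    linarith
  have := hstar.contractibleSpace hne
  exact SimplyConnectedSpace.ofContractible _


end Pool.Agent.Helper506.ArcJ
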