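import Pool.Agent.Helper506.ArcSupport
import Pool.Agent.Helper506.ArcJCurve
import Pool.Agent.Helper506.ArcJSlit
import Pool.Agent.Helper506.ArcJMap
import Pool.Agent.Helper506.ArcJBoundary
import Pool.Agent.Helper506.ArcRM

set_option autoImplicit false
open Complex Set Filter Metric Topology

namespace Pool.Agent.Helper506.Arc

open Pool.Agent.Helper506.ArcJ

/-- On the curve the odd polynomial u + 4 i eps u^3 + i eps u^5 is purely imaginary. -/
theorem curve_re {ε r X : ℝ} (hr : 0 < r)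
    (hX : Real.sin X = ε * ((1 / r) ^ 2 * Real.cos (5 * X) - 4 * (1 / r) * Real.cos (3 * X)))
    {u : ℂ} (hu : u ^ 2 * (-(r : ℂ) * Complex.exp (((2 * X : ℝ) : ℂ) * I)) = 1) :
    (u + 4 * I * ε * u ^ 3 + I * ε * u ^ 5).re = 0 := by
  set ρ : ℝ := Real.sqrt (1 / r) with hρ
  have hρ2 : ρ ^ 2 = 1 / r := Real.sq_sqrt (by positivity)
  have hρr : (ρ : ℂ) ^ 2 * r = 1 := by
    have : ρ ^ 2 * r = 1 := by rw [hρ2]; field_simp
    exact_mod_cast this
  set v : ℂ := I * ρ * Complex.exp (-((X : ℝ) : ℂ) * I) with hv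
  have hexp : Complex.exp (-((X : ℝ) : ℂ) * I) ^ 2 * Complex.exp (((2 * X : ℝ) : ℂ) * I) = 1 := by
    rw [← Complex.exp_nat_mul, ← Complex.exp_add]
    push_cast
    rw [show (2 : ℂ) * (-(X : ℂ) * I) + 2 * (X : ℂ) * I = 0 by ring, Complex.exp_zero]
  have hE : Complex.exp (((2 * X : ℝ) : ℂ) * I) ≠ 0 := Complex.exp_ne_zero _
  have hv2 : v ^ 2 * (-(r : ℂ) * Complex.exp (((2 * X : ℝ) : ℂ) * I)) = 1 := by
    rw [hv]
    have : (I * ρ * Complex.exp (-((X : ℝ) : ℂ) * I)) ^ 2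
          * (-(r : ℂ) * Complex.exp (((2 * X : ℝ) : ℂ) * I))
        = -(I ^ 2) * ((ρ : ℂ) ^ 2 * r)
          * (Complex.exp (-((X : ℝ) : ℂ) * I) ^ 2 * Complex.exp (((2 * X : ℝ) : ℂ) * I)) := by
      ring
    rw [this, hρr, hexp, Complex.I_sq]
    ring
  have huv : u ^ 2 = v ^ 2 := by
    have hne : (-(r : ℂ) * Complex.exp (((2 * X : ℝ) : ℂ) * I)) ≠ 0 := by
      refine mul_ne_zero (neg_ne_zero.2 ?_) hE
      exact_mod_cast hr.ne'
    exact mul_right_cancel₀ hne (hu.trans hv2.symm)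
  -- powers of v
  have hcs : Complex.exp (-((X : ℝ) : ℂ) * I) = (Real.cos X : ℂ) - Real.sin X * I := by
    rw [show -((X : ℝ) : ℂ) * I = ((-X : ℝ) : ℂ) * I by push_cast; ring, Complex.exp_mul_I]
    rw [← Complex.ofReal_cos, ← Complex.ofReal_sin, Real.cos_neg, Real.sin_neg]
    push_cast; ring
  have hcs3 : Complex.exp (-((X : ℝ) : ℂ) * I) ^ 3
      = (Real.cos (3 * X) : ℂ) - Real.sin (3 * X) * I := by
    rw [← Complex.exp_nat_mul, show ((3 : ℕ) : ℂ) * (-((X : ℝ) : ℂ) * I)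
      = ((-(3 * X) : ℝ) : ℂ) * I by push_cast; ring, Complex.exp_mul_I]
    rw [← Complex.ofReal_cos, ← Complex.ofReal_sin, Real.cos_neg, Real.sin_neg]
    push_cast; ring
  have hcs5 : Complex.exp (-((X : ℝ) : ℂ) * I) ^ 5
      = (Real.cos (5 * X) : ℂ) - Real.sin (5 * X) * I := by
    rw [← Complex.exp_nat_mul, show ((5 : ℕ) : ℂ) * (-((X : ℝ) : ℂ) * I)
      = ((-(5 * X) : ℝ) : ℂ) * I by push_cast; ring, Complex.exp_mul_I]
    rw [← Complex.ofReal_cos, ← Complex.ofReal_sin, Real.cos_neg, Real.sin_neg]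
    push_cast; ring
  have hI3 : I ^ 3 = -I := by rw [pow_succ, Complex.I_sq]; ring
  have hI5 : I ^ 5 = I := by
    rw [show (5 : ℕ) = 2 + 2 + 1 by norm_num, pow_add, pow_add, Complex.I_sq]; ring
  have hv1' : v = ((ρ * Real.sin X : ℝ) : ℂ) + ((ρ * Real.cos X : ℝ) : ℂ) * I := by
    rw [hv, hcs]; push_cast
    linear_combination (-(ρ : ℂ) * Complex.sin X) * Complex.I_sq
  have hv3' : 4 * I * ε * v ^ 3 = ((4 * ε * ρ ^ 3 * Real.cos (3 * X) : ℝ) : ℂ)
      - ((4 * ε * ρ ^ 3 * Real.sin (3 * X) : ℝ) : ℂ) * I := by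
    have : v ^ 3 = I ^ 3 * ρ ^ 3 * Complex.exp (-((X : ℝ) : ℂ) * I) ^ 3 := by rw [hv]; ring
    rw [this, hcs3, hI3]
    push_cast
    linear_combination (-(4 * ε * (ρ : ℂ) ^ 3) * (Complex.cos (3 * X) - Complex.sin (3 * X) * I))
      * Complex.I_sq
  have hv5' : I * ε * v ^ 5 = ((-(ε * ρ ^ 5 * Real.cos (5 * X)) : ℝ) : ℂ)
      + ((ε * ρ ^ 5 * Real.sin (5 * X) : ℝ) : ℂ) * I := by
    have : v ^ 5 = I ^ 5 * ρ ^ 5 * Complex.exp (-((X : ℝ) : ℂ) * I) ^ 5 := by rw [hv]; ring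
    rw [this, hcs5, hI5]
    push_cast
    linear_combination (ε * (ρ : ℂ) ^ 5 * (Complex.cos (5 * X) - Complex.sin (5 * X) * I))
      * Complex.I_sq
  have hvre : (v + 4 * I * ε * v ^ 3 + I * ε * v ^ 5).re = 0 := by
    rw [hv3', hv5']
    have h1 : v.re = ρ * Real.sin X := by
      rw [hv1']; simp only [Complex.add_re, Complex.mul_re, Complex.ofReal_re, Complex.ofReal_im,
        Complex.I_re, Complex.I_im]; ring
    simp only [Complex.add_re, Complex.sub_re, Complex.mul_re, Complex.ofReal_re, Complex.ofReal_im,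
        Complex.I_re, Complex.I_im, h1]
    rw [hX, ← hρ2]
    ring
  rcases sq_eq_sq_iff_eq_or_eq_neg.1 huv with h | h
  · rw [h]; exact hvre
  · rw [h]
    have : (-v + 4 * I * ε * (-v) ^ 3 + I * ε * (-v) ^ 5)
        = -(v + 4 * I * ε * v ^ 3 + I * ε * v ^ 5) := by ring
    rw [this, Complex.neg_re, hvre, neg_zero]

/-- the omitted arc, parametrised by the modulus (before scaling) -/
noncomputable def arcPt (X : ℝ → ℝ) (c r : ℝ) : ℂ :=
  (((-(r / c)) : ℝ) : ℂ) * Complex.exp (((2 * X (1 / r) : ℝ) : ℂ) * I)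

theorem exists_example : ∃ (f : ℂ → ℂ) (c ε C : ℝ) (X : ℝ → ℝ), 0 < ε ∧ 0 < c ∧ 0 < C ∧
    C * ε ≤ 1 / 2 ∧ InS f ∧ IsSupp f ∧
    (f '' ball (0 : ℂ) 1)ᶜ = (arcPt X c) '' Ici (1 / 4) ∧
    ContinuousOn X (Icc 0 4) ∧
    (∀ T ∈ Icc (0 : ℝ) 4, |X T| < 1 / 2) ∧
    (∀ T ∈ Icc (0 : ℝ) 4, AnalyticAt ℝ X T) ∧
    (∀ T ∈ Icc (0 : ℝ) 4, |X T - ε * (T ^ 2 - 4 * T)| ≤ C * ε ^ 2) ∧
    (∀ T ∈ Icc (0 : ℝ) 4, |deriv X T - ε * (2 * T - 4)| ≤ C * ε ^ 2) := by
  obtain ⟨δ, hδ, hsupp⟩ := support_of_sym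
  obtain ⟨e0, C, he0, hC, hcurve⟩ := implicit_curve
  set ε : ℝ := min e0 (min (δ / 16) (1 / (2 * C))) with hε
  have hε0 : 0 < ε := by positivity
  have hεe : ε ≤ e0 := min_le_left _ _
  have hεδ : ε ≤ δ / 16 := (min_le_right _ _).trans (min_le_left _ _)
  have hεC : ε ≤ 1 / (2 * C) := (min_le_right _ _).trans (min_le_right _ _)
  obtain ⟨X, hXc, hX0, hXb, hXeq, hXan, hXapp, hXder⟩ := hcurve ε hε0 hεe
  set Θ : ℝ → ℝ := fun r => 2 * X (1 / max r (1 / 4)) with hΘ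
  have hmem : ∀ r : ℝ, 1 / max r (1 / 4) ∈ Icc (0 : ℝ) 4 := by
    intro r
    have h1 : (1 / 4 : ℝ) ≤ max r (1 / 4) := le_max_right _ _
    have h2 : 0 < max r (1 / 4) := by linarith
    refine ⟨by positivity, ?_⟩
    rw [div_le_iff₀ h2]; linarith
  have hΘc : Continuous Θ := by
    have h1 : Continuous (fun r : ℝ => 1 / max r (1 / 4)) := by
      refine continuous_const.div (continuous_id.max continuous_const) fun r => ?_
      have h1 : (1 / 4 : ℝ) ≤ max r (1 / 4) := le_max_right _ _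
      have h2 : 0 < max r (1 / 4) := by linarith
      exact h2.ne'
    exact continuous_const.mul (hXc.comp_continuous h1 hmem)
  set Γ : Set ℂ := (fun r : ℝ => -(r : ℂ) * Complex.exp (Θ r * I)) '' Ici (1 / 4) with hΓ
  have hΓc : IsClosed Γ := slit_isClosed Θ hΘc (by norm_num)
  have hΓs : IsSimplyConnected Γᶜ := slit_compl_simplyConnected Θ hΘc (by norm_num)
  have hnorm : ∀ w ∈ Γ, 1 / 4 ≤ ‖w‖ := by
    rintro w ⟨r, hr, rfl⟩
    have hr0 : (1 / 4 : ℝ) ≤ r := hr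
    simp only [norm_mul, norm_neg, Complex.norm_real, Complex.norm_exp_ofReal_mul_I, mul_one]
    rw [Real.norm_of_nonneg (by linarith)]
    exact hr0
  have hball : ball (0 : ℂ) (1 / 4) ⊆ Γᶜ := by
    intro w hw hwΓ
    have := hnorm w hwΓ
    rw [mem_ball_zero_iff] at hw
    linarith
  have h0U : (0 : ℂ) ∈ Γᶜ := hball (mem_ball_self (by norm_num))
  have hneU : Γᶜ ≠ univ := by
    intro h
    have : (fun r : ℝ => -(r : ℂ) * Complex.exp (Θ r * I)) (1 / 4) ∈ Γᶜ := by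
      rw [h]; trivial
    exact this ⟨1 / 4, by simp, rfl⟩
  have hrm := ArcRM.riemann_inv hΓc.isOpen_compl hΓs hneU h0U
  obtain ⟨c, f, hc, hfd, hfi, hf0, hf1, hfim⟩ :=
    exists_normalized_map (by norm_num : (0 : ℝ) < 1 / 4) hΓc.isOpen_compl hball hrm
  have hc0 : 0 < c := by linarith
  have hfS : InS f := ⟨hfd, hfi, hf0, hf1⟩
  have hcC : (c : ℂ) ≠ 0 := by exact_mod_cast hc0.ne'
  obtain ⟨s, hs⟩ := exists_root hfS
  set c3 : ℂ := 4 * I * ε / c with hc3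
  set c5 : ℂ := I * ε / (c : ℂ) ^ 2 with hc5
  have hκ := KK_PS (Classical.choose_spec (exists_PS hs.1)) c3 c5
  have hcompl : ∀ w : ℂ, w ∉ f '' ball (0 : ℂ) 1 → (c : ℂ) * w ∈ Γ := by
    intro w hw
    rw [hfim] at hw
    by_contra h
    exact hw h
  have hsym := boundary_sym f s hfd hfi hf0 hs.1 hs.2.2.1 hs.2.2.2 c3 c5 (by
    intro w hw u hu
    obtain ⟨r, hr, hrw⟩ := hcompl w hw
    have hr0 : (1 / 4 : ℝ) ≤ r := hr
    have hrp : 0 < r := by linarith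
    have hmax : max r (1 / 4) = r := max_eq_left hr0
    simp only [hΘ, hmax] at hrw
    set q : ℝ := Real.sqrt c with hq
    have hq0 : 0 < q := Real.sqrt_pos.2 hc0
    have hqc : (q : ℂ) ^ 2 = c := by
      have : q ^ 2 = c := Real.sq_sqrt hc0.le
      exact_mod_cast this
    have hqC : (q : ℂ) ≠ 0 := by exact_mod_cast hq0.ne'
    have hX : Real.sin (X (1 / r)) = ε * ((1 / r) ^ 2 * Real.cos (5 * X (1 / r))
        - 4 * (1 / r) * Real.cos (3 * X (1 / r))) := by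
      have := hXeq (1 / max r (1 / 4)) (hmem r)
      rwa [hmax] at this
    have hu' : (u / q) ^ 2 * (-(r : ℂ) * Complex.exp (((2 * X (1 / r) : ℝ) : ℂ) * I)) = 1 := by
      rw [hrw, div_pow, hqc]
      rw [← hu]
      field_simp
    have hre := curve_re hrp hX hu'
    have hfac : u + c3 * u ^ 3 + c5 * u ^ 5
        = (q : ℂ) * (u / q + 4 * I * ε * (u / q) ^ 3 + I * ε * (u / q) ^ 5) := by
      rw [hc3, hc5, ← hqc]
      field_simp
    rw [hfac, Complex.re_ofReal_mul, hre, mul_zero]) _ hκ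
  have hn3 : ‖c3‖ ≤ δ := by
    rw [hc3]
    simp only [norm_div, norm_mul, Complex.norm_I, Complex.norm_real, mul_one]
    rw [Real.norm_of_nonneg hε0.le, Real.norm_of_nonneg hc0.le, div_le_iff₀ hc0]
    have : ‖(4 : ℂ)‖ = 4 := by simp
    rw [this]
    nlinarith
  have hn5 : ‖c5‖ ≤ δ := by
    rw [hc5]
    simp only [norm_div, norm_mul, norm_pow, Complex.norm_I, Complex.norm_real, one_mul]
    rw [Real.norm_of_nonneg hε0.le, Real.norm_of_nonneg hc0.le, div_le_iff₀ (by positivity)]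
    have : (1 / 4) ^ 2 ≤ c ^ 2 := by gcongr
    nlinarith
  have hfsupp : IsSupp f := hsupp c3 c5 hn3 hn5 f s _ hfS hs hκ hsym
  refine ⟨f, c, ε, C, X, hε0, hc0, hC, ?_, hfS, hfsupp, ?_, hXc, hXb, hXan, hXapp, hXder⟩
  · calc C * ε ≤ C * (1 / (2 * C)) := by gcongr
      _ = 1 / 2 := by field_simp
  · rw [hfim]
    ext w
    simp only [mem_compl_iff, mem_setOf_eq, not_not, mem_image]
    constructor
    · rintro h
      obtain ⟨r, hr, hrw⟩ := h
      have hr0 : (1 / 4 : ℝ) ≤ r := hr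
      have hmax : max r (1 / 4) = r := max_eq_left hr0
      refine ⟨r, hr, ?_⟩
      simp only [hΘ, hmax] at hrw
      have : w = (c : ℂ)⁻¹ * ((c : ℂ) * w) := by field_simp
      rw [this, ← hrw, arcPt]
      push_cast
      field_simp
    · rintro ⟨r, hr, rfl⟩
      have hr0 : (1 / 4 : ℝ) ≤ r := hr
      have hmax : max r (1 / 4) = r := max_eq_left hr0
      refine ⟨r, hr, ?_⟩
      simp only [hΘ, hmax, arcPt]
      push_cast
      field_simp

end Pool.Agent.Helper506.Arc
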