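import Pool.Agent.Helper506.ArcPS

set_option autoImplicit false
open Complex Set Filter Metric Topology

namespace Pool.Agent.Helper506.Arc

theorem PS.cauchy {a : ℕ → ℂ} {f : ℂ → ℂ} (ha : PS a f) {r M : ℝ} (hr0 : 0 < r) (hr1 : r < 1)
    (hM : ∀ z : ℂ, ‖z‖ = r → ‖f z‖ ≤ M) (n : ℕ) : ‖a n‖ ≤ M / r ^ n := by
  have hd := ha.differentiableOn
  have h1 : a = fun n => (n.factorial : ℂ)⁻¹ * iteratedDeriv n f 0 := by
    apply ha.unique
    intro z hz
    have h := Complex.hasSum_taylorSeries_on_ball (r := (1 : NNReal)) (c := (0 : ℂ)) (z := z)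
      (f := f) (by simpa using hd) (by simpa using hz)
    simp only [sub_zero, smul_eq_mul] at h
    have h2 : (fun n : ℕ => (n.factorial : ℂ)⁻¹ * iteratedDeriv n f 0 * z ^ n)
        = fun n : ℕ => (n.factorial : ℂ)⁻¹ * (z ^ n * iteratedDeriv n f 0) := by
      funext n; ring
    simpa only [h2] using h
  have h2 := Complex.norm_iteratedDeriv_le_of_forall_mem_sphere_norm_le (c := (0 : ℂ)) (f := f) n hr0
    (C := M) ((hd.mono (by
      intro z hz
      have := closure_ball_subset_closedBall hz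
      rw [mem_closedBall_zero_iff] at this
      rw [mem_ball_zero_iff]; linarith)).diffContOnCl) (by
      intro z hz
      exact hM z (by simpa using hz))
  rw [h1]
  simp only [norm_mul, norm_inv, Complex.norm_natCast]
  rw [inv_mul_le_iff₀ (by positivity)]
  calc _ ≤ _ := h2
    _ = _ := by ring

/-- the space of functions holomorphic in the unit disc -/
def WW : Submodule ℂ (ℂ → ℂ) where
  carrier := {f | DifferentiableOn ℂ f (ball (0 : ℂ) 1)}
  add_mem' := fun hf hg => DifferentiableOn.add hf hg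
  zero_mem' := differentiableOn_const 0
  smul_mem' := fun c _ hf => DifferentiableOn.const_smul hf c

noncomputable def coe (g : WW) : ℕ → ℂ := Classical.choose (exists_PS g.2)

theorem coe_PS (g : WW) : PS (coe g) (g : ℂ → ℂ) := Classical.choose_spec (exists_PS g.2)

theorem coe_add (g h : WW) : coe (g + h) = fun n => coe g n + coe h n :=
  (coe_PS (g + h)).unique ((coe_PS g).add (coe_PS h))

theorem coe_smul (c : ℂ) (g : WW) : coe (c • g) = fun n => c * coe g n :=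
  (coe_PS (c • g)).unique ((coe_PS g).const_mul c)

noncomputable def coe5 : WW →ₗ[ℂ] E5 where
  toFun := fun g i => coe g (i + 2)
  map_add' := fun g h => by
    funext i
    simp [coe_add]
  map_smul' := fun c g => by
    funext i
    simp [coe_smul]

theorem exists_functional (l : E5 →ₗ[ℝ] ℝ) :
    ∃ L : (ℂ → ℂ) →ₗ[ℂ] ℂ, ∃ C : ℝ,
      (∀ g : ℂ → ℂ, DifferentiableOn ℂ g (ball (0 : ℂ) 1) →
        ∀ M : ℝ, (∀ z : ℂ, ‖z‖ ≤ 1 / 2 → ‖g z‖ ≤ M) → ‖L g‖ ≤ C * M) ∧
      ∀ (g : ℂ → ℂ) (a : ℕ → ℂ), PS a g → (L g).re = l (fun i => a (i + 2)) := by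
  set lc : E5 →ₗ[ℂ] ℂ := Module.Dual.extendRCLike (𝕜 := ℂ) l with hlc
  have hre : ∀ x : E5, (lc x).re = l x := fun x => Module.Dual.re_extendRCLike_apply (𝕜 := ℂ) l x
  obtain ⟨L, hL⟩ := LinearMap.exists_extend (lc.comp coe5)
  have hLg : ∀ (g : ℂ → ℂ) (a : ℕ → ℂ), PS a g → L g = lc (fun i => a (i + 2)) := by
    intro g a ha
    have hg : g ∈ WW := ha.differentiableOn
    have h1 := LinearMap.congr_fun hL (⟨g, hg⟩ : WW)
    have h2 : L g = lc (coe5 ⟨g, hg⟩) := h1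
    have h3 : coe (⟨g, hg⟩ : WW) = a := (coe_PS (⟨g, hg⟩ : WW)).unique ha
    rw [h2]
    congr 1
    funext i
    change coe (⟨g, hg⟩ : WW) (i + 2) = _
    rw [h3]
  -- continuity
  set lC : E5 →L[ℂ] ℂ := LinearMap.toContinuousLinearMap lc with hlC
  refine ⟨L, ‖lC‖ * 2 ^ 6, fun g hg M hM => ?_, fun g a ha => ?_⟩
  · obtain ⟨a, ha⟩ := exists_PS hg
    rw [hLg g a ha]
    have hM0 : 0 ≤ M := (norm_nonneg _).trans (hM 0 (by simp))
    have h4 : ∀ n, ‖a n‖ ≤ M / (1 / 2) ^ n := fun n =>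
      ha.cauchy (by norm_num) (by norm_num) (fun z hz => hM z hz.le) n
    have h5 : ‖(fun i : Fin 5 => a (i + 2))‖ ≤ M * 2 ^ 6 := by
      rw [pi_norm_le_iff_of_nonneg (by positivity)]
      intro i
      refine (h4 _).trans ?_
      rw [one_div, inv_pow, div_inv_eq_mul]
      have h6 : (i : ℕ) + 2 ≤ 6 := by have := i.2; omega
      have h7 : (2 : ℝ) ^ ((i : ℕ) + 2) ≤ 2 ^ 6 := pow_le_pow_right₀ (by norm_num) h6
      exact mul_le_mul_of_nonneg_left h7 hM0
    have h8 : ‖lC (fun i : Fin 5 => a (i + 2))‖ ≤ ‖lC‖ * (M * 2 ^ 6) :=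
      (lC.le_opNorm _).trans (mul_le_mul_of_nonneg_left h5 (norm_nonneg _))
    calc ‖lc (fun i : Fin 5 => a (i + 2))‖ ≤ ‖lC‖ * (M * 2 ^ 6) := h8
      _ = ‖lC‖ * 2 ^ 6 * M := by ring
  · rw [hLg g a ha, hre]

end Pool.Agent.Helper506.Arc
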