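import Mathlib

set_option autoImplicit false
open Complex Set Filter Metric Topology

namespace Pool.Agent.Helper506.ArcJ

/-- Cauchy estimate for the coefficients of a power series with bounded coefficients. -/
theorem j1164_cauchy (a : ℕ → ℂ) (f : ℂ → ℂ) (K M : ℝ) (ha : ∀ n, ‖a n‖ ≤ K)
    (hf : ∀ z : ℂ, ‖z‖ < 1 → HasSum (fun n => a n * z ^ n) (f z))
    (hM : ∀ z : ℂ, ‖z‖ = 1 / 4 → ‖f z‖ ≤ M) (n : ℕ) : ‖a n‖ ≤ M * 4 ^ n := by
  have h1 : HasFPowerSeriesOnBall f (FormalMultilinearSeries.ofScalars ℂ a) 0 1 := by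
    refine ⟨?_, by norm_num, ?_⟩
    · have := FormalMultilinearSeries.le_radius_of_bound
        (FormalMultilinearSeries.ofScalars ℂ a) K (r := 1) (by
          intro k
          rw [FormalMultilinearSeries.ofScalars_norm]
          simpa using ha k)
      simpa using this
    · intro y hy
      have hy' : ‖y‖ < 1 := by
        rw [Metric.mem_eball, edist_zero_right] at hy
        have : (‖y‖ₑ : ENNReal) < 1 := hy
        rw [← ofReal_norm, ENNReal.ofReal_lt_one] at this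
        exact this
      have h2 := hf y hy'
      rw [zero_add]
      have h3 : (fun k : ℕ => FormalMultilinearSeries.ofScalars ℂ a k fun _ => y) =
          (fun k : ℕ => a k * y ^ k) := by
        funext k
        rw [FormalMultilinearSeries.ofScalars_apply_eq, smul_eq_mul]
      rw [h3]
      exact h2
  have hd : DifferentiableOn ℂ f (closedBall 0 ((1 / 4 : NNReal) : ℝ)) := by
    refine h1.differentiableOn.mono ?_
    intro z hz
    rw [mem_closedBall, dist_zero_right] at hz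
    rw [Metric.mem_eball, edist_zero_right, ← ofReal_norm, ENNReal.ofReal_lt_one]
    have : ((1 / 4 : NNReal) : ℝ) = 1 / 4 := by norm_num
    rw [this] at hz
    linarith
  have h3 := hd.hasFPowerSeriesOnBall (by norm_num)
  have h4 := h1.hasFPowerSeriesAt.eq_formalMultilinearSeries h3.hasFPowerSeriesAt
  have h5 := norm_cauchyPowerSeries_le f 0 (((1 / 4 : NNReal) : ℝ)) n
  rw [← h4, FormalMultilinearSeries.ofScalars_norm] at h5
  have hr : ((1 / 4 : NNReal) : ℝ) = 1 / 4 := by norm_num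
  rw [hr] at h5
  have h6 : ∫ θ : ℝ in 0..2 * Real.pi, ‖f (circleMap 0 (1 / 4) θ)‖ ≤ 2 * Real.pi * M := by
    have hcont : Continuous (fun θ : ℝ => f (circleMap 0 (1 / 4) θ)) := by
      have hc : ContinuousOn f (closedBall 0 ((1 / 4 : NNReal) : ℝ)) := hd.continuousOn
      refine hc.comp_continuous (continuous_circleMap 0 (1 / 4)) ?_
      intro θ
      rw [hr]
      exact circleMap_mem_closedBall 0 (by norm_num) θ
    have h7 : ∫ θ : ℝ in 0..2 * Real.pi, ‖f (circleMap 0 (1 / 4) θ)‖ ≤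
        ∫ _ : ℝ in 0..2 * Real.pi, M := by
      apply intervalIntegral.integral_mono_on (by positivity)
      · exact hcont.norm.intervalIntegrable _ _
      · exact intervalIntegrable_const
      · intro θ _
        apply hM
        simp [circleMap]
    rw [intervalIntegral.integral_const, sub_zero, smul_eq_mul] at h7
    exact h7
  have h8 : (|(1 / 4 : ℝ)|⁻¹) ^ n = 4 ^ n := by
    rw [abs_of_pos (by norm_num)]
    norm_num
  rw [h8] at h5
  have h9 : (2 * Real.pi)⁻¹ * ∫ θ : ℝ in 0..2 * Real.pi, ‖f (circleMap 0 (1 / 4) θ)‖ ≤ M := by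
    rw [inv_mul_le_iff₀ (by positivity)]
    exact h6
  exact h5.trans (mul_le_mul_of_nonneg_right h9 (by positivity))

theorem j1164_bound (a : ℕ → ℂ) (K : ℝ) (ha : ∀ n, ‖a n‖ ≤ K) (z w : ℂ) (hz : ‖z‖ = 1 / 4)
    (h : HasSum (fun n => a n * z ^ n) w) : ‖w‖ ≤ K * (4 / 3) := by
  have h1 : HasSum (fun n : ℕ => K * (1 / 4 : ℝ) ^ n) (K * (4 / 3)) := by
    have := hasSum_geometric_of_lt_one (r := (1 / 4 : ℝ)) (by norm_num) (by norm_num)
    have h2 := this.mul_left K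
    norm_num at h2 ⊢
    exact h2
  refine h.norm_le_of_bounded h1 ?_
  intro n
  rw [norm_mul, norm_pow, hz]
  exact mul_le_mul_of_nonneg_right (ha n) (by positivity)

theorem coercive : ∃ δ C : ℝ, 0 < δ ∧ 0 < C ∧ ∀ c3 c5 : ℂ, ‖c3‖ ≤ δ → ‖c5‖ ≤ δ →
    ∀ (s t : ℂ → ℂ) (σ τ κ μ : ℕ → ℂ),
      (∀ z : ℂ, ‖z‖ < 1 → HasSum (fun n => σ n * z ^ n) (s z)) →
      (∀ z : ℂ, ‖z‖ < 1 → HasSum (fun n => τ n * z ^ n) (t z)) →
      (∀ n, ‖σ n‖ ≤ 1) → (∀ n, ‖τ n‖ ≤ 1) →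
      (∀ z : ℂ, ‖z‖ < 1 →
        HasSum (fun n => κ n * z ^ n) (z ^ 2 * s z + c3 * z * s z ^ 3 + c5 * s z ^ 5)) →
      (∀ z : ℂ, ‖z‖ < 1 →
        HasSum (fun n => μ n * z ^ n) (z ^ 2 * t z + c3 * z * t z ^ 3 + c5 * t z ^ 5)) →
      κ 0 = c5 → κ 1 = c3 + c5 * (5 * σ 1) →
      κ 2 = 1 + c3 * (3 * σ 1) + c5 * (5 * σ 2 + 10 * σ 1 ^ 2) →
      μ 0 = c5 → μ 1 = c3 + c5 * (5 * τ 1) →
      μ 2 = 1 + c3 * (3 * τ 1) + c5 * (5 * τ 2 + 10 * τ 1 ^ 2) →
      μ 3 = -(starRingEnd ℂ) (μ 2) → μ 4 = -(starRingEnd ℂ) (μ 1) →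
      μ 5 = -(starRingEnd ℂ) (μ 0) → (∀ k, 6 ≤ k → μ k = 0) →
      ∀ P : ℝ, 0 ≤ P → ‖κ 3 + (starRingEnd ℂ) (κ 2)‖ ^ 2 ≤ P →
        ‖κ 4 + (starRingEnd ℂ) (κ 1)‖ ^ 2 ≤ P → ‖κ 5 + (starRingEnd ℂ) (κ 0)‖ ^ 2 ≤ P →
        (∀ k, 6 ≤ k → ‖κ k‖ ^ 2 ≤ P) →
        ∀ n, n ≤ 5 → ‖σ n - τ n‖ ^ 2 ≤ C * P := by
  refine ⟨1 / 20000000, 10 ^ 12, by norm_num, by norm_num, ?_⟩
  intro c3 c5 h3 h5 s t σ τ κ μ hs ht hσ hτ hA hB k0 k1 k2 m0 m1 m2 m3 m4 m5 m6 P hP p3 p4 p5 p6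
  have hsq : ∀ x : ℝ, x ^ 2 ≤ P → x ≤ √P := fun x hx => Real.le_sqrt_of_sq_le hx
  have hQ : 0 ≤ √P := Real.sqrt_nonneg P
  set Q := √P with hQdef
  set d : ℝ := ∑ n ∈ Finset.range 6, ‖σ n - τ n‖ with hd
  have hdn : ∀ n, n ≤ 5 → ‖σ n - τ n‖ ≤ d := by
    intro n hn
    exact Finset.single_le_sum (f := fun n => ‖σ n - τ n‖) (fun _ _ => norm_nonneg _)
      (Finset.mem_range.2 (by omega))
  have hd0 : 0 ≤ d := Finset.sum_nonneg fun _ _ => norm_nonneg _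
  have hδ3 : 0 ≤ ‖c3‖ := norm_nonneg _
  have hδ5 : 0 ≤ ‖c5‖ := norm_nonneg _
  have hd1 := hdn 1 (by norm_num)
  have hd2 := hdn 2 (by norm_num)
  have hsq1 : ‖σ 1 ^ 2 - τ 1 ^ 2‖ ≤ 2 * d := by
    have : σ 1 ^ 2 - τ 1 ^ 2 = (σ 1 - τ 1) * (σ 1 + τ 1) := by ring
    rw [this, norm_mul]
    have h6 : ‖σ 1 + τ 1‖ ≤ 2 := by
      have := norm_add_le (σ 1) (τ 1)
      linarith [hσ 1, hτ 1]
    nlinarith [norm_nonneg (σ 1 - τ 1), norm_nonneg (σ 1 + τ 1)]
  have hD1 : ‖κ 1 - μ 1‖ ≤ 5 * (1 / 20000000) * d := by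
    have : κ 1 - μ 1 = c5 * (5 * (σ 1 - τ 1)) := by rw [k1, m1]; ring
    rw [this, norm_mul, norm_mul]
    have h6 : ‖(5 : ℂ)‖ = 5 := by norm_num
    rw [h6]
    have h7 : ‖c5‖ * (5 * ‖σ 1 - τ 1‖) ≤ (1 / 20000000) * (5 * d) :=
      mul_le_mul h5 (by linarith) (by positivity) (by norm_num)
    linarith
  have hD2 : ‖κ 2 - μ 2‖ ≤ 28 * (1 / 20000000) * d := by
    have : κ 2 - μ 2 = c3 * (3 * (σ 1 - τ 1)) +
        c5 * (5 * (σ 2 - τ 2) + 10 * (σ 1 ^ 2 - τ 1 ^ 2)) := by rw [k2, m2]; ring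
    rw [this]
    have h6 : ‖c3 * (3 * (σ 1 - τ 1))‖ ≤ (1 / 20000000) * (3 * d) := by
      rw [norm_mul, norm_mul]
      have h7 : ‖(3 : ℂ)‖ = 3 := by norm_num
      rw [h7]
      exact mul_le_mul h3 (by linarith) (by positivity) (by norm_num)
    have h8 : ‖c5 * (5 * (σ 2 - τ 2) + 10 * (σ 1 ^ 2 - τ 1 ^ 2))‖ ≤
        (1 / 20000000) * (25 * d) := by
      rw [norm_mul]
      refine mul_le_mul h5 ?_ (norm_nonneg _) (by norm_num)
      refine (norm_add_le _ _).trans ?_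
      rw [norm_mul, norm_mul]
      have h7 : ‖(5 : ℂ)‖ = 5 := by norm_num
      have h9 : ‖(10 : ℂ)‖ = 10 := by norm_num
      rw [h7, h9]
      linarith
    refine (norm_add_le _ _).trans ?_
    linarith
  have hconj : ∀ x y : ℂ, ‖(starRingEnd ℂ) x - (starRingEnd ℂ) y‖ = ‖x - y‖ := by
    intro x y
    rw [← map_sub, Complex.norm_conj]
  set E : ℝ := 33 * (1 / 20000000) * d + Q with hE
  have hcoef : ∀ n, ‖κ n - μ n‖ ≤ E := by
    intro n
    rcases Nat.lt_or_ge n 6 with hn | hn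
    · interval_cases n
      · rw [k0, m0, sub_self, norm_zero]
        positivity
      · rw [hE]
        nlinarith
      · rw [hE]
        nlinarith
      · have : κ 3 - μ 3 = (κ 3 + (starRingEnd ℂ) (κ 2)) -
            ((starRingEnd ℂ) (κ 2) - (starRingEnd ℂ) (μ 2)) := by rw [m3]; ring
        rw [this]
        refine (norm_sub_le _ _).trans ?_
        rw [hconj]
        have := hsq _ p3
        rw [hE]
        nlinarith
      · have : κ 4 - μ 4 = (κ 4 + (starRingEnd ℂ) (κ 1)) -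
            ((starRingEnd ℂ) (κ 1) - (starRingEnd ℂ) (μ 1)) := by rw [m4]; ring
        rw [this]
        refine (norm_sub_le _ _).trans ?_
        rw [hconj]
        have := hsq _ p4
        rw [hE]
        nlinarith
      · have : κ 5 - μ 5 = κ 5 + (starRingEnd ℂ) (κ 0) := by rw [m5, m0, k0]; ring
        rw [this]
        have := hsq _ p5
        rw [hE]
        nlinarith
    · rw [m6 n hn, sub_zero]
      have := hsq _ (p6 n hn)
      rw [hE]
      nlinarith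
  -- the estimate on the circle
  have hcirc : ∀ z : ℂ, ‖z‖ = 1 / 4 → ‖s z - t z‖ ≤ 43 * E := by
    intro z hz
    have hz1 : ‖z‖ < 1 := by rw [hz]; norm_num
    have hsz := j1164_bound σ 1 hσ z (s z) hz (hs z hz1)
    have htz := j1164_bound τ 1 hτ z (t z) hz (ht z hz1)
    rw [one_mul] at hsz htz
    have hAB := (hA z hz1).sub (hB z hz1)
    have hAB' : HasSum (fun n => (κ n - μ n) * z ^ n)
        ((z ^ 2 * s z + c3 * z * s z ^ 3 + c5 * s z ^ 5) -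
          (z ^ 2 * t z + c3 * z * t z ^ 3 + c5 * t z ^ 5)) := by
      have h7 : (fun n => (κ n - μ n) * z ^ n) = (fun n => κ n * z ^ n - μ n * z ^ n) := by
        funext n
        ring
      rw [h7]
      exact hAB
    have h6 := j1164_bound _ E hcoef z _ hz hAB'
    set S := s z
    set T := t z
    have hfac : (z ^ 2 * S + c3 * z * S ^ 3 + c5 * S ^ 5) -
          (z ^ 2 * T + c3 * z * T ^ 3 + c5 * T ^ 5) =
        (S - T) * (z ^ 2 + (c3 * z * (S ^ 2 + S * T + T ^ 2) +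
          c5 * (S ^ 4 + S ^ 3 * T + S ^ 2 * T ^ 2 + S * T ^ 3 + T ^ 4))) := by ring
    rw [hfac, norm_mul] at h6
    have hS0 := norm_nonneg S
    have hT0 := norm_nonneg T
    have hpow : ∀ i j : ℕ, ‖S ^ i * T ^ j‖ ≤ (4 / 3) ^ (i + j) := by
      intro i j
      rw [norm_mul, norm_pow, norm_pow, pow_add]
      exact mul_le_mul (pow_le_pow_left₀ hS0 hsz i) (pow_le_pow_left₀ hT0 htz j)
        (by positivity) (by positivity)
    have hq2 : ‖S ^ 2 + S * T + T ^ 2‖ ≤ 3 * (4 / 3) ^ 2 := by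
      have e1 := hpow 2 0
      have e2 := hpow 1 1
      have e3 := hpow 0 2
      simp only [pow_zero, mul_one, one_mul, pow_one, Nat.reduceAdd] at e1 e2 e3
      have := norm_add_le (S ^ 2 + S * T) (T ^ 2)
      have := norm_add_le (S ^ 2) (S * T)
      linarith
    have hq4 : ‖S ^ 4 + S ^ 3 * T + S ^ 2 * T ^ 2 + S * T ^ 3 + T ^ 4‖ ≤ 5 * (4 / 3) ^ 4 := by
      have e1 := hpow 4 0
      have e2 := hpow 3 1
      have e3 := hpow 2 2
      have e4 := hpow 1 3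
      have e5 := hpow 0 4
      simp only [pow_zero, mul_one, one_mul, pow_one, Nat.reduceAdd] at e1 e2 e3 e4 e5
      have := norm_add_le (S ^ 4 + S ^ 3 * T + S ^ 2 * T ^ 2 + S * T ^ 3) (T ^ 4)
      have := norm_add_le (S ^ 4 + S ^ 3 * T + S ^ 2 * T ^ 2) (S * T ^ 3)
      have := norm_add_le (S ^ 4 + S ^ 3 * T) (S ^ 2 * T ^ 2)
      have := norm_add_le (S ^ 4) (S ^ 3 * T)
      linarith
    have hr1 : ‖c3 * z * (S ^ 2 + S * T + T ^ 2)‖ ≤
        (1 / 20000000) * (1 / 4) * (3 * (4 / 3) ^ 2) := by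
      rw [norm_mul, norm_mul, hz]
      exact mul_le_mul (mul_le_mul_of_nonneg_right h3 (by norm_num)) hq2 (norm_nonneg _)
        (by norm_num)
    have hr2 : ‖c5 * (S ^ 4 + S ^ 3 * T + S ^ 2 * T ^ 2 + S * T ^ 3 + T ^ 4)‖ ≤
        (1 / 20000000) * (5 * (4 / 3) ^ 4) := by
      rw [norm_mul]
      exact mul_le_mul h5 hq4 (norm_nonneg _) (by norm_num)
    have hz2 : ‖z ^ 2‖ = 1 / 16 := by rw [norm_pow, hz]; norm_num
    have hlow : 1 / 32 ≤ ‖z ^ 2 + (c3 * z * (S ^ 2 + S * T + T ^ 2) +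
          c5 * (S ^ 4 + S ^ 3 * T + S ^ 2 * T ^ 2 + S * T ^ 3 + T ^ 4))‖ := by
      have e1 := norm_sub_le_norm_add (z ^ 2) (c3 * z * (S ^ 2 + S * T + T ^ 2) +
          c5 * (S ^ 4 + S ^ 3 * T + S ^ 2 * T ^ 2 + S * T ^ 3 + T ^ 4))
      have e2 := norm_add_le (c3 * z * (S ^ 2 + S * T + T ^ 2))
          (c5 * (S ^ 4 + S ^ 3 * T + S ^ 2 * T ^ 2 + S * T ^ 3 + T ^ 4))
      rw [hz2] at e1
      linarith
    have hST := norm_nonneg (S - T)
    have h7 : ‖S - T‖ * (1 / 32) ≤ E * (4 / 3) :=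
      (mul_le_mul_of_nonneg_left hlow hST).trans h6
    have hE0 : 0 ≤ E := by positivity
    linarith
  -- Cauchy estimates
  have hdiff : ∀ z : ℂ, ‖z‖ < 1 → HasSum (fun n => (σ n - τ n) * z ^ n) (s z - t z) := by
    intro z hz
    have h7 : (fun n => (σ n - τ n) * z ^ n) = (fun n => σ n * z ^ n - τ n * z ^ n) := by
      funext n
      ring
    rw [h7]
    exact (hs z hz).sub (ht z hz)
  have hco : ∀ n, n ≤ 5 → ‖σ n - τ n‖ ≤ 44032 * E := by
    intro n hn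
    have h6 := j1164_cauchy (fun n => σ n - τ n) (fun z => s z - t z) 2 (43 * E)
      (fun n => (norm_sub_le _ _).trans (by linarith [hσ n, hτ n])) hdiff hcirc n
    have h7 : (4 : ℝ) ^ n ≤ 4 ^ 5 := pow_le_pow_right₀ (by norm_num) hn
    have hE0 : 0 ≤ E := by positivity
    have h8 : 43 * E * 4 ^ n ≤ 43 * E * 4 ^ 5 := mul_le_mul_of_nonneg_left h7 (by positivity)
    norm_num at h8 ⊢
    linarith
  have hdE : d ≤ 6 * (44032 * E) := by
    have : d ≤ ∑ _n ∈ Finset.range 6, 44032 * E :=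
      Finset.sum_le_sum fun n hn => hco n (by rw [Finset.mem_range] at hn; omega)
    simpa using this
  have hdQ : d ≤ 528384 * Q := by
    rw [hE] at hdE
    linarith
  intro n hn
  have h6 := hdn n hn
  have h7 : ‖σ n - τ n‖ ≤ 528384 * Q := h6.trans hdQ
  have h8 : ‖σ n - τ n‖ ^ 2 ≤ (528384 * Q) ^ 2 := pow_le_pow_left₀ (norm_nonneg _) h7 2
  have h9 : Q ^ 2 = P := Real.sq_sqrt hP
  rw [mul_pow, h9] at h8
  refine h8.trans ?_
  apply mul_le_mul_of_nonneg_right _ hP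
  norm_num


end Pool.Agent.Helper506.ArcJ
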