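import Mathlib

set_option autoImplicit false
open Complex Set Filter Metric Topology MeasureTheory

namespace Pool.Agent.Helper506.ArcJ

theorem base_int_norm (ρ : ℝ) : IntegrableOn (fun u : ℂ => ‖u‖⁻¹) (ball (0 : ℂ) ρ) volume := by
  have h := (integrableOn_fun_norm_addHaar (E := ℂ) (volume : Measure ℂ) (f := fun y : ℝ => y⁻¹)
    (r := ρ)).mpr
  apply h
  have h1 : IntegrableOn (fun _ : ℝ => (1 : ℝ)) (Ioo 0 ρ) volume := by
    exact integrableOn_const (hs := by simp) (hC := by simp)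
  apply h1.congr_fun _ measurableSet_Ioo
  intro y hy
  simp only [Complex.finrank_real_complex, smul_eq_mul]
  have : y ≠ 0 := hy.1.ne'
  norm_num
  rw [mul_inv_cancel₀ this]

theorem base_int (ρ : ℝ) : IntegrableOn (fun u : ℂ => u⁻¹) (ball (0 : ℂ) ρ) volume := by
  apply (base_int_norm ρ).mono'
  · exact (measurable_inv (G := ℂ)).aestronglyMeasurable
  · filter_upwards with u
    rw [norm_inv]

theorem base_val (ρ : ℝ) (hρ : 0 ≤ ρ) :
    ∫ u : ℂ, (ball (0 : ℂ) ρ).indicator (fun u => ‖u‖⁻¹) u = 2 * Real.pi * ρ := by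
  have h := integral_fun_norm_addHaar (E := ℂ) (volume : Measure ℂ)
    (fun y : ℝ => (Iio ρ).indicator (fun y => y⁻¹) y)
  have h1 : ∫ u : ℂ, (ball (0 : ℂ) ρ).indicator (fun u => ‖u‖⁻¹) u =
      ∫ u : ℂ, (Iio ρ).indicator (fun y => y⁻¹) ‖u‖ := by
    congr 1
    funext u
    simp only [indicator, mem_ball_zero_iff, mem_Iio]
  rw [h1, h]
  have h2 : ∫ y in Ioi (0 : ℝ), y ^ (Module.finrank ℝ ℂ - 1) • (Iio ρ).indicator (fun y => y⁻¹) y = ρ := by
    have h3 : ∫ y in Ioi (0 : ℝ), y ^ (Module.finrank ℝ ℂ - 1) • (Iio ρ).indicator (fun y => y⁻¹) y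
        = ∫ y in Ioi (0 : ℝ), (Ioo 0 ρ).indicator (fun _ => (1 : ℝ)) y := by
      apply setIntegral_congr_fun measurableSet_Ioi
      intro y hy
      have hy0 : y ≠ 0 := (mem_Ioi.mp hy).ne'
      simp only [Complex.finrank_real_complex, smul_eq_mul, indicator, mem_Iio, mem_Ioo]
      have hy' : 0 < y := hy
      by_cases h : y < ρ
      · simp [h, hy', hy0]
      · simp [h]
    rw [h3, setIntegral_indicator measurableSet_Ioo]
    have h4 : Ioi (0 : ℝ) ∩ Ioo 0 ρ = Ioo 0 ρ := by
      ext y; simp only [mem_inter_iff, mem_Ioi, mem_Ioo]; tauto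
    rw [h4]
    simp [hρ]
  rw [h2, Complex.finrank_real_complex]
  have h5 : (volume : Measure ℂ).real (ball 0 1) = Real.pi := by
    simp [Measure.real, Complex.volume_ball]
  rw [h5]
  simp
  ring

theorem ball_sub_aux {R : ℝ} {c : ℂ} (hc : ‖c‖ < R) {v : ℂ} (hv : v ∈ ball (0 : ℂ) R) :
    c - v ∈ ball (0 : ℂ) (2 * R) := by
  rw [mem_ball_zero_iff] at hv ⊢
  calc ‖c - v‖ ≤ ‖c‖ + ‖v‖ := norm_sub_le _ _
    _ < 2 * R := by linarith

theorem kernel_integrable {R : ℝ} {c : ℂ} (hc : ‖c‖ < R) :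
    IntegrableOn (fun v : ℂ => (c - v)⁻¹) (ball (0 : ℂ) R) volume := by
  have h1 : Integrable ((ball (0 : ℂ) (2 * R)).indicator (fun u : ℂ => u⁻¹)) volume :=
    (integrable_indicator_iff measurableSet_ball).mpr (base_int _)
  have h2 := h1.comp_sub_left c
  apply h2.integrableOn.congr_fun _ measurableSet_ball
  intro v hv
  show (ball (0 : ℂ) (2 * R)).indicator (fun u : ℂ => u⁻¹) (c - v) = (c - v)⁻¹
  rw [indicator_of_mem (ball_sub_aux hc hv)]

theorem kernel_norm_le {R : ℝ} {c : ℂ} (hc : ‖c‖ < R) :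
    ∫ v in ball (0 : ℂ) R, ‖(c - v)⁻¹‖ ≤ 4 * Real.pi * R := by
  have hR : 0 < R := lt_of_le_of_lt (norm_nonneg c) hc
  have h0 : Integrable ((ball (0 : ℂ) (2 * R)).indicator (fun u : ℂ => ‖u‖⁻¹)) volume :=
    (integrable_indicator_iff measurableSet_ball).mpr (base_int_norm _)
  have h1 := h0.comp_sub_left c
  have h2 : ∫ v in ball (0 : ℂ) R, ‖(c - v)⁻¹‖ =
      ∫ v in ball (0 : ℂ) R, (ball (0 : ℂ) (2 * R)).indicator (fun u : ℂ => ‖u‖⁻¹) (c - v) := by
    apply setIntegral_congr_fun measurableSet_ball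
    intro v hv
    show ‖(c - v)⁻¹‖ = (ball (0 : ℂ) (2 * R)).indicator (fun u : ℂ => ‖u‖⁻¹) (c - v)
    rw [indicator_of_mem (ball_sub_aux hc hv), norm_inv]
  rw [h2]
  calc ∫ v in ball (0 : ℂ) R, (ball (0 : ℂ) (2 * R)).indicator (fun u : ℂ => ‖u‖⁻¹) (c - v)
      ≤ ∫ v, (ball (0 : ℂ) (2 * R)).indicator (fun u : ℂ => ‖u‖⁻¹) (c - v) := by
        apply setIntegral_le_integral h1
        filter_upwards with v
        apply indicator_nonneg
        intro u _
        positivity
    _ = ∫ u, (ball (0 : ℂ) (2 * R)).indicator (fun u : ℂ => ‖u‖⁻¹) u :=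
        integral_sub_left_eq_self _ _ _
    _ = 2 * Real.pi * (2 * R) := base_val _ (by linarith)
    _ = 4 * Real.pi * R := by ring

theorem ang (f : ℂ → ℂ) (r : ℝ) :
    ∫ θ in Ioo (-Real.pi) Real.pi, f (r * (Real.cos θ + Real.sin θ * I)) =
      (2 * Real.pi) • Real.circleAverage f 0 r := by
  rw [Real.circleAverage_eq_integral_add (-Real.pi), smul_smul, mul_inv_cancel₀ (by positivity),
    one_smul, intervalIntegral.integral_comp_add_right (fun θ => f (circleMap 0 r θ)),
    zero_add, show 2 * Real.pi + -Real.pi = Real.pi by ring,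
    intervalIntegral.integral_of_le (by linarith [Real.pi_pos]), integral_Ioc_eq_integral_Ioo]
  apply setIntegral_congr_fun measurableSet_Ioo
  intro θ _
  simp only [circleMap, zero_add]
  rw [exp_mul_I, ofReal_cos, ofReal_sin]

theorem J_small {r : ℝ} {c : ℂ} (hr : 0 < r) (hrc : r < ‖c‖) :
    ∫ θ in Ioo (-Real.pi) Real.pi, (c - r * (Real.cos θ + Real.sin θ * I))⁻¹ =
      2 * Real.pi / c := by
  have h1 := ang (fun z => (c - z)⁻¹) r
  rw [h1]
  have h2 : DiffContOnCl ℂ (fun z => (c - z)⁻¹) (ball 0 |r|) := by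
    apply DifferentiableOn.diffContOnCl_ball (U := closedBall 0 |r|) _ subset_rfl
    intro z hz
    rw [mem_closedBall_zero_iff, abs_of_pos hr] at hz
    apply DifferentiableAt.differentiableWithinAt
    apply DifferentiableAt.inv
    · fun_prop
    · intro h0
      rw [sub_eq_zero] at h0
      rw [h0] at hrc
      linarith
  rw [h2.circleAverage, sub_zero, real_smul]
  push_cast
  rw [div_eq_mul_inv]

theorem J_big {r : ℝ} {c : ℂ} (hr : 0 < r) (hrc : ‖c‖ < r) :
    ∫ θ in Ioo (-Real.pi) Real.pi, (c - r * (Real.cos θ + Real.sin θ * I))⁻¹ = 0 := by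
  have h1 := ang (fun z => z / ((starRingEnd ℂ) c * z - r ^ 2)) r
  have h2 : DiffContOnCl ℂ (fun z => z / ((starRingEnd ℂ) c * z - r ^ 2)) (ball 0 |r|) := by
    apply DifferentiableOn.diffContOnCl_ball (U := closedBall 0 |r|) _ subset_rfl
    intro z hz
    rw [mem_closedBall_zero_iff, abs_of_pos hr] at hz
    apply DifferentiableAt.differentiableWithinAt
    apply DifferentiableAt.div
    · fun_prop
    · fun_prop
    · intro h0
      rw [sub_eq_zero] at h0
      have h3 : ‖(starRingEnd ℂ) c * z‖ = r ^ 2 := by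
        rw [h0]; simp
      rw [norm_mul, RCLike.norm_conj] at h3
      nlinarith [norm_nonneg c, norm_nonneg z]
  rw [h2.circleAverage, zero_div, smul_zero] at h1
  have h3 : (starRingEnd ℂ) (∫ θ in Ioo (-Real.pi) Real.pi,
      (c - r * (Real.cos θ + Real.sin θ * I))⁻¹) = 0 := by
    rw [← integral_conj, ← h1]
    apply setIntegral_congr_fun measurableSet_Ioo
    intro θ _
    simp only [map_inv₀, map_sub, map_mul, map_add, conj_ofReal, conj_I]
    have hcs : (Real.cos θ : ℂ) ^ 2 + (Real.sin θ : ℂ) ^ 2 = 1 := by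
      rw [← ofReal_pow, ← ofReal_pow, ← ofReal_add, add_comm, Real.sin_sq_add_cos_sq, ofReal_one]
    set x : ℂ := (Real.cos θ : ℂ)
    set y : ℂ := (Real.sin θ : ℂ)
    have hr' : (r : ℂ) ≠ 0 := by exact_mod_cast hr.ne'
    have hxy : (x + y * I) * (x + y * -I) = 1 := by
      have : (x + y * I) * (x + y * -I) = x ^ 2 - y ^ 2 * I ^ 2 := by ring
      rw [this, I_sq]; linear_combination hcs
    have hne : (r : ℂ) * (x + y * I) ≠ 0 := by
      apply mul_ne_zero hr'
      intro h0
      rw [h0, zero_mul] at hxy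
      exact zero_ne_one hxy
    have hfac : (starRingEnd ℂ) c * (r * (x + y * I)) - r ^ 2 =
        (r * (x + y * I)) * ((starRingEnd ℂ) c - r * (x + y * -I)) := by
      linear_combination (r : ℂ) ^ 2 * hxy
    rw [hfac, div_mul_eq_div_div, div_self hne, one_div]
  have h4 := congrArg (starRingEnd ℂ) h3
  rwa [conj_conj, map_zero] at h4

theorem kernel_value {R : ℝ} {c : ℂ} (hc : ‖c‖ < R) :
    ∫ v in ball (0 : ℂ) R, (c - v)⁻¹ = (Real.pi : ℂ) * (starRingEnd ℂ) c := by
  set F : ℂ → ℂ := (ball (0 : ℂ) R).indicator (fun v => (c - v)⁻¹) with hF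
  have hFint : Integrable F volume :=
    (integrable_indicator_iff measurableSet_ball).mpr (kernel_integrable hc)
  have hFm : Measurable F := by
    apply Measurable.indicator _ measurableSet_ball
    exact (measurable_const.sub measurable_id).inv
  have htarget : polarCoord.target = Ioi (0 : ℝ) ×ˢ Ioo (-Real.pi) Real.pi := rfl
  have hsym : Measurable (fun p : ℝ × ℝ => Complex.polarCoord.symm p) := by
    have : (fun p : ℝ × ℝ => Complex.polarCoord.symm p) =
        fun p : ℝ × ℝ => ((p.1 : ℂ) * (Real.cos p.2 + Real.sin p.2 * I)) := by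
      funext p
      rw [Complex.polarCoord_symm_apply]
    rw [this]
    fun_prop
  have hmeas : Measurable (fun p : ℝ × ℝ => p.1 • F (Complex.polarCoord.symm p)) :=
    measurable_fst.smul (hFm.comp hsym)
  have hint : IntegrableOn (fun p : ℝ × ℝ => p.1 • F (Complex.polarCoord.symm p))
      (Ioi (0 : ℝ) ×ˢ Ioo (-Real.pi) Real.pi) (volume.prod volume) := by
    refine ⟨hmeas.aestronglyMeasurable, ?_⟩
    have h1 := Complex.lintegral_comp_polarCoord_symm (fun v => ‖F v‖ₑ)
    have h2 : ∫⁻ p in Ioi (0 : ℝ) ×ˢ Ioo (-Real.pi) Real.pi,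
        ‖p.1 • F (Complex.polarCoord.symm p)‖ₑ ∂(volume.prod volume) = ∫⁻ v, ‖F v‖ₑ := by
      rw [← h1, htarget]
      apply setLIntegral_congr_fun (measurableSet_Ioi.prod measurableSet_Ioo)
      intro p hp
      have hp1 : 0 < p.1 := hp.1
      show ‖p.1 • F (Complex.polarCoord.symm p)‖ₑ =
        ENNReal.ofReal p.1 • ‖F (Complex.polarCoord.symm p)‖ₑ
      rw [enorm_smul, Real.enorm_eq_ofReal hp1.le, smul_eq_mul]
    unfold HasFiniteIntegral
    rw [h2]
    exact hFint.2
  have h0 : ∫ v in ball (0 : ℂ) R, (c - v)⁻¹ = ∫ v, F v := (integral_indicator measurableSet_ball).symm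
  rw [h0, ← Complex.integral_comp_polarCoord_symm, htarget]
  have h1 : ∫ p in Ioi (0 : ℝ) ×ˢ Ioo (-Real.pi) Real.pi, p.1 • F (Complex.polarCoord.symm p) =
      ∫ r in Ioi (0 : ℝ), ∫ θ in Ioo (-Real.pi) Real.pi, r • F (Complex.polarCoord.symm (r, θ)) :=
    setIntegral_prod _ hint
  rw [h1]
  have hinner : ∀ r : ℝ, 0 < r → r ≠ ‖c‖ →
      ∫ θ in Ioo (-Real.pi) Real.pi, r • F (Complex.polarCoord.symm (r, θ)) =
      (Ioo 0 ‖c‖).indicator (fun r : ℝ => (r : ℂ) * (2 * Real.pi / c)) r := by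
    intro r hr hrc
    have hnorm : ∀ θ : ℝ, ‖(r : ℂ) * (Real.cos θ + Real.sin θ * I)‖ = r := by
      intro θ
      have := Complex.norm_polarCoord_symm (r, θ)
      rw [Complex.polarCoord_symm_apply] at this
      rw [this, abs_of_pos hr]
    by_cases hrR : r < R
    · have e1 : ∫ θ in Ioo (-Real.pi) Real.pi, r • F (Complex.polarCoord.symm (r, θ)) =
          r • ∫ θ in Ioo (-Real.pi) Real.pi, (c - r * (Real.cos θ + Real.sin θ * I))⁻¹ := by
        rw [← integral_smul]
        apply setIntegral_congr_fun measurableSet_Ioo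
        intro θ _
        show r • F (Complex.polarCoord.symm (r, θ)) = r • (c - r * (Real.cos θ + Real.sin θ * I))⁻¹
        rw [Complex.polarCoord_symm_apply, hF, indicator_of_mem]
        rw [mem_ball_zero_iff, hnorm]
        exact hrR
      rw [e1]
      rcases lt_or_gt_of_ne hrc with h | h
      · rw [J_small hr h, indicator_of_mem (show r ∈ Ioo 0 ‖c‖ from ⟨hr, h⟩), real_smul]
      · rw [J_big hr h, smul_zero, indicator_of_notMem]
        intro h'
        exact absurd h'.2 (not_lt.mpr h.le)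
    · have e1 : ∫ θ in Ioo (-Real.pi) Real.pi, r • F (Complex.polarCoord.symm (r, θ)) =
          ∫ θ in Ioo (-Real.pi) Real.pi, (0 : ℂ) := by
        apply setIntegral_congr_fun measurableSet_Ioo
        intro θ _
        show r • F (Complex.polarCoord.symm (r, θ)) = 0
        rw [Complex.polarCoord_symm_apply, hF, indicator_of_notMem, smul_zero]
        rw [mem_ball_zero_iff, hnorm]
        exact hrR
      rw [e1, integral_zero, indicator_of_notMem]
      intro h'
      push Not at hrR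
      linarith [h'.2]
  have h2 : ∫ r in Ioi (0 : ℝ), ∫ θ in Ioo (-Real.pi) Real.pi,
        r • F (Complex.polarCoord.symm (r, θ)) =
      ∫ r in Ioi (0 : ℝ), (Ioo 0 ‖c‖).indicator (fun r : ℝ => (r : ℂ) * (2 * Real.pi / c)) r := by
    apply setIntegral_congr_ae measurableSet_Ioi
    have hae : ∀ᵐ r : ℝ ∂volume, r ≠ ‖c‖ := by
      rw [ae_iff]
      simp
    filter_upwards [hae] with r hr hr0
    exact hinner r hr0 hr
  rw [h2, setIntegral_indicator measurableSet_Ioo]
  have h4 : Ioi (0 : ℝ) ∩ Ioo 0 ‖c‖ = Ioo 0 ‖c‖ := by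
    ext y; simp only [mem_inter_iff, mem_Ioi, mem_Ioo]; tauto
  rw [h4, integral_mul_const, integral_complex_ofReal]
  have h5 : ∫ r in Ioo (0 : ℝ) ‖c‖, r = ‖c‖ ^ 2 / 2 := by
    rw [← integral_Ioc_eq_integral_Ioo, ← intervalIntegral.integral_of_le (norm_nonneg c),
      integral_id]
    ring
  rw [h5]
  by_cases hc0 : c = 0
  · rw [hc0]; simp
  · push_cast
    have h6 : (‖c‖ : ℂ) ^ 2 = c * (starRingEnd ℂ) c := by
      rw [mul_conj, normSq_eq_norm_sq]
      push_cast
      rfl
    rw [h6]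
    field_simp


end Pool.Agent.Helper506.ArcJ
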