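import Pool.Agent.Helper506.ArcAngle

set_option autoImplicit false
open Complex Set Filter Metric Topology

namespace Pool.Agent.Helper506.ArcPair

/-- The class `S`: holomorphic and injective in the unit disc, `f 0 = 0`, `f' 0 = 1`. -/
def ClassS (f : ℂ → ℂ) : Prop :=
  DifferentiableOn ℂ f (ball (0 : ℂ) 1) ∧ Set.InjOn f (ball (0 : ℂ) 1) ∧ f 0 = 0 ∧ deriv f 0 = 1

/-- `f` is a support point of `S`: it maximises `Re L` over `S` for some linear functional `L` that
is continuous for locally uniform convergence on the disc (i.e. bounded by a multiple of the supremum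
over some disc `|z| ≤ r < 1`) and is not constant on `S`. -/
def IsSupportPoint (f : ℂ → ℂ) : Prop :=
  ClassS f ∧ ∃ L : (ℂ → ℂ) →ₗ[ℂ] ℂ,
    (∃ r C : ℝ, 0 ≤ r ∧ r < 1 ∧ ∀ g : ℂ → ℂ, DifferentiableOn ℂ g (ball (0 : ℂ) 1) →
      ∀ M : ℝ, (∀ z : ℂ, ‖z‖ ≤ r → ‖g z‖ ≤ M) → ‖L g‖ ≤ C * M) ∧
    (∃ g h : ℂ → ℂ, ClassS g ∧ ClassS h ∧ L g ≠ L h) ∧
    ∀ g : ℂ → ℂ, ClassS g → (L g).re ≤ (L f).re

/-- `w : [0, ∞) → ℂ` is a regular analytic parametrisation of the set omitted by `f`, running from a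
finite point to infinity. -/
def ParamOmittedArc (f : ℂ → ℂ) (w : ℝ → ℂ) : Prop :=
  (∀ t : ℝ, 0 ≤ t → AnalyticAt ℝ w t ∧ deriv w t ≠ 0) ∧ Set.InjOn w (Ici 0) ∧
    w '' Ici 0 = (f '' ball (0 : ℂ) 1)ᶜ ∧ Tendsto (fun t => ‖w t‖) atTop atTop

/-- There is a support point `f` of `S` whose omitted arc has a (regular, analytic) parametrisation
`w` such that neither a continuous branch `A` of the argument of `w`, nor a continuous branch `B` of
the angle `arg (w' / w)` between the radius and tangent vectors, is a monotone function. -/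
theorem pair : ∃ f : ℂ → ℂ, IsSupportPoint f ∧ ∃ w : ℝ → ℂ, ParamOmittedArc f w ∧
    (∃ A : ℝ → ℝ, ContinuousOn A (Ici 0) ∧
      (∀ t : ℝ, 0 ≤ t → w t = ‖w t‖ * Complex.exp (A t * I)) ∧
      ¬ MonotoneOn A (Ici 0) ∧ ¬ AntitoneOn A (Ici 0)) ∧
    (∃ B : ℝ → ℝ, ContinuousOn B (Ici 0) ∧
      (∀ t : ℝ, 0 ≤ t → deriv w t / w t = ‖deriv w t / w t‖ * Complex.exp (B t * I)) ∧
      ¬ MonotoneOn B (Ici 0) ∧ ¬ AntitoneOn B (Ici 0)) := by
  obtain ⟨f, c, ε, C, X, hε, hc, hC, hCε, hfS, hsupp, himg, hXc, hXb, hXan, hXapp, hXder⟩ :=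
    Pool.Agent.Helper506.Arc.exists_example
  obtain ⟨L, r, C', hr0, hr1, hcont, hne, hmax⟩ := hsupp
  set w : ℝ → ℂ := Pool.Agent.Helper506.Arc.gam X c with hw
  have hd : ∀ t : ℝ, 0 ≤ t → HasDerivAt w (w t * (((1 / (t + 1 / 4) : ℝ) : ℂ) *
      (1 - ((2 * (1 / (t + 1 / 4)) * deriv X (1 / (t + 1 / 4)) : ℝ) : ℂ) * I))) t :=
    fun t ht => Pool.Agent.Helper506.Arc.gam_hasDerivAt ht hXan
  have hinvan : ∀ t : ℝ, 0 ≤ t → AnalyticAt ℝ (fun t : ℝ => 1 / (t + 1 / 4)) t := by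
    intro t ht
    have h0 : t + 1 / 4 ≠ 0 := by positivity
    exact analyticAt_const.div (analyticAt_id.add analyticAt_const) h0
  have hXT : ∀ t : ℝ, 0 ≤ t → AnalyticAt ℝ (fun t : ℝ => X (1 / (t + 1 / 4))) t := by
    intro t ht
    exact AnalyticAt.fun_comp (hXan _ (Pool.Agent.Helper506.Arc.inv_mem ht)) (hinvan t ht)
  have hX'T : ∀ t : ℝ, 0 ≤ t → AnalyticAt ℝ (fun t : ℝ => deriv X (1 / (t + 1 / 4))) t := by
    intro t ht
    exact AnalyticAt.fun_comp (hXan _ (Pool.Agent.Helper506.Arc.inv_mem ht)).deriv (hinvan t ht)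
  refine ⟨f, ⟨hfS, L, ⟨r, C', hr0, hr1, hcont⟩, hne, hmax⟩, w, ⟨?_, ?_, ?_, ?_⟩, ?_, ?_⟩
  · intro t ht
    constructor
    · have h1 : AnalyticAt ℝ (fun t : ℝ => (((-((t + 1 / 4) / c)) : ℝ) : ℂ)) t := by
        have : AnalyticAt ℝ (fun t : ℝ => -((t + 1 / 4) / c)) t :=
          ((analyticAt_id.add analyticAt_const).div analyticAt_const hc.ne').neg
        exact (Complex.ofRealCLM.analyticAt _).comp this
      have h2 : AnalyticAt ℝ (fun t : ℝ =>
          Complex.exp (((2 * X (1 / (t + 1 / 4)) : ℝ) : ℂ) * I)) t := by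
        have h3 : AnalyticAt ℝ (fun t : ℝ => 2 * X (1 / (t + 1 / 4))) t :=
          analyticAt_const.mul (hXT t ht)
        have h4 : AnalyticAt ℝ (fun t : ℝ => (((2 * X (1 / (t + 1 / 4)) : ℝ) : ℂ)) * I) t :=
          ((Complex.ofRealCLM.analyticAt _).comp h3).mul analyticAt_const
        have h5 : AnalyticAt ℝ Complex.exp ((((2 * X (1 / (t + 1 / 4)) : ℝ) : ℂ)) * I) :=
          analyticAt_cexp.restrictScalars
        exact AnalyticAt.fun_comp h5 h4
      exact h1.mul h2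
    · rw [(hd t ht).deriv]
      refine mul_ne_zero (Pool.Agent.Helper506.Arc.gam_ne hc ht) (mul_ne_zero ?_ ?_)
      · have : (1 / (t + 1 / 4) : ℝ) ≠ 0 := by positivity
        exact_mod_cast this
      · intro h0
        have := congrArg Complex.re h0
        simp at this
  · intro x hx y hy hxy
    have h1 : ‖w x‖ = ‖w y‖ := by rw [hxy]
    rw [hw, Pool.Agent.Helper506.Arc.gam_norm hc hx, Pool.Agent.Helper506.Arc.gam_norm hc hy] at h1
    have h2 : x + 1 / 4 = y + 1 / 4 := by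
      field_simp at h1
      linarith
    linarith
  · rw [himg]
    ext v
    constructor
    · rintro ⟨t, ht, rfl⟩
      have ht0 : (0 : ℝ) ≤ t := ht
      exact ⟨t + 1 / 4, by simpa using ht0, rfl⟩
    · rintro ⟨r, hr, rfl⟩
      have hr0 : (1 / 4 : ℝ) ≤ r := hr
      refine ⟨r - 1 / 4, by simpa using hr0, ?_⟩
      simp only [hw, Pool.Agent.Helper506.Arc.gam]
      congr 1
      ring
  · have : Filter.Tendsto (fun t : ℝ => (t + 1 / 4) / c) Filter.atTop Filter.atTop :=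
      (Filter.tendsto_id.atTop_add tendsto_const_nhds).atTop_div_const hc
    refine this.congr' ?_
    filter_upwards [Filter.eventually_ge_atTop (0 : ℝ)] with t ht
    exact (Pool.Agent.Helper506.Arc.gam_norm hc ht).symm
  · -- the argument
    have hCε2 : C * ε ^ 2 ≤ ε / 2 := by nlinarith
    have a4 := abs_le.1 (hXapp 4 ⟨by norm_num, by norm_num⟩)
    have a2 := abs_le.1 (hXapp 2 ⟨by norm_num, by norm_num⟩)
    have a0 := abs_le.1 (hXapp (1 / 10) ⟨by norm_num, by norm_num⟩)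
    refine ⟨fun t => Real.pi + 2 * X (1 / (t + 1 / 4)), ?_, ?_, ?_, ?_⟩
    · intro t ht
      exact ((hXT t ht).continuousAt.const_mul 2 |>.const_add Real.pi).continuousWithinAt
    · intro t ht
      have h1 := Pool.Agent.Helper506.Arc.gam_norm (X := X) hc ht
      rw [← hw] at h1
      rw [h1]
      have h2 : (((Real.pi + 2 * X (1 / (t + 1 / 4)) : ℝ)) : ℂ) * I
          = Real.pi * I + ((2 * X (1 / (t + 1 / 4)) : ℝ) : ℂ) * I := by push_cast; ring
      simp only [h2, Complex.exp_add, Complex.exp_pi_mul_I]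
      simp only [hw, Pool.Agent.Helper506.Arc.gam, Pool.Agent.Helper506.Arc.arcPt]
      push_cast
      ring
    · intro hm
      have h := hm (show (0 : ℝ) ∈ Ici 0 by simp) (show (1 / 4 : ℝ) ∈ Ici 0 by norm_num [mem_Ici])
        (by norm_num)
      simp only at h
      rw [show (1 / (0 + 1 / 4) : ℝ) = 4 by norm_num,
        show (1 / (1 / 4 + 1 / 4) : ℝ) = 2 by norm_num] at h
      linarith [a4.1, a2.2]
    · intro hm
      have h := hm (show (1 / 4 : ℝ) ∈ Ici 0 by norm_num [mem_Ici])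
        (show (39 / 4 : ℝ) ∈ Ici 0 by norm_num [mem_Ici]) (by norm_num)
      simp only at h
      rw [show (1 / (39 / 4 + 1 / 4) : ℝ) = 1 / 10 by norm_num,
        show (1 / (1 / 4 + 1 / 4) : ℝ) = 2 by norm_num] at h
      linarith [a0.1, a2.2]
  · -- the angle
    have key : ∀ t : ℝ, 0 ≤ t → Complex.arg (deriv w t / w t)
        = Real.arctan (-(2 * (1 / (t + 1 / 4)) * deriv X (1 / (t + 1 / 4)))) :=
      fun t ht => Pool.Agent.Helper506.Arc.gam_arg hc ht hXan
    have hCε2 : C * ε ^ 2 ≤ ε / 2 := by nlinarith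
    have d3 := abs_le.1 (hXder 3 ⟨by norm_num, by norm_num⟩)
    have d1 := abs_le.1 (hXder 1 ⟨by norm_num, by norm_num⟩)
    have d0 := abs_le.1 (hXder (1 / 10) ⟨by norm_num, by norm_num⟩)
    refine ⟨fun t => Real.arctan (-(2 * (1 / (t + 1 / 4)) * deriv X (1 / (t + 1 / 4)))),
      ?_, ?_, ?_, ?_⟩
    · intro t ht
      have h1 : ContinuousAt (fun t : ℝ => -(2 * (1 / (t + 1 / 4)) * deriv X (1 / (t + 1 / 4)))) t :=
        (((hinvan t ht).continuousAt.const_mul 2).mul (hX'T t ht).continuousAt).neg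
      exact (Real.continuous_arctan.continuousAt.comp h1).continuousWithinAt
    · intro t ht
      change deriv w t / w t = ‖deriv w t / w t‖ * Complex.exp
        ((Real.arctan (-(2 * (1 / (t + 1 / 4)) * deriv X (1 / (t + 1 / 4)))) : ℝ) * I)
      rw [← key t ht]
      exact (Complex.norm_mul_exp_arg_mul_I _).symm
    · intro hm
      have h := hm (show (3 / 4 : ℝ) ∈ Ici 0 by norm_num [mem_Ici])
        (show (39 / 4 : ℝ) ∈ Ici 0 by norm_num [mem_Ici]) (by norm_num)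
      simp only at h
      rw [Real.arctan_le_arctan_iff, show (1 / (39 / 4 + 1 / 4) : ℝ) = 1 / 10 by norm_num,
        show (1 / (3 / 4 + 1 / 4) : ℝ) = 1 by norm_num] at h
      nlinarith [d0.1, d0.2, d1.1, d1.2]
    · intro hm
      have h := hm (show (1 / 12 : ℝ) ∈ Ici 0 by norm_num [mem_Ici])
        (show (3 / 4 : ℝ) ∈ Ici 0 by norm_num [mem_Ici]) (by norm_num)
      simp only at h
      rw [Real.arctan_le_arctan_iff, show (1 / (1 / 12 + 1 / 4) : ℝ) = 3 by norm_num,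
        show (1 / (3 / 4 + 1 / 4) : ℝ) = 1 by norm_num] at h
      nlinarith [d3.1, d3.2, d1.1, d1.2]

end Pool.Agent.Helper506.ArcPair
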