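import Mathlib

set_option autoImplicit false
open Set Filter Metric Topology

namespace Pool.Agent.Helper506.Arc

theorem lipschitz_bound {E F : Type*} [NormedAddCommGroup E] [NormedSpace ℝ E] [ProperSpace E]
    [NormedAddCommGroup F] [NormedSpace ℝ F] (R : E → F) (hR : ContDiff ℝ 1 R) (M : ℝ) :
    ∃ C : ℝ, 0 ≤ C ∧ ∀ x y : E, ‖x‖ ≤ M → ‖y‖ ≤ M → ‖R x - R y‖ ≤ C * ‖x - y‖ := by
  have hc : Continuous (fderiv ℝ R) := hR.continuous_fderiv one_ne_zero
  obtain ⟨C, hC⟩ := (isCompact_closedBall (0 : E) M).exists_bound_of_continuousOn hc.continuousOn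
  refine ⟨max C 0, le_max_right _ _, fun x y hx hy => ?_⟩
  have hconv : Convex ℝ (closedBall (0 : E) M) := convex_closedBall 0 M
  exact hconv.norm_image_sub_le_of_norm_fderiv_le (𝕜 := ℝ)
    (fun z _ => (hR.differentiable one_ne_zero) z)
    (fun z hz => (hC z hz).trans (le_max_left _ _)) (by simpa using hy) (by simpa using hx)

theorem taylor_bound {E F : Type*} [NormedAddCommGroup E] [NormedSpace ℝ E] [ProperSpace E]
    [NormedAddCommGroup F] [NormedSpace ℝ F] (R : E → F) (hR : ContDiff ℝ 2 R) (M : ℝ) :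
    ∃ C : ℝ, 0 ≤ C ∧ ∀ x y : E, ‖x‖ ≤ M → ‖y‖ ≤ M →
      ‖R x - R y - fderiv ℝ R y (x - y)‖ ≤ C * ‖x - y‖ ^ 2 := by
  have h1 : ContDiff ℝ 1 (fderiv ℝ R) := hR.fderiv_right (by norm_num)
  obtain ⟨C, hC0, hC⟩ := lipschitz_bound (fderiv ℝ R) h1 M
  refine ⟨C, hC0, fun x y hx hy => ?_⟩
  -- apply the mean value inequality on the segment
  have hd : Differentiable ℝ R := hR.differentiable two_ne_zero
  have hconv : Convex ℝ (segment ℝ y x) := convex_segment y x
  have hsub : segment ℝ y x ⊆ closedBall (0 : E) M :=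
    (convex_closedBall (0 : E) M).segment_subset (by simpa using hy) (by simpa using hx)
  have key : ∀ z ∈ segment ℝ y x,
      ‖fderiv ℝ (fun w => R w - fderiv ℝ R y w) z‖ ≤ C * ‖x - y‖ := by
    intro z hz
    have h2 : fderiv ℝ (fun w => R w - fderiv ℝ R y w) z = fderiv ℝ R z - fderiv ℝ R y := by
      rw [fderiv_fun_sub (hd z) (fderiv ℝ R y).differentiableAt]
      simp
    rw [h2]
    have h3 := hC z y (by simpa using hsub hz) hy
    refine h3.trans ?_
    gcongr
    obtain ⟨a, b, ha, hb, hab, rfl⟩ := hz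
    have h4 : a • y + b • x - y = b • (x - y) := by
      have : a = 1 - b := by linarith
      rw [this]; module
    rw [h4, norm_smul, Real.norm_of_nonneg hb]
    have : b ≤ 1 := by linarith
    nlinarith [norm_nonneg (x - y)]
  have h5 := hconv.norm_image_sub_le_of_norm_fderiv_le (𝕜 := ℝ)
    (f := fun w => R w - fderiv ℝ R y w)
    (fun z _ => (hd z).sub (fderiv ℝ R y).differentiableAt) key
    (left_mem_segment ℝ y x) (right_mem_segment ℝ y x)
  have h6 : R x - fderiv ℝ R y x - (R y - fderiv ℝ R y y) = R x - R y - fderiv ℝ R y (x - y) := by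
    rw [map_sub]; abel
  rw [h6] at h5
  calc _ ≤ C * ‖x - y‖ * ‖x - y‖ := h5
    _ = C * ‖x - y‖ ^ 2 := by ring

end Pool.Agent.Helper506.Arc
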