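import Pool.Agent.Helper506.ArcAreaS
import Pool.Agent.Helper506.ArcFun
import Pool.Agent.Helper506.ArcDecomp
import Pool.Agent.Helper506.ArcTaylor
import Pool.Agent.Helper506.ArcJCoercive

set_option autoImplicit false
open Complex Set Filter Metric Topology

namespace Pool.Agent.Helper506.Arc

open Pool.Agent.Helper506.ArcJ

theorem InS.coeffs {f : ℂ → ℂ} (hf : InS f) {a : ℕ → ℂ} (ha : PS a f) : a 0 = 0 ∧ a 1 = 1 :=
  ⟨by rw [← ha.zero, hf.2.2.1], by rw [← ha.deriv_zero, hf.2.2.2]⟩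

theorem id_InS : InS (fun z => z) :=
  ⟨differentiableOn_id, fun _ _ _ _ h => h, rfl, by simp⟩

theorem vec_norm_le {f s : ℂ → ℂ} (hf : InS f) (hs : IsRoot f s) {σ : ℕ → ℂ} (hσ : PS σ s) :
    ‖vec σ‖ ≤ 1 := by
  rw [pi_norm_le_iff_of_nonneg zero_le_one]
  intro i
  exact root_coeff_le hf hs hσ _

/-- Coercivity in the form needed. -/
theorem coercive_vec : ∃ δ C : ℝ, 0 < δ ∧ 0 < C ∧ ∀ c3 c5 : ℂ, ‖c3‖ ≤ δ → ‖c5‖ ≤ δ →
    ∀ (f s g t : ℂ → ℂ) (σ τ μ : ℕ → ℂ), InS f → IsRoot f s → InS g → IsRoot g t →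
      PS σ s → PS τ t → PS μ (KK c3 c5 t) → Sym μ →
      0 ≤ Psi c3 c5 (vec σ) ∧ ‖vec σ - vec τ‖ ^ 2 ≤ C * Psi c3 c5 (vec σ) := by
  obtain ⟨δ, C, hδ, hC, H⟩ := coercive
  refine ⟨δ, 2 * C, hδ, by positivity, ?_⟩
  intro c3 c5 h3 h5 f s g t σ τ μ hf hs hg ht hσ hτ hμ hsym
  have hκ := KK_PS hσ c3 c5
  set κ : ℕ → ℂ := fun n => (cv (fun n => if n = 2 then 1 else 0) σ n
      + c3 * cv (fun n => if n = 1 then 1 else 0) (cv σ (cv σ σ)) n)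
      + c5 * cv (cv σ σ) (cv σ (cv σ σ)) n with hκdef
  obtain ⟨e0, e1, e2, -, -, -⟩ := KK_coeffs hσ hs.2.1 hκ
  obtain ⟨m0, m1, m2, -, -, -⟩ := KK_coeffs hτ ht.2.1 hμ
  have hsum := fun N => e_sum hf hs hσ hκ N
  have hP : 0 ≤ Psi c3 c5 (vec σ) := by
    have h := hsum 0
    simp only [Finset.sum_range_zero, add_zero] at h
    have : 0 ≤ ‖κ 3 + (starRingEnd ℂ) (κ 2)‖ ^ 2 + 3 * ‖κ 4 + (starRingEnd ℂ) (κ 1)‖ ^ 2
      + 5 * ‖κ 5 + (starRingEnd ℂ) (κ 0)‖ ^ 2 := by positivity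
    linarith
  have hb : ∀ N, 0 ≤ ∑ k ∈ Finset.range N, (2 * ((6 + k : ℕ) : ℝ) - 5) * ‖κ (6 + k)‖ ^ 2 := by
    intro N
    refine Finset.sum_nonneg fun k _ => ?_
    have : 0 ≤ 2 * ((6 + k : ℕ) : ℝ) - 5 := by
      push_cast
      have : (0 : ℝ) ≤ k := k.cast_nonneg
      linarith
    positivity
  have hH := H c3 c5 h3 h5 s t σ τ κ μ hσ hτ (root_coeff_le hf hs hσ) (root_coeff_le hg ht hτ)
    (fun z hz => by simpa [KK] using hκ z hz) (fun z hz => by simpa [KK] using hμ z hz)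
    (by simpa [k0] using e0) (by simpa [k1, vec] using e1) (by simpa [k2, vec] using e2)
    (by simpa [k0] using m0) (by simpa [k1, vec] using m1) (by simpa [k2, vec] using m2)
    hsym.1 hsym.2.1 hsym.2.2.1 hsym.2.2.2 (2 * Psi c3 c5 (vec σ)) (by linarith)
  have q3 : 0 ≤ ‖κ 3 + (starRingEnd ℂ) (κ 2)‖ ^ 2 := by positivity
  have q4 : 0 ≤ ‖κ 4 + (starRingEnd ℂ) (κ 1)‖ ^ 2 := by positivity
  have q5 : 0 ≤ ‖κ 5 + (starRingEnd ℂ) (κ 0)‖ ^ 2 := by positivity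
  have h00 := hsum 0
  simp only [Finset.sum_range_zero, add_zero] at h00
  have hH2 := hH (by linarith) (by linarith) (by linarith) (by
    intro k hk
    obtain ⟨j, rfl⟩ := Nat.exists_eq_add_of_le hk
    have h := hsum (j + 1)
    rw [Finset.sum_range_succ] at h
    have h2 := hb j
    have h3 : (1 : ℝ) ≤ 2 * ((6 + j : ℕ) : ℝ) - 5 := by
      push_cast
      have : (0 : ℝ) ≤ j := j.cast_nonneg
      linarith
    have h4 : ‖κ (6 + j)‖ ^ 2 ≤ (2 * ((6 + j : ℕ) : ℝ) - 5) * ‖κ (6 + j)‖ ^ 2 := by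
      nlinarith [sq_nonneg ‖κ (6 + j)‖]
    linarith)
  refine ⟨hP, ?_⟩
  have h6 : ‖vec σ - vec τ‖ ≤ Real.sqrt (2 * C * Psi c3 c5 (vec σ)) := by
    rw [pi_norm_le_iff_of_nonneg (Real.sqrt_nonneg _)]
    intro i
    apply Real.le_sqrt_of_sq_le
    have := hH2 (i + 1) (by have := i.2; omega)
    calc ‖(vec σ - vec τ) i‖ ^ 2 = ‖σ (i + 1) - τ (i + 1)‖ ^ 2 := rfl
      _ ≤ C * (2 * Psi c3 c5 (vec σ)) := this
      _ = 2 * C * Psi c3 c5 (vec σ) := by ring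
  calc ‖vec σ - vec τ‖ ^ 2 ≤ Real.sqrt (2 * C * Psi c3 c5 (vec σ)) ^ 2 := by gcongr
    _ = 2 * C * Psi c3 c5 (vec σ) := Real.sq_sqrt (by positivity)

theorem Psi_sym {t : ℂ → ℂ} {τ μ : ℕ → ℂ} (hτ : PS τ t) (h0 : t 0 = 1) {c3 c5 : ℂ}
    (hμ : PS μ (KK c3 c5 t)) (h : Sym μ) : Psi c3 c5 (vec τ) = 0 := by
  rw [Psi_eq hτ h0 hμ, h.1, h.2.1, h.2.2.1]
  simp only [← Complex.normSq_eq_norm_sq, Complex.normSq_apply, Complex.add_re, Complex.mul_re,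
    Complex.neg_re, Complex.conj_re, Complex.neg_im, Complex.conj_im, Complex.mul_im]
  have e5r : ((5 : ℂ)).re = 5 := by simp
  have e5i : ((5 : ℂ)).im = 0 := by simp
  have e3r : ((3 : ℂ)).re = 3 := by simp
  have e3i : ((3 : ℂ)).im = 0 := by simp
  rw [e5r, e5i, e3r, e3i]
  ring

/-- Main perturbation theorem. -/
theorem support_of_sym : ∃ δ : ℝ, 0 < δ ∧ ∀ c3 c5 : ℂ, ‖c3‖ ≤ δ → ‖c5‖ ≤ δ →
    ∀ (g t : ℂ → ℂ) (μ : ℕ → ℂ), InS g → IsRoot g t → PS μ (KK c3 c5 t) → Sym μ →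
      IsSupp g := by
  obtain ⟨δ1, C1, hδ1, hC1, H⟩ := coercive_vec
  -- bounds for the inverse coordinate change
  obtain ⟨C2, hC20, hC2⟩ := lipschitz_bound Am (Am_contDiff.of_le one_le_two) 1
  obtain ⟨M, hM⟩ := (isCompact_closedBall (0 : E5) 1).exists_bound_of_continuousOn
    Am_contDiff.continuous.continuousOn
  set M' : ℝ := max 1 M with hM'
  obtain ⟨C3, hC30, hC3⟩ := taylor_bound R1 R1_cd M'
  obtain ⟨C4, hC40, hC4⟩ := taylor_bound R2 R2_cd M'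
  set D : ℝ := (C3 + C4) * (C2 ^ 2 * C1) with hD
  have hD0 : 0 ≤ D := by positivity
  refine ⟨min δ1 (min 1 (1 / (2 * (D + 1)))), by positivity, ?_⟩
  intro c3 c5 h3 h5 g t μ hg ht hμ hsym
  have h3a : ‖c3‖ ≤ δ1 := h3.trans (min_le_left _ _)
  have h5a : ‖c5‖ ≤ δ1 := h5.trans (min_le_left _ _)
  have h3b : ‖c3‖ ≤ 1 := h3.trans ((min_le_right _ _).trans (min_le_left _ _))
  have h5b : ‖c5‖ ≤ 1 := h5.trans ((min_le_right _ _).trans (min_le_left _ _))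
  have h3c : ‖c3‖ ≤ 1 / (2 * (D + 1)) := h3.trans ((min_le_right _ _).trans (min_le_right _ _))
  have h5c : ‖c5‖ ≤ 1 / (2 * (D + 1)) := h5.trans ((min_le_right _ _).trans (min_le_right _ _))
  obtain ⟨τ, hτ⟩ := exists_PS ht.1
  obtain ⟨b, hb⟩ := exists_PS hg.1
  obtain ⟨hb0, hb1⟩ := hg.coeffs hb
  obtain ⟨hbS, hbA⟩ := coeffs_rel hb hτ ht.2.2.2 ht.2.1 hb0 hb1
  set b5 : E5 := fun i : Fin 5 => b (i + 2) with hb5
  have hpsi0 : Psi c3 c5 (vec τ) = 0 := Psi_sym hτ ht.2.1 hμ hsym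
  set D1 : E5 →ₗ[ℝ] ℂ := (fderiv ℝ R1 ((c3, c5), b5)).toLinearMap.comp
    (LinearMap.inr ℝ (ℂ × ℂ) E5) with hD1
  set D2 : E5 →ₗ[ℝ] ℂ := (fderiv ℝ R2 ((c3, c5), b5)).toLinearMap.comp
    (LinearMap.inr ℝ (ℂ × ℂ) E5) with hD2
  -- the real functional
  set l : E5 →ₗ[ℝ] ℝ :=
    (1 / 2 : ℝ) • (Complex.reLm.comp (LinearMap.proj (0 : Fin 5) : E5 →ₗ[ℝ] ℂ))
      - Complex.reLm.comp ((LinearMap.mulLeft ℝ c3).comp D1)
      - Complex.reLm.comp ((LinearMap.mulLeft ℝ c5).comp D2) with hl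
  have hlx : ∀ x : E5, l x = (x 0).re / 2 - (c3 * fderiv ℝ R1 ((c3, c5), b5) (0, x)).re
      - (c5 * fderiv ℝ R2 ((c3, c5), b5) (0, x)).re := by
    intro x
    simp [hl, hD1, hD2]
    ring
  obtain ⟨L, C, hLC, hLre⟩ := exists_functional l
  -- the main inequality
  have main : ∀ f s : ℂ → ℂ, ∀ σ : ℕ → ℂ, InS f → IsRoot f s → PS σ s →
      (L f).re - (L g).re ≤ -(Psi c3 c5 (vec σ)) / 2 ∧ 0 ≤ Psi c3 c5 (vec σ) := by
    intro f s σ hf hs hσ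
    obtain ⟨a, ha⟩ := exists_PS hf.1
    obtain ⟨ha0, ha1⟩ := hf.coeffs ha
    obtain ⟨haS, haA⟩ := coeffs_rel ha hσ hs.2.2.2 hs.2.1 ha0 ha1
    set a5 : E5 := fun i : Fin 5 => a (i + 2) with ha5
    obtain ⟨hP, hdist⟩ := H c3 c5 h3a h5a f s g t σ τ μ hf hs hg ht hσ hτ hμ hsym
    refine ⟨?_, hP⟩
    have hv1 := vec_norm_le hf hs hσ
    have hv2 := vec_norm_le hg ht hτ
    have hdist2 : ‖a5 - b5‖ ^ 2 ≤ C2 ^ 2 * C1 * Psi c3 c5 (vec σ) := by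
      have h1 : ‖a5 - b5‖ ≤ C2 * ‖vec σ - vec τ‖ := by
        rw [haA, hbA]; exact hC2 _ _ hv1 hv2
      calc ‖a5 - b5‖ ^ 2 ≤ (C2 * ‖vec σ - vec τ‖) ^ 2 := by gcongr
        _ = C2 ^ 2 * ‖vec σ - vec τ‖ ^ 2 := by ring
        _ ≤ C2 ^ 2 * (C1 * Psi c3 c5 (vec σ)) := by gcongr
        _ = _ := by ring
    have hna : ‖a5‖ ≤ M := by rw [haA]; exact hM _ (by simpa using hv1)
    have hnb : ‖b5‖ ≤ M := by rw [hbA]; exact hM _ (by simpa using hv2)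
    have hpa : ‖(((c3, c5), a5) : PP)‖ ≤ M' := by
      simp only [Prod.norm_def]
      refine max_le (max_le ?_ ?_) ?_
      · exact h3b.trans (le_max_left _ _)
      · exact h5b.trans (le_max_left _ _)
      · exact hna.trans (le_max_right _ _)
    have hpb : ‖(((c3, c5), b5) : PP)‖ ≤ M' := by
      simp only [Prod.norm_def]
      refine max_le (max_le ?_ ?_) ?_
      · exact h3b.trans (le_max_left _ _)
      · exact h5b.trans (le_max_left _ _)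
      · exact hnb.trans (le_max_right _ _)
    have hsub : (((c3, c5), a5) : PP) - ((c3, c5), b5) = ((0, 0), a5 - b5) := by
      ext <;> simp
    have hnsub : ‖(((c3, c5), a5) : PP) - ((c3, c5), b5)‖ = ‖a5 - b5‖ := by
      rw [hsub]
      simp [Prod.norm_def]
    have t1 := hC3 _ _ hpa hpb
    have t2 := hC4 _ _ hpa hpb
    rw [hnsub, hsub] at t1 t2
    have z0 : ((0 : ℂ), (0 : ℂ)) = (0 : ℂ × ℂ) := rfl
    rw [z0] at t1 t2
    set r1 : ℂ := R1 ((c3, c5), a5) - R1 ((c3, c5), b5)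
      - fderiv ℝ R1 ((c3, c5), b5) (0, a5 - b5) with hr1
    set r2 : ℂ := R2 ((c3, c5), a5) - R2 ((c3, c5), b5)
      - fderiv ℝ R2 ((c3, c5), b5) (0, a5 - b5) with hr2
    have e1 : (L f).re - (L g).re = l (a5 - b5) := by
      rw [hLre f a ha, hLre g b hb, map_sub]
    have e2 : Psi c3 c5 (vec σ) = 1 - (a5 0).re / 2 + (c3 * R1 ((c3, c5), a5)).re
        + (c5 * R2 ((c3, c5), a5)).re := by rw [haS, Psi_Sm]
    have e3 : (0 : ℝ) = 1 - (b5 0).re / 2 + (c3 * R1 ((c3, c5), b5)).re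
        + (c5 * R2 ((c3, c5), b5)).re := by rw [← hpsi0, hbS, Psi_Sm]
    have e4 : l (a5 - b5) = -(Psi c3 c5 (vec σ)) + (c3 * r1).re + (c5 * r2).re := by
      rw [hlx, e2, hr1, hr2]
      simp only [Pi.sub_apply, Complex.sub_re, mul_sub]
      linarith
    have b1 : (c3 * r1).re ≤ ‖c3‖ * (C3 * ‖a5 - b5‖ ^ 2) := by
      refine (Complex.re_le_norm _).trans ?_
      rw [norm_mul]
      gcongr
    have b2 : (c5 * r2).re ≤ ‖c5‖ * (C4 * ‖a5 - b5‖ ^ 2) := by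
      refine (Complex.re_le_norm _).trans ?_
      rw [norm_mul]
      gcongr
    set P := Psi c3 c5 (vec σ) with hPdef
    have b3 : ‖c3‖ * (C3 * ‖a5 - b5‖ ^ 2) + ‖c5‖ * (C4 * ‖a5 - b5‖ ^ 2)
        ≤ 1 / (2 * (D + 1)) * (D * P) := by
      calc ‖c3‖ * (C3 * ‖a5 - b5‖ ^ 2) + ‖c5‖ * (C4 * ‖a5 - b5‖ ^ 2)
          ≤ 1 / (2 * (D + 1)) * (C3 * (C2 ^ 2 * C1 * P))
            + 1 / (2 * (D + 1)) * (C4 * (C2 ^ 2 * C1 * P)) := by gcongr
        _ = 1 / (2 * (D + 1)) * (D * P) := by rw [hD]; ring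
    have b4 : 1 / (2 * (D + 1)) * (D * P) ≤ P / 2 := by
      rw [div_mul_eq_mul_div, one_mul, div_le_iff₀ (by positivity)]
      nlinarith
    rw [e1, e4]
    linarith
  -- conclude
  refine ⟨L, 1 / 2, C, by norm_num, by norm_num, hLC, ⟨fun z => z, g, id_InS, hg, ?_⟩, ?_⟩
  · intro heq
    have hid : IsRoot (fun z => z) (fun _ => 1) :=
      ⟨differentiableOn_const 1, rfl, fun _ _ => one_ne_zero, fun z _ => by simp⟩
    have hone : PS (fun n => if n = 0 then 1 else 0) (fun _ => 1) := by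
      simpa using PS_pow 0
    obtain ⟨h1, h2⟩ := main _ _ _ id_InS hid hone
    rw [heq, sub_self] at h1
    have hv : vec (fun n => if n = 0 then (1 : ℂ) else 0) = 0 := by
      funext i; simp [vec]
    rw [hv] at h1 h2
    have : 1 ≤ Psi c3 c5 0 := by
      have : Psi c3 c5 0 = 5 * ‖c5‖ ^ 2 + 3 * ‖c3‖ ^ 2 + 1 := by
        simp [Psi, k0, k1, k2, k3, k4, k5]
      rw [this]
      have := sq_nonneg ‖c5‖
      have := sq_nonneg ‖c3‖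
      linarith
    linarith
  · intro f hf
    obtain ⟨s, hs⟩ := exists_root hf
    obtain ⟨σ, hσ⟩ := exists_PS hs.1
    obtain ⟨h1, h2⟩ := main f s σ hf hs hσ
    linarith

end Pool.Agent.Helper506.Arc
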