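import Mathlib

/-!
Triangle averages of power series near a point where the sums are bounded.
-/

open Complex Metric Set Filter Topology MeasureTheory

namespace Pool.Agent.Helper506.BConv

/-- Abel summation. -/
theorem abel_eq (A τ : ℕ → ℂ) (N : ℕ) :
    ∑ j ∈ Finset.range N, A j * τ j = (∑ j ∈ Finset.range N, A j) * τ N +
      ∑ j ∈ Finset.range N, (∑ i ∈ Finset.range (j + 1), A i) * (τ j - τ (j + 1)) := by
  induction N with
  | zero => simp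
  | succ N ih =>
    rw [Finset.sum_range_succ, ih, Finset.sum_range_succ _ N, Finset.sum_range_succ (fun j =>
      (∑ i ∈ Finset.range (j + 1), A i) * (τ j - τ (j + 1))) N, Finset.sum_range_succ A N]
    ring

theorem abel_bound {A τ : ℕ → ℂ} {M : ℝ} (hM : ∀ m, ‖∑ j ∈ Finset.range m, A j‖ ≤ M) (N : ℕ) :
    ‖∑ j ∈ Finset.range N, A j * τ j‖ ≤
      M * (‖τ N‖ + ∑ j ∈ Finset.range N, ‖τ j - τ (j + 1)‖) := by
  rw [abel_eq, mul_add, Finset.mul_sum]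
  refine (norm_add_le _ _).trans (add_le_add ?_ ?_)
  · rw [norm_mul]
    exact mul_le_mul_of_nonneg_right (hM N) (norm_nonneg _)
  · refine (norm_sum_le _ _).trans (Finset.sum_le_sum fun j _ => ?_)
    rw [norm_mul]
    exact mul_le_mul_of_nonneg_right (hM _) (norm_nonneg _)

/-- damping does not increase the bound for the sums -/
theorem damped {a : ℕ → ℂ} {M : ℝ} (hM : ∀ m, ‖∑ j ∈ Finset.range m, a j‖ ≤ M) {r : ℝ}
    (h0 : 0 ≤ r) (h1 : r ≤ 1) (m : ℕ) : ‖∑ j ∈ Finset.range m, a j * (r : ℂ) ^ j‖ ≤ M := by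
  have h2 := abel_bound (τ := fun j => (r : ℂ) ^ j) hM m
  have h3 : ∀ j : ℕ, ‖(r : ℂ) ^ j - (r : ℂ) ^ (j + 1)‖ = r ^ j - r ^ (j + 1) := by
    intro j
    have : r ^ (j + 1) ≤ r ^ j := pow_le_pow_of_le_one h0 h1 (Nat.le_succ j)
    rw [← ofReal_pow, ← ofReal_pow, ← ofReal_sub, norm_real, Real.norm_of_nonneg (by linarith)]
  simp only [h3] at h2
  rw [Finset.sum_range_sub' (fun j => r ^ j) m, norm_pow, norm_real, Real.norm_of_nonneg h0,
    pow_zero] at h2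
  simpa using h2

/-- the triangle kernel -/
noncomputable def T (δ : ℝ) (k : ℤ) : ℂ :=
  ∫ s in (0:ℝ)..δ, ((1 - s / δ : ℝ) : ℂ) * exp (I * (k * s : ℝ))

theorem T_norm_le {δ : ℝ} (hδ : 0 < δ) (k : ℤ) : ‖T δ k‖ ≤ δ := by
  unfold T
  have h := intervalIntegral.norm_integral_le_of_norm_le_const (a := 0) (b := δ) (C := 1)
    (f := fun s : ℝ => ((1 - s / δ : ℝ) : ℂ) * exp (I * (k * s : ℝ))) ?_
  · rw [sub_zero, abs_of_pos hδ, one_mul] at h
    exact h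
  · intro s hs
    rw [uIoc_of_le hδ.le] at hs
    have h1 : s / δ ≤ 1 := (div_le_one hδ).mpr hs.2
    have h2 : 0 < s / δ := div_pos hs.1 hδ
    rw [norm_mul, norm_real, mul_comm I, norm_exp_ofReal_mul_I, mul_one, Real.norm_eq_abs, abs_le]
    constructor <;> linarith

theorem T_closed {δ : ℝ} (hδ : 0 < δ) {k : ℤ} (hk : k ≠ 0) :
    T δ k = I / k - (exp (I * (k * δ : ℝ)) - 1) / (δ * k ^ 2) := by
  have hkc : (k : ℂ) ≠ 0 := by exact_mod_cast hk
  have hδc : (δ : ℂ) ≠ 0 := by exact_mod_cast hδ.ne'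
  have hI := I_ne_zero
  set Φ : ℝ → ℂ := fun s => (1 - (s : ℂ) / δ) * exp (I * (k * s : ℂ)) / (I * k) +
    exp (I * (k * s : ℂ)) / (δ * (I * k) ^ 2) with hΦ
  have hder : ∀ s : ℝ, HasDerivAt Φ (((1 - s / δ : ℝ) : ℂ) * exp (I * (k * s : ℝ))) s := by
    intro s
    have h1 : HasDerivAt (fun s : ℝ => (s : ℂ)) 1 s := ofRealCLM.hasDerivAt
    have h2 : HasDerivAt (fun s : ℝ => exp (I * (k * s : ℂ)))
        (exp (I * (k * s : ℂ)) * (I * (k * 1))) s := ((h1.const_mul (k : ℂ)).const_mul I).cexp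
    have h3 : HasDerivAt (fun s : ℝ => (1 - (s : ℂ) / δ)) (-(1 / δ)) s :=
      (h1.div_const (δ : ℂ)).const_sub 1
    have h4 := ((h3.mul h2).div_const (I * k)).add (h2.div_const ((δ : ℂ) * (I * k) ^ 2))
    refine h4.congr_deriv ?_
    push_cast
    field_simp
    ring
  have hint : T δ k = Φ δ - Φ 0 := by
    unfold T
    refine intervalIntegral.integral_eq_sub_of_hasDerivAt (fun s _ => hder s) ?_
    apply Continuous.intervalIntegrable
    fun_prop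
  rw [hint]
  simp only [hΦ]
  push_cast
  simp only [mul_zero, exp_zero, zero_div, sub_zero, div_self hδc, sub_self, zero_mul]
  have hI2 : I ^ 2 = -1 := I_sq
  field_simp
  rw [hI2]
  ring

/-- difference of consecutive kernels, small `δ` bound -/
theorem T_sub_le {δ : ℝ} (hδ : 0 < δ) (k : ℤ) : ‖T δ k - T δ (k + 1)‖ ≤ δ ^ 2 := by
  have h1 : T δ k - T δ (k + 1) = ∫ s in (0:ℝ)..δ, ((1 - s / δ : ℝ) : ℂ) *
      (exp (I * (k * s : ℝ)) * (1 - exp (I * s))) := by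
    unfold T
    rw [← intervalIntegral.integral_sub]
    · congr 1
      funext s
      have : exp (I * (((k + 1 : ℤ) : ℝ) * s : ℝ)) = exp (I * (k * s : ℝ)) * exp (I * s) := by
        rw [← exp_add]; congr 1; push_cast; ring
      rw [this]; ring
    · apply Continuous.intervalIntegrable; fun_prop
    · apply Continuous.intervalIntegrable; fun_prop
  rw [h1]
  have h := intervalIntegral.norm_integral_le_of_norm_le_const (a := 0) (b := δ) (C := δ)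
    (f := fun s : ℝ => ((1 - s / δ : ℝ) : ℂ) * (exp (I * (k * s : ℝ)) * (1 - exp (I * s)))) ?_
  · rw [sub_zero, abs_of_pos hδ] at h
    rw [pow_two]; exact h
  · intro s hs
    rw [uIoc_of_le hδ.le] at hs
    have h1 : s / δ ≤ 1 := (div_le_one hδ).mpr hs.2
    have h2 : 0 < s / δ := div_pos hs.1 hδ
    rw [norm_mul, norm_real, norm_mul, mul_comm I, norm_exp_ofReal_mul_I, one_mul,
      Real.norm_eq_abs]
    have h3 : |1 - s / δ| ≤ 1 := by rw [abs_le]; constructor <;> linarith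
    have h4 : ‖1 - exp (I * s)‖ ≤ s := by
      have := Real.norm_exp_I_mul_ofReal_sub_one_le (x := s)
      rw [norm_sub_rev]
      refine this.trans ?_
      rw [Real.norm_of_nonneg hs.1.le]
    calc |1 - s / δ| * ‖1 - exp (I * s)‖ ≤ 1 * s := by gcongr
      _ ≤ δ := by rw [one_mul]; exact hs.2

theorem norm_zexp_sub_one_le (x : ℝ) : ‖exp (I * (x : ℝ)) - 1‖ ≤ |x| :=
  Real.norm_exp_I_mul_ofReal_sub_one_le

/-- difference of consecutive kernels, large `k` bound -/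
theorem T_sub_mul_le {δ : ℝ} (hδ : 0 < δ) (k : ℤ) :
    |(k : ℝ)| * |(k : ℝ) + 1| * ‖T δ k - T δ (k + 1)‖ ≤ 4 := by
  by_cases hk : k = 0
  · rw [hk]; simp
  by_cases hk1 : k + 1 = 0
  · have : (k : ℝ) + 1 = 0 := by exact_mod_cast hk1
    rw [this]; simp
  have hkc : (k : ℂ) ≠ 0 := by exact_mod_cast hk
  have hk1c : (k : ℂ) + 1 ≠ 0 := by exact_mod_cast hk1
  have hδc : (δ : ℂ) ≠ 0 := by exact_mod_cast hδ.ne'
  have hkr : (k : ℝ) ≠ 0 := by exact_mod_cast hk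
  have hk1r : (k : ℝ) + 1 ≠ 0 := by exact_mod_cast hk1
  set w := exp (I * (k * δ : ℝ)) with hw
  set w' := exp (I * (((k + 1 : ℤ) : ℝ) * δ : ℝ)) with hw'
  have hid : (k : ℂ) * ((k : ℂ) + 1) * (T δ k - T δ (k + 1)) =
      I - (1 / (δ : ℂ)) * ((w - w') + (w - 1) / k + (w' - 1) / (k + 1)) := by
    rw [T_closed hδ hk, T_closed hδ hk1, ← hw, ← hw']
    push_cast
    field_simp
    ring
  have hn : |(k : ℝ)| * |(k : ℝ) + 1| * ‖T δ k - T δ (k + 1)‖ =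
      ‖(k : ℂ) * ((k : ℂ) + 1) * (T δ k - T δ (k + 1))‖ := by
    rw [norm_mul, norm_mul]
    congr 2
    · rw [← ofReal_intCast, norm_real, Real.norm_eq_abs]
    · rw [← ofReal_intCast, ← ofReal_one, ← ofReal_add, norm_real, Real.norm_eq_abs]
  rw [hn, hid]
  have h1 : ‖w - w'‖ ≤ δ := by
    have h2 : w - w' = -(w * (exp (I * (δ : ℝ)) - 1)) := by
      have : w' = w * exp (I * (δ : ℝ)) := by
        rw [hw, hw', ← exp_add]; congr 1; push_cast; ring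
      rw [this]; ring
    rw [h2, norm_neg, norm_mul, hw, mul_comm I ((k * δ : ℝ) : ℂ), norm_exp_ofReal_mul_I, one_mul]
    refine (norm_zexp_sub_one_le δ).trans ?_
    rw [abs_of_pos hδ]
  have h2 : ‖(w - 1) / k‖ ≤ δ := by
    rw [norm_div, ← ofReal_intCast, norm_real, Real.norm_eq_abs,
      div_le_iff₀ (abs_pos.mpr hkr)]
    refine (norm_zexp_sub_one_le _).trans ?_
    rw [abs_mul, abs_of_pos hδ, mul_comm]
  have h3 : ‖(w' - 1) / (k + 1)‖ ≤ δ := by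
    rw [norm_div, ← ofReal_intCast, ← ofReal_one, ← ofReal_add, norm_real, Real.norm_eq_abs,
      div_le_iff₀ (abs_pos.mpr hk1r)]
    rw [hw', ofReal_one]
    refine (norm_zexp_sub_one_le _).trans ?_
    push_cast
    rw [abs_mul, abs_of_pos hδ, mul_comm]
  have h4 : ‖(1 / (δ : ℂ)) * ((w - w') + (w - 1) / k + (w' - 1) / (k + 1))‖ ≤ 3 := by
    rw [norm_mul, norm_div, norm_one, norm_real, Real.norm_of_nonneg hδ.le]
    have h5 : ‖(w - w') + (w - 1) / k + (w' - 1) / (k + 1)‖ ≤ 3 * δ := by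
      have a1 := norm_add_le ((w - w') + (w - 1) / k) ((w' - 1) / (k + 1))
      have a2 := norm_add_le (w - w') ((w - 1) / k)
      linarith
    calc 1 / δ * ‖(w - w') + (w - 1) / k + (w' - 1) / (k + 1)‖ ≤ 1 / δ * (3 * δ) := by gcongr
      _ = 3 := by field_simp
  refine (norm_sub_le _ _).trans ?_
  rw [norm_I]
  linarith

/-- a bounded increasing function dominating the variation of the kernel -/
noncomputable def G (δ : ℝ) (k : ℤ) : ℝ := δ * (δ * k) / (1 + δ * |(k : ℝ)|)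

theorem G_abs_le {δ : ℝ} (hδ : 0 < δ) (k : ℤ) : |G δ k| ≤ δ := by
  unfold G
  have h0 : 0 ≤ δ * |(k : ℝ)| := by positivity
  rw [abs_div, abs_mul, abs_mul, abs_of_pos hδ, abs_of_pos (by linarith : 0 < 1 + δ * |(k : ℝ)|),
    div_le_iff₀ (by linarith)]
  nlinarith

theorem G_sub {δ : ℝ} (hδ : 0 < δ) (k : ℤ) :
    G δ (k + 1) - G δ k = δ ^ 2 / ((1 + δ * |(k : ℝ)|) * (1 + δ * |(k : ℝ) + 1|)) := by
  unfold G
  push_cast
  rcases le_or_gt 0 k with hk | hk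
  · have h0 : (0:ℝ) ≤ k := by exact_mod_cast hk
    rw [abs_of_nonneg h0, abs_of_nonneg (by linarith : (0:ℝ) ≤ k + 1)]
    have h1 : 1 + δ * (k:ℝ) ≠ 0 := by positivity
    have h2 : 1 + δ * ((k:ℝ) + 1) ≠ 0 := by positivity
    field_simp
    ring
  · have h0 : (k:ℝ) + 1 ≤ 0 := by exact_mod_cast hk
    rw [abs_of_nonpos (by linarith : (k:ℝ) ≤ 0), abs_of_nonpos h0]
    have h3 : 0 ≤ δ * -(k:ℝ) := mul_nonneg hδ.le (by linarith)
    have h4 : 0 ≤ δ * -((k:ℝ) + 1) := mul_nonneg hδ.le (by linarith)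
    have h1 : 1 + δ * -(k:ℝ) ≠ 0 := by linarith
    have h2 : 1 + δ * -((k:ℝ) + 1) ≠ 0 := by linarith
    rw [div_sub_div _ _ h2 h1, div_eq_div_iff (mul_ne_zero h2 h1) (mul_ne_zero h1 h2)]
    ring

theorem T_sub_le_G {δ : ℝ} (hδ : 0 < δ) (hδ7 : δ ≤ 7) (k : ℤ) :
    ‖T δ k - T δ (k + 1)‖ ≤ 17 * (G δ (k + 1) - G δ k) := by
  have h1 := T_sub_le hδ k
  have h2 := T_sub_mul_le hδ k
  rw [G_sub hδ]
  set x := |(k : ℝ)| with hx
  set y := |(k : ℝ) + 1| with hy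
  set Δ := ‖T δ k - T δ (k + 1)‖ with hΔ
  have hx0 : 0 ≤ x := abs_nonneg _
  have hy0 : 0 ≤ y := abs_nonneg _
  have hΔ0 : 0 ≤ Δ := norm_nonneg _
  have hxy : x - y ≤ 1 := by
    have := abs_sub_abs_le_abs_sub (k : ℝ) ((k : ℝ) + 1)
    simpa using this
  have hyx : y - x ≤ 1 := by
    have := abs_sub_abs_le_abs_sub ((k : ℝ) + 1) (k : ℝ)
    simpa using this
  have hp : 0 < (1 + δ * x) * (1 + δ * y) := by positivity
  rw [mul_div_assoc', le_div_iff₀ hp]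
  have h3 : (1 + δ * x) * (1 + δ * y) ≤ 2 + δ + 2 * (δ ^ 2 * (x * y)) := by
    have h4 : δ * x + δ * y ≤ 1 + δ + δ ^ 2 * (x * y) := by
      rcases le_total x y with h | h
      · nlinarith [mul_nonneg hδ.le hx0, mul_nonneg hδ.le (sub_nonneg.mpr hyx),
          mul_nonneg (mul_nonneg hδ.le hx0) (mul_nonneg hδ.le (sub_nonneg.mpr h)),
          sq_nonneg (δ * x - 1)]
      · nlinarith [mul_nonneg hδ.le hy0, mul_nonneg hδ.le (sub_nonneg.mpr hxy),
          mul_nonneg (mul_nonneg hδ.le hy0) (mul_nonneg hδ.le (sub_nonneg.mpr h)),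
          sq_nonneg (δ * y - 1)]
    nlinarith
  calc Δ * ((1 + δ * x) * (1 + δ * y)) ≤ Δ * (2 + δ + 2 * (δ ^ 2 * (x * y))) := by gcongr
    _ = (2 + δ) * Δ + 2 * δ ^ 2 * (x * y * Δ) := by ring
    _ ≤ (2 + δ) * δ ^ 2 + 2 * δ ^ 2 * 4 := by gcongr
    _ ≤ 17 * δ ^ 2 := by nlinarith [sq_nonneg δ]

theorem var_sum_le {δ : ℝ} (hδ : 0 < δ) (hδ7 : δ ≤ 7) (n : ℤ) (N : ℕ) :
    ∑ j ∈ Finset.range N, ‖T δ (j - n) - T δ ((j + 1 : ℕ) - n)‖ ≤ 34 * δ := by
  have h1 : ∀ j ∈ Finset.range N, ‖T δ ((j : ℤ) - n) - T δ (((j + 1 : ℕ) : ℤ) - n)‖ ≤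
      17 * (G δ (((j + 1 : ℕ) : ℤ) - n) - G δ ((j : ℤ) - n)) := by
    intro j _
    have h2 := T_sub_le_G hδ hδ7 ((j : ℤ) - n)
    have h3 : (j : ℤ) - n + 1 = ((j + 1 : ℕ) : ℤ) - n := by push_cast; ring
    rw [h3] at h2
    exact h2
  refine (Finset.sum_le_sum h1).trans ?_
  rw [← Finset.mul_sum, Finset.sum_range_sub (fun j : ℕ => G δ ((j : ℤ) - n))]
  have a1 := abs_le.mp (G_abs_le hδ ((N : ℤ) - n))
  have a2 := abs_le.mp (G_abs_le hδ (((0 : ℕ) : ℤ) - n))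
  linarith [a1.2, a2.1]

theorem var_sum_le' {δ : ℝ} (hδ : 0 < δ) (hδ7 : δ ≤ 7) (n : ℤ) (N : ℕ) :
    ∑ j ∈ Finset.range N, ‖T δ (n - j) - T δ (n - (j + 1 : ℕ))‖ ≤ 34 * δ := by
  have h1 : ∀ j ∈ Finset.range N, ‖T δ (n - (j : ℤ)) - T δ (n - ((j + 1 : ℕ) : ℤ))‖ ≤
      17 * (G δ (n - (j : ℤ)) - G δ (n - ((j + 1 : ℕ) : ℤ))) := by
    intro j _
    have h2 := T_sub_le_G hδ hδ7 (n - ((j + 1 : ℕ) : ℤ))
    have h3 : n - ((j + 1 : ℕ) : ℤ) + 1 = n - (j : ℤ) := by push_cast; ring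
    rw [h3] at h2
    rw [norm_sub_rev]
    exact h2
  refine (Finset.sum_le_sum h1).trans ?_
  rw [← Finset.mul_sum, Finset.sum_range_sub' (fun j : ℕ => G δ (n - (j : ℤ)))]
  have a1 := abs_le.mp (G_abs_le hδ (n - (N : ℤ)))
  have a2 := abs_le.mp (G_abs_le hδ (n - ((0 : ℕ) : ℤ)))
  linarith [a1.1, a2.2]

end Pool.Agent.Helper506.BConv
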