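import Pool.Agent.Helper506.BConvA

open Complex Metric Set Filter Topology MeasureTheory

namespace Pool.Agent.Helper506.BConv

/-- the sum of the power series at `r e^{it}` -/
noncomputable def F (a : ℕ → ℂ) (r t : ℝ) : ℂ := ∑' j, a j * ((r : ℂ) * exp (I * t)) ^ j

theorem coeff_bound {a : ℕ → ℂ} {M : ℝ} {ξ : ℂ} (hξ : ‖ξ‖ = 1)
    (hM : ∀ m, ‖∑ j ∈ Finset.range m, a j * ξ ^ j‖ ≤ M) (j : ℕ) : ‖a j‖ ≤ 2 * M := by
  have h1 := hM j
  have h2 := hM (j + 1)
  rw [Finset.sum_range_succ] at h2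
  have h3 := norm_sub_le (∑ j ∈ Finset.range j, a j * ξ ^ j + a j * ξ ^ j)
    (∑ j ∈ Finset.range j, a j * ξ ^ j)
  rw [add_sub_cancel_left, norm_mul, norm_pow, hξ, one_pow, mul_one] at h3
  linarith

theorem norm_eit (t : ℝ) : ‖exp (I * t)‖ = 1 := by rw [mul_comm, norm_exp_ofReal_mul_I]

theorem term_norm {a : ℕ → ℂ} {B : ℝ} (hB : ∀ j, ‖a j‖ ≤ B) {r : ℝ} (h0 : 0 ≤ r) (t : ℝ) (j : ℕ) :
    ‖a j * ((r : ℂ) * exp (I * t)) ^ j‖ ≤ B * r ^ j := by
  rw [norm_mul, norm_pow, norm_mul, norm_eit, norm_real, Real.norm_of_nonneg h0, mul_one]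
  exact mul_le_mul_of_nonneg_right (hB j) (by positivity)

theorem summable_term {a : ℕ → ℂ} {B : ℝ} (hB : ∀ j, ‖a j‖ ≤ B) {r : ℝ} (h0 : 0 ≤ r) (h1 : r < 1)
    (t : ℝ) : Summable fun j => a j * ((r : ℂ) * exp (I * t)) ^ j :=
  Summable.of_norm_bounded ((summable_geometric_of_lt_one h0 h1).mul_left B)
    (fun j => term_norm hB h0 t j)

theorem F_norm_le {a : ℕ → ℂ} {B : ℝ} (hB : ∀ j, ‖a j‖ ≤ B) {r : ℝ} (h0 : 0 ≤ r) (h1 : r < 1)
    (t : ℝ) : ‖F a r t‖ ≤ B / (1 - r) := by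
  have h := tsum_of_norm_bounded ((hasSum_geometric_of_lt_one h0 h1).mul_left B)
    (fun j => term_norm hB h0 t j)
  rw [div_eq_mul_inv]
  exact h

theorem F_continuous {a : ℕ → ℂ} {B : ℝ} (hB : ∀ j, ‖a j‖ ≤ B) {r : ℝ} (h0 : 0 ≤ r) (h1 : r < 1) :
    Continuous (F a r) := by
  unfold F
  exact continuous_tsum (fun j => by fun_prop)
    ((summable_geometric_of_lt_one h0 h1).mul_left B) (fun j t => term_norm hB h0 t j)

/-- on the set where the sums are bounded the radial values are bounded -/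
theorem F_le_of_bounded {a : ℕ → ℂ} {M : ℝ} {t : ℝ}
    (hM : ∀ m, ‖∑ j ∈ Finset.range m, a j * exp (I * t) ^ j‖ ≤ M) {r : ℝ} (h0 : 0 ≤ r)
    (h1 : r < 1) : ‖F a r t‖ ≤ M := by
  have hs := (summable_term (coeff_bound (norm_eit t) hM) h0 h1 t).hasSum.tendsto_sum_nat
  refine le_of_tendsto hs.norm (Eventually.of_forall fun m => ?_)
  have h2 := damped hM h0 h1.le m
  have h3 : ∑ j ∈ Finset.range m, a j * ((r : ℂ) * exp (I * t)) ^ j =
      ∑ j ∈ Finset.range m, a j * exp (I * t) ^ j * (r : ℂ) ^ j :=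
    Finset.sum_congr rfl fun j _ => by rw [mul_pow]; ring
  rw [h3]
  exact h2

/-- The triangle average, in both directions (`σ = 1` or `σ = -1`). -/
theorem tri_bound {a : ℕ → ℂ} {M : ℝ} {θ : ℝ}
    (hM : ∀ m, ‖∑ j ∈ Finset.range m, a j * exp (I * θ) ^ j‖ ≤ M) {r : ℝ} (h0 : 0 ≤ r)
    (h1 : r < 1) (n : ℕ) {δ : ℝ} (hδ : 0 < δ) (hδ7 : δ ≤ 7) {σ : ℤ} (hσ : σ = 1 ∨ σ = -1) :
    ‖∫ s in (0:ℝ)..δ, ((1 - s / δ : ℝ) : ℂ) *
      (F a r (θ + σ * s) * exp (-(I * (n * (θ + σ * s) : ℝ))))‖ ≤ 35 * M * δ := by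
  have hM0 : 0 ≤ M := (norm_nonneg _).trans (hM 0)
  have hB := coeff_bound (norm_eit θ) hM
  set A : ℕ → ℂ := fun j => a j * exp (I * θ) ^ j * (r : ℂ) ^ j with hA
  have hterm : ∀ (j : ℕ) (s : ℝ), ((1 - s / δ : ℝ) : ℂ) *
      ((a j * ((r : ℂ) * exp (I * (θ + σ * s : ℝ))) ^ j) * exp (-(I * (n * (θ + σ * s) : ℝ)))) =
      exp (-(I * (n * θ : ℝ))) * (A j * (((1 - s / δ : ℝ) : ℂ) *
        exp (I * ((σ * (j - n) : ℤ) * s : ℝ)))) := by
    intro j s
    have e1 : exp (I * (θ + σ * s : ℝ)) ^ j * exp (-(I * (n * (θ + σ * s) : ℝ))) =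
        exp (-(I * (n * θ : ℝ))) * (exp (I * θ) ^ j * exp (I * ((σ * (j - n) : ℤ) * s : ℝ))) := by
      rw [← exp_nat_mul, ← exp_nat_mul, ← exp_add, ← exp_add, ← exp_add]
      congr 1
      push_cast
      ring
    simp only [hA]
    rw [mul_pow]
    linear_combination (((1 - s / δ : ℝ) : ℂ) * a j * (r : ℂ) ^ j) * e1
  have hsum : HasSum (fun j => ∫ s in (0:ℝ)..δ, exp (-(I * (n * θ : ℝ))) *
      (A j * (((1 - s / δ : ℝ) : ℂ) * exp (I * ((σ * (j - n) : ℤ) * s : ℝ)))))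
      (∫ s in (0:ℝ)..δ, ((1 - s / δ : ℝ) : ℂ) *
      (F a r (θ + σ * s) * exp (-(I * (n * (θ + σ * s) : ℝ))))) := by
    refine intervalIntegral.hasSum_integral_of_dominated_convergence
      (fun j _ => 2 * M * r ^ j) ?_ ?_ ?_ ?_ ?_
    · intro j
      apply Continuous.aestronglyMeasurable
      fun_prop
    · intro j
      refine Eventually.of_forall fun s hs => ?_
      rw [uIoc_of_le hδ.le] at hs
      have h2 : s / δ ≤ 1 := (div_le_one hδ).mpr hs.2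
      have h3 : 0 < s / δ := div_pos hs.1 hδ
      have e2 : ‖exp (-(I * (n * θ : ℝ)))‖ = 1 := by rw [← mul_neg, ← ofReal_neg, norm_eit]
      have e3 : ‖exp (I * ((σ * (j - n) : ℤ) * s : ℝ))‖ = 1 := norm_eit _
      have e4 : ‖A j‖ ≤ 2 * M * r ^ j := by
        simp only [hA]
        rw [norm_mul, norm_mul, norm_pow, norm_eit, one_pow, mul_one, norm_pow, norm_real,
          Real.norm_of_nonneg h0]
        exact mul_le_mul_of_nonneg_right (hB j) (by positivity)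
      have h4 : ‖((1 - s / δ : ℝ) : ℂ)‖ ≤ 1 := by
        rw [norm_real, Real.norm_eq_abs, abs_le]; constructor <;> linarith
      rw [norm_mul, norm_mul (A j), norm_mul ((1 - s / δ : ℝ) : ℂ), e2, e3, one_mul, mul_one]
      calc ‖A j‖ * ‖((1 - s / δ : ℝ) : ℂ)‖ ≤ 2 * M * r ^ j * 1 := by gcongr
        _ = 2 * M * r ^ j := mul_one _
    · exact Eventually.of_forall fun s _ =>
        (summable_geometric_of_lt_one h0 h1).mul_left (2 * M)
    · exact intervalIntegrable_const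
    · refine Eventually.of_forall fun s _ => ?_
      have h5 := (((summable_term hB h0 h1 (θ + σ * s)).hasSum).mul_right
        (exp (-(I * (n * (θ + σ * s) : ℝ))))).mul_left (((1 - s / δ : ℝ) : ℂ))
      have h6 : (fun j => exp (-(I * (n * θ : ℝ))) * (A j * (((1 - s / δ : ℝ) : ℂ) *
        exp (I * ((σ * (j - n) : ℤ) * s : ℝ))))) = fun j => ((1 - s / δ : ℝ) : ℂ) *
      ((a j * ((r : ℂ) * exp (I * (θ + σ * s : ℝ))) ^ j) *
        exp (-(I * (n * (θ + σ * s) : ℝ)))) := by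
        funext j
        exact (hterm j s).symm
      rw [h6]
      exact h5
  have hval : ∀ j : ℕ, ∫ s in (0:ℝ)..δ, exp (-(I * (n * θ : ℝ))) *
      (A j * (((1 - s / δ : ℝ) : ℂ) * exp (I * ((σ * (j - n) : ℤ) * s : ℝ)))) =
      exp (-(I * (n * θ : ℝ))) * (A j * T δ (σ * (j - n))) := by
    intro j
    rw [intervalIntegral.integral_const_mul, intervalIntegral.integral_const_mul]
    rfl
  simp only [hval] at hsum
  refine le_of_tendsto hsum.tendsto_sum_nat.norm (Eventually.of_forall fun N => ?_)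
  rw [← Finset.mul_sum, norm_mul, ← mul_neg, ← ofReal_neg, norm_eit, one_mul]
  have h7 := abel_bound (A := A) (τ := fun j => T δ (σ * (j - n))) (M := M)
    (fun m => damped hM h0 h1.le m) N
  refine h7.trans ?_
  have h8 : ‖T δ (σ * (N - n))‖ ≤ δ := T_norm_le hδ _
  have h9 : ∑ j ∈ Finset.range N, ‖T δ (σ * (j - n)) - T δ (σ * ((j + 1 : ℕ) - n))‖ ≤ 34 * δ := by
    rcases hσ with h | h
    · rw [h]
      simpa using var_sum_le hδ hδ7 n N
    · rw [h]
      have := var_sum_le' hδ hδ7 n N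
      convert this using 4 with j _
      · congr 1; ring
      · congr 1; ring
  nlinarith

end Pool.Agent.Helper506.BConv
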