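import Mathlib

/-!
Complementary intervals of a closed subset of the line and the splitting of integrals.
-/

open Complex Metric Set Filter Topology MeasureTheory

namespace Pool.Agent.Helper506.BConv

/-- complementary intervals of `S` inside `[a,b]` -/
def IsGap (S : Set ℝ) (a b : ℝ) (p : ℝ × ℝ) : Prop :=
  p.1 ∈ S ∧ p.2 ∈ S ∧ p.1 < p.2 ∧ a ≤ p.1 ∧ p.2 ≤ b ∧ Disjoint (Ioo p.1 p.2) S

theorem gap_exists {S : Set ℝ} (hS : IsClosed S) {a b x : ℝ} (ha : a ∈ S) (hb : b ∈ S)
    (hax : a ≤ x) (hxb : x ≤ b) (hx : x ∉ S) : ∃ p, IsGap S a b p ∧ x ∈ Ioo p.1 p.2 := by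
  obtain ⟨α, hα, hαmax⟩ := (isCompact_Icc.inter_left hS : IsCompact (S ∩ Icc a x)).exists_isGreatest
    ⟨a, ha, left_mem_Icc.mpr hax⟩
  obtain ⟨β, hβ, hβmin⟩ := (isCompact_Icc.inter_left hS : IsCompact (S ∩ Icc x b)).exists_isLeast
    ⟨b, hb, right_mem_Icc.mpr hxb⟩
  have h1 : α < x := lt_of_le_of_ne hα.2.2 (fun h => hx (h ▸ hα.1))
  have h2 : x < β := lt_of_le_of_ne hβ.2.1 (fun h => hx (h ▸ hβ.1))
  refine ⟨(α, β), ⟨hα.1, hβ.1, h1.trans h2, hα.2.1, hβ.2.2, ?_⟩, h1, h2⟩
  rw [Set.disjoint_left]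
  intro y hy hyS
  rcases le_total y x with h | h
  · have := hαmax ⟨hyS, hα.2.1.trans hy.1.le, h⟩
    exact absurd hy.1 (not_lt.mpr this)
  · have := hβmin ⟨hyS, h, hy.2.le.trans hβ.2.2⟩
    exact absurd hy.2 (not_lt.mpr this)

theorem gap_disjoint {S : Set ℝ} {a b : ℝ} {p q : ℝ × ℝ} (hp : IsGap S a b p) (hq : IsGap S a b q)
    (hne : p ≠ q) : Disjoint (Ioo p.1 p.2) (Ioo q.1 q.2) := by
  rw [Set.disjoint_left]
  intro x hxp hxq
  apply hne
  obtain ⟨p1, p2, p3, -, -, p4⟩ := hp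
  obtain ⟨q1, q2, q3, -, -, q4⟩ := hq
  have e1 : p.1 = q.1 := by
    rcases lt_trichotomy p.1 q.1 with h | h | h
    · exact absurd q1 (Set.disjoint_left.mp p4 ⟨h, hxq.1.trans hxp.2⟩)
    · exact h
    · exact absurd p1 (Set.disjoint_left.mp q4 ⟨h, hxp.1.trans hxq.2⟩)
  have e2 : p.2 = q.2 := by
    rcases lt_trichotomy p.2 q.2 with h | h | h
    · exact absurd p2 (Set.disjoint_left.mp q4 ⟨hxq.1.trans hxp.2, h⟩)
    · exact h
    · exact absurd q2 (Set.disjoint_left.mp p4 ⟨hxp.1.trans hxq.2, h⟩)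
  exact Prod.ext e1 e2

/-- the index type of the complementary intervals -/
abbrev Gp (S : Set ℝ) (a b : ℝ) : Type := {p : ℝ × ℝ // IsGap S a b p}

theorem gap_pairwise (S : Set ℝ) (a b : ℝ) :
    Pairwise (Function.onFun Disjoint fun p : Gp S a b => Ioo p.1.1 p.1.2) :=
  fun p q hne => gap_disjoint p.2 q.2 (fun h => hne (Subtype.ext h))

instance gap_countable (S : Set ℝ) (a b : ℝ) : Countable (Gp S a b) :=
  (gap_pairwise S a b).countable_of_isOpen_disjoint (fun _ => isOpen_Ioo)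
    (fun p => nonempty_Ioo.mpr p.2.2.2.1)

theorem iUnion_gap {S : Set ℝ} (hS : IsClosed S) {a b : ℝ} (ha : a ∈ S) (hb : b ∈ S) :
    ⋃ p : Gp S a b, Ioo p.1.1 p.1.2 = Ioc a b \ S := by
  ext x
  simp only [mem_iUnion, Set.mem_sdiff]
  constructor
  · rintro ⟨p, hp⟩
    obtain ⟨h1, h2, h3, h4, h5, h6⟩ := p.2
    exact ⟨⟨lt_of_le_of_lt h4 hp.1, (hp.2.trans_le h5).le⟩, Set.disjoint_left.mp h6 hp⟩
  · rintro ⟨h1, h2⟩
    obtain ⟨p, hp, hx⟩ := gap_exists hS ha hb h1.1.le h1.2 h2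
    exact ⟨⟨p, hp⟩, hx⟩

/-- integral over a gap with a bound proportional to the length -/
theorem hasSum_gap {S : Set ℝ} (hS : IsClosed S) {a b : ℝ} (ha : a ∈ S) (hb : b ∈ S)
    {E : Type*} [NormedAddCommGroup E] [NormedSpace ℝ E] {h : ℝ → E}
    (hc : IntegrableOn h (Ioc a b)) :
    HasSum (fun p : Gp S a b => ∫ t in Ioo p.1.1 p.1.2, h t) (∫ t in Ioc a b \ S, h t) := by
  rw [← iUnion_gap hS ha hb]
  refine hasSum_integral_iUnion (fun _ => measurableSet_Ioo) (gap_pairwise S a b) ?_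
  rw [iUnion_gap hS ha hb]
  exact hc.mono_set sdiff_subset

theorem summable_len {S : Set ℝ} (hS : IsClosed S) {a b : ℝ} (ha : a ∈ S) (hb : b ∈ S) :
    Summable fun p : Gp S a b => p.1.2 - p.1.1 := by
  have h1 := hasSum_gap hS ha hb (h := fun _ : ℝ => (1 : ℝ)) (integrableOn_const (by simp))
  have h2 : (fun p : Gp S a b => ∫ _ in Ioo p.1.1 p.1.2, (1 : ℝ)) =
      fun p : Gp S a b => p.1.2 - p.1.1 := by
    funext p
    have := p.2.2.2.1
    simp [this.le]
  rw [h2] at h1
  exact h1.summable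

/-- hat profile -/
noncomputable def wt (d x : ℝ) : ℝ := max 0 (1 - x / d)

/-- trapezoid profile -/
noncomputable def tau (d x : ℝ) : ℝ := 2 * wt d x - wt (d / 2) x

theorem wt_continuous (d : ℝ) : Continuous (wt d) := by unfold wt; fun_prop

theorem tau_continuous (d : ℝ) : Continuous (tau d) := by
  unfold tau
  exact ((wt_continuous d).const_smul (2:ℝ)).sub (wt_continuous _)

theorem tau_of_le {d x : ℝ} (hd : 0 < d) (hx : x ≤ d / 2) : tau d x = 1 := by
  unfold tau wt
  have h1 : x / d ≤ 1 / 2 := by rw [div_le_iff₀ hd]; linarith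
  have h2 : x / (d / 2) ≤ 1 := by rw [div_le_one (by linarith)]; exact hx
  rw [max_eq_right (by linarith), max_eq_right (by linarith)]
  field_simp
  ring

theorem tau_of_ge {d x : ℝ} (hd : 0 < d) (hx : d ≤ x) : tau d x = 0 := by
  unfold tau wt
  have h1 : 1 ≤ x / d := by rw [le_div_iff₀ hd]; linarith
  have h2 : 1 ≤ x / (d / 2) := by rw [le_div_iff₀ (by linarith)]; linarith
  rw [max_eq_left (by linarith), max_eq_left (by linarith)]
  ring

theorem tau_mem {d x : ℝ} (hd : 0 < d) : 0 ≤ tau d x ∧ tau d x ≤ 1 := by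
  rcases le_or_gt x (d / 2) with h | h
  · rw [tau_of_le hd h]; norm_num
  rcases le_or_gt d x with h' | h'
  · rw [tau_of_ge hd h']; norm_num
  unfold tau wt
  have h1 : x / d ≤ 1 := by rw [div_le_one hd]; exact h'.le
  have h2 : 1 ≤ x / (d / 2) := by rw [le_div_iff₀ (by linarith)]; linarith
  have h3 : 1 / 2 ≤ x / d := by rw [le_div_iff₀ hd]; linarith
  rw [max_eq_right (by linarith), max_eq_left (by linarith)]
  constructor <;> linarith

/-- the part of the weight inside a gap that is kept -/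
noncomputable def mid (d : ℝ) (p : ℝ × ℝ) (t : ℝ) : ℝ := 1 - tau d (t - p.1) - tau d (p.2 - t)

theorem mid_continuous (d : ℝ) (p : ℝ × ℝ) : Continuous (mid d p) := by
  unfold mid
  have h1 : Continuous fun t => tau d (t - p.1) := (tau_continuous d).comp (by fun_prop)
  have h2 : Continuous fun t => tau d (p.2 - t) := (tau_continuous d).comp (by fun_prop)
  exact (continuous_const.sub h1).sub h2

theorem mid_eq_zero {d : ℝ} (hd : 0 < d) {p : ℝ × ℝ} (hp : 2 * d ≤ p.2 - p.1) {t : ℝ}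
    (h : t - p.1 ≤ d / 2 ∨ p.2 - t ≤ d / 2) : mid d p t = 0 := by
  unfold mid
  rcases h with h | h
  · rw [tau_of_le hd h, tau_of_ge hd (by linarith)]; ring
  · rw [tau_of_le hd h, tau_of_ge hd (by linarith)]; ring

theorem mid_abs_le {d : ℝ} (hd : 0 < d) {p : ℝ × ℝ} {t : ℝ} : |mid d p t| ≤ 1 := by
  unfold mid
  have h1 := tau_mem (x := t - p.1) hd
  have h2 := tau_mem (x := p.2 - t) hd
  rw [abs_le]; constructor <;> linarith

/-- the hypotheses on `h` used below -/
structure TriHyp (S : Set ℝ) (C : ℝ) (h : ℝ → ℂ) : Prop where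
  cont : Continuous h
  right : ∀ α ∈ S, ∀ δ : ℝ, 0 < δ → δ ≤ 7 →
    ‖∫ t in α..(α + δ), ((1 - (t - α) / δ : ℝ) : ℂ) * h t‖ ≤ C * δ
  left : ∀ β ∈ S, ∀ δ : ℝ, 0 < δ → δ ≤ 7 →
    ‖∫ t in (β - δ)..β, ((1 - (β - t) / δ : ℝ) : ℂ) * h t‖ ≤ C * δ

theorem wt_right {S : Set ℝ} {C : ℝ} {h : ℝ → ℂ} (H : TriHyp S C h) {α β δ : ℝ} (hα : α ∈ S)
    (hδ : 0 < δ) (hδ7 : δ ≤ 7) (hαβ : α + δ ≤ β) :
    ‖∫ t in α..β, (wt δ (t - α) : ℂ) * h t‖ ≤ C * δ := by
  have hcont : Continuous fun t => (wt δ (t - α) : ℂ) * h t := by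
    have := H.cont
    have h2 : Continuous fun t => wt δ (t - α) := (wt_continuous δ).comp (by fun_prop)
    fun_prop
  rw [← intervalIntegral.integral_add_adjacent_intervals (hcont.intervalIntegrable α (α + δ))
    (hcont.intervalIntegrable (α + δ) β)]
  have h1 : ∫ t in (α + δ)..β, (wt δ (t - α) : ℂ) * h t = 0 := by
    rw [intervalIntegral.integral_congr (g := fun _ => (0:ℂ)), intervalIntegral.integral_zero]
    intro t ht
    rw [uIcc_of_le hαβ] at ht
    have : wt δ (t - α) = 0 := by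
      unfold wt
      have : 1 ≤ (t - α) / δ := by rw [le_div_iff₀ hδ]; linarith [ht.1]
      rw [max_eq_left (by linarith)]
    simp [this]
  have h2 : ∫ t in α..(α + δ), (wt δ (t - α) : ℂ) * h t =
      ∫ t in α..(α + δ), ((1 - (t - α) / δ : ℝ) : ℂ) * h t := by
    apply intervalIntegral.integral_congr
    intro t ht
    rw [uIcc_of_le (by linarith)] at ht
    have : wt δ (t - α) = 1 - (t - α) / δ := by
      unfold wt
      have : (t - α) / δ ≤ 1 := by rw [div_le_one hδ]; linarith [ht.2]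
      rw [max_eq_right (by linarith)]
    simp only [this]
  rw [h1, h2, add_zero]
  exact H.right α hα δ hδ hδ7

theorem wt_left {S : Set ℝ} {C : ℝ} {h : ℝ → ℂ} (H : TriHyp S C h) {α β δ : ℝ} (hβ : β ∈ S)
    (hδ : 0 < δ) (hδ7 : δ ≤ 7) (hαβ : α + δ ≤ β) :
    ‖∫ t in α..β, (wt δ (β - t) : ℂ) * h t‖ ≤ C * δ := by
  have hcont : Continuous fun t => (wt δ (β - t) : ℂ) * h t := by
    have := H.cont
    have h2 : Continuous fun t => wt δ (β - t) := (wt_continuous δ).comp (by fun_prop)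
    fun_prop
  rw [← intervalIntegral.integral_add_adjacent_intervals (hcont.intervalIntegrable α (β - δ))
    (hcont.intervalIntegrable (β - δ) β)]
  have h1 : ∫ t in α..(β - δ), (wt δ (β - t) : ℂ) * h t = 0 := by
    rw [intervalIntegral.integral_congr (g := fun _ => (0:ℂ)), intervalIntegral.integral_zero]
    intro t ht
    rw [uIcc_of_le (by linarith)] at ht
    have : wt δ (β - t) = 0 := by
      unfold wt
      have : 1 ≤ (β - t) / δ := by rw [le_div_iff₀ hδ]; linarith [ht.2]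
      rw [max_eq_left (by linarith)]
    simp [this]
  have h2 : ∫ t in (β - δ)..β, (wt δ (β - t) : ℂ) * h t =
      ∫ t in (β - δ)..β, ((1 - (β - t) / δ : ℝ) : ℂ) * h t := by
    apply intervalIntegral.integral_congr
    intro t ht
    rw [uIcc_of_le (by linarith)] at ht
    have : wt δ (β - t) = 1 - (β - t) / δ := by
      unfold wt
      have : (β - t) / δ ≤ 1 := by rw [div_le_one hδ]; linarith [ht.1]
      rw [max_eq_right (by linarith)]
    simp only [this]
  rw [h1, h2, zero_add]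
  exact H.left β hβ δ hδ hδ7

/-- full gap estimate -/
theorem gap_full {S : Set ℝ} {C : ℝ} {h : ℝ → ℂ} (H : TriHyp S C h) {α β : ℝ} (hα : α ∈ S)
    (hβ : β ∈ S) (hαβ : α < β) (h7 : β - α ≤ 7) :
    ‖∫ t in Ioo α β, h t‖ ≤ 2 * C * (β - α) := by
  have hd : 0 < β - α := by linarith
  rw [← integral_Ioc_eq_integral_Ioo, ← intervalIntegral.integral_of_le hαβ.le]
  have h1 := wt_right H (α := α) (β := β) (δ := β - α) hα hd h7 (by linarith)
  have h2 := wt_left H (α := α) (β := β) (δ := β - α) hβ hd h7 (by linarith)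
  have hH := H.cont
  have c1 : Continuous fun t => (wt (β - α) (t - α) : ℂ) * h t := by
    have h2 : Continuous fun t => wt (β - α) (t - α) := (wt_continuous _).comp (by fun_prop)
    fun_prop
  have c2 : Continuous fun t => (wt (β - α) (β - t) : ℂ) * h t := by
    have h2 : Continuous fun t => wt (β - α) (β - t) := (wt_continuous _).comp (by fun_prop)
    fun_prop
  have h3 : ∫ t in α..β, h t = (∫ t in α..β, (wt (β - α) (t - α) : ℂ) * h t) +
      ∫ t in α..β, (wt (β - α) (β - t) : ℂ) * h t := by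
    rw [← intervalIntegral.integral_add (c1.intervalIntegrable _ _) (c2.intervalIntegrable _ _)]
    apply intervalIntegral.integral_congr
    intro t ht
    rw [uIcc_of_le hαβ.le] at ht
    have a1 : (t - α) / (β - α) ≤ 1 := by rw [div_le_one hd]; linarith [ht.2]
    have a2 : (β - t) / (β - α) ≤ 1 := by rw [div_le_one hd]; linarith [ht.1]
    have : wt (β - α) (t - α) + wt (β - α) (β - t) = 1 := by
      unfold wt
      rw [max_eq_right (by linarith), max_eq_right (by linarith)]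
      field_simp
      ring
    simp only
    rw [← add_mul, ← ofReal_add, this, ofReal_one, one_mul]
  rw [h3]
  refine (norm_add_le _ _).trans ?_
  linarith

/-- the removed part in a large gap -/
theorem gap_ends {S : Set ℝ} {C : ℝ} {h : ℝ → ℂ} (H : TriHyp S C h) {p : ℝ × ℝ}
    (hα : p.1 ∈ S) (hβ : p.2 ∈ S) {δ : ℝ} (hδ : 0 < δ) (h7 : p.2 - p.1 ≤ 7)
    (h2δ : 2 * δ ≤ p.2 - p.1) :
    ‖(∫ t in Ioo p.1 p.2, h t) - ∫ t in Ioo p.1 p.2, (mid δ p t : ℂ) * h t‖ ≤ 5 * C * δ := by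
  have hH := H.cont
  have hle : p.1 ≤ p.2 := by linarith
  rw [← integral_Ioc_eq_integral_Ioo, ← integral_Ioc_eq_integral_Ioo,
    ← intervalIntegral.integral_of_le hle, ← intervalIntegral.integral_of_le hle]
  have w1 : ∀ d : ℝ, Continuous fun t => (wt d (t - p.1) : ℂ) * h t := fun d => by
    have h2 : Continuous fun t => wt d (t - p.1) := (wt_continuous _).comp (by fun_prop)
    fun_prop
  have w2 : ∀ d : ℝ, Continuous fun t => (wt d (p.2 - t) : ℂ) * h t := fun d => by
    have h2 : Continuous fun t => wt d (p.2 - t) := (wt_continuous _).comp (by fun_prop)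
    fun_prop
  have cm : Continuous fun t => (mid δ p t : ℂ) * h t := by
    have := mid_continuous δ p
    fun_prop
  rw [← intervalIntegral.integral_sub (hH.intervalIntegrable _ _) (cm.intervalIntegrable _ _)]
  have e : ∫ t in p.1..p.2, (h t - (mid δ p t : ℂ) * h t) =
      (2 * (∫ t in p.1..p.2, (wt δ (t - p.1) : ℂ) * h t) -
        ∫ t in p.1..p.2, (wt (δ / 2) (t - p.1) : ℂ) * h t) +
      (2 * (∫ t in p.1..p.2, (wt δ (p.2 - t) : ℂ) * h t) -
        ∫ t in p.1..p.2, (wt (δ / 2) (p.2 - t) : ℂ) * h t) := by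
    rw [← intervalIntegral.integral_const_mul, ← intervalIntegral.integral_const_mul,
      ← intervalIntegral.integral_sub, ← intervalIntegral.integral_sub,
      ← intervalIntegral.integral_add]
    · apply intervalIntegral.integral_congr
      intro t _
      simp only [mid, tau]
      push_cast
      ring
    · exact (((w1 δ).const_smul (2:ℂ)).sub (w1 (δ / 2))).intervalIntegrable _ _
    · exact (((w2 δ).const_smul (2:ℂ)).sub (w2 (δ / 2))).intervalIntegrable _ _
    · exact ((w2 δ).const_smul (2:ℂ)).intervalIntegrable _ _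
    · exact (w2 (δ / 2)).intervalIntegrable _ _
    · exact ((w1 δ).const_smul (2:ℂ)).intervalIntegrable _ _
    · exact (w1 (δ / 2)).intervalIntegrable _ _
  rw [e]
  have a1 := wt_right H (β := p.2) hα hδ (by linarith) (by linarith)
  have a2 := wt_right H (β := p.2) hα (half_pos hδ) (by linarith) (by linarith)
  have a3 := wt_left H (α := p.1) hβ hδ (by linarith) (by linarith)
  have a4 := wt_left H (α := p.1) hβ (half_pos hδ) (by linarith) (by linarith)
  refine (norm_add_le _ _).trans ?_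
  have b1 := norm_sub_le (2 * (∫ t in p.1..p.2, (wt δ (t - p.1) : ℂ) * h t))
    (∫ t in p.1..p.2, (wt (δ / 2) (t - p.1) : ℂ) * h t)
  have b2 := norm_sub_le (2 * (∫ t in p.1..p.2, (wt δ (p.2 - t) : ℂ) * h t))
    (∫ t in p.1..p.2, (wt (δ / 2) (p.2 - t) : ℂ) * h t)
  rw [norm_mul, Complex.norm_two] at b1 b2
  linarith

end Pool.Agent.Helper506.BConv
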