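import Pool.Agent.Helper506.BConvC

open Complex Metric Set Filter Topology MeasureTheory

namespace Pool.Agent.Helper506.BConv

/-- the weight that is kept -/
noncomputable def rho (S : Set ℝ) {a b : ℝ} (J : Finset (Gp S a b)) (δ t : ℝ) : ℝ :=
  S.indicator (fun _ => (1:ℝ)) t + ∑ p ∈ J, (Ioo p.1.1 p.1.2).indicator (mid δ p.1) t

theorem rho_measurable {S : Set ℝ} (hS : IsClosed S) {a b : ℝ} (J : Finset (Gp S a b)) (δ : ℝ) :
    Measurable (rho S J δ) := by
  unfold rho
  refine (measurable_const.indicator hS.measurableSet).add ?_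
  exact Finset.measurable_fun_sum _ fun p _ =>
    (mid_continuous δ p.1).measurable.indicator measurableSet_Ioo

theorem split {S : Set ℝ} (hS : IsClosed S) {a b : ℝ} (ha : a ∈ S) (hb : b ∈ S) (h7 : b - a ≤ 7)
    (J : Finset (Gp S a b)) {δ : ℝ} (hδ : 0 < δ) (hJ : ∀ p ∈ J, 2 * δ ≤ p.1.2 - p.1.1)
    {C : ℝ} {h : ℝ → ℂ} (H : TriHyp S C h) :
    ‖(∫ t in Ioc a b, h t) - ∫ t in Ioc a b, (rho S J δ t : ℂ) * h t‖ ≤
      5 * C * (J.card * δ) + 2 * C * ∑' p : {x // x ∉ J}, (p.1.1.2 - p.1.1.1) := by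
  have hint : IntegrableOn h (Ioc a b) :=
    (H.cont.integrableOn_Icc (a := a) (b := b)).mono_set Ioc_subset_Icc_self
  have hSm := hS.measurableSet
  have hsum := hasSum_gap hS ha hb hint
  -- first integral
  have e1 : ∫ t in Ioc a b, h t = (∫ t in Ioc a b ∩ S, h t) + ∫ t in Ioc a b \ S, h t :=
    (integral_inter_add_sdiff hSm hint).symm
  have e2 : ∫ t in Ioc a b \ S, h t = ∑ p ∈ J, (∫ t in Ioo p.1.1 p.1.2, h t) +
      ∑' p : {x // x ∉ J}, ∫ t in Ioo p.1.1.1 p.1.1.2, h t := by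
    rw [← hsum.tsum_eq]
    exact (hsum.summable.sum_add_tsum_subtype_compl J).symm
  -- second integral
  have hmidc : ∀ p : Gp S a b, Continuous fun t => (mid δ p.1 t : ℂ) * h t := fun p => by
    have := mid_continuous δ p.1
    have := H.cont
    fun_prop
  have e3 : ∫ t in Ioc a b, (rho S J δ t : ℂ) * h t = (∫ t in Ioc a b ∩ S, h t) +
      ∑ p ∈ J, ∫ t in Ioo p.1.1 p.1.2, (mid δ p.1 t : ℂ) * h t := by
    have e4 : ∀ t, (rho S J δ t : ℂ) * h t = S.indicator h t +
        ∑ p ∈ J, (Ioo p.1.1 p.1.2).indicator (fun t => (mid δ p.1 t : ℂ) * h t) t := by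
      intro t
      unfold rho
      rw [ofReal_add, ofReal_sum, add_mul, Finset.sum_mul]
      congr 1
      · by_cases ht : t ∈ S <;> simp [ht]
      · refine Finset.sum_congr rfl fun p _ => ?_
        by_cases ht : t ∈ Ioo p.1.1 p.1.2
        · rw [indicator_of_mem ht, indicator_of_mem ht]
        · rw [indicator_of_notMem ht, indicator_of_notMem ht]; simp
    simp only [e4]
    rw [integral_add, integral_finsetSum]
    · congr 1
      · rw [setIntegral_indicator hSm]
      · refine Finset.sum_congr rfl fun p _ => ?_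
        rw [setIntegral_indicator measurableSet_Ioo]
        congr 2
        refine inter_eq_right.mpr ?_
        intro x hx
        exact ⟨lt_of_le_of_lt p.2.2.2.2.1 hx.1, (hx.2.trans_le p.2.2.2.2.2.1).le⟩
    · intro p _
      refine Integrable.indicator ?_ measurableSet_Ioo
      exact ((hmidc p).integrableOn_Icc (a := a) (b := b)).mono_set Ioc_subset_Icc_self
    · exact Integrable.indicator hint hSm
    · refine integrable_finsetSum _ fun p _ => ?_
      refine Integrable.indicator ?_ measurableSet_Ioo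
      exact ((hmidc p).integrableOn_Icc (a := a) (b := b)).mono_set Ioc_subset_Icc_self
  have e5 : (∫ t in Ioc a b, h t) - ∫ t in Ioc a b, (rho S J δ t : ℂ) * h t =
      ∑ p ∈ J, ((∫ t in Ioo p.1.1 p.1.2, h t) -
        ∫ t in Ioo p.1.1 p.1.2, (mid δ p.1 t : ℂ) * h t) +
      ∑' p : {x // x ∉ J}, ∫ t in Ioo p.1.1.1 p.1.1.2, h t := by
    rw [e1, e2, e3, Finset.sum_sub_distrib]
    ring
  rw [e5]
  refine (norm_add_le _ _).trans (add_le_add ?_ ?_)
  · refine (norm_sum_le _ _).trans ?_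
    have : ∀ p ∈ J, ‖(∫ t in Ioo p.1.1 p.1.2, h t) -
        ∫ t in Ioo p.1.1 p.1.2, (mid δ p.1 t : ℂ) * h t‖ ≤ 5 * C * δ := by
      intro p hp
      have q := p.2
      exact gap_ends H q.1 q.2.1 hδ (by linarith [q.2.2.2.1, q.2.2.2.2.1]) (hJ p hp)
    refine (Finset.sum_le_sum this).trans ?_
    rw [Finset.sum_const, nsmul_eq_mul]
    linarith
  · have hs : Summable fun p : {x // x ∉ J} => (p.1.1.2 - p.1.1.1) :=
      (summable_len hS ha hb).subtype _
    have hs2 := hs.hasSum.mul_left (2 * C)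
    refine tsum_of_norm_bounded hs2 fun p => ?_
    have q := p.1.2
    exact gap_full H q.1 q.2.1 q.2.2.1 (by linarith [q.2.2.2.1, q.2.2.2.2.1])

/-- Bessel inequality in the form used below -/
theorem bessel {a b : ℝ} (hab : b - a = 2 * Real.pi) {W : ℝ → ℂ} (hW : Measurable W) {K : ℝ}
    (hb : ∀ t, ‖W t‖ ≤ K) (Λ : Finset ℕ) :
    ∑ n ∈ Λ, ‖(1 / (2 * Real.pi) : ℝ) • ∫ t in Ioc a b, W t * exp (-(I * (n * t : ℝ)))‖ ^ 2 ≤
      K ^ 2 := by
  have hpi := Real.pi_pos
  have hlt : a < b := by linarith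
  have hL2 : MemLp W 2 (volume.restrict (Ioc a b)) := by
    have hbd : MemLp W ⊤ (volume.restrict (Ioc a b)) :=
      memLp_top_of_bound hW.aestronglyMeasurable K (Eventually.of_forall hb)
    exact hbd.mono_exponent le_top
  have hs := hasSum_sq_fourierCoeffOn hlt hL2
  have hcoef : ∀ n : ℕ, fourierCoeffOn hlt W (n : ℤ) =
      (1 / (2 * Real.pi) : ℝ) • ∫ t in Ioc a b, W t * exp (-(I * (n * t : ℝ))) := by
    intro n
    rw [fourierCoeffOn_eq_integral, hab, intervalIntegral.integral_of_le hlt.le]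
    congr 1
    refine setIntegral_congr_fun measurableSet_Ioc fun t _ => ?_
    simp only [fourier_coe_apply, smul_eq_mul]
    rw [mul_comm]
    congr 2
    push_cast
    have : (Real.pi : ℂ) ≠ 0 := by exact_mod_cast hpi.ne'
    field_simp
  have h1 : ∑ n ∈ Λ, ‖fourierCoeffOn hlt W (n : ℤ)‖ ^ 2 ≤
      (b - a)⁻¹ • ∫ x in a..b, ‖W x‖ ^ 2 := by
    have h2 := sum_le_hasSum (Λ.map ⟨fun n : ℕ => (n : ℤ), Nat.cast_injective⟩)
      (fun i _ => by positivity) hs
    simpa using h2
  simp only [hcoef] at h1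
  refine h1.trans ?_
  have h3 : ∫ x in a..b, ‖W x‖ ^ 2 ≤ K ^ 2 * (b - a) := by
    have h4 := intervalIntegral.norm_integral_le_of_norm_le_const (a := a) (b := b) (C := K ^ 2)
      (f := fun x => ‖W x‖ ^ 2) (fun x _ => by
        rw [Real.norm_of_nonneg (by positivity)]
        exact pow_le_pow_left₀ (norm_nonneg _) (hb x) 2)
    rw [abs_of_pos (by linarith : 0 < b - a)] at h4
    exact (le_abs_self _).trans h4
  rw [smul_eq_mul, inv_mul_le_iff₀ (by linarith)]
  linarith

end Pool.Agent.Helper506.BConv
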