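import Pool.Agent.Helper506.BConvB
import Pool.Agent.Helper506.BConvD

open Complex Metric Set Filter Topology MeasureTheory

namespace Pool.Agent.Helper506.BConv

/-- the rotated power series -/
noncomputable def hn (a : ℕ → ℂ) (r : ℝ) (n : ℕ) (t : ℝ) : ℂ :=
  F a r t * exp (-(I * (n * t : ℝ)))

theorem triHyp {a : ℕ → ℂ} {M : ℝ} {S : Set ℝ} (hne : S.Nonempty)
    (hM : ∀ t ∈ S, ∀ m, ‖∑ j ∈ Finset.range m, a j * exp (I * t) ^ j‖ ≤ M) {r : ℝ} (h0 : 0 ≤ r)
    (h1 : r < 1) (n : ℕ) : TriHyp S (35 * M) (hn a r n) := by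
  obtain ⟨t0, ht0⟩ := hne
  have hB := coeff_bound (norm_eit t0) (hM t0 ht0)
  refine ⟨?_, ?_, ?_⟩
  · unfold hn
    have := F_continuous hB h0 h1
    fun_prop
  · intro α hα δ hδ hδ7
    have h := tri_bound (hM α hα) h0 h1 n hδ hδ7 (σ := 1) (Or.inl rfl)
    have e := intervalIntegral.integral_comp_add_left (a := 0) (b := δ)
      (fun t : ℝ => ((1 - (t - α) / δ : ℝ) : ℂ) * hn a r n t) α
    rw [add_zero] at e
    rw [← e]
    convert h using 3
    · funext s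
      simp only [hn, Int.cast_one, one_mul, add_sub_cancel_left]
  · intro β hβ δ hδ hδ7
    have h := tri_bound (hM β hβ) h0 h1 n hδ hδ7 (σ := -1) (Or.inr rfl)
    have e := intervalIntegral.integral_comp_sub_left (a := 0) (b := δ)
      (fun t : ℝ => ((1 - (β - t) / δ : ℝ) : ℂ) * hn a r n t) β
    rw [sub_zero] at e
    rw [← e]
    convert h using 3
    · funext s
      simp only [hn, Int.cast_neg, Int.cast_one, sub_sub_cancel]
      rw [show β + -1 * s = β - s by ring]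

theorem integral_hn {a : ℕ → ℂ} {B : ℝ} (hB : ∀ j, ‖a j‖ ≤ B) {r : ℝ} (h0 : 0 ≤ r) (h1 : r < 1)
    (n : ℕ) (x : ℝ) :
    ∫ t in Ioc x (x + 2 * Real.pi), hn a r n t = (2 * Real.pi : ℝ) * (a n * (r : ℂ) ^ n) := by
  have hpi := Real.pi_pos
  rw [← intervalIntegral.integral_of_le (by linarith)]
  have hterm : ∀ (j : ℕ) (t : ℝ), (a j * ((r : ℂ) * exp (I * t)) ^ j) *
      exp (-(I * (n * t : ℝ))) = a j * (r : ℂ) ^ j * exp ((I * (j - n)) * t) := by
    intro j t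
    have : exp (I * t) ^ j * exp (-(I * (n * t : ℝ))) = exp ((I * (j - n)) * t) := by
      rw [← exp_nat_mul, ← exp_add]
      congr 1
      push_cast; ring
    rw [mul_pow]
    linear_combination (a j * (r : ℂ) ^ j) * this
  have hsum : HasSum (fun j : ℕ => ∫ t in x..(x + 2 * Real.pi),
      a j * (r : ℂ) ^ j * exp ((I * (j - n)) * t)) (∫ t in x..(x + 2 * Real.pi), hn a r n t) := by
    refine intervalIntegral.hasSum_integral_of_dominated_convergence
      (fun j _ => B * r ^ j) ?_ ?_ ?_ ?_ ?_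
    · intro j
      apply Continuous.aestronglyMeasurable
      fun_prop
    · intro j
      refine Eventually.of_forall fun s _ => ?_
      rw [← hterm, norm_mul, ← mul_neg, ← ofReal_neg, norm_eit, mul_one]
      exact term_norm hB h0 s j
    · exact Eventually.of_forall fun s _ => (summable_geometric_of_lt_one h0 h1).mul_left B
    · exact intervalIntegrable_const
    · refine Eventually.of_forall fun s _ => ?_
      have h5 := ((summable_term hB h0 h1 s).hasSum).mul_right (exp (-(I * (n * s : ℝ))))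
      simp only [hterm] at h5
      exact h5
  have hval : ∀ j : ℕ, j ≠ n → ∫ t in x..(x + 2 * Real.pi),
      a j * (r : ℂ) ^ j * exp ((I * (j - n)) * t) = 0 := by
    intro j hj
    rw [intervalIntegral.integral_const_mul]
    have hc : I * ((j : ℂ) - n) ≠ 0 := by
      refine mul_ne_zero I_ne_zero (sub_ne_zero.mpr ?_)
      exact_mod_cast hj
    rw [integral_exp_mul_complex hc]
    have : exp (I * ((j : ℂ) - n) * ((x + 2 * Real.pi : ℝ) : ℂ)) =
        exp (I * ((j : ℂ) - n) * (x : ℂ)) := by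
      rw [exp_eq_exp_iff_exists_int]
      refine ⟨(j : ℤ) - n, ?_⟩
      push_cast; ring
    rw [this, sub_self, zero_div, mul_zero]
  rw [hsum.unique (hasSum_single n hval)]
  simp only [sub_self, mul_zero, zero_mul, exp_zero, mul_one]
  rw [intervalIntegral.integral_const]
  simp

/-- uniform bound over a compact parameter interval of points near which the series is bounded -/
theorem compact_bound {a : ℕ → ℂ} {B : ℝ} (hB : ∀ j, ‖a j‖ ≤ B) {Q : Set ℝ} (hQ : IsCompact Q)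
    (hreg : ∀ t ∈ Q, ∃ ρ : ℝ, 0 < ρ ∧ ∃ B' : ℝ, ∀ w : ℂ, ‖w‖ < 1 → ‖w - exp (I * t)‖ < ρ →
      ‖∑' j, a j * w ^ j‖ ≤ B') :
    ∃ K : ℝ, 0 ≤ K ∧ ∀ t ∈ Q, ∀ r : ℝ, 0 ≤ r → r < 1 → ‖F a r t‖ ≤ K := by
  refine hQ.induction_on (p := fun Q => ∃ K : ℝ, 0 ≤ K ∧ ∀ t ∈ Q, ∀ r : ℝ, 0 ≤ r → r < 1 →
    ‖F a r t‖ ≤ K) ⟨0, le_rfl, by simp⟩ ?_ ?_ ?_
  · rintro s t hst ⟨K, hK, h⟩
    exact ⟨K, hK, fun x hx => h x (hst hx)⟩
  · rintro s t ⟨K, hK, h⟩ ⟨K', hK', h'⟩
    refine ⟨K + K', by linarith, ?_⟩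
    rintro x (hx | hx) r h0 h1
    · linarith [h x hx r h0 h1]
    · linarith [h' x hx r h0 h1]
  · intro t ht
    obtain ⟨ρ, hρ, B', hB'⟩ := hreg t ht
    have hB0 : 0 ≤ B := (norm_nonneg _).trans (hB 0)
    have hcont : Continuous fun x : ℝ => exp (I * x) := by fun_prop
    have hev : ∀ᶠ x in 𝓝 t, ‖exp (I * (x : ℝ)) - exp (I * t)‖ < ρ / 2 := by
      have h2 : Tendsto (fun x : ℝ => ‖exp (I * x) - exp (I * t)‖) (𝓝 t) (𝓝 0) := by
        have := ((hcont.tendsto t).sub_const (exp (I * t))).norm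
        simpa using this
      exact h2.eventually (gt_mem_nhds (half_pos hρ))
    refine ⟨{x | ‖exp (I * (x : ℝ)) - exp (I * t)‖ < ρ / 2}, mem_nhdsWithin_of_mem_nhds hev,
      max |B'| (B / (ρ / 2)), le_max_of_le_left (abs_nonneg _), ?_⟩
    intro x hx r h0 h1
    by_cases hr : 1 - r < ρ / 2
    · refine le_max_of_le_left ((hB' _ ?_ ?_).trans (le_abs_self _))
      · rw [norm_mul, norm_eit, norm_real, Real.norm_of_nonneg h0, mul_one]; exact h1
      · have e1 : (r : ℂ) * exp (I * x) - exp (I * t) =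
            (exp (I * x) - exp (I * t)) - ((1 - r : ℝ) : ℂ) * exp (I * x) := by push_cast; ring
        rw [e1]
        refine lt_of_le_of_lt (norm_sub_le _ _) ?_
        rw [norm_mul, norm_eit, norm_real, Real.norm_of_nonneg (by linarith), mul_one]
        have hx' : ‖exp (I * (x : ℝ)) - exp (I * t)‖ < ρ / 2 := hx
        linarith
    · push Not at hr
      refine le_max_of_le_right ((F_norm_le hB h0 h1 x).trans ?_)
      exact div_le_div_of_nonneg_left hB0 (by linarith) hr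

/-- The coefficients tend to zero. -/
theorem coeff_tendsto_zero {a : ℕ → ℂ} {M : ℝ} {S : Set ℝ} (hS : IsClosed S) {x : ℝ} (hx : x ∈ S)
    (hx' : x + 2 * Real.pi ∈ S)
    (hM : ∀ t ∈ S, ∀ m, ‖∑ j ∈ Finset.range m, a j * exp (I * t) ^ j‖ ≤ M)
    (hreg : ∀ t, t ∉ S → ∃ ρ : ℝ, 0 < ρ ∧ ∃ B' : ℝ, ∀ w : ℂ, ‖w‖ < 1 → ‖w - exp (I * t)‖ < ρ →
      ‖∑' j, a j * w ^ j‖ ≤ B') : Tendsto a atTop (𝓝 0) := by
  have hM0 : 0 ≤ M := (norm_nonneg _).trans (hM x hx 0)
  have hB := coeff_bound (norm_eit x) (hM x hx)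
  have hpi := Real.pi_gt_three
  have hpi4 := Real.pi_lt_d2
  set b := x + 2 * Real.pi with hb
  have h7 : b - x ≤ 7 := by rw [hb]; linarith
  suffices hfin : ∀ ε : ℝ, 0 < ε → {n : ℕ | ε ≤ ‖a n‖}.Finite by
    rw [Metric.tendsto_atTop]
    intro ε hε
    obtain ⟨N, hN⟩ := (hfin ε hε).bddAbove
    refine ⟨N + 1, fun n hn => ?_⟩
    rw [dist_zero_right]
    by_contra hcon
    push Not at hcon
    have := hN hcon
    omega
  intro ε hε
  -- choice of the finite family of gaps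
  have hlen := summable_len hS hx hx'
  set C : ℝ := 35 * M with hC
  have hC0 : 0 ≤ C := by positivity
  obtain ⟨J, hJ⟩ : ∃ J : Finset (Gp S x b),
      2 * C * ∑' p : {q // q ∉ J}, (p.1.1.2 - p.1.1.1) < ε := by
    have h1 := tendsto_tsum_compl_atTop_zero (fun p : Gp S x b => p.1.2 - p.1.1)
    have h2 := h1.const_mul (2 * C)
    rw [mul_zero] at h2
    exact (h2.eventually (gt_mem_nhds hε)).exists
  obtain ⟨δ, hδ, hδJ, hδε⟩ : ∃ δ : ℝ, 0 < δ ∧ (∀ p ∈ J, 2 * δ ≤ p.1.2 - p.1.1) ∧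
      5 * C * (J.card * δ) < ε := by
    have h1 : ∀ᶠ δ : ℝ in 𝓝[>] 0, ∀ p ∈ J, 2 * δ ≤ p.1.2 - p.1.1 := by
      rw [Filter.eventually_all_finset]
      intro p _
      have hp : 0 < p.1.2 - p.1.1 := by linarith [p.2.2.2.1]
      have h2 : Tendsto (fun δ : ℝ => 2 * δ) (𝓝[>] 0) (𝓝 0) := by
        have : Tendsto (fun δ : ℝ => 2 * δ) (𝓝 0) (𝓝 (2 * 0)) := (continuous_const.mul continuous_id).tendsto 0
        rw [mul_zero] at this
        exact this.mono_left nhdsWithin_le_nhds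
      exact (h2.eventually (gt_mem_nhds hp)).mono fun _ h => h.le
    have h3 : ∀ᶠ δ : ℝ in 𝓝[>] 0, 5 * C * (J.card * δ) < ε := by
      have h2 : Tendsto (fun δ : ℝ => 5 * C * (J.card * δ)) (𝓝[>] 0) (𝓝 0) := by
        have : Tendsto (fun δ : ℝ => 5 * C * (J.card * δ)) (𝓝 0) (𝓝 (5 * C * (J.card * 0))) :=
          (continuous_const.mul (continuous_const.mul continuous_id)).tendsto 0
        rw [mul_zero, mul_zero] at this
        exact this.mono_left nhdsWithin_le_nhds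
      exact h2.eventually (gt_mem_nhds hε)
    have h4 : ∀ᶠ δ : ℝ in 𝓝[>] 0, 0 < δ := self_mem_nhdsWithin
    obtain ⟨δ, h5, h6, h7⟩ := (h4.and (h1.and h3)).exists
    exact ⟨δ, h5, h6, h7⟩
  -- uniform bound
  have hK : ∀ p ∈ J, ∃ K : ℝ, 0 ≤ K ∧ ∀ t ∈ Icc (p.1.1 + δ / 2) (p.1.2 - δ / 2), ∀ r : ℝ,
      0 ≤ r → r < 1 → ‖F a r t‖ ≤ K := by
    intro p _
    refine compact_bound hB isCompact_Icc fun t ht => hreg t ?_
    refine Set.disjoint_left.mp p.2.2.2.2.2.2 ⟨?_, ?_⟩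
    · linarith [ht.1]
    · linarith [ht.2]
  choose! Kp hKp0 hKp using hK
  set K : ℝ := M + ∑ p ∈ J, Kp p with hKdef
  have hKbound : ∀ r : ℝ, 0 ≤ r → r < 1 → ∀ t, ‖(rho S J δ t : ℂ) * F a r t‖ ≤ K := by
    intro r h0 h1 t
    unfold rho
    rw [ofReal_add, ofReal_sum, add_mul, Finset.sum_mul]
    refine (norm_add_le _ _).trans (add_le_add ?_ ((norm_sum_le _ _).trans
      (Finset.sum_le_sum fun p hp => ?_)))
    · by_cases ht : t ∈ S
      · rw [indicator_of_mem ht, ofReal_one, one_mul]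
        exact F_le_of_bounded (hM t ht) h0 h1
      · rw [indicator_of_notMem ht]; simpa using hM0
    · by_cases ht : t ∈ Ioo p.1.1 p.1.2
      · rw [indicator_of_mem ht]
        by_cases hz : t - p.1.1 ≤ δ / 2 ∨ p.1.2 - t ≤ δ / 2
        · rw [mid_eq_zero hδ (hδJ p hp) hz]; simpa using hKp0 p hp
        · push Not at hz
          rw [norm_mul, norm_real]
          have h2 := hKp p hp t ⟨by linarith [hz.1], by linarith [hz.2]⟩ r h0 h1
          have h3 : ‖mid δ p.1 t‖ ≤ 1 := mid_abs_le hδ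
          calc ‖mid δ p.1 t‖ * ‖F a r t‖ ≤ 1 * Kp p := by gcongr
            _ = Kp p := one_mul _
      · rw [indicator_of_notMem ht]; simpa using hKp0 p hp
  -- the decomposition
  set e : ℝ → ℕ → ℂ := fun r n =>
    (1 / (2 * Real.pi) : ℝ) • ∫ t in Ioc x b, ((rho S J δ t : ℂ) * F a r t) *
      exp (-(I * (n * t : ℝ))) with he
  have hclose : ∀ r : ℝ, 0 ≤ r → r < 1 → ∀ n, ‖a n * (r : ℂ) ^ n - e r n‖ ≤ ε / 3 := by
    intro r h0 h1 n
    have h2 := split hS hx hx' h7 J hδ hδJ (triHyp ⟨x, hx⟩ hM h0 h1 n)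
    have hint := integral_hn hB h0 h1 n x
    rw [← hb] at hint
    rw [hint] at h2
    have h3 : ∫ t in Ioc x b, (rho S J δ t : ℂ) * hn a r n t =
        ∫ t in Ioc x b, ((rho S J δ t : ℂ) * F a r t) * exp (-(I * (n * t : ℝ))) := by
      refine setIntegral_congr_fun measurableSet_Ioc fun t _ => ?_
      simp only [hn]; ring
    rw [h3] at h2
    have h4 : a n * (r : ℂ) ^ n - e r n = (1 / (2 * Real.pi) : ℝ) •
        ((2 * Real.pi : ℝ) * (a n * (r : ℂ) ^ n) - ∫ t in Ioc x b,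
          ((rho S J δ t : ℂ) * F a r t) * exp (-(I * (n * t : ℝ)))) := by
      simp only [he]
      rw [smul_sub]
      congr 1
      rw [real_smul]
      push_cast
      have : (Real.pi : ℂ) ≠ 0 := by exact_mod_cast Real.pi_ne_zero
      field_simp
    rw [h4, norm_smul, Real.norm_of_nonneg (by positivity)]
    have h5 : ‖((2 * Real.pi : ℝ) : ℂ) * (a n * (r : ℂ) ^ n) - ∫ t in Ioc x b,
          ((rho S J δ t : ℂ) * F a r t) * exp (-(I * (n * t : ℝ)))‖ ≤ 2 * ε := by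
      refine h2.trans ?_
      linarith
    have h6 : 1 / (2 * Real.pi) ≤ 1 / 6 := by
      apply one_div_le_one_div_of_le <;> linarith
    calc 1 / (2 * Real.pi) * ‖((2 * Real.pi : ℝ) : ℂ) * (a n * (r : ℂ) ^ n) - ∫ t in Ioc x b,
          ((rho S J δ t : ℂ) * F a r t) * exp (-(I * (n * t : ℝ)))‖ ≤ 1 / 6 * (2 * ε) := by
          gcongr
      _ = ε / 3 := by ring
  have hbes : ∀ r : ℝ, 0 ≤ r → r < 1 → ∀ Λ : Finset ℕ, ∑ n ∈ Λ, ‖e r n‖ ^ 2 ≤ K ^ 2 := by
    intro r h0 h1 Λ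
    refine bessel (by rw [hb]; ring) ?_ (hKbound r h0 h1) Λ
    exact (measurable_ofReal.comp (rho_measurable hS J δ)).mul
      (F_continuous hB h0 h1).measurable
  by_contra hinf
  obtain ⟨m, hm⟩ := exists_nat_gt (K ^ 2 / (ε / 3) ^ 2)
  obtain ⟨Λ, hΛ, hΛc⟩ := (show {n : ℕ | ε ≤ ‖a n‖}.Infinite from hinf).exists_subset_card_eq m
  obtain ⟨r, h0, h1, hr⟩ : ∃ r : ℝ, 0 ≤ r ∧ r < 1 ∧ ∀ n ∈ Λ, 2 / 3 ≤ r ^ n := by
    have h2 : ∀ᶠ r : ℝ in 𝓝[<] 1, ∀ n ∈ Λ, 2 / 3 ≤ r ^ n := by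
      rw [Filter.eventually_all_finset]
      intro n _
      have h3 : Tendsto (fun r : ℝ => r ^ n) (𝓝[<] 1) (𝓝 1) := by
        have : Tendsto (fun r : ℝ => r ^ n) (𝓝 1) (𝓝 (1 ^ n)) := (continuous_pow n).tendsto 1
        rw [one_pow] at this
        exact this.mono_left nhdsWithin_le_nhds
      exact (h3.eventually (lt_mem_nhds (by norm_num : (2/3 : ℝ) < 1))).mono fun _ h => h.le
    have h4 : ∀ᶠ r : ℝ in 𝓝[<] 1, r < 1 := self_mem_nhdsWithin
    have h5 : ∀ᶠ r : ℝ in 𝓝[<] 1, 0 ≤ r :=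
      (eventually_nhdsWithin_of_eventually_nhds
        (lt_mem_nhds (by norm_num : (0 : ℝ) < 1))).mono fun _ h => le_of_lt h
    obtain ⟨r, h6, h7, h8⟩ := (h5.and (h4.and h2)).exists
    exact ⟨r, h6, h7, h8⟩
  have hbig : ∀ n ∈ Λ, ε / 3 ≤ ‖e r n‖ := by
    intro n hn
    have h2 := hclose r h0 h1 n
    have h3 : ε ≤ ‖a n‖ := hΛ hn
    have h4 : ‖a n * (r : ℂ) ^ n‖ = ‖a n‖ * r ^ n := by
      rw [norm_mul, norm_pow, norm_real, Real.norm_of_nonneg h0]
    have h5 : ε * (2 / 3) ≤ ‖a n‖ * r ^ n := by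
      have := hr n hn
      gcongr
    have h6 := norm_sub_norm_le (a n * (r : ℂ) ^ n) (e r n)
    linarith
  have h2 := hbes r h0 h1 Λ
  have h3 : ∑ n ∈ Λ, (ε / 3) ^ 2 ≤ ∑ n ∈ Λ, ‖e r n‖ ^ 2 :=
    Finset.sum_le_sum fun n hn => pow_le_pow_left₀ (by positivity) (hbig n hn) 2
  rw [Finset.sum_const, hΛc, nsmul_eq_mul] at h3
  rw [div_lt_iff₀ (by positivity)] at hm
  linarith

end Pool.Agent.Helper506.BConv
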