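import Mathlib

open Complex Metric Set Filter Topology

namespace Pool.Agent.Helper506.BConv

theorem quad_identity {δ : ℝ} {w : ℂ} (hw : ‖w - 1‖ = δ) :
    ‖(w - 1) ^ 2 + (δ : ℂ) ^ 2 * w‖ = δ * |‖w‖ ^ 2 - 1| := by
  have h1 : ((δ : ℂ)) ^ 2 = (w - 1) * (starRingEnd ℂ (w - 1)) := by
    rw [mul_conj, normSq_eq_norm_sq, hw]; push_cast; ring
  have h2 : w * starRingEnd ℂ w = ((‖w‖ ^ 2 : ℝ) : ℂ) := by
    rw [mul_conj, normSq_eq_norm_sq]
  have h3 : (w - 1) ^ 2 + (δ : ℂ) ^ 2 * w = (w - 1) * ((‖w‖ ^ 2 - 1 : ℝ) : ℂ) := by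
    rw [h1, map_sub, map_one]
    push_cast
    push_cast at h2
    linear_combination (w - 1) * h2
  rw [h3, norm_mul, hw, norm_real, Real.norm_eq_abs]

theorem pow_ge_mul {ρ : ℝ} (hρ : 1 ≤ ρ) (N : ℕ) : N * (ρ - 1) ≤ ρ ^ N := by
  have := one_add_mul_le_pow (a := ρ - 1) (by linarith) N
  rw [add_sub_cancel] at this
  linarith

/-- the Riesz localisation estimate -/
theorem riesz_bound {b : ℕ → ℂ} {G : ℂ → ℂ} {ρ0 δ B MG ε : ℝ} {m N : ℕ}
    (hδ : 0 < δ) (hδ1 : δ ≤ 1 / 2) (hδρ : δ < ρ0) (hG : DifferentiableOn ℂ G (ball 1 ρ0))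
    (hGe : ∀ w ∈ ball (1 : ℂ) ρ0, ‖w‖ < 1 → G w = ∑' n, b n * w ^ n)
    (hMG : ∀ w ∈ closedBall (1 : ℂ) δ, ‖G w‖ ≤ MG) (hB : ∀ n, ‖b n‖ ≤ B) (hε : 0 ≤ ε)
    (hm : ∀ n, m ≤ n → ‖b n‖ ≤ ε) (hmN : m ≤ N) (hN : 0 < N) :
    ‖G 1 - ∑ n ∈ Finset.range N, b n‖ * δ ^ 2 ≤
      5 / 2 * δ * (ε + (MG + B * m * (3 / 2) ^ m) / N) := by
  have hB0 : 0 ≤ B := (norm_nonneg _).trans (hB 0)
  have hMG0 : 0 ≤ MG := (norm_nonneg _).trans (hMG 1 (mem_closedBall_self hδ.le))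
  have hNR : (0 : ℝ) < N := by exact_mod_cast hN
  set R : ℝ := (MG + B * m * (3 / 2) ^ m) / N with hR
  have hR0 : 0 ≤ R := by positivity
  set h : ℂ → ℂ := fun w => (G w - ∑ n ∈ Finset.range N, b n * w ^ n) *
    ((w - 1) ^ 2 + (δ : ℂ) ^ 2 * w) / w ^ N with hh
  have hsub : closedBall (1 : ℂ) δ ⊆ ball 1 ρ0 := closedBall_subset_ball hδρ
  have hne : ∀ w ∈ closedBall (1 : ℂ) δ, w ≠ 0 := by
    intro w hw h0
    rw [mem_closedBall, h0, dist_eq_norm, zero_sub, norm_neg, norm_one] at hw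
    linarith
  have hdiff : DifferentiableOn ℂ h (closedBall (1 : ℂ) δ) := by
    refine DifferentiableOn.div ?_ (by fun_prop) (fun w hw => pow_ne_zero _ (hne w hw))
    refine DifferentiableOn.mul (DifferentiableOn.sub (hG.mono hsub) ?_) (by fun_prop)
    fun_prop
  have hcl : DiffContOnCl ℂ h (ball (1 : ℂ) δ) := by
    refine DifferentiableOn.diffContOnCl ?_
    rw [closure_ball _ hδ.ne']
    exact hdiff
  have hfr : ∀ w ∈ frontier (ball (1 : ℂ) δ), ‖h w‖ ≤ 5 / 2 * δ * (ε + R) := by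
    intro w hw
    rw [frontier_ball _ hδ.ne', mem_sphere_iff_norm] at hw
    have hwc : w ∈ closedBall (1 : ℂ) δ := by
      rw [mem_closedBall, dist_eq_norm]; exact hw.le
    have hwn := hne w hwc
    have hwpos : 0 < ‖w‖ := norm_pos_iff.mpr hwn
    have hnorm : ‖h w‖ = ‖G w - ∑ n ∈ Finset.range N, b n * w ^ n‖ *
        (δ * |‖w‖ ^ 2 - 1|) / ‖w‖ ^ N := by
      simp only [hh]
      rw [norm_div, norm_mul, norm_pow, quad_identity hw]
    have hw32 : ‖w‖ ≤ 3 / 2 := by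
      have : ‖w‖ ≤ ‖w - 1‖ + ‖(1 : ℂ)‖ := by
        have := norm_add_le (w - 1) 1
        rwa [sub_add_cancel] at this
      rw [norm_one] at this
      linarith
    rw [hnorm]
    rcases lt_trichotomy ‖w‖ 1 with hlt | heq | hgt
    · -- inside
      have hsm : Summable fun n => b n * w ^ n := by
        refine Summable.of_norm_bounded (g := fun n => B * ‖w‖ ^ n)
          ((summable_geometric_of_lt_one (norm_nonneg _) hlt).mul_left B) fun n => ?_
        rw [norm_mul, norm_pow]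
        exact mul_le_mul_of_nonneg_right (hB n) (by positivity)
      have htail : G w - ∑ n ∈ Finset.range N, b n * w ^ n = ∑' n, b (n + N) * w ^ (n + N) := by
        rw [hGe w (hsub hwc) hlt, ← hsm.sum_add_tsum_nat_add N]
        ring
      have htb : ‖∑' n, b (n + N) * w ^ (n + N)‖ ≤ ε * ‖w‖ ^ N * (1 - ‖w‖)⁻¹ := by
        have hgs := (hasSum_geometric_of_lt_one (norm_nonneg w) hlt).mul_left (ε * ‖w‖ ^ N)
        refine tsum_of_norm_bounded hgs fun n => ?_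
        rw [norm_mul, norm_pow, pow_add]
        have h1 := hm (n + N) (by omega)
        calc ‖b (n + N)‖ * (‖w‖ ^ n * ‖w‖ ^ N) ≤ ε * (‖w‖ ^ n * ‖w‖ ^ N) := by gcongr
          _ = ε * ‖w‖ ^ N * ‖w‖ ^ n := by ring
      rw [htail]
      have h1 : |‖w‖ ^ 2 - 1| = (1 - ‖w‖) * (1 + ‖w‖) := by
        rw [abs_of_nonpos (by nlinarith)]; ring
      rw [h1]
      have h2 : 0 < 1 - ‖w‖ := by linarith
      calc ‖∑' n, b (n + N) * w ^ (n + N)‖ * (δ * ((1 - ‖w‖) * (1 + ‖w‖))) / ‖w‖ ^ N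
          ≤ (ε * ‖w‖ ^ N * (1 - ‖w‖)⁻¹) * (δ * ((1 - ‖w‖) * (1 + ‖w‖))) / ‖w‖ ^ N := by
            gcongr
        _ = ε * δ * (1 + ‖w‖) := by
            field_simp
        _ ≤ ε * δ * (5 / 2) := by
            gcongr
            linarith
        _ ≤ 5 / 2 * δ * (ε + R) := by
            have : 0 ≤ δ * R := by positivity
            nlinarith
    · rw [heq]
      simp
      positivity
    · have hρ1 : 0 < ‖w‖ - 1 := by linarith
      have h1 : |‖w‖ ^ 2 - 1| = (‖w‖ - 1) * (‖w‖ + 1) := by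
        rw [abs_of_nonneg (by nlinarith)]; ring
      rw [h1]
      have hsumb : ‖∑ n ∈ Finset.range N, b n * w ^ n‖ ≤
          ε * ∑ n ∈ Finset.range N, ‖w‖ ^ n + B * m * (3 / 2) ^ m := by
        rw [← Finset.sum_range_add_sum_Ico _ hmN]
        refine (norm_add_le _ _).trans ?_
        have e1 : ‖∑ n ∈ Finset.range m, b n * w ^ n‖ ≤ B * m * (3 / 2) ^ m := by
          refine (norm_sum_le _ _).trans ?_
          have : ∀ n ∈ Finset.range m, ‖b n * w ^ n‖ ≤ B * (3 / 2) ^ m := by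
            intro n hn
            rw [norm_mul, norm_pow]
            have h3 : ‖w‖ ^ n ≤ (3 / 2 : ℝ) ^ m :=
              (pow_le_pow_left₀ (norm_nonneg _) hw32 n).trans
                (pow_le_pow_right₀ (by norm_num) (Finset.mem_range.mp hn).le)
            exact mul_le_mul (hB n) h3 (by positivity) hB0
          refine (Finset.sum_le_sum this).trans ?_
          rw [Finset.sum_const, Finset.card_range, nsmul_eq_mul]
          linarith
        have e2 : ‖∑ n ∈ Finset.Ico m N, b n * w ^ n‖ ≤ ε * ∑ n ∈ Finset.range N, ‖w‖ ^ n := by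
          refine (norm_sum_le _ _).trans ?_
          rw [Finset.mul_sum]
          refine (Finset.sum_le_sum (g := fun n => ε * ‖w‖ ^ n) fun n hn => ?_).trans ?_
          · rw [norm_mul, norm_pow]
            exact mul_le_mul_of_nonneg_right (hm n (Finset.mem_Ico.mp hn).1) (by positivity)
          · refine Finset.sum_le_sum_of_subset_of_nonneg ?_ fun n _ _ => by positivity
            intro n hn
            exact Finset.mem_range.mpr (Finset.mem_Ico.mp hn).2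
        linarith
      have hgeom : (‖w‖ - 1) * ∑ n ∈ Finset.range N, ‖w‖ ^ n = ‖w‖ ^ N - 1 := by
        rw [mul_comm, geom_sum_mul]
      have hpN := pow_ge_mul hgt.le N
      have hpow : 0 < ‖w‖ ^ N := by positivity
      have hdiv : (‖w‖ - 1) / ‖w‖ ^ N ≤ 1 / N := by
        rw [div_le_div_iff₀ hpow hNR]
        linarith
      have htot : ‖G w - ∑ n ∈ Finset.range N, b n * w ^ n‖ ≤
          MG + (ε * ∑ n ∈ Finset.range N, ‖w‖ ^ n + B * m * (3 / 2) ^ m) :=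
        (norm_sub_le _ _).trans (add_le_add (hMG w hwc) hsumb)
      have key : ‖G w - ∑ n ∈ Finset.range N, b n * w ^ n‖ * (‖w‖ - 1) / ‖w‖ ^ N ≤ ε + R := by
        calc ‖G w - ∑ n ∈ Finset.range N, b n * w ^ n‖ * (‖w‖ - 1) / ‖w‖ ^ N
            ≤ (MG + (ε * ∑ n ∈ Finset.range N, ‖w‖ ^ n + B * m * (3 / 2) ^ m)) *
              (‖w‖ - 1) / ‖w‖ ^ N := by gcongr
          _ = ε * ((‖w‖ ^ N - 1) / ‖w‖ ^ N) + (MG + B * m * (3 / 2) ^ m) *
              ((‖w‖ - 1) / ‖w‖ ^ N) := by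
              rw [← hgeom]; ring
          _ ≤ ε * 1 + (MG + B * m * (3 / 2) ^ m) * (1 / N) := by
              gcongr
              rw [div_le_one hpow]; linarith
          _ = ε + R := by rw [hR]; ring
      calc ‖G w - ∑ n ∈ Finset.range N, b n * w ^ n‖ * (δ * ((‖w‖ - 1) * (‖w‖ + 1))) / ‖w‖ ^ N
          = (‖G w - ∑ n ∈ Finset.range N, b n * w ^ n‖ * (‖w‖ - 1) / ‖w‖ ^ N) *
            (δ * (‖w‖ + 1)) := by ring
        _ ≤ (ε + R) * (δ * (5 / 2)) := by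
            gcongr
            linarith
        _ = 5 / 2 * δ * (ε + R) := by ring
  have hmax := Complex.norm_le_of_forall_mem_frontier_norm_le (Metric.isBounded_ball) hcl hfr
    (subset_closure (mem_ball_self hδ))
  have hval : h 1 = (G 1 - ∑ n ∈ Finset.range N, b n) * (δ : ℂ) ^ 2 := by
    simp only [hh]
    simp
  rw [hval, norm_mul, norm_pow, norm_real, Real.norm_of_nonneg hδ.le] at hmax
  exact hmax

theorem riesz {b : ℕ → ℂ} (hb : Tendsto b atTop (𝓝 0)) {ρ0 : ℝ} (hρ : 0 < ρ0) {G : ℂ → ℂ}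
    (hG : DifferentiableOn ℂ G (ball 1 ρ0))
    (hGe : ∀ w ∈ ball (1 : ℂ) ρ0, ‖w‖ < 1 → G w = ∑' n, b n * w ^ n) :
    Tendsto (fun N => ∑ n ∈ Finset.range N, b n) atTop (𝓝 (G 1)) := by
  obtain ⟨B, hB⟩ : ∃ B, ∀ n, ‖b n‖ ≤ B := by
    obtain ⟨B, hB⟩ := (Metric.isBounded_range_of_tendsto b hb).exists_norm_le
    exact ⟨B, fun n => hB _ (mem_range_self n)⟩
  obtain ⟨δ, hδ, hδ1, hδρ⟩ : ∃ δ : ℝ, 0 < δ ∧ δ ≤ 1 / 2 ∧ δ < ρ0 :=
    ⟨min (1 / 2) (ρ0 / 2), by positivity, min_le_left _ _,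
      (min_le_right _ _).trans_lt (by linarith)⟩
  obtain ⟨MG, hMG⟩ : ∃ MG, ∀ w ∈ closedBall (1 : ℂ) δ, ‖G w‖ ≤ MG := by
    have hc : ContinuousOn G (closedBall 1 δ) :=
      hG.continuousOn.mono (closedBall_subset_ball hδρ)
    exact (isCompact_closedBall (1 : ℂ) δ).exists_bound_of_continuousOn hc
  rw [Metric.tendsto_atTop]
  intro η hη
  set ε : ℝ := η * δ / 10 with hε
  have hε0 : 0 < ε := by positivity
  obtain ⟨m, hm⟩ := (Metric.tendsto_atTop.mp hb) ε hε0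
  have hm' : ∀ n, m ≤ n → ‖b n‖ ≤ ε := fun n hn => by
    have := hm n hn
    rw [dist_zero_right] at this
    exact this.le
  obtain ⟨N0, hN0⟩ := exists_nat_gt ((MG + B * m * (3 / 2) ^ m) / ε)
  refine ⟨max (N0 + 1) m, fun N hN => ?_⟩
  have hN1 : N0 + 1 ≤ N := (le_max_left _ _).trans hN
  have hN2 : m ≤ N := (le_max_right _ _).trans hN
  have hNpos : 0 < N := by omega
  have key := riesz_bound hδ hδ1 hδρ hG hGe hMG hB hε0.le hm' hN2 hNpos
  have hNR : (0 : ℝ) < N := by exact_mod_cast hNpos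
  have h1 : (MG + B * m * (3 / 2) ^ m) / N ≤ ε := by
    rw [div_le_iff₀ hNR]
    rw [div_lt_iff₀ hε0] at hN0
    have : (N0 : ℝ) ≤ N := by exact_mod_cast (by omega : N0 ≤ N)
    nlinarith
  rw [dist_comm, dist_eq_norm]
  have h2 : ‖G 1 - ∑ n ∈ Finset.range N, b n‖ * δ ^ 2 ≤ 5 / 2 * δ * (ε + ε) := by
    refine key.trans ?_
    gcongr
  have h3 : 5 / 2 * δ * (ε + ε) = η / 2 * δ ^ 2 := by rw [hε]; ring
  rw [h3] at h2
  have h4 := le_of_mul_le_mul_right h2 (by positivity)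
  linarith

end Pool.Agent.Helper506.BConv
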