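import Mathlib

/-!
Arithmetic and geometric means of univalent functions: definitions and the common analysis.
-/

open Complex Metric Set

namespace Pool.Agent.Helper506.Means

/-- The class `S`: analytic and injective on the unit disc, with `f 0 = 0` and `f' 0 = 1`. -/
def ClassS (f : ℂ → ℂ) : Prop :=
  DifferentiableOn ℂ f (ball 0 1) ∧ InjOn f (ball 0 1) ∧ f 0 = 0 ∧ deriv f 0 = 1

/-- The valence of `h` on the unit disc: the supremum over all values `w` of the number of
solutions of `h z = w` in the disc. -/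
noncomputable def valence (h : ℂ → ℂ) : ℕ∞ :=
  ⨆ w : ℂ, {z : ℂ | z ∈ ball (0 : ℂ) 1 ∧ h z = w}.encard

/-- `L` is the analytic branch of `log (f z / z)` on the disc that vanishes at `0`. -/
def IsLogBranch (f L : ℂ → ℂ) : Prop :=
  DifferentiableOn ℂ L (ball 0 1) ∧ L 0 = 0 ∧ ∀ z ∈ ball (0 : ℂ) 1, f z = z * exp (L z)

/-! ### zero finding -/

theorem exists_zero_of_sphere {h : ℂ → ℂ} {c : ℂ} {r m : ℝ} (hr : 0 < r)
    (hd : DifferentiableOn ℂ h (closedBall c r)) (hs : ∀ z ∈ sphere c r, m ≤ ‖h z‖)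
    (hc : ‖h c‖ < m) : ∃ z ∈ closedBall c r, h z = 0 := by
  by_contra hne
  push Not at hne
  have hm : 0 < m := lt_of_le_of_lt (norm_nonneg _) hc
  have hcl : closure (ball c r) = closedBall c r := closure_ball c hr.ne'
  have h1 : DiffContOnCl ℂ h (ball c r) :=
    ⟨hd.mono ball_subset_closedBall, by rw [hcl]; exact hd.continuousOn⟩
  have h2 : DiffContOnCl ℂ (fun z => (h z)⁻¹) (ball c r) := by
    refine DiffContOnCl.inv h1 ?_
    intro z hz
    rw [hcl] at hz
    exact hne z hz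
  have h3 := Complex.norm_le_of_forall_mem_frontier_norm_le (isBounded_ball) h2 (C := m⁻¹)
    (fun z hz => by
      rw [frontier_ball c hr.ne'] at hz
      rw [norm_inv]
      exact inv_anti₀ hm (hs z hz)) (z := c) (subset_closure (mem_ball_self hr))
  rw [norm_inv] at h3
  have hc0 : 0 < ‖h c‖ := norm_pos_iff.mpr (hne c (mem_closedBall_self hr.le))
  have := (inv_le_inv₀ hc0 hm).mp h3
  linarith

/-- Perturbed linear equation. -/
theorem exists_zero_linear {η : ℂ → ℂ} {c : ℂ}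
    (hd : DifferentiableOn ℂ η (closedBall c 1)) (hη : ∀ z ∈ closedBall c 1, ‖η z‖ ≤ 1 / 4) :
    ∃ z ∈ closedBall c 1, I * (z - c) + η z = 0 := by
  refine exists_zero_of_sphere (h := fun z => I * (z - c) + η z) (m := 3 / 4) one_pos ?_ ?_ ?_
  · exact (DifferentiableOn.const_mul (by fun_prop) _).add hd
  · intro z hz
    have h1 := hη z (sphere_subset_closedBall hz)
    have h2 : ‖I * (z - c)‖ = 1 := by
      rw [norm_mul, norm_I, one_mul]; simpa [dist_eq_norm] using hz
    have h3 : ‖I * (z - c)‖ ≤ ‖I * (z - c) + η z‖ + ‖η z‖ := by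
      have := norm_sub_le (I * (z - c) + η z) (η z)
      simpa using this
    linarith
  · have := hη c (mem_closedBall_self one_pos.le)
    simp only [sub_self, mul_zero, zero_add]
    linarith

/-! ### the explicit functions -/

/-- the Cayley map -/
noncomputable def cay (z : ℂ) : ℂ := (1 + z) / (1 - z)

theorem one_sub_ne {z : ℂ} (hz : z ∈ ball (0 : ℂ) 1) : 1 - z ≠ 0 := by
  intro h
  have : z = 1 := (sub_eq_zero.mp h).symm
  rw [this] at hz
  simp at hz

theorem cay_re_pos {z : ℂ} (hz : z ∈ ball (0 : ℂ) 1) : 0 < (cay z).re := by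
  have h1 : 1 - z ≠ 0 := one_sub_ne hz
  have hn : 0 < normSq (1 - z) := normSq_pos.mpr h1
  have hz' : ‖z‖ < 1 := by simpa using hz
  have h2 : normSq z < 1 := by
    rw [normSq_eq_norm_sq]
    have := norm_nonneg z
    nlinarith
  unfold cay
  rw [div_re]
  simp only [add_re, one_re, sub_re, add_im, one_im, sub_im, zero_add, zero_sub]
  rw [← add_div]
  apply div_pos _ hn
  rw [normSq_apply] at h2
  nlinarith

theorem cay_inj {z w : ℂ} (hz : z ∈ ball (0 : ℂ) 1) (hw : w ∈ ball (0 : ℂ) 1)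
    (h : cay z = cay w) : z = w := by
  have h1 := one_sub_ne hz
  have h2 := one_sub_ne hw
  unfold cay at h
  rw [div_eq_div_iff h1 h2] at h
  have h3 : (2 : ℂ) * (z - w) = 0 := by linear_combination h
  rcases mul_eq_zero.mp h3 with h4 | h4
  · norm_num at h4
  · exact sub_eq_zero.mp h4

/-- `U e z = 1 - e + e t^2`, `t` the Cayley transform of `z`. -/
noncomputable def U (e : ℝ) (z : ℂ) : ℂ := 1 - e + e * cay z ^ 2

theorem U_slit {e : ℝ} (h0 : 0 < e) (h1 : e ≤ 1) {z : ℂ} (hz : z ∈ ball (0 : ℂ) 1) :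
    U e z ∈ slitPlane := by
  have ht := cay_re_pos hz
  rw [mem_slitPlane_iff]
  have hre : (U e z).re = 1 - e + e * ((cay z).re ^ 2 - (cay z).im ^ 2) := by
    simp [U, pow_two, -mul_eq_mul_left_iff]
  have him : (U e z).im = e * (2 * (cay z).re * (cay z).im) := by
    simp [U, pow_two, -mul_eq_mul_left_iff]
    ring
  by_cases hb : (cay z).im = 0
  · left
    rw [hre, hb]
    have : 0 < e * (cay z).re ^ 2 := by positivity
    nlinarith
  · right
    rw [him]
    exact mul_ne_zero h0.ne' (mul_ne_zero (mul_ne_zero two_ne_zero ht.ne') hb)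

theorem U_zero (e : ℝ) : U e 0 = 1 := by simp [U, cay]

theorem hasDerivAt_cay {z : ℂ} (hz : z ∈ ball (0 : ℂ) 1) :
    HasDerivAt cay (2 / (1 - z) ^ 2) z := by
  have h1 := one_sub_ne hz
  have h2 : HasDerivAt (fun z : ℂ => 1 + z) 1 z := by
    simpa using (hasDerivAt_id z).const_add 1
  have h3 : HasDerivAt (fun z : ℂ => 1 - z) (-1) z := by
    simpa using (hasDerivAt_id z).const_sub 1
  have h4 := h2.div h3 h1
  have h5 : (1 * (1 - z) - (1 + z) * -1) / (1 - z) ^ 2 = 2 / (1 - z) ^ 2 := by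
    congr 1; ring
  rw [h5] at h4
  exact h4

theorem hasDerivAt_U (e : ℝ) {z : ℂ} (hz : z ∈ ball (0 : ℂ) 1) :
    HasDerivAt (U e) (e * (2 * cay z * (2 / (1 - z) ^ 2))) z := by
  have h1 := (hasDerivAt_cay hz).pow 2
  have h2 := (h1.const_mul (e : ℂ)).const_add (1 - (e : ℂ))
  have h3 : U e = fun z => (1 - (e : ℂ)) + e * cay z ^ 2 := rfl
  rw [h3]
  exact h2.congr_deriv (by norm_num)

theorem U_inj {e : ℝ} (h0 : 0 < e) {z w : ℂ} (hz : z ∈ ball (0 : ℂ) 1)
    (hw : w ∈ ball (0 : ℂ) 1) (h : U e z = U e w) : z = w := by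
  have h1 : (e : ℂ) * (cay z ^ 2 - cay w ^ 2) = 0 := by
    unfold U at h; linear_combination h
  have he : (e : ℂ) ≠ 0 := by exact_mod_cast h0.ne'
  have h2 : cay z ^ 2 = cay w ^ 2 := by
    rcases mul_eq_zero.mp h1 with h3 | h3
    · exact absurd h3 he
    · exact sub_eq_zero.mp h3
  rcases sq_eq_sq_iff_eq_or_eq_neg.mp h2 with h3 | h3
  · exact cay_inj hz hw h3
  · exfalso
    have h4 := cay_re_pos hz
    have h5 := cay_re_pos hw
    rw [h3, neg_re] at h4
    linarith

/-- the basic family of univalent functions -/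
noncomputable def Phi (e : ℝ) (c : ℂ) (z : ℂ) : ℂ := (exp (c * log (U e z)) - 1) / (4 * c * e)

theorem log_inj_aux {c u v : ℂ} (hc : c ≠ 0) (hc1 : 1 ≤ |(c⁻¹).re|) (hu : u ∈ slitPlane)
    (hv : v ∈ slitPlane) (h : exp (c * log u) = exp (c * log v)) : u = v := by
  obtain ⟨n, hn⟩ := exp_eq_exp_iff_exists_int.mp h
  have h1 : log u - log v = n * (2 * Real.pi * I) * c⁻¹ := by
    field_simp
    linear_combination hn
  have h2 : (log u - log v).im = n * (2 * Real.pi) * (c⁻¹).re := by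
    rw [h1]
    have : ((n : ℂ) * (2 * Real.pi * I) * c⁻¹) = ((n * (2 * Real.pi) : ℝ) : ℂ) * (I * c⁻¹) := by
      push_cast; ring
    rw [this, re_ofReal_mul |> fun _ => im_ofReal_mul _ _]
    simp
  have hpi := Real.pi_pos
  have h3 : |(log u - log v).im| < 2 * Real.pi := by
    rw [sub_im, log_im, log_im]
    have a1 := neg_pi_lt_arg u
    have a2 := neg_pi_lt_arg v
    have a3 := lt_of_le_of_ne (arg_le_pi u) (mem_slitPlane_iff_arg.mp hu).1
    have a4 := lt_of_le_of_ne (arg_le_pi v) (mem_slitPlane_iff_arg.mp hv).1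
    rw [abs_lt]
    constructor <;> linarith
  have h4 : n = 0 := by
    by_contra hn0
    have h5 : (1 : ℝ) ≤ |(n : ℝ)| := by
      exact_mod_cast Int.one_le_abs hn0
    rw [h2, abs_mul, abs_mul, abs_of_pos (by positivity : (0:ℝ) < 2 * Real.pi)] at h3
    have h6 : 2 * Real.pi ≤ |(n : ℝ)| * (2 * Real.pi) := by nlinarith
    have h7 : |(n : ℝ)| * (2 * Real.pi) ≤ |(n : ℝ)| * (2 * Real.pi) * |(c⁻¹).re| := by
      have : 0 ≤ |(n : ℝ)| * (2 * Real.pi) := by positivity
      nlinarith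
    linarith
  rw [h4] at h1
  simp only [Int.cast_zero, zero_mul] at h1
  have h8 : log u = log v := sub_eq_zero.mp h1
  have hu0 : u ≠ 0 := slitPlane_ne_zero hu
  have hv0 : v ≠ 0 := slitPlane_ne_zero hv
  rw [← exp_log hu0, ← exp_log hv0, h8]

theorem hasDerivAt_Phi {e : ℝ} (h0 : 0 < e) (h1 : e ≤ 1) (c : ℂ) {z : ℂ}
    (hz : z ∈ ball (0 : ℂ) 1) :
    HasDerivAt (Phi e c) (exp (c * log (U e z)) *
      (c * ((e * (2 * cay z * (2 / (1 - z) ^ 2))) / U e z)) / (4 * c * e)) z := by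
  have h2 := (((hasDerivAt_U e hz).clog (U_slit h0 h1 hz)).const_mul c).cexp
  exact (h2.sub_const 1).div_const (4 * c * e)

theorem Phi_classS {e : ℝ} (h0 : 0 < e) (h1 : e ≤ 1) {c : ℂ} (hc : c ≠ 0)
    (hc1 : 1 ≤ |(c⁻¹).re|) : ClassS (Phi e c) := by
  have he : (e : ℂ) ≠ 0 := by exact_mod_cast h0.ne'
  refine ⟨fun z hz => (hasDerivAt_Phi h0 h1 c hz).differentiableAt.differentiableWithinAt,
    ?_, ?_, ?_⟩
  · intro z hz w hw h
    unfold Phi at h
    have h4 : (4 * c * (e : ℂ)) ≠ 0 := mul_ne_zero (mul_ne_zero (by norm_num) hc) he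
    rw [div_left_inj' h4, sub_left_inj] at h
    exact U_inj h0 hz hw (log_inj_aux hc hc1 (U_slit h0 h1 hz) (U_slit h0 h1 hw) h)
  · simp [Phi, U_zero]
  · rw [(hasDerivAt_Phi h0 h1 c (mem_ball_self one_pos)).deriv, U_zero]
    simp only [log_one, mul_zero, exp_zero, cay]
    field_simp
    norm_num

/-! ### logarithmic coordinates -/

/-- the point of the disc with Cayley transform `exp (τ/2)` -/
noncomputable def zt (τ : ℂ) : ℂ := (exp (τ / 2) - 1) / (exp (τ / 2) + 1)

theorem exp_half_re_pos {τ : ℂ} (h : |τ.im| ≤ 1) : 0 < (exp (τ / 2)).re := by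
  rw [exp_re]
  apply mul_pos (Real.exp_pos _)
  apply Real.cos_pos_of_mem_Ioo
  have hpi := Real.pi_gt_three
  have h1 : (τ / 2).im = τ.im / 2 := by simp
  rw [h1]
  obtain ⟨h2, h3⟩ := abs_le.mp h
  constructor <;> linarith

theorem add_one_ne {p : ℂ} (hp : 0 < p.re) : p + 1 ≠ 0 := by
  intro h
  have := congrArg re h
  simp at this
  linarith

theorem zt_mem {τ : ℂ} (h : |τ.im| ≤ 1) : zt τ ∈ ball (0 : ℂ) 1 := by
  have hp := exp_half_re_pos h
  set p := exp (τ / 2)
  have h1 := add_one_ne hp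
  rw [mem_ball_zero_iff]
  unfold zt
  rw [norm_div, div_lt_one (norm_pos_iff.mpr h1)]
  have h2 : normSq (p - 1) < normSq (p + 1) := by
    simp only [normSq_apply, sub_re, one_re, sub_im, one_im, add_re, add_im]
    nlinarith
  rw [normSq_eq_norm_sq, normSq_eq_norm_sq] at h2
  exact lt_of_pow_lt_pow_left₀ 2 (norm_nonneg _) h2

theorem cay_zt {τ : ℂ} (h : |τ.im| ≤ 1) : cay (zt τ) = exp (τ / 2) := by
  have hp := exp_half_re_pos h
  have h1 := add_one_ne hp
  unfold cay zt
  set p := exp (τ / 2)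
  have h3 : 1 - (p - 1) / (p + 1) = 2 / (p + 1) := by field_simp; ring
  have h4 : 1 + (p - 1) / (p + 1) = 2 * p / (p + 1) := by field_simp; ring
  rw [h3, h4]
  field_simp

theorem U_zt (e : ℝ) {τ : ℂ} (h : |τ.im| ≤ 1) : U e (zt τ) = 1 - e + e * exp τ := by
  unfold U
  rw [cay_zt h, ← exp_nat_mul]
  congr 3
  push_cast; ring

theorem zt_inj {τ σ : ℂ} (h : |τ.im| ≤ 1) (h' : |σ.im| ≤ 1) (he : zt τ = zt σ) :
    τ.re = σ.re := by
  have h1 : exp (τ / 2) = exp (σ / 2) := by rw [← cay_zt h, ← cay_zt h', he]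
  have h2 := re_eq_re_of_cexp_eq_cexp h1
  simpa using h2

/-- the small correction term -/
noncomputable def del (e : ℝ) (τ : ℂ) : ℂ := log (1 + ((1 - e) / e : ℝ) * exp (-τ))

theorem log_U {e : ℝ} (h0 : 0 < e) {τ : ℂ} (him : |τ.im| ≤ 1)
    (hx : ‖(((1 - e) / e : ℝ) : ℂ) * exp (-τ)‖ ≤ 1 / 2) :
    log (U e (zt τ)) = Real.log e + τ + del e τ := by
  have he : (e : ℂ) ≠ 0 := by exact_mod_cast h0.ne'
  set x : ℂ := (((1 - e) / e : ℝ) : ℂ) * exp (-τ) with hxdef
  have hx1 : 1 + x ≠ 0 := by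
    intro h
    have h2 : x = -1 := by linear_combination h
    rw [h2] at hx
    norm_num at hx
  have h1 : U e (zt τ) = exp (Real.log e + τ + del e τ) := by
    rw [U_zt e him, exp_add, exp_add, del, exp_log hx1, ← ofReal_exp, Real.exp_log h0]
    have h3 : exp τ * exp (-τ) = 1 := by rw [← exp_add]; simp
    have h4 : (e : ℂ) * (((1 - e) / e : ℝ) : ℂ) = 1 - e := by
      push_cast; field_simp
    have h5 : (e : ℂ) * exp τ * (1 + x) = e * exp τ +
      (e * (((1 - e) / e : ℝ) : ℂ)) * (exp τ * exp (-τ)) := by rw [hxdef]; ring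
    rw [h5, h3, h4]; ring
  have hd : ‖del e τ‖ ≤ 3 / 4 := by
    have := norm_log_one_add_half_le_self hx
    unfold del
    rw [← hxdef]
    linarith
  have hdi : |(del e τ).im| ≤ 3 / 4 := (abs_im_le_norm _).trans hd
  have him2 : ((Real.log e : ℂ) + τ + del e τ).im = τ.im + (del e τ).im := by
    simp
  obtain ⟨a1, a2⟩ := abs_le.mp him
  obtain ⟨b1, b2⟩ := abs_le.mp hdi
  have hpi := Real.pi_gt_three
  rw [h1, log_exp]
  · rw [him2]; linarith
  · rw [him2]; linarith

theorem small_of_re {e : ℝ} (h0 : 0 < e) (h1 : e ≤ 1) {τ : ℂ} {s : ℝ} (hs : 0 < s)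
    (h : (1 - e) / e / s ≤ τ.re) :
    ‖(((1 - e) / e : ℝ) : ℂ) * exp (-τ)‖ ≤ s := by
  have hk : 0 ≤ (1 - e) / e := div_nonneg (by linarith) h0.le
  rw [norm_mul, norm_exp, norm_real, Real.norm_of_nonneg hk, neg_re, Real.exp_neg]
  have h2 : (1 - e) / e / s ≤ Real.exp τ.re := by
    have := Real.add_one_le_exp τ.re
    linarith
  rw [← div_eq_mul_inv, div_le_iff₀ (Real.exp_pos _)]
  rw [div_le_iff₀ hs] at h2
  linarith

theorem differentiableOn_del {e : ℝ} {S : Set ℂ}
    (hS : ∀ τ ∈ S, ‖(((1 - e) / e : ℝ) : ℂ) * exp (-τ)‖ ≤ 1 / 2) :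
    DifferentiableOn ℂ (del e) S := by
  intro τ hτ
  apply DifferentiableAt.differentiableWithinAt
  unfold del
  have hx := hS τ hτ
  apply DifferentiableAt.clog
  · fun_prop
  · rw [mem_slitPlane_iff]
    left
    have := (abs_re_le_norm ((((1 - e) / e : ℝ) : ℂ) * exp (-τ))).trans hx
    have h2 := (abs_le.mp this).1
    rw [add_re, one_re]
    linarith

/-! ### the arithmetic mean -/

noncomputable def c1 : ℂ := (1 + I) / 2
noncomputable def c2 : ℂ := (1 - I) / 2

theorem c1_ne : c1 ≠ 0 := by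
  intro h
  have := congrArg re h
  simp [c1] at this

theorem c2_ne : c2 ≠ 0 := by
  intro h
  have := congrArg re h
  simp [c2] at this

theorem c1_inv : c1⁻¹ = 1 - I := by
  apply inv_eq_of_mul_eq_one_right
  unfold c1
  linear_combination (-1 / 2 : ℂ) * I_mul_I

theorem c2_inv : c2⁻¹ = 1 + I := by
  apply inv_eq_of_mul_eq_one_right
  unfold c2
  linear_combination (-1 / 2 : ℂ) * I_mul_I

theorem norm_c1_le : ‖c1‖ ≤ 1 := by
  unfold c1
  rw [norm_div]
  have : ‖(1 : ℂ) + I‖ ≤ 2 := by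
    have := norm_add_le (1 : ℂ) I
    simp only [norm_one, norm_I] at this
    linarith
  simp only [norm_ofNat]
  linarith

theorem arith_main {α β : ℝ} (hα : 0 < α) (hαβ : α ≤ β) :
    {z : ℂ | z ∈ ball (0 : ℂ) 1 ∧
      (α : ℂ) * Phi ((α / β) ^ 2) c1 z + β * Phi 1 c2 z =
        -(α : ℂ) / (4 * c1 * ((α / β) ^ 2 : ℝ)) - β / (4 * c2)}.Infinite := by
  have hβ : 0 < β := lt_of_lt_of_le hα hαβ
  set e : ℝ := (α / β) ^ 2 with he
  have he0 : 0 < e := by positivity
  have he1 : e ≤ 1 := by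
    have : α / β ≤ 1 := (div_le_one hβ).mpr hαβ
    have h2 : 0 < α / β := by positivity
    rw [he]; nlinarith
  set lam : ℝ := Real.log (α / β) with hlam
  have hpi := Real.pi_gt_three
  set T : ℕ → ℝ := fun m => 2 * Real.pi * m - Real.pi / 2 - lam with hT
  obtain ⟨N0, hN0⟩ : ∃ N0 : ℕ, ∀ m : ℕ, N0 ≤ m → (1 - e) / e / (1 / 8) ≤ T m - 1 := by
    obtain ⟨N, hN⟩ := exists_nat_ge ((1 - e) / e / (1 / 8) + 1 + Real.pi / 2 + lam)
    refine ⟨N, fun m hm => ?_⟩
    have h1 : (N : ℝ) ≤ m := by exact_mod_cast hm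
    have h2 : (0 : ℝ) ≤ m := by positivity
    simp only [hT]
    nlinarith
  have hsol : ∀ m : ℕ, N0 ≤ m → ∃ τ ∈ closedBall ((T m : ℝ) : ℂ) 1,
      I * (τ - T m) + c1 * del e τ = 0 := by
    intro m hm
    have hsm : ∀ τ ∈ closedBall ((T m : ℝ) : ℂ) 1,
        ‖(((1 - e) / e : ℝ) : ℂ) * exp (-τ)‖ ≤ 1 / 8 := by
      intro τ hτ
      apply small_of_re he0 he1 (by norm_num)
      refine (hN0 m hm).trans ?_
      have h1 : ‖τ - (T m : ℝ)‖ ≤ 1 := by simpa [dist_eq_norm] using hτ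
      have h2 := (abs_re_le_norm (τ - (T m : ℝ))).trans h1
      rw [sub_re, ofReal_re] at h2
      linarith [(abs_le.mp h2).1]
    apply exists_zero_linear (η := fun τ => c1 * del e τ)
    · apply DifferentiableOn.const_mul
      exact differentiableOn_del (fun τ hτ => (hsm τ hτ).trans (by norm_num))
    · intro τ hτ
      have h3 := norm_log_one_add_half_le_self ((hsm τ hτ).trans (by norm_num))
      have h4 : ‖del e τ‖ ≤ 1 / 4 := by
        unfold del
        linarith [hsm τ hτ]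
      rw [norm_mul]
      have := norm_c1_le
      nlinarith [norm_nonneg c1, norm_nonneg (del e τ)]
  choose! τ hτ1 hτ2 using hsol
  have him : ∀ m, N0 ≤ m → |(τ m).im| ≤ 1 := by
    intro m hm
    have h1 : ‖τ m - (T m : ℝ)‖ ≤ 1 := by simpa [dist_eq_norm] using hτ1 m hm
    have h2 := (abs_im_le_norm (τ m - (T m : ℝ))).trans h1
    simpa using h2
  have hre : ∀ m, N0 ≤ m → |(τ m).re - T m| ≤ 1 := by
    intro m hm
    have h1 : ‖τ m - (T m : ℝ)‖ ≤ 1 := by simpa [dist_eq_norm] using hτ1 m hm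
    have h2 := (abs_re_le_norm (τ m - (T m : ℝ))).trans h1
    simpa using h2
  refine Set.infinite_of_injective_forall_mem (f := fun m : ℕ => zt (τ (m + N0))) ?_ ?_
  · intro a b hab
    have ha : N0 ≤ a + N0 := by omega
    have hb : N0 ≤ b + N0 := by omega
    have h1 := zt_inj (him _ ha) (him _ hb) hab
    have h2 := abs_le.mp (hre _ ha)
    have h3 := abs_le.mp (hre _ hb)
    simp only [hT] at h2 h3
    push_cast at h2 h3
    by_contra hne
    rcases lt_or_gt_of_ne hne with hlt | hlt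
    · have h4 : (a : ℝ) + 1 ≤ b := by exact_mod_cast hlt
      nlinarith
    · have h4 : (b : ℝ) + 1 ≤ a := by exact_mod_cast hlt
      nlinarith
  · intro m
    have hm : N0 ≤ m + N0 := by omega
    show zt (τ (m + N0)) ∈ _
    obtain ⟨k, hk⟩ : ∃ k, k = m + N0 := ⟨_, rfl⟩
    rw [← hk] at hm ⊢
    refine ⟨zt_mem (him _ hm), ?_⟩
    have hbound : (1 - e) / e / (1 / 2) ≤ (τ k).re := by
      have h1 := hN0 k hm
      have h2 := abs_le.mp (hre _ hm)
      have h3 : 0 ≤ (1 - e) / e := div_nonneg (by linarith) he0.le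
      have h4 : (1 - e) / e / (1 / 2) ≤ (1 - e) / e / (1 / 8) := by
        rw [div_div_eq_mul_div, div_div_eq_mul_div]; linarith
      linarith
    have hL1 := log_U he0 (him _ hm) (small_of_re he0 he1 (by norm_num) hbound)
    have hL2 : log (U 1 (zt (τ k))) = τ k := by
      have := log_U one_pos (him _ hm) (τ := τ k) (by simp)
      simpa [del] using this
    have heq := hτ2 k hm
    unfold Phi
    rw [hL1, hL2]
    have hloge : Real.log e = 2 * lam := by
      rw [he, hlam, Real.log_pow]; norm_num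
    have hexp : c1 * (Real.log e + τ k + del e (τ k)) = c2 * τ k + (lam + (-(Real.pi / 2 * I)) +
        (k : ℂ) * (2 * Real.pi * I)) := by
      rw [hloge]
      have h5 : (c1 - c2) = I := by unfold c1 c2; ring
      have h6 : (2 : ℂ) * c1 = 1 + I := by unfold c1; ring
      simp only [hT] at heq
      push_cast at heq ⊢
      linear_combination heq + (τ k) * h5 + (lam : ℂ) * h6
    have hA : exp (c1 * (Real.log e + τ k + del e (τ k))) =
        exp (c2 * τ k) * ((α / β : ℝ) * (-I)) := by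
      rw [hexp, exp_add, exp_add, exp_add, exp_nat_mul_two_pi_mul_I, mul_one, ← ofReal_exp,
        Real.exp_log (by positivity), exp_neg, exp_pi_div_two_mul_I, inv_I]
    rw [hA]
    have hαc : (α : ℂ) ≠ 0 := by exact_mod_cast hα.ne'
    have hβc : (β : ℂ) ≠ 0 := by exact_mod_cast hβ.ne'
    have hc1 := c1_ne
    have hc2 := c2_ne
    have h7 : c1 = I * c2 := by
      unfold c1 c2
      linear_combination (1 / 2 : ℂ) * I_mul_I
    rw [he]
    push_cast
    rw [h7]
    have hI := I_ne_zero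
    field_simp
    ring

end Pool.Agent.Helper506.Means
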