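import Mathlib

open Polynomial Complex Finset

namespace Pool.Agent.Helper506.PosArea

/-- nonnegative coefficients -/
def NN (F : ℝ[X]) : Prop := ∀ i, 0 ≤ F.coeff i

theorem NN.mul {F G : ℝ[X]} (hF : NN F) (hG : NN G) : NN (F * G) := by
  intro i
  rw [coeff_mul]
  exact Finset.sum_nonneg fun x _ => mul_nonneg (hF _) (hG _)

theorem NN.add {F G : ℝ[X]} (hF : NN F) (hG : NN G) : NN (F + G) := by
  intro i
  rw [coeff_add]
  exact add_nonneg (hF i) (hG i)

theorem nn_one : NN (1 : ℝ[X]) := by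
  intro i
  rw [coeff_one]
  split_ifs <;> norm_num

theorem nn_X_pow (n : ℕ) : NN (X ^ n : ℝ[X]) := by
  intro i
  rw [coeff_X_pow]
  split_ifs <;> norm_num

theorem NN.pow {F : ℝ[X]} (hF : NN F) (m : ℕ) : NN (F ^ m) := by
  induction m with
  | zero => simpa using nn_one
  | succ m ih => rw [pow_succ]; exact ih.mul hF

theorem nn_fac (n m : ℕ) : NN ((1 + X ^ n : ℝ[X]) ^ m) := (nn_one.add (nn_X_pow n)).pow m

/-- the primitive vanishing at zero -/
noncomputable def prim (F : ℝ[X]) (z : ℂ) : ℂ := F.sum fun i c => (c : ℂ) * (z ^ (i + 1) / (i + 1))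

/-- the sum of the coefficients of the primitive -/
noncomputable def mass (F : ℝ[X]) : ℝ := F.sum fun i c => c * (1 / (i + 1))

theorem prim_add (F G : ℝ[X]) (z : ℂ) : prim (F + G) z = prim F z + prim G z := by
  unfold prim
  rw [Polynomial.sum_add_index]
  · simp
  · intro i a b; push_cast; ring

theorem mass_add (F G : ℝ[X]) : mass (F + G) = mass F + mass G := by
  unfold mass
  rw [Polynomial.sum_add_index]
  · simp
  · intro i a b; ring

theorem mass_zero : mass 0 = 0 := by simp [mass]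

theorem mass_sum {ι : Type*} (s : Finset ι) (F : ι → ℝ[X]) :
    mass (∑ i ∈ s, F i) = ∑ i ∈ s, mass (F i) := by
  classical
  induction s using Finset.induction_on with
  | empty => simp [mass_zero]
  | insert a s ha ih => rw [Finset.sum_insert ha, Finset.sum_insert ha, mass_add, ih]

theorem mass_range {F : ℝ[X]} {N : ℕ} (hN : F.natDegree < N) :
    mass F = ∑ i ∈ range N, F.coeff i * (1 / (i + 1)) :=
  Polynomial.sum_over_range' F (fun n => by simp) N hN

theorem mass_C_mul (c : ℝ) (F : ℝ[X]) : mass (C c * F) = c * mass F := by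
  rw [mass_range (N := F.natDegree + 1), mass_range (N := F.natDegree + 1) (by omega), mul_sum]
  · refine sum_congr rfl fun i _ => ?_
    rw [coeff_C_mul]; ring
  · exact Nat.lt_succ_of_le (natDegree_C_mul_le c F)

theorem eval_one_eq {F : ℝ[X]} {N : ℕ} (hN : F.natDegree < N) :
    F.eval 1 = ∑ i ∈ range N, F.coeff i := by
  rw [eval_eq_sum_range' hN]
  simp

theorem NN.eval_nonneg {F : ℝ[X]} (hF : NN F) : 0 ≤ F.eval 1 := by
  rw [eval_one_eq (Nat.lt_succ_self _)]
  exact Finset.sum_nonneg fun i _ => hF i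

theorem aeval_range {F : ℝ[X]} {N : ℕ} (hN : F.natDegree < N) (z : ℂ) :
    aeval z F = ∑ i ∈ range N, (F.coeff i : ℂ) * z ^ i := by
  rw [aeval_eq_sum_range' hN]
  simp

theorem prim_range {F : ℝ[X]} {N : ℕ} (hN : F.natDegree < N) (z : ℂ) :
    prim F z = ∑ i ∈ range N, (F.coeff i : ℂ) * (z ^ (i + 1) / (i + 1)) :=
  Polynomial.sum_over_range' F (fun n => by simp) N hN

theorem NN.norm_aeval_le {F : ℝ[X]} (hF : NN F) {z : ℂ} (hz : ‖z‖ ≤ 1) :
    ‖aeval z F‖ ≤ F.eval 1 := by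
  rw [aeval_range (Nat.lt_succ_self _), eval_one_eq (Nat.lt_succ_self _)]
  refine norm_sum_le_of_le _ fun i _ => ?_
  rw [norm_mul, norm_pow, norm_real, Real.norm_of_nonneg (hF i)]
  exact mul_le_of_le_one_right (hF i) (pow_le_one₀ (norm_nonneg _) hz)

theorem NN.norm_prim_le {F : ℝ[X]} (hF : NN F) {z : ℂ} (hz : ‖z‖ ≤ 1) :
    ‖prim F z‖ ≤ mass F := by
  rw [prim_range (Nat.lt_succ_self _), mass_range (Nat.lt_succ_self _)]
  refine norm_sum_le_of_le _ fun i _ => ?_
  rw [norm_mul, norm_div, norm_pow, norm_real, Real.norm_of_nonneg (hF i)]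
  have h1 : ‖((i : ℂ) + 1)‖ = (i : ℝ) + 1 := by
    have : ((i : ℂ) + 1) = ((i + 1 : ℕ) : ℂ) := by push_cast; ring
    rw [this, Complex.norm_natCast]; push_cast; ring
  rw [h1]
  have h2 : ‖z‖ ^ (i + 1) ≤ 1 := pow_le_one₀ (norm_nonneg _) hz
  have := hF i
  gcongr

theorem hasDerivAt_prim (F : ℝ[X]) (z : ℂ) : HasDerivAt (prim F) (aeval z F) z := by
  have h1 : prim F = fun z => ∑ i ∈ range (F.natDegree + 1),
      (F.coeff i : ℂ) * (z ^ (i + 1) / (i + 1)) := by
    funext w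
    exact prim_range (Nat.lt_succ_self _) w
  rw [h1, aeval_range (Nat.lt_succ_self _)]
  refine HasDerivAt.fun_sum fun i _ => ?_
  have h2 : ((i : ℂ) + 1) ≠ 0 := by exact_mod_cast Nat.succ_ne_zero i
  have h3 := ((hasDerivAt_pow (i + 1) z).div_const ((i : ℂ) + 1)).const_mul (F.coeff i : ℂ)
  have h4 : (F.coeff i : ℂ) * (((i + 1 : ℕ) : ℂ) * z ^ (i + 1 - 1) / ((i : ℂ) + 1)) =
      (F.coeff i : ℂ) * z ^ i := by
    push_cast
    field_simp
    try simp
  rw [h4] at h3
  exact h3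

theorem prim_zero (F : ℝ[X]) : prim F 0 = 0 := by
  rw [prim_range (Nat.lt_succ_self _)]
  refine Finset.sum_eq_zero fun i _ => ?_
  simp

theorem NN.prim_lipschitz {F : ℝ[X]} (hF : NN F) {z w : ℂ} (hz : ‖z‖ ≤ 1) (hw : ‖w‖ ≤ 1) :
    ‖prim F z - prim F w‖ ≤ F.eval 1 * ‖z - w‖ := by
  refine (convex_closedBall (0 : ℂ) 1).norm_image_sub_le_of_norm_hasDerivWithin_le
    (f' := fun z => aeval z F) (fun x _ => (hasDerivAt_prim F x).hasDerivWithinAt)
    (fun x hx => hF.norm_aeval_le (by simpa using hx)) (by simpa using hw) (by simpa using hz)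

theorem NN.derivative {F : ℝ[X]} (hF : NN F) : NN (Polynomial.derivative F) := by
  intro i
  rw [coeff_derivative]
  exact mul_nonneg (hF _) (by positivity)

theorem NN.aeval_lipschitz {F : ℝ[X]} (hF : NN F) {z w : ℂ} (hz : ‖z‖ ≤ 1) (hw : ‖w‖ ≤ 1) :
    ‖aeval z F - aeval w F‖ ≤ (Polynomial.derivative F).eval 1 * ‖z - w‖ := by
  refine (convex_closedBall (0 : ℂ) 1).norm_image_sub_le_of_norm_hasDerivWithin_le
    (f := fun z => aeval z F)
    (f' := fun z => aeval z (Polynomial.derivative F))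
    (fun x _ => (F.hasDerivAt_aeval x).hasDerivWithinAt)
    (fun x hx => hF.derivative.norm_aeval_le (by simpa using hx))
    (by simpa using hw) (by simpa using hz)

theorem mass_mul_X_pow_le {F : ℝ[X]} (hF : NN F) (m : ℕ) :
    mass (F * X ^ m) ≤ F.eval 1 * (1 / (m + 1)) := by
  have hdeg : (F * X ^ m).natDegree < m + (F.natDegree + 1) := by
    refine lt_of_le_of_lt natDegree_mul_le ?_
    have := natDegree_X_pow_le (R := ℝ) m
    omega
  rw [mass_range hdeg, Finset.sum_range_add, eval_one_eq (Nat.lt_succ_self _), Finset.sum_mul]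
  have h1 : ∑ x ∈ range m, (F * X ^ m).coeff x * (1 / ((x : ℝ) + 1)) = 0 := by
    refine Finset.sum_eq_zero fun i hi => ?_
    rw [coeff_mul_X_pow', if_neg (by simpa using hi), zero_mul]
  rw [h1, zero_add]
  refine Finset.sum_le_sum fun i _ => ?_
  rw [coeff_mul_X_pow', if_pos (by omega), Nat.add_sub_cancel_left]
  have := hF i
  push_cast
  gcongr
  linarith

/-- growth of the mass -/
theorem mass_step {F : ℝ[X]} (hF : NN F) {n : ℕ} (hn : 0 < n) (M : ℕ) :
    mass (F * (1 + X ^ n) ^ M) ≤ mass F + 2 * F.eval 1 * (2 ^ (M + 1) / (n * (M + 1))) := by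
  have hexp : F * (1 + X ^ n) ^ M = ∑ j ∈ range (M + 1), C (M.choose j : ℝ) * (F * X ^ (n * j)) := by
    rw [add_comm, add_pow, Finset.mul_sum]
    refine Finset.sum_congr rfl fun j _ => ?_
    rw [one_pow, mul_one, ← pow_mul, map_natCast]
    ring
  rw [hexp, mass_sum, Finset.sum_range_succ']
  have h0 : mass (C ((M.choose 0 : ℕ) : ℝ) * (F * X ^ (n * 0))) = mass F := by
    simp
  rw [h0, add_comm]
  have hF1 := hF.eval_nonneg
  have hnR : (0 : ℝ) < n := by exact_mod_cast hn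
  have hterm : ∀ j ∈ range M, mass (C ((M.choose (j + 1) : ℕ) : ℝ) * (F * X ^ (n * (j + 1)))) ≤
      (2 * F.eval 1 / (n * (M + 1))) * ((M + 1).choose (j + 2) : ℝ) := by
    intro j _
    rw [mass_C_mul]
    have h1 := mass_mul_X_pow_le hF (n * (j + 1))
    have h2 : (1 : ℝ) / ((n * (j + 1) : ℕ) + 1) ≤ 2 / (n * (j + 2)) := by
      rw [div_le_div_iff₀ (by positivity) (by positivity)]
      push_cast
      nlinarith [(Nat.cast_nonneg j : (0 : ℝ) ≤ j)]
    have h3 : ((M : ℝ) + 1) * (M.choose (j + 1) : ℝ) = ((M + 1).choose (j + 2) : ℝ) * (j + 2) := by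
      have := Nat.add_one_mul_choose_eq M (j + 1)
      have h4 : ((M.succ * M.choose (j + 1) : ℕ) : ℝ) =
        ((M.succ.choose (j + 1).succ * (j + 1).succ : ℕ) : ℝ) := by rw [this]
      push_cast at h4
      linarith
    calc (M.choose (j + 1) : ℝ) * mass (F * X ^ (n * (j + 1)))
        ≤ (M.choose (j + 1) : ℝ) * (F.eval 1 * (2 / (n * (j + 2)))) := by
          gcongr
          exact h1.trans (by gcongr)
      _ = (2 * F.eval 1 / (n * (M + 1))) * ((((M : ℝ) + 1) * (M.choose (j + 1) : ℝ)) / (j + 2)) := by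
          field_simp
      _ = (2 * F.eval 1 / (n * (M + 1))) * ((M + 1).choose (j + 2) : ℝ) := by
          rw [h3]; field_simp
  have hsum : ∑ j ∈ range M, ((M + 1).choose (j + 2) : ℝ) ≤ 2 ^ (M + 1) := by
    have h1 := Nat.sum_range_choose (M + 1)
    have h2 : (∑ j ∈ range (M + 1 + 1), ((M + 1).choose j : ℝ)) = 2 ^ (M + 1) := by
      exact_mod_cast h1
    rw [← h2, Finset.sum_range_succ', Finset.sum_range_succ']
    have h3 : (0 : ℝ) ≤ ((M + 1).choose (0 + 1) : ℝ) := by positivity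
    have h4 : (0 : ℝ) ≤ ((M + 1).choose 0 : ℝ) := by positivity
    linarith
  refine add_le_add_right ((Finset.sum_le_sum hterm).trans ?_) _
  rw [← Finset.mul_sum]
  calc (2 * F.eval 1 / (n * (M + 1))) * ∑ j ∈ range M, ((M + 1).choose (j + 2) : ℝ)
      ≤ (2 * F.eval 1 / (n * (M + 1))) * 2 ^ (M + 1) := by gcongr
    _ = 2 * F.eval 1 * (2 ^ (M + 1) / (n * (M + 1))) := by ring

end Pool.Agent.Helper506.PosArea
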