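import Mathlib

open Filter Topology Set MeasureTheory

namespace Pool.Agent.Helper506.PosArea

theorem pow_sub_le {a b : ℝ} (ha : 0 ≤ a) (ha1 : a ≤ 1) (hb : 0 ≤ b) (hb1 : b ≤ 1) (m : ℕ) :
    |a ^ m - b ^ m| ≤ m * |a - b| := by
  induction m with
  | zero => simp
  | succ m ih =>
    have e : a ^ (m + 1) - b ^ (m + 1) = a * (a ^ m - b ^ m) + (a - b) * b ^ m := by ring
    rw [e]
    refine (abs_add_le _ _).trans ?_
    rw [abs_mul, abs_mul, abs_of_nonneg ha, abs_of_nonneg (pow_nonneg hb m)]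
    have h1 : b ^ m ≤ 1 := pow_le_one₀ hb hb1
    have h2 := abs_nonneg (a - b)
    have h3 := abs_nonneg (a ^ m - b ^ m)
    push_cast
    nlinarith

theorem cos_sub_le (a b : ℝ) : |Real.cos a - Real.cos b| ≤ |a ^ 2 - b ^ 2| / 2 := by
  rw [Real.cos_sub_cos, abs_mul, abs_mul, abs_neg, abs_two]
  have h1 := Real.abs_sin_le_abs (x := (a + b) / 2)
  have h2 := Real.abs_sin_le_abs (x := (a - b) / 2)
  have h3 : |a ^ 2 - b ^ 2| / 2 = 2 * |(a + b) / 2| * |(a - b) / 2| := by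
    rw [show a ^ 2 - b ^ 2 = 4 * ((a + b) / 2 * ((a - b) / 2)) by ring, abs_mul, abs_mul]
    norm_num
    ring
  rw [h3]
  gcongr

theorem cos_half_le {φ : ℝ} (hφ : |φ| ≤ Real.pi) :
    Real.cos (φ / 2) ≤ 1 - φ ^ 2 / (2 * Real.pi ^ 2) := by
  have hpi := Real.pi_pos
  have h1 : Real.cos (φ / 2) ≤ 1 - 2 / Real.pi ^ 2 * (φ / 2) ^ 2 := by
    apply Real.cos_le_one_sub_mul_cos_sq
    rw [abs_div, abs_two]
    linarith
  have h2 : 2 / Real.pi ^ 2 * (φ / 2) ^ 2 = φ ^ 2 / (2 * Real.pi ^ 2) := by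
    field_simp
  rw [h2] at h1
  exact h1

/-- if the value of the profile is at least `κ` then the angle is small -/
theorem angle_small {φ κ : ℝ} {m : ℕ} (hφ0 : 0 ≤ φ) (hφ : φ ≤ Real.pi) (hκ : 0 < κ)
    (h : κ ≤ Real.cos (φ / 2) ^ m) : m * φ ^ 2 ≤ 2 * Real.pi ^ 2 / κ := by
  have hpi := Real.pi_pos
  have h1 := cos_half_le (φ := φ) (by rw [abs_of_nonneg hφ0]; exact hφ)
  have hc0 : 0 ≤ Real.cos (φ / 2) :=
    Real.cos_nonneg_of_mem_Icc ⟨by linarith, by linarith⟩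
  set x := φ ^ 2 / (2 * Real.pi ^ 2) with hx
  have hx0 : 0 ≤ x := by positivity
  have hx1 : x ≤ 1 := by linarith
  have h2 : κ ≤ (1 - x) ^ m := h.trans (pow_le_pow_left₀ hc0 h1 m)
  have h3 : 1 + m * x ≤ (1 + x) ^ m := one_add_mul_le_pow (by linarith) m
  have h4 : κ * (1 + m * x) ≤ 1 := by
    calc κ * (1 + m * x) ≤ (1 - x) ^ m * (1 + x) ^ m := by
          apply mul_le_mul h2 h3 (by positivity) (by positivity)
      _ = (1 - x ^ 2) ^ m := by rw [← mul_pow]; ring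
      _ ≤ 1 := pow_le_one₀ (by nlinarith) (by nlinarith)
  have h5 : m * x ≤ 1 / κ := by
    rw [le_div_iff₀ hκ]
    nlinarith
  have h6 : (m : ℝ) * φ ^ 2 = 2 * Real.pi ^ 2 * (m * x) := by
    rw [hx]; field_simp
  rw [h6, mul_div_assoc, show 2 * Real.pi ^ 2 * (m * x) = 2 * (Real.pi ^ 2 * (m * x)) by ring]
  have : 2 * (Real.pi ^ 2 * (m * x)) ≤ 2 * (Real.pi ^ 2 * (1 / κ)) := by gcongr
  calc 2 * (Real.pi ^ 2 * (m * x)) ≤ 2 * (Real.pi ^ 2 * (1 / κ)) := this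
    _ = 2 * (Real.pi ^ 2 / κ) := by ring

/-- Gaussian bound for the integral of the profile -/
theorem integral_cos_le {m : ℕ} (hm : 0 < m) {φ : ℝ} (hφ : φ ∈ Icc (-Real.pi) Real.pi) :
    ∫ ψ in (-Real.pi)..φ, Real.cos (ψ / 2) ^ m ≤ √(Real.pi / (m / (2 * Real.pi ^ 2))) := by
  have hpi := Real.pi_pos
  have hmR : (0 : ℝ) < m := by exact_mod_cast hm
  rw [← integral_gaussian, intervalIntegral.integral_of_le hφ.1]
  have hint : Integrable (fun x : ℝ => Real.exp (-(m / (2 * Real.pi ^ 2)) * x ^ 2)) :=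
    integrable_exp_neg_mul_sq (by positivity)
  have hc : Continuous fun ψ : ℝ => Real.cos (ψ / 2) ^ m := by fun_prop
  calc ∫ ψ in Ioc (-Real.pi) φ, Real.cos (ψ / 2) ^ m
      ≤ ∫ x in Ioc (-Real.pi) φ, Real.exp (-(m / (2 * Real.pi ^ 2)) * x ^ 2) := by
        refine setIntegral_mono_on ?_ hint.integrableOn measurableSet_Ioc fun x hx => ?_
        · exact (hc.integrableOn_Icc (a := -Real.pi) (b := φ)).mono_set Ioc_subset_Icc_self
        · have h1 := cos_half_le (φ := x) (abs_le.mpr ⟨hx.1.le, hx.2.trans hφ.2⟩)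
          have h0 : 0 ≤ Real.cos (x / 2) :=
            Real.cos_nonneg_of_mem_Icc ⟨by linarith [hx.1], by linarith [hx.2, hφ.2]⟩
          have h2 : Real.cos (x / 2) ≤ Real.exp (-(x ^ 2 / (2 * Real.pi ^ 2))) := by
            have := Real.add_one_le_exp (-(x ^ 2 / (2 * Real.pi ^ 2)))
            linarith
          calc Real.cos (x / 2) ^ m ≤ Real.exp (-(x ^ 2 / (2 * Real.pi ^ 2))) ^ m :=
                pow_le_pow_left₀ h0 h2 m
            _ = Real.exp (-(m / (2 * Real.pi ^ 2)) * x ^ 2) := by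
                rw [← Real.exp_nat_mul]
                congr 1
                ring
    _ ≤ ∫ x, Real.exp (-(m / (2 * Real.pi ^ 2)) * x ^ 2) :=
        setIntegral_le_integral hint (Eventually.of_forall fun x => (Real.exp_pos _).le)

/-- Points of the spiral with prescribed argument and nearly prescribed modulus -/
theorem spiral {κ η : ℝ} (hκ : 0 < κ) (hη : 0 < η) : ∀ᶠ M : ℕ in atTop, ∀ t ∈ Icc κ 1, ∀ α : ℝ,
    ∃ φ ∈ Icc 0 Real.pi, (∃ k : ℤ, ((M : ℝ) - 1) * φ / 2 = α + 2 * Real.pi * k) ∧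
      |Real.cos (φ / 2) ^ (M + 1) - t| ≤ η := by
  have hpi := Real.pi_pos
  have hlim : Tendsto (fun M : ℕ => √(2 * Real.pi ^ 2 / κ / ((M : ℝ) + 1)) +
      4 * Real.pi / ((M : ℝ) - 1)) atTop (𝓝 0) := by
    have h1 : Tendsto (fun M : ℕ => 2 * Real.pi ^ 2 / κ / ((M : ℝ) + 1)) atTop (𝓝 0) :=
      tendsto_const_nhds.div_atTop
        (tendsto_atTop_add_const_right _ _ tendsto_natCast_atTop_atTop)
    have h2 : Tendsto (fun M : ℕ => 4 * Real.pi / ((M : ℝ) - 1)) atTop (𝓝 0) :=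
      tendsto_const_nhds.div_atTop
        (tendsto_atTop_add_const_right _ (-1) tendsto_natCast_atTop_atTop)
    have h3 := (Real.continuous_sqrt.tendsto 0).comp h1
    rw [Real.sqrt_zero] at h3
    have h4 := h3.add h2
    rw [add_zero] at h4
    exact h4
  have hmin : 0 < min Real.pi (η / (3 * Real.pi)) := lt_min hpi (by positivity)
  filter_upwards [hlim.eventually (gt_mem_nhds hmin), eventually_ge_atTop 2] with M hM hM2
  intro t ht α
  have hMR : (2 : ℝ) ≤ M := by exact_mod_cast hM2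
  have hM1 : (0 : ℝ) < (M : ℝ) - 1 := by linarith
  -- the exact angle
  obtain ⟨φs, hφs, hφt⟩ : ∃ φs ∈ Icc 0 Real.pi, Real.cos (φs / 2) ^ (M + 1) = t := by
    have hc : ContinuousOn (fun x : ℝ => Real.cos (x / 2) ^ (M + 1)) (Icc 0 Real.pi) := by
      fun_prop
    have := intermediate_value_Icc' hpi.le hc
    have ht' : t ∈ Icc (Real.cos (Real.pi / 2) ^ (M + 1)) (Real.cos (0 / 2) ^ (M + 1)) := by
      rw [Real.cos_pi_div_two, zero_div, Real.cos_zero, one_pow, zero_pow (by omega)]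
      exact ⟨hκ.le.trans ht.1, ht.2⟩
    obtain ⟨x, hx, hxt⟩ := this ht'
    exact ⟨x, hx, hxt⟩
  have hsm := angle_small (m := M + 1) hφs.1 hφs.2 hκ (by rw [hφt]; exact ht.1)
  have hφsb : φs ≤ √(2 * Real.pi ^ 2 / κ / ((M : ℝ) + 1)) := by
    apply Real.le_sqrt_of_sq_le
    rw [le_div_iff₀ (by positivity)]
    push_cast at hsm
    linarith
  have h2pi : 0 < 2 * Real.pi := by positivity
  set y := toIcoMod h2pi (((M : ℝ) - 1) * φs / 2) α with hy
  have hy1 : ((M : ℝ) - 1) * φs / 2 ≤ y := left_le_toIcoMod h2pi _ _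
  have hy2 : y < ((M : ℝ) - 1) * φs / 2 + 2 * Real.pi := toIcoMod_lt_right h2pi _ _
  have hy3 : y = α - toIcoDiv h2pi (((M : ℝ) - 1) * φs / 2) α • (2 * Real.pi) := rfl
  set φ := 2 * y / ((M : ℝ) - 1) with hφ
  have hφy : ((M : ℝ) - 1) * φ / 2 = y := by
    rw [hφ]; field_simp
  have hge : φs ≤ φ := by
    have : ((M : ℝ) - 1) * φs / 2 ≤ ((M : ℝ) - 1) * φ / 2 := by rw [hφy]; exact hy1
    by_contra hcon
    push Not at hcon
    nlinarith
  have hle : φ - φs ≤ 4 * Real.pi / ((M : ℝ) - 1) := by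
    rw [le_div_iff₀ hM1]
    have : ((M : ℝ) - 1) * φ / 2 < ((M : ℝ) - 1) * φs / 2 + 2 * Real.pi := by rw [hφy]; exact hy2
    nlinarith
  have hφmin : φ ≤ min Real.pi (η / (3 * Real.pi)) := by linarith
  have hφpi : φ ≤ Real.pi := hφmin.trans (min_le_left _ _)
  have hφη : φ ≤ η / (3 * Real.pi) := hφmin.trans (min_le_right _ _)
  have hφ0 : 0 ≤ φ := hφs.1.trans hge
  refine ⟨φ, ⟨hφ0, hφpi⟩, ⟨-toIcoDiv h2pi (((M : ℝ) - 1) * φs / 2) α, ?_⟩, ?_⟩
  · rw [hφy, hy3, zsmul_eq_mul]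
    push_cast; ring
  · rw [← hφt]
    have hc1 : 0 ≤ Real.cos (φ / 2) :=
      Real.cos_nonneg_of_mem_Icc ⟨by linarith, by linarith⟩
    have hc2 : 0 ≤ Real.cos (φs / 2) :=
      Real.cos_nonneg_of_mem_Icc ⟨by linarith [hφs.1], by linarith [hφs.2]⟩
    refine (pow_sub_le hc1 (Real.cos_le_one _) hc2 (Real.cos_le_one _) (M + 1)).trans ?_
    have h1 := cos_sub_le (φ / 2) (φs / 2)
    have h2 : |(φ / 2) ^ 2 - (φs / 2) ^ 2| = (φ - φs) * (φ + φs) / 4 := by
      rw [abs_of_nonneg]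
      · ring
      · nlinarith [hφs.1]
    rw [h2] at h1
    have h3 : (φ - φs) * (φ + φs) ≤ 4 * Real.pi / ((M : ℝ) - 1) * (2 * φ) := by
      apply mul_le_mul hle (by linarith) (by linarith [hφs.1]) (by positivity)
    have h4 : ((M : ℝ) + 1) * (4 * Real.pi / ((M : ℝ) - 1) * (2 * φ)) ≤ 24 * Real.pi * φ := by
      have : ((M : ℝ) + 1) / ((M : ℝ) - 1) ≤ 3 := by
        rw [div_le_iff₀ hM1]; linarith
      calc ((M : ℝ) + 1) * (4 * Real.pi / ((M : ℝ) - 1) * (2 * φ)) =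
          (((M : ℝ) + 1) / ((M : ℝ) - 1)) * (8 * Real.pi * φ) := by ring
        _ ≤ 3 * (8 * Real.pi * φ) := by gcongr
        _ = 24 * Real.pi * φ := by ring
    have h5 : 3 * Real.pi * φ ≤ η := by
      rw [le_div_iff₀ (by positivity)] at hφη
      linarith
    push_cast
    calc ((M : ℝ) + 1) * |Real.cos (φ / 2) - Real.cos (φs / 2)|
        ≤ ((M : ℝ) + 1) * ((4 * Real.pi / ((M : ℝ) - 1) * (2 * φ)) / 4 / 2) := by
          gcongr
          refine h1.trans ?_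
          gcongr
      _ = (((M : ℝ) + 1) * (4 * Real.pi / ((M : ℝ) - 1) * (2 * φ))) / 8 := by ring
      _ ≤ 24 * Real.pi * φ / 8 := by gcongr
      _ = 3 * Real.pi * φ := by ring
      _ ≤ η := h5

end Pool.Agent.Helper506.PosArea
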