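import Pool.Agent.Helper506.PosAreaA
import Pool.Agent.Helper506.PosAreaB

open Polynomial Complex Filter Topology Set MeasureTheory

namespace Pool.Agent.Helper506.PosArea

theorem norm_exp_I (a : ℝ) : ‖exp (I * a)‖ = 1 := by
  rw [mul_comm, norm_exp_ofReal_mul_I]

theorem exp_sub_le (a b : ℝ) : ‖exp (I * a) - exp (I * b)‖ ≤ |a - b| := by
  have e : exp (I * a) - exp (I * b) = exp (I * b) * (exp (I * ((a - b : ℝ) : ℂ)) - 1) := by
    rw [mul_sub, ← exp_add, mul_one]
    congr 2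
    push_cast; ring
  rw [e, norm_mul, norm_exp_I, one_mul]
  exact Real.norm_exp_I_mul_ofReal_sub_one_le

theorem half_angle (ψ : ℝ) : (1 + exp (I * ψ)) / 2 = (Real.cos (ψ / 2) : ℂ) * exp (I * ((ψ / 2 : ℝ))) := by
  have h1 : (Real.cos (ψ / 2) : ℂ) = (exp (I * ((ψ / 2 : ℝ))) + exp (-(I * ((ψ / 2 : ℝ))))) / 2 := by
    rw [ofReal_cos, Complex.cos]
    congr 2
    · congr 1; ring
    · congr 1; ring
  rw [h1, div_mul_eq_mul_div, add_mul, ← exp_add, ← exp_add, neg_add_cancel, exp_zero]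
  congr 1
  rw [add_comm]
  congr 2
  push_cast; ring

theorem norm_half {ψ : ℝ} (hψ : ψ ∈ Icc (-Real.pi) Real.pi) :
    ‖(1 + exp (I * ψ)) / 2‖ = Real.cos (ψ / 2) := by
  rw [half_angle, norm_mul, norm_exp_I, mul_one, norm_real, Real.norm_eq_abs, abs_of_nonneg]
  exact Real.cos_nonneg_of_mem_Icc ⟨by linarith [hψ.1], by linarith [hψ.2]⟩

/-- the base point estimate -/
theorem base_le {F : ℝ[X]} (hF : NN F) {n M : ℕ} {z0 : ℂ} (hz0 : ‖z0‖ = 1) (hz : z0 ^ n = -1) :
    ‖prim (F * (1 + X ^ n) ^ M) z0 - prim F z0‖ ≤ F.eval 1 * (M / (n + 1)) := by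
  set P := F * (1 + X ^ n) ^ M with hP
  have hd : ∀ r : ℝ, HasDerivAt (fun r : ℝ => prim P (r * z0) - prim F (r * z0))
      ((aeval (r * z0) P - aeval (r * z0) F) * z0) r := by
    intro r
    have h0 : HasDerivAt (fun r : ℝ => (r : ℂ) * z0) z0 r := by
      have := (ofRealCLM.hasDerivAt (x := r)).mul_const z0
      simpa using this
    have h1 := (hasDerivAt_prim P (r * z0)).comp r h0
    have h2 := (hasDerivAt_prim F (r * z0)).comp r h0
    have h3 := h1.sub h2
    rw [← sub_mul] at h3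
    exact h3
  have hcont : Continuous fun r : ℝ => (aeval ((r : ℂ) * z0) P - aeval ((r : ℂ) * z0) F) * z0 := by
    have h1 : Continuous fun z : ℂ => aeval z P := P.continuous_aeval
    have h2 : Continuous fun z : ℂ => aeval z F := F.continuous_aeval
    have h3 : Continuous fun r : ℝ => (r : ℂ) * z0 := by fun_prop
    exact ((h1.comp h3).sub (h2.comp h3)).mul continuous_const
  have hftc := intervalIntegral.integral_eq_sub_of_hasDerivAt (a := 0) (b := 1)
    (fun r _ => hd r) (hcont.intervalIntegrable _ _)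
  have h0 : prim P (((0 : ℝ) : ℂ) * z0) - prim F (((0 : ℝ) : ℂ) * z0) = 0 := by
    simp [prim_zero]
  have h1 : prim P (((1 : ℝ) : ℂ) * z0) - prim F (((1 : ℝ) : ℂ) * z0) = prim P z0 - prim F z0 := by
    simp
  rw [h0, h1, sub_zero] at hftc
  rw [← hftc]
  have hb : ‖∫ r in (0 : ℝ)..1, (aeval ((r : ℂ) * z0) P - aeval ((r : ℂ) * z0) F) * z0‖ ≤
      ∫ r in (0 : ℝ)..1, F.eval 1 * (M * r ^ n) := by
    refine intervalIntegral.norm_integral_le_of_norm_le zero_le_one
      (Eventually.of_forall fun r hr => ?_) (by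
        apply Continuous.intervalIntegrable
        fun_prop)
    have hr0 : 0 ≤ r := hr.1.le
    have hn : ‖(r : ℂ) * z0‖ ≤ 1 := by
      rw [norm_mul, hz0, mul_one, norm_real, Real.norm_of_nonneg hr0]; exact hr.2
    have hrn : r ^ n ≤ 1 := pow_le_one₀ hr0 hr.2
    have hrn0 : 0 ≤ r ^ n := by positivity
    have e1 : aeval ((r : ℂ) * z0) P - aeval ((r : ℂ) * z0) F =
        aeval ((r : ℂ) * z0) F * (((1 - r ^ n) ^ M - 1 : ℝ) : ℂ) := by
      rw [hP, map_mul, map_pow, map_add, map_one, map_pow, aeval_X, mul_pow, hz]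
      push_cast; ring
    rw [norm_mul, hz0, mul_one, e1, norm_mul, norm_real]
    have h2 : ‖(1 - r ^ n) ^ M - 1‖ ≤ M * r ^ n := by
      have h3 := one_add_mul_le_pow (a := -(r ^ n)) (by linarith) M
      have h4 : (1 - r ^ n) ^ M ≤ 1 := pow_le_one₀ (by linarith) (by linarith)
      rw [Real.norm_eq_abs, abs_of_nonpos (by linarith)]
      have h5 : (1 + -(r ^ n)) ^ M = (1 - r ^ n) ^ M := by rw [← sub_eq_add_neg]
      rw [h5] at h3
      linarith
    exact mul_le_mul (hF.norm_aeval_le hn) h2 (norm_nonneg _) hF.eval_nonneg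
  refine hb.trans (le_of_eq ?_)
  rw [intervalIntegral.integral_const_mul, intervalIntegral.integral_const_mul, integral_pow]
  simp only [one_pow, ne_eq, Nat.succ_ne_zero, not_false_eq_true, zero_pow, sub_zero]
  ring

/-- the error term -/
noncomputable def err (F : ℝ[X]) (n M : ℕ) : ℝ :=
  2 ^ M / n * ((derivative (X * F)).eval 1 * (2 * Real.pi / n)) * (2 * Real.pi) +
    F.eval 1 * (2 ^ (M + 1) / (n * (M + 1))) *
      √(Real.pi / (((M + 1 : ℕ) : ℝ) / (2 * Real.pi ^ 2))) +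
    F.eval 1 * (M / (n + 1)) + F.eval 1 * (2 * Real.pi / n)

/-- local form of the new curve near a point of the circle -/
theorem local_form {F : ℝ[X]} (hF : NN F) {n : ℕ} (hn : 0 < n) (M : ℕ) {z1 : ℂ} (hz1 : ‖z1‖ = 1)
    {φ : ℝ} (hφ : φ ∈ Icc (-Real.pi) Real.pi) : ∃ z : ℂ, ‖z‖ = 1 ∧ z ^ n = exp (I * φ) ∧
      ‖z - z1‖ ≤ 2 * Real.pi / n ∧
      ‖prim (F * (1 + X ^ n) ^ M) z - (prim F z1 + aeval z1 F * z1 *
        ((2 ^ (M + 1) / (n * (M + 1)) * Real.cos (φ / 2) ^ (M + 1) : ℝ) *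
          exp (I * ((((M : ℝ) - 1) * φ / 2 : ℝ)))))‖ ≤ err F n M := by
  have hpi := Real.pi_pos
  have hnR : (0 : ℝ) < n := by exact_mod_cast hn
  have hnC : (n : ℂ) ≠ 0 := by exact_mod_cast hn.ne'
  have hMC : ((M : ℂ) + 1) ≠ 0 := by exact_mod_cast Nat.succ_ne_zero M
  set P := F * (1 + X ^ n) ^ M with hP
  set β1 := arg z1 with hβ1
  have hz1e : z1 = exp (I * β1) := by
    have := norm_mul_exp_arg_mul_I z1
    rw [hz1, ofReal_one, one_mul, mul_comm] at this
    exact this.symm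
  set m : ℤ := ⌊(n * β1 - Real.pi) / (2 * Real.pi)⌋ with hm
  set β0 : ℝ := (2 * Real.pi * m + Real.pi) / n with hβ0
  have hm1 : 2 * Real.pi * m ≤ n * β1 - Real.pi := by
    have := Int.floor_le ((n * β1 - Real.pi) / (2 * Real.pi))
    rw [le_div_iff₀ (by positivity)] at this
    linarith
  have hm2 : n * β1 - Real.pi < 2 * Real.pi * m + 2 * Real.pi := by
    have := Int.lt_floor_add_one ((n * β1 - Real.pi) / (2 * Real.pi))
    rw [div_lt_iff₀ (by positivity)] at this
    linarith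
  have hnβ : n * β0 = 2 * Real.pi * m + Real.pi := by
    rw [hβ0]; field_simp
  -- the path
  set z : ℝ → ℂ := fun ψ => exp (I * ((β0 + (ψ + Real.pi) / n : ℝ) : ℂ)) with hz
  have hznorm : ∀ ψ, ‖z ψ‖ = 1 := fun ψ => norm_exp_I _
  have hzpow : ∀ ψ : ℝ, z ψ ^ n = exp (I * ψ) := by
    intro ψ
    simp only [hz]
    rw [← exp_nat_mul, exp_eq_exp_iff_exists_int]
    refine ⟨m + 1, ?_⟩
    have : ((n * β0 : ℝ) : ℂ) = ((2 * Real.pi * m + Real.pi : ℝ) : ℂ) := by rw [hnβ]
    push_cast at this ⊢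
    field_simp
    linear_combination this
  have hzclose : ∀ ψ ∈ Icc (-Real.pi) Real.pi, ‖z ψ - z1‖ ≤ 2 * Real.pi / n := by
    intro ψ hψ
    rw [hz1e]
    refine (exp_sub_le _ _).trans ?_
    rw [abs_le]
    have e1 : β0 + (ψ + Real.pi) / n - β1 = ((2 * Real.pi * m + Real.pi) + (ψ + Real.pi) - n * β1) / n := by
      rw [hβ0]; field_simp
    rw [e1, ← neg_div]
    constructor
    · apply div_le_div_of_nonneg_right _ hnR.le
      linarith [hψ.1]
    · apply div_le_div_of_nonneg_right _ hnR.le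
      linarith [hψ.2]
  have hzderiv : ∀ ψ : ℝ, HasDerivAt z (I / n * z ψ) ψ := by
    intro ψ
    have h1 : HasDerivAt (fun ψ : ℝ => I * ((β0 + (ψ + Real.pi) / n : ℝ) : ℂ)) (I * (1 / n)) ψ := by
      have h2 : HasDerivAt (fun ψ : ℝ => β0 + (ψ + Real.pi) / n) (1 / n) ψ := by
        have := (((hasDerivAt_id ψ).add_const Real.pi).div_const (n : ℝ)).const_add β0
        simpa using this
      have h3 := (h2.ofReal_comp).const_mul I
      simpa using h3
    have h4 := h1.cexp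
    simp only [hz]
    convert h4 using 1
    ring
  set z0 := z (-Real.pi) with hz0
  have hz0pow : z0 ^ n = -1 := by
    rw [hz0, hzpow]
    have : I * ((-Real.pi : ℝ) : ℂ) = -(Real.pi * I) := by push_cast; ring
    rw [this, exp_neg, exp_pi_mul_I]
    norm_num
  set c : ℂ := aeval z1 F * z1 with hc
  set R : ℝ := 2 ^ (M + 1) / (n * (M + 1)) with hR
  have hR0 : 0 ≤ R := by positivity
  set E : ℝ → ℂ := fun ψ => exp (-(I * ψ)) * ((1 + exp (I * ψ)) / 2) ^ (M + 1) with hE
  have hE0 : E (-Real.pi) = 0 := by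
    simp only [hE]
    have : I * ((-Real.pi : ℝ) : ℂ) = -(Real.pi * I) := by push_cast; ring
    rw [this, exp_neg (Real.pi * I), exp_pi_mul_I]
    norm_num
  have hEφ : E φ = (Real.cos (φ / 2) ^ (M + 1) : ℝ) * exp (I * ((((M : ℝ) - 1) * φ / 2 : ℝ))) := by
    simp only [hE]
    rw [half_angle, mul_pow, ← exp_nat_mul, mul_left_comm, ← exp_add]
    push_cast
    congr 2
    ring
  have hederiv : ∀ ψ : ℝ, HasDerivAt (fun ψ : ℝ => exp (I * ψ)) (I * exp (I * ψ)) ψ := by
    intro ψ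
    have h1 : HasDerivAt (fun ψ : ℝ => I * (ψ : ℂ)) I ψ := by
      have := (ofRealCLM.hasDerivAt (x := ψ)).const_mul I
      simpa using this
    have := h1.cexp
    rwa [mul_comm] at this
  have hederiv' : ∀ ψ : ℝ, HasDerivAt (fun ψ : ℝ => exp (-(I * ψ))) (-I * exp (-(I * ψ))) ψ := by
    intro ψ
    have h1 : HasDerivAt (fun ψ : ℝ => -(I * (ψ : ℂ))) (-I) ψ := by
      have := ((ofRealCLM.hasDerivAt (x := ψ)).const_mul I).fun_neg
      simpa using this
    have := h1.cexp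
    rwa [mul_comm] at this
  have hEderiv : ∀ ψ : ℝ, HasDerivAt E
      (-I * exp (-(I * ψ)) * ((1 + exp (I * ψ)) / 2) ^ (M + 1) +
        (M + 1) * I / 2 * ((1 + exp (I * ψ)) / 2) ^ M) ψ := by
    intro ψ
    have h1 := (((hederiv ψ).const_add 1).div_const 2).fun_pow (M + 1)
    have h2 := (hederiv' ψ).fun_mul h1
    refine h2.congr_deriv ?_
    have h3 : exp (-(I * (ψ : ℂ))) * exp (I * ψ) = 1 := by rw [← exp_add, neg_add_cancel, exp_zero]
    push_cast
    linear_combination (((M : ℂ) + 1) * I / 2 * ((1 + exp (I * ψ)) / 2) ^ M) * h3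
  set g : ℝ → ℂ := fun ψ => prim P (z ψ) - c * (R * E ψ) with hg
  set g' : ℝ → ℂ := fun ψ => I / n * (1 + exp (I * ψ)) ^ M * (aeval (z ψ) (X * F) - aeval z1 (X * F)) +
    c * R * I * exp (-(I * ψ)) * ((1 + exp (I * ψ)) / 2) ^ (M + 1) with hg'
  have hgderiv : ∀ ψ : ℝ, HasDerivAt g (g' ψ) ψ := by
    intro ψ
    have h1 := (hasDerivAt_prim P (z ψ)).comp ψ (hzderiv ψ)
    have h2 := ((hEderiv ψ).const_mul (R : ℂ)).const_mul c
    have h3 := h1.sub h2
    refine h3.congr_deriv ?_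
    simp only [hg']
    have e1 : aeval (z ψ) P = aeval (z ψ) F * (1 + exp (I * ψ)) ^ M := by
      rw [hP, map_mul, map_pow, map_add, map_one, map_pow, aeval_X, hzpow]
    have e2 : (R : ℂ) * ((M + 1) * I / 2 * ((1 + exp (I * ψ)) / 2) ^ M) =
        I / n * (1 + exp (I * ψ)) ^ M := by
      rw [hR, div_pow]
      push_cast
      field_simp
      ring
    rw [e1, map_mul, map_mul, aeval_X, aeval_X]
    linear_combination (-c) * e2
  have hgcont : Continuous g' := by
    have h1 : Continuous fun z : ℂ => aeval z (X * F) := (X * F).continuous_aeval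
    have h2 : Continuous z := by
      simp only [hz]; fun_prop
    have h3 : Continuous fun ψ => aeval (z ψ) (X * F) := h1.comp h2
    simp only [hg']
    fun_prop
  have hftc := intervalIntegral.integral_eq_sub_of_hasDerivAt (a := -Real.pi) (b := φ)
    (fun r _ => hgderiv r) (hgcont.intervalIntegrable _ _)
  have hXF : NN (X * F) := by
    have := (nn_X_pow 1).mul hF
    rwa [pow_one] at this
  set L : ℝ := (derivative (X * F)).eval 1 with hL
  have hL0 : 0 ≤ L := hXF.derivative.eval_nonneg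
  have hF1 := hF.eval_nonneg
  have hcn : ‖c‖ ≤ F.eval 1 := by
    rw [hc, norm_mul, hz1, mul_one]
    exact hF.norm_aeval_le hz1.le
  have hbound : ∀ ψ ∈ Ioc (-Real.pi) φ, ‖g' ψ‖ ≤
      2 ^ M / n * (L * (2 * Real.pi / n)) + F.eval 1 * R * Real.cos (ψ / 2) ^ (M + 1) := by
    intro ψ hψ
    have hψ' : ψ ∈ Icc (-Real.pi) Real.pi := ⟨hψ.1.le, hψ.2.trans hφ.2⟩
    simp only [hg']
    refine (norm_add_le _ _).trans (add_le_add ?_ ?_)
    · rw [norm_mul, norm_mul, norm_pow, norm_div, norm_I, Complex.norm_natCast]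
      have h1 : ‖1 + exp (I * ψ)‖ ≤ 2 := by
        refine (norm_add_le _ _).trans ?_
        rw [norm_one, norm_exp_I]; norm_num
      have h2 : ‖aeval (z ψ) (X * F) - aeval z1 (X * F)‖ ≤ L * (2 * Real.pi / n) :=
        (hXF.aeval_lipschitz (hznorm ψ).le hz1.le).trans
          (mul_le_mul_of_nonneg_left (hzclose ψ hψ') hL0)
      calc 1 / (n : ℝ) * ‖1 + exp (I * ψ)‖ ^ M * ‖aeval (z ψ) (X * F) - aeval z1 (X * F)‖
          ≤ 1 / (n : ℝ) * 2 ^ M * (L * (2 * Real.pi / n)) := by gcongr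
        _ = 2 ^ M / n * (L * (2 * Real.pi / n)) := by ring
    · rw [norm_mul, norm_mul, norm_mul, norm_mul, norm_pow, norm_half hψ', norm_I, norm_real,
        Real.norm_of_nonneg hR0]
      have h1 : ‖exp (-(I * (ψ : ℂ)))‖ = 1 := by
        have := norm_exp_I (-ψ)
        rw [ofReal_neg, mul_neg] at this
        exact this
      rw [h1, mul_one, mul_one]
      have h2 : 0 ≤ Real.cos (ψ / 2) :=
        Real.cos_nonneg_of_mem_Icc ⟨by linarith [hψ'.1], by linarith [hψ'.2]⟩
      gcongr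
  have hint : ‖g φ - g (-Real.pi)‖ ≤ 2 ^ M / n * (L * (2 * Real.pi / n)) * (2 * Real.pi) +
      F.eval 1 * R * √(Real.pi / (((M + 1 : ℕ) : ℝ) / (2 * Real.pi ^ 2))) := by
    rw [← hftc]
    have h1 : ‖∫ ψ in (-Real.pi)..φ, g' ψ‖ ≤ ∫ ψ in (-Real.pi)..φ,
        (2 ^ M / n * (L * (2 * Real.pi / n)) + F.eval 1 * R * Real.cos (ψ / 2) ^ (M + 1)) := by
      refine intervalIntegral.norm_integral_le_of_norm_le hφ.1
        (Eventually.of_forall fun ψ hψ => hbound ψ hψ) ?_
      apply Continuous.intervalIntegrable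
      fun_prop
    refine h1.trans ?_
    rw [intervalIntegral.integral_add (by simp) (by
      apply Continuous.intervalIntegrable
      fun_prop), intervalIntegral.integral_const, intervalIntegral.integral_const_mul, smul_eq_mul]
    refine add_le_add ?_ ?_
    · rw [mul_comm]
      apply mul_le_mul_of_nonneg_left _ (by positivity)
      linarith [hφ.2]
    · exact mul_le_mul_of_nonneg_left (integral_cos_le (by omega) hφ) (by positivity)
  refine ⟨z φ, hznorm φ, hzpow φ, hzclose φ hφ, ?_⟩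
  have hb1 := base_le hF (M := M) (hznorm (-Real.pi)) hz0pow
  have hb2 : ‖prim F z0 - prim F z1‖ ≤ F.eval 1 * (2 * Real.pi / n) :=
    (hF.prim_lipschitz (hznorm _).le hz1.le).trans
      (mul_le_mul_of_nonneg_left (hzclose _ ⟨le_rfl, by linarith⟩) hF1)
  have e3 : prim P (z φ) - (prim F z1 + c * ((R * Real.cos (φ / 2) ^ (M + 1) : ℝ) *
          exp (I * ((((M : ℝ) - 1) * φ / 2 : ℝ))))) =
      (g φ - g (-Real.pi)) + (prim P z0 - prim F z0) + (prim F z0 - prim F z1) := by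
    simp only [hg, hE0, hEφ]
    push_cast
    ring
  rw [e3]
  unfold err
  refine (norm_add_le _ _).trans (add_le_add ((norm_add_le _ _).trans (add_le_add hint hb1)) hb2)

end Pool.Agent.Helper506.PosArea
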