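import Pool.Agent.Helper506.PosAreaC

open Polynomial Complex Filter Topology Set

namespace Pool.Agent.Helper506.PosArea

theorem err_le {F : ℝ[X]} (hF : NN F) {R0 : ℝ} (hR0 : 0 < R0) {n M : ℕ} (hn : 0 < n)
    (hR : (2 : ℝ) ^ (M + 1) / (n * (M + 1)) ≤ R0) {x : ℝ} (hx : ((M : ℝ) + 1) / n ≤ x) :
    err F n M ≤ (2 * Real.pi ^ 2 * (derivative (X * F)).eval 1 * R0 + F.eval 1 +
      2 * Real.pi * F.eval 1) * x +
      F.eval 1 * R0 * √(Real.pi / (((M + 1 : ℕ) : ℝ) / (2 * Real.pi ^ 2))) := by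
  have hpi := Real.pi_pos
  have hnR : (0 : ℝ) < n := by exact_mod_cast hn
  have hF1 := hF.eval_nonneg
  have hXF : NN (X * F) := by
    have := (nn_X_pow 1).mul hF
    rwa [pow_one] at this
  have hL0 : 0 ≤ (derivative (X * F)).eval 1 := hXF.derivative.eval_nonneg
  set L : ℝ := (derivative (X * F)).eval 1 with hL
  have hx0 : 0 ≤ x := le_trans (by positivity) hx
  have h1 : (2 : ℝ) ^ M / n * (L * (2 * Real.pi / n)) * (2 * Real.pi) ≤
      2 * Real.pi ^ 2 * L * R0 * x := by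
    have e : (2 : ℝ) ^ M / n * (L * (2 * Real.pi / n)) * (2 * Real.pi) =
        2 * Real.pi ^ 2 * L * ((2 : ℝ) ^ (M + 1) / (n * (M + 1))) * (((M : ℝ) + 1) / n) := by
      field_simp
      ring
    rw [e]
    gcongr
  have h2 : F.eval 1 * ((2 : ℝ) ^ (M + 1) / (n * (M + 1))) *
      √(Real.pi / (((M + 1 : ℕ) : ℝ) / (2 * Real.pi ^ 2))) ≤
      F.eval 1 * R0 * √(Real.pi / (((M + 1 : ℕ) : ℝ) / (2 * Real.pi ^ 2))) := by
    gcongr
  have h3 : F.eval 1 * (M / (n + 1)) ≤ F.eval 1 * x := by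
    have : (M : ℝ) / (n + 1) ≤ ((M : ℝ) + 1) / n := by
      apply div_le_div₀ (by positivity) (by linarith) hnR (by linarith)
    gcongr
    exact this.trans hx
  have h4 : F.eval 1 * (2 * Real.pi / n) ≤ 2 * Real.pi * F.eval 1 * x := by
    have : 1 / (n : ℝ) ≤ ((M : ℝ) + 1) / n := by
      gcongr
      linarith [(Nat.cast_nonneg M : (0 : ℝ) ≤ M)]
    calc F.eval 1 * (2 * Real.pi / n) = 2 * Real.pi * F.eval 1 * (1 / n) := by ring
      _ ≤ 2 * Real.pi * F.eval 1 * x := by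
        gcongr
        exact this.trans hx
  unfold err
  rw [← hL]
  linarith

theorem step {F : ℝ[X]} (hF : NN F) (hF1 : 0 < F.eval 1) {K : Set ℂ} {q ε : ℝ} (hq : 0 < q)
    (hε : 0 < ε)
    (h : ∀ p ∈ K, ∃ z : ℂ, ‖z‖ = 1 ∧ q * F.eval 1 ≤ ‖aeval z F‖ ∧ ε / 4 ≤ ‖prim F z - p‖ ∧
      ‖prim F z - p‖ ≤ ε) {ε' : ℝ} (hε' : 0 < ε') (hεε' : ε' ≤ ε / 4) (N0 : ℕ) :
    ∃ n M : ℕ, N0 ≤ n ∧ 0 < n ∧ M ≤ n ∧ mass (F * (1 + X ^ n) ^ M) ≤ mass F + 16 * ε / q ∧
      ∀ p ∈ K, ∃ z : ℂ, ‖z‖ = 1 ∧ q ^ 2 / 256 * (F * (1 + X ^ n) ^ M).eval 1 ≤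
        ‖aeval z (F * (1 + X ^ n) ^ M)‖ ∧ ε' / 4 ≤ ‖prim (F * (1 + X ^ n) ^ M) z - p‖ ∧
        ‖prim (F * (1 + X ^ n) ^ M) z - p‖ ≤ ε' := by
  have hpi := Real.pi_pos
  set R0 : ℝ := 8 * ε / (q * F.eval 1) with hR0def
  have hR0 : 0 < R0 := by positivity
  set A : ℝ := 2 * Real.pi ^ 2 * (derivative (X * F)).eval 1 * R0 + F.eval 1 +
      2 * Real.pi * F.eval 1 with hA
  set s : ℕ → ℝ := fun M => ((M + 1 : ℕ) : ℝ) ^ 2 / 2 ^ (M + 1) with hs
  have hslim : Tendsto s atTop (𝓝 0) :=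
    (tendsto_pow_const_div_const_pow_of_one_lt 2 (by norm_num : (1 : ℝ) < 2)).comp
      (tendsto_add_atTop_nat 1)
  have hglim : Tendsto (fun M : ℕ => √(Real.pi / (((M + 1 : ℕ) : ℝ) / (2 * Real.pi ^ 2))))
      atTop (𝓝 0) := by
    have h1 : Tendsto (fun M : ℕ => ((M + 1 : ℕ) : ℝ) / (2 * Real.pi ^ 2)) atTop atTop := by
      apply Tendsto.atTop_div_const (by positivity)
      exact tendsto_natCast_atTop_atTop.comp (tendsto_add_atTop_nat 1)
    have h2 : Tendsto (fun M : ℕ => Real.pi / (((M + 1 : ℕ) : ℝ) / (2 * Real.pi ^ 2))) atTop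
      (𝓝 0) := tendsto_const_nhds.div_atTop h1
    have h3 := (Real.continuous_sqrt.tendsto 0).comp h2
    rw [Real.sqrt_zero] at h3
    exact h3
  have ev1 : ∀ᶠ M in atTop, R0 * s M < 1 := by
    have := hslim.const_mul R0
    rw [mul_zero] at this
    exact this.eventually (gt_mem_nhds one_pos)
  have ev2 : ∀ᶠ M in atTop, A * (R0 * s M) + F.eval 1 * R0 *
      √(Real.pi / (((M + 1 : ℕ) : ℝ) / (2 * Real.pi ^ 2))) < ε' / 8 := by
    have h1 := (((hslim.const_mul R0).const_mul A)).add (hglim.const_mul (F.eval 1 * R0))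
    rw [mul_zero, mul_zero, mul_zero, add_zero] at h1
    exact h1.eventually (gt_mem_nhds (by positivity))
  have ev3 : ∀ᶠ M in atTop, (derivative F).eval 1 * (2 * Real.pi * (R0 * s M)) <
      q * F.eval 1 / 2 := by
    have h1 := ((hslim.const_mul R0).const_mul (2 * Real.pi)).const_mul ((derivative F).eval 1)
    rw [mul_zero, mul_zero, mul_zero] at h1
    exact h1.eventually (gt_mem_nhds (by positivity))
  have hη : 0 < min (q / 128) (ε' / (8 * (F.eval 1 * R0))) := lt_min (by positivity) (by positivity)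
  have ev4 := spiral (κ := q / 64) (by positivity) hη
  obtain ⟨M, e1, e2, e3, e4, e5⟩ := (ev1.and (ev2.and (ev3.and (ev4.and
    (eventually_ge_atTop N0))))).exists
  have hM1 : (0 : ℝ) < (M : ℝ) + 1 := by positivity
  have h2M : (0 : ℝ) < 2 ^ (M + 1) := by positivity
  set x : ℝ := 2 ^ (M + 1) / (((M : ℝ) + 1) * R0) with hx
  have hx0 : 0 < x := by positivity
  set n : ℕ := ⌈x⌉₊ with hn
  have hn0 : 0 < n := Nat.ceil_pos.mpr hx0
  have hnR : (0 : ℝ) < n := by exact_mod_cast hn0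
  have hxn : x ≤ n := Nat.le_ceil x
  have hnx : (n : ℝ) < x + 1 := Nat.ceil_lt_add_one hx0.le
  have hsM : s M = ((M : ℝ) + 1) ^ 2 / 2 ^ (M + 1) := by simp [hs]
  have hR0s : R0 * s M = (((M : ℝ) + 1)) / x := by
    rw [hsM, hx]
    field_simp
  have hx1 : (M : ℝ) + 1 < x := by
    rw [hR0s, div_lt_one hx0] at e1
    exact e1
  have hMn : (M : ℝ) + 1 ≤ n := by linarith
  have hMn' : M + 1 ≤ n := by exact_mod_cast hMn
  have hfrac : ((M : ℝ) + 1) / n ≤ R0 * s M := by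
    rw [hR0s]
    gcongr
  set R : ℝ := 2 ^ (M + 1) / (n * ((M : ℝ) + 1)) with hR
  have hRx : R = R0 * (x / n) := by
    rw [hR, hx]; field_simp
  have hRle : R ≤ R0 := by
    rw [hRx]
    have : x / n ≤ 1 := by rw [div_le_one hnR]; exact hxn
    nlinarith
  have hRge : R0 / 2 ≤ R := by
    rw [hRx]
    have : 1 / 2 ≤ x / n := by
      rw [div_le_div_iff₀ (by norm_num) hnR]
      linarith [(Nat.cast_nonneg M : (0 : ℝ) ≤ M)]
    nlinarith
  have hRpos : 0 < R := by positivity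
  set P := F * (1 + X ^ n) ^ M with hP
  have hP1 : P.eval 1 = F.eval 1 * 2 ^ M := by
    rw [hP]
    simp
    norm_num
  refine ⟨n, M, by omega, hn0, by omega, ?_, ?_⟩
  · refine (mass_step hF hn0 M).trans ?_
    have : 2 * F.eval 1 * (2 ^ (M + 1) / (n * ((M : ℝ) + 1))) ≤ 2 * F.eval 1 * R0 := by
      gcongr
    have e : 2 * F.eval 1 * R0 = 16 * ε / q := by
      rw [hR0def]; field_simp; norm_num
    linarith
  · intro p hp
    obtain ⟨z1, hz1, hz1q, hz1l, hz1u⟩ := h p hp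
    have hz1F := hF.norm_aeval_le hz1.le
    set v : ℂ := (p + (ε' / 2 : ℝ)) - prim F z1 with hv
    have hn2 : ‖((ε' / 2 : ℝ) : ℂ)‖ = ε' / 2 := by
      rw [norm_real, Real.norm_of_nonneg (by positivity)]
    have hvu : ‖v‖ ≤ 2 * ε := by
      have : v = ((ε' / 2 : ℝ) : ℂ) - (prim F z1 - p) := by rw [hv]; ring
      rw [this]
      have := norm_sub_le ((ε' / 2 : ℝ) : ℂ) (prim F z1 - p)
      rw [hn2] at this
      linarith
    have hvl : ε / 8 ≤ ‖v‖ := by
      have e : prim F z1 - p = ((ε' / 2 : ℝ) : ℂ) - v := by rw [hv]; ring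
      have := norm_sub_le ((ε' / 2 : ℝ) : ℂ) v
      rw [hn2, ← e] at this
      linarith
    set c : ℂ := aeval z1 F * z1 with hc
    have hcn : ‖c‖ = ‖aeval z1 F‖ := by rw [hc, norm_mul, hz1, mul_one]
    have hcl : q * F.eval 1 ≤ ‖c‖ := by rw [hcn]; exact hz1q
    have hcu : ‖c‖ ≤ F.eval 1 := by rw [hcn]; exact hz1F
    have hcpos : 0 < ‖c‖ := lt_of_lt_of_le (by positivity) hcl
    have hc0 : c ≠ 0 := norm_pos_iff.mp hcpos
    set u : ℂ := v / c with hu
    have hun : ‖u‖ = ‖v‖ / ‖c‖ := norm_div _ _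
    set t : ℝ := ‖u‖ / R with ht
    have htl : q / 64 ≤ t := by
      rw [ht, le_div_iff₀ hRpos, hun, le_div_iff₀ hcpos]
      calc q / 64 * R * ‖c‖ ≤ q / 64 * R0 * F.eval 1 := by gcongr
        _ = ε / 8 := by rw [hR0def]; field_simp; norm_num
        _ ≤ ‖v‖ := hvl
    have htu : t ≤ 1 := by
      rw [ht, div_le_one hRpos, hun, div_le_iff₀ hcpos]
      calc ‖v‖ ≤ 2 * ε := hvu
        _ ≤ R0 / 2 * (q * F.eval 1) := by
          have : R0 / 2 * (q * F.eval 1) = 4 * ε := by rw [hR0def]; field_simp; norm_num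
          rw [this]; linarith
        _ ≤ R * ‖c‖ := by gcongr
    obtain ⟨φ, hφ, ⟨k, hk⟩, hφt⟩ := e4 t ⟨htl, htu⟩ (arg u)
    have hφ' : φ ∈ Icc (-Real.pi) Real.pi := ⟨by linarith [hφ.1], hφ.2⟩
    obtain ⟨z, hz, hzn, hzz1, hzf⟩ := local_form hF hn0 M hz1 hφ'
    rw [← hP] at hzf
    have hexp : exp (I * ((((M : ℝ) - 1) * φ / 2 : ℝ))) = exp (arg u * I) := by
      rw [hk, exp_eq_exp_iff_exists_int]
      refine ⟨k, ?_⟩
      push_cast; ring
    have hur : u = (R * t : ℝ) * exp (arg u * I) := by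
      have h1 := norm_mul_exp_arg_mul_I u
      have h2 : R * t = ‖u‖ := by rw [ht]; field_simp
      rw [h2]
      exact h1.symm
    have hvc : v = c * u := by rw [hu]; field_simp
    have hmin1 : |Real.cos (φ / 2) ^ (M + 1) - t| ≤ q / 128 := hφt.trans (min_le_left _ _)
    have hmin2 : |Real.cos (φ / 2) ^ (M + 1) - t| ≤ ε' / (8 * (F.eval 1 * R0)) :=
      hφt.trans (min_le_right _ _)
    have hmain : ‖c * ((R * Real.cos (φ / 2) ^ (M + 1) : ℝ) *
        exp (I * ((((M : ℝ) - 1) * φ / 2 : ℝ)))) - v‖ ≤ ε' / 8 := by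
      have e6 : c * ((R * Real.cos (φ / 2) ^ (M + 1) : ℝ) *
          exp (I * ((((M : ℝ) - 1) * φ / 2 : ℝ)))) - v =
          c * ((R * (Real.cos (φ / 2) ^ (M + 1) - t) : ℝ) * exp (arg u * I)) := by
        have hv2 : v = c * ((R * t : ℝ) * exp (arg u * I)) := by
          rw [← hur]; exact hvc
        rw [hexp]
        push_cast at hv2 ⊢
        linear_combination (-1 : ℂ) * hv2
      rw [e6, norm_mul c, norm_mul (((R * (Real.cos (φ / 2) ^ (M + 1) - t) : ℝ) : ℂ)),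
        norm_exp_ofReal_mul_I, mul_one, norm_real, Real.norm_eq_abs, abs_mul, abs_of_pos hRpos]
      calc ‖c‖ * (R * |Real.cos (φ / 2) ^ (M + 1) - t|)
          ≤ F.eval 1 * (R0 * (ε' / (8 * (F.eval 1 * R0)))) := by gcongr
        _ = ε' / 8 := by field_simp
    have herr : err F n M ≤ ε' / 8 := (err_le hF hR0 hn0 hRle hfrac).trans e2.le
    have hfin : ‖prim P z - (p + (ε' / 2 : ℝ))‖ ≤ ε' / 4 := by
      have e7 : prim P z - (p + (ε' / 2 : ℝ)) =
          (prim P z - (prim F z1 + c * ((R * Real.cos (φ / 2) ^ (M + 1) : ℝ) *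
            exp (I * ((((M : ℝ) - 1) * φ / 2 : ℝ)))))) +
          (c * ((R * Real.cos (φ / 2) ^ (M + 1) : ℝ) *
            exp (I * ((((M : ℝ) - 1) * φ / 2 : ℝ)))) - v) := by
        rw [hv]; ring
      rw [e7]
      refine (norm_add_le _ _).trans ?_
      have := hzf.trans herr
      linarith
    refine ⟨z, hz, ?_, ?_, ?_⟩
    · -- lower bound for the derivative
      have hcos0 : 0 ≤ Real.cos (φ / 2) :=
        Real.cos_nonneg_of_mem_Icc ⟨by linarith [hφ.1], by linarith [hφ.2]⟩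
      have h1 : aeval z P = aeval z F * (1 + exp (I * φ)) ^ M := by
        rw [hP, map_mul, map_pow, map_add, map_one, map_pow, aeval_X, hzn]
      have h2 : ‖1 + exp (I * φ)‖ = 2 * Real.cos (φ / 2) := by
        have := norm_half hφ'
        rw [norm_div] at this
        have h3 : ‖(2 : ℂ)‖ = 2 := by norm_num
        rw [h3] at this
        linarith
      have h4 : q * F.eval 1 / 2 ≤ ‖aeval z F‖ := by
        have h5 := hF.aeval_lipschitz hz.le hz1.le
        have h6 : (derivative F).eval 1 * ‖z - z1‖ ≤ q * F.eval 1 / 2 := by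
          have h7 : 2 * Real.pi / n ≤ 2 * Real.pi * (R0 * s M) := by
            have : 1 / (n : ℝ) ≤ R0 * s M := by
              refine le_trans ?_ hfrac
              gcongr
              linarith [(Nat.cast_nonneg M : (0 : ℝ) ≤ M)]
            calc 2 * Real.pi / n = 2 * Real.pi * (1 / n) := by ring
              _ ≤ 2 * Real.pi * (R0 * s M) := by gcongr
          refine le_trans ?_ e3.le
          exact mul_le_mul_of_nonneg_left (hzz1.trans h7) hF.derivative.eval_nonneg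
        have h8 := norm_sub_norm_le (aeval z1 F) (aeval z F)
        rw [norm_sub_rev] at h8
        linarith
      have h9 : q / 128 ≤ Real.cos (φ / 2) ^ M := by
        have h10 : q / 128 ≤ Real.cos (φ / 2) ^ (M + 1) := by
          have := (abs_le.mp hmin1).1
          linarith
        refine h10.trans ?_
        exact pow_le_pow_of_le_one hcos0 (Real.cos_le_one _) (Nat.le_succ M)
      rw [h1, norm_mul, norm_pow, h2, mul_pow, hP1]
      calc q ^ 2 / 256 * (F.eval 1 * 2 ^ M) = q * F.eval 1 / 2 * (2 ^ M * (q / 128)) := by ring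
        _ ≤ ‖aeval z F‖ * (2 ^ M * Real.cos (φ / 2) ^ M) := by gcongr
    · have e : ((ε' / 2 : ℝ) : ℂ) = (prim P z - p) - (prim P z - (p + (ε' / 2 : ℝ))) := by ring
      have h1 := norm_sub_le (prim P z - p) (prim P z - (p + (ε' / 2 : ℝ)))
      rw [← e, hn2] at h1
      linarith
    · have e : prim P z - p = (prim P z - (p + (ε' / 2 : ℝ))) + ((ε' / 2 : ℝ) : ℂ) := by ring
      rw [e]
      refine (norm_add_le _ _).trans ?_
      rw [hn2]
      linarith

end Pool.Agent.Helper506.PosArea
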