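import Pool.Agent.Helper506.PosAreaD

open Polynomial Complex Filter Topology Set

namespace Pool.Agent.Helper506.PosArea

noncomputable def qs : ℕ → ℝ
  | 0 => 1
  | k + 1 => (qs k) ^ 2 / 256

theorem qs_pos (k : ℕ) : 0 < qs k := by
  induction k with
  | zero => simp [qs]
  | succ k ih => simp only [qs]; positivity

theorem qs_le_one (k : ℕ) : qs k ≤ 1 := by
  induction k with
  | zero => simp [qs]
  | succ k ih =>
    simp only [qs]
    have := qs_pos k
    nlinarith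

theorem qs_succ_le (k : ℕ) : qs (k + 1) ≤ qs k := by
  simp only [qs]
  have := qs_pos k
  have := qs_le_one k
  nlinarith

noncomputable def es (k : ℕ) : ℝ := qs k * (1 / 4) ^ k

theorem es_pos (k : ℕ) : 0 < es k := mul_pos (qs_pos k) (by positivity)

theorem es_le (k : ℕ) : es k ≤ (1 / 4) ^ k := by
  unfold es
  exact mul_le_of_le_one_left (by positivity) (qs_le_one k)

theorem es_succ_le (k : ℕ) : es (k + 1) ≤ es k / 4 := by
  unfold es
  rw [pow_succ]
  have := qs_succ_le k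
  have h : (0 : ℝ) ≤ (1 / 4) ^ k := by positivity
  nlinarith

/-- the target disc -/
noncomputable def KK : Set ℂ := Metric.closedBall (3 / 2) (1 / 4)

/-- the properties of the polynomials of the construction -/
def Stage (k : ℕ) (F : ℝ[X]) : Prop :=
  NN F ∧ F.coeff 0 = 1 ∧ ∀ p ∈ KK, ∃ z : ℂ, ‖z‖ = 1 ∧ qs k * F.eval 1 ≤ ‖aeval z F‖ ∧
    es k / 4 ≤ ‖prim F z - p‖ ∧ ‖prim F z - p‖ ≤ es k

theorem prim_one (z : ℂ) : prim 1 z = z := by
  rw [prim_range (N := 1) (by simp)]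
  simp

theorem mass_one : mass 1 = 1 := by
  rw [mass_range (N := 1) (by simp)]
  simp

theorem stage_zero : Stage 0 1 := by
  refine ⟨nn_one, by simp, fun p hp => ⟨1, by simp, by simp [qs], ?_, ?_⟩⟩
  · rw [prim_one]
    unfold KK at hp
    rw [mem_closedBall_iff_norm] at hp
    have h1 : ‖(1 - 3 / 2 : ℂ)‖ = 1 / 2 := by
      norm_num
    have h2 := norm_sub_norm_le (1 - 3 / 2 : ℂ) (p - 3 / 2)
    rw [h1, sub_sub_sub_cancel_right] at h2
    simp only [es, qs]
    norm_num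
    linarith
  · rw [prim_one]
    unfold KK at hp
    rw [mem_closedBall_iff_norm] at hp
    have h1 : ‖(1 - 3 / 2 : ℂ)‖ = 1 / 2 := by
      norm_num
    have h2 := norm_sub_le (1 - 3 / 2 : ℂ) (p - 3 / 2)
    rw [h1, sub_sub_sub_cancel_right] at h2
    simp only [es, qs]
    norm_num
    linarith

theorem eval_one_pos {F : ℝ[X]} (hF : NN F) (h0 : F.coeff 0 = 1) : 0 < F.eval 1 := by
  rw [eval_one_eq (Nat.lt_succ_self _)]
  have h1 : F.coeff 0 ≤ ∑ i ∈ Finset.range (F.natDegree + 1), F.coeff i :=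
    Finset.single_le_sum (f := fun i => F.coeff i) (fun i _ => hF i)
      (Finset.mem_range.mpr (Nat.succ_pos _))
  linarith

theorem fac_coeff_zero {n : ℕ} (hn : 0 < n) (M : ℕ) : (((1 + X ^ n) ^ M : ℝ[X])).coeff 0 = 1 := by
  rw [coeff_zero_eq_eval_zero]
  simp [hn.ne']

theorem stage_succ {k : ℕ} {F : ℝ[X]} (h : Stage k F) : ∃ n M : ℕ, k + 1 ≤ n ∧ M ≤ n ∧
    mass (F * (1 + X ^ n) ^ M) ≤ mass F + 16 * (1 / 4) ^ k ∧
    Stage (k + 1) (F * (1 + X ^ n) ^ M) := by
  obtain ⟨hF, h0, hp⟩ := h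
  obtain ⟨n, M, h1, h2, h3, h4, h5⟩ := step hF (eval_one_pos hF h0) (qs_pos k) (es_pos k) hp
    (es_pos (k + 1)) (es_succ_le k) (k + 1)
  refine ⟨n, M, h1, h3, ?_, hF.mul (nn_fac n M), ?_, ?_⟩
  · have : 16 * es k / qs k = 16 * (1 / 4) ^ k := by
      unfold es
      have := (qs_pos k).ne'
      field_simp
    rwa [this] at h4
  · rw [mul_coeff_zero, h0, fac_coeff_zero h2, mul_one]
  · intro p hp'
    obtain ⟨z, hz, hz1, hz2, hz3⟩ := h5 p hp'
    exact ⟨z, hz, by simpa only [qs] using hz1, hz2, hz3⟩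

theorem exists_seq : ∃ (F : ℕ → ℝ[X]) (n M : ℕ → ℕ), F 0 = 1 ∧ (∀ k, Stage k (F k)) ∧
    (∀ k, F (k + 1) = F k * (1 + X ^ n k) ^ M k) ∧ (∀ k, k + 1 ≤ n k) ∧ (∀ k, M k ≤ n k) ∧
    ∀ k, mass (F (k + 1)) ≤ mass (F k) + 16 * (1 / 4) ^ k := by
  have hstep : ∀ (k : ℕ) (F : ℝ[X]), Stage k F → ∃ n M : ℕ, k + 1 ≤ n ∧ M ≤ n ∧
    mass (F * (1 + X ^ n) ^ M) ≤ mass F + 16 * (1 / 4) ^ k ∧
    Stage (k + 1) (F * (1 + X ^ n) ^ M) := fun k F h => stage_succ h
  choose! n M h using hstep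
  let F : ℕ → ℝ[X] := fun k => Nat.rec 1 (fun k F => F * (1 + X ^ n k F) ^ M k F) k
  have hF : ∀ k, Stage k (F k) := by
    intro k
    induction k with
    | zero => exact stage_zero
    | succ k ih => exact (h k (F k) ih).2.2.2
  exact ⟨F, fun k => n k (F k), fun k => M k (F k), rfl, hF, fun k => rfl,
    fun k => (h k (F k) (hF k)).1, fun k => (h k (F k) (hF k)).2.1,
    fun k => (h k (F k) (hF k)).2.2.1⟩

section Limit

variable {F : ℕ → ℝ[X]} {n M : ℕ → ℕ}

theorem coeff_stable (h : ∀ k, F (k + 1) = F k * (1 + X ^ n k) ^ M k) (hn : ∀ k, k + 1 ≤ n k)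
    {i k : ℕ} (hik : i ≤ k) : (F k).coeff i = (F i).coeff i := by
  induction k, hik using Nat.le_induction with
  | base => rfl
  | succ k hik ih =>
    rw [← ih]
    have hdvd : (X ^ n k : ℝ[X]) ∣ F (k + 1) - F k := by
      have e : F (k + 1) - F k = F k * ((1 + X ^ n k) ^ M k - 1 ^ M k) := by
        rw [h k, one_pow]; ring
      rw [e]
      refine Dvd.dvd.mul_left ?_ _
      have := sub_dvd_pow_sub_pow (1 + X ^ n k : ℝ[X]) 1 (M k)
      rwa [add_sub_cancel_left] at this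
    have h2 := (X_pow_dvd_iff.mp hdvd) i (by have := hn k; omega)
    rw [coeff_sub, sub_eq_zero] at h2
    exact h2

theorem coeff_mono_succ (hS : ∀ k, NN (F k)) (h : ∀ k, F (k + 1) = F k * (1 + X ^ n k) ^ M k)
    (hn : ∀ k, k + 1 ≤ n k) (i k : ℕ) : (F k).coeff i ≤ (F (k + 1)).coeff i := by
  rw [h k, coeff_mul]
  have h1 := Finset.single_le_sum
    (f := fun x : ℕ × ℕ => (F k).coeff x.1 * (((1 + X ^ n k) ^ M k : ℝ[X])).coeff x.2)
    (fun x _ => mul_nonneg (hS k x.1) (nn_fac (n k) (M k) x.2))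
    (show (i, 0) ∈ Finset.HasAntidiagonal.antidiagonal i by simp)
  have h2 := hn k
  simp only [fac_coeff_zero (show 0 < n k by omega), mul_one] at h1
  exact h1

theorem coeff_le (hS : ∀ k, NN (F k)) (h : ∀ k, F (k + 1) = F k * (1 + X ^ n k) ^ M k)
    (hn : ∀ k, k + 1 ≤ n k) (i k : ℕ) : (F k).coeff i ≤ (F i).coeff i := by
  rcases le_total i k with hik | hik
  · exact (coeff_stable h hn hik).le
  · exact monotone_nat_of_le_succ (f := fun k => (F k).coeff i)
      (fun k => coeff_mono_succ hS h hn i k) hik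

theorem mass_tail (hm : ∀ k, mass (F (k + 1)) ≤ mass (F k) + 16 * (1 / 4) ^ k) (k m : ℕ) :
    mass (F (k + m)) ≤ mass (F k) + 64 / 3 * (1 / 4) ^ k * (1 - (1 / 4) ^ m) := by
  induction m with
  | zero => simp
  | succ m ih =>
    have h1 := hm (k + m)
    rw [← add_assoc]
    have h2 : (16 : ℝ) * (1 / 4) ^ (k + m) = 64 / 3 * (1 / 4) ^ k * ((1 / 4) ^ m - (1 / 4) ^ (m + 1)) := by
      rw [pow_add, pow_succ]; ring
    rw [h2] at h1
    linarith

/-- the coefficients of the limit (shifted by one) -/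
noncomputable def dd (F : ℕ → ℝ[X]) (i : ℕ) : ℝ := (F i).coeff i * (1 / (i + 1))

theorem dd_nonneg (hS : ∀ k, NN (F k)) (i : ℕ) : 0 ≤ dd F i :=
  mul_nonneg (hS i i) (by positivity)

theorem sum_dd_le (hS : ∀ k, NN (F k)) (h : ∀ k, F (k + 1) = F k * (1 + X ^ n k) ^ M k)
    (hn : ∀ k, k + 1 ≤ n k) (hm : ∀ k, mass (F (k + 1)) ≤ mass (F k) + 16 * (1 / 4) ^ k)
    (k m : ℕ) : ∑ i ∈ Finset.range m, dd F i ≤ mass (F k) + 64 / 3 * (1 / 4) ^ k := by
  have h1 : ∑ i ∈ Finset.range m, dd F i ≤ mass (F (k + m)) := by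
    rw [mass_range (N := m + ((F (k + m)).natDegree + 1)) (by omega)]
    have h2 : ∑ i ∈ Finset.range m, dd F i =
        ∑ i ∈ Finset.range m, (F (k + m)).coeff i * (1 / (i + 1)) := by
      refine Finset.sum_congr rfl fun i hi => ?_
      have := Finset.mem_range.mp hi
      rw [dd, coeff_stable h hn (show i ≤ k + m by omega)]
    rw [h2]
    refine Finset.sum_le_sum_of_subset_of_nonneg
      (Finset.range_subset_range.mpr (by omega)) fun i _ _ => ?_
    exact mul_nonneg (hS _ _) (by positivity)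
  refine h1.trans ((mass_tail hm k m).trans ?_)
  have h3 : (64 / 3 : ℝ) * (1 / 4) ^ k * (1 - (1 / 4) ^ m) ≤ 64 / 3 * (1 / 4) ^ k := by
    have : (0 : ℝ) ≤ 64 / 3 * (1 / 4) ^ k := by positivity
    have h4 : (0 : ℝ) ≤ (1 / 4) ^ m := by positivity
    nlinarith
  linarith

theorem summable_dd (hS : ∀ k, NN (F k)) (h : ∀ k, F (k + 1) = F k * (1 + X ^ n k) ^ M k)
    (hn : ∀ k, k + 1 ≤ n k) (hm : ∀ k, mass (F (k + 1)) ≤ mass (F k) + 16 * (1 / 4) ^ k) :
    Summable (dd F) :=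
  summable_of_sum_range_le (dd_nonneg hS) (sum_dd_le hS h hn hm 0)

/-- the limit function -/
noncomputable def lim (F : ℕ → ℝ[X]) (z : ℂ) : ℂ := ∑' i, (dd F i : ℂ) * z ^ (i + 1)

theorem summable_lim (hS : ∀ k, NN (F k)) (hd : Summable (dd F)) {z : ℂ} (hz : ‖z‖ ≤ 1) :
    Summable fun i => (dd F i : ℂ) * z ^ (i + 1) := by
  refine Summable.of_norm_bounded hd fun i => ?_
  rw [norm_mul, norm_pow, norm_real, Real.norm_of_nonneg (dd_nonneg hS i)]
  exact mul_le_of_le_one_right (dd_nonneg hS i) (pow_le_one₀ (norm_nonneg _) hz)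

theorem lim_sub_le (hS : ∀ k, NN (F k)) (h : ∀ k, F (k + 1) = F k * (1 + X ^ n k) ^ M k)
    (hn : ∀ k, k + 1 ≤ n k) (hm : ∀ k, mass (F (k + 1)) ≤ mass (F k) + 16 * (1 / 4) ^ k)
    (k : ℕ) {z : ℂ} (hz : ‖z‖ ≤ 1) : ‖lim F z - prim (F k) z‖ ≤ 64 / 3 * (1 / 4) ^ k := by
  have hd := summable_dd hS h hn hm
  set e : ℕ → ℝ := fun i => (F k).coeff i * (1 / (i + 1)) with he
  have he0 : ∀ i, 0 ≤ e i := fun i => mul_nonneg (hS k i) (by positivity)
  have hele : ∀ i, e i ≤ dd F i := fun i =>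
    mul_le_mul_of_nonneg_right (coeff_le hS h hn i k) (by positivity)
  have hes : Summable e := Summable.of_nonneg_of_le he0 hele hd
  have hzero : ∀ i ∉ Finset.range ((F k).natDegree + 1), e i = 0 := by
    intro i hi
    simp only [he]
    rw [coeff_eq_zero_of_natDegree_lt (by simpa using hi), zero_mul]
  have hmass : ∑' i, e i = mass (F k) := by
    rw [tsum_eq_sum hzero, mass_range (Nat.lt_succ_self _)]
  have hprim : prim (F k) z = ∑' i, (e i : ℂ) * z ^ (i + 1) := by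
    rw [tsum_eq_sum (s := Finset.range ((F k).natDegree + 1)), prim_range (Nat.lt_succ_self _)]
    · refine Finset.sum_congr rfl fun i _ => ?_
      simp only [he]
      push_cast
      ring
    · intro i hi
      rw [hzero i hi]
      simp
  have hsum2 : Summable fun i => (e i : ℂ) * z ^ (i + 1) := by
    refine Summable.of_norm_bounded hes fun i => ?_
    rw [norm_mul, norm_pow, norm_real, Real.norm_of_nonneg (he0 i)]
    exact mul_le_of_le_one_right (he0 i) (pow_le_one₀ (norm_nonneg _) hz)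
  have hsub : lim F z - prim (F k) z = ∑' i, ((dd F i - e i : ℝ) : ℂ) * z ^ (i + 1) := by
    rw [lim, hprim, ← (summable_lim hS hd hz).tsum_sub hsum2]
    refine tsum_congr fun i => ?_
    push_cast; ring
  have hdiff : HasSum (fun i => dd F i - e i) (∑' i, dd F i - mass (F k)) := by
    rw [← hmass]
    exact hd.hasSum.sub hes.hasSum
  rw [hsub]
  refine (tsum_of_norm_bounded hdiff fun i => ?_).trans ?_
  · rw [norm_mul, norm_pow, norm_real, Real.norm_of_nonneg (by linarith [hele i])]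
    exact mul_le_of_le_one_right (by linarith [hele i]) (pow_le_one₀ (norm_nonneg _) hz)
  · have := hd.tsum_le_of_sum_range_le (sum_dd_le hS h hn hm k)
    linarith

theorem lim_tendsto (hS : ∀ k, NN (F k)) (h : ∀ k, F (k + 1) = F k * (1 + X ^ n k) ^ M k)
    (hn : ∀ k, k + 1 ≤ n k) (hm : ∀ k, mass (F (k + 1)) ≤ mass (F k) + 16 * (1 / 4) ^ k) :
    TendstoUniformlyOn (fun k z => prim (F k) z) (lim F) atTop (Metric.closedBall 0 1) := by
  rw [Metric.tendstoUniformlyOn_iff]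
  intro ε hε
  have h1 : Tendsto (fun k : ℕ => (64 / 3 : ℝ) * (1 / 4) ^ k) atTop (𝓝 0) := by
    have := (tendsto_pow_atTop_nhds_zero_of_lt_one (r := (1 / 4 : ℝ)) (by norm_num)
      (by norm_num)).const_mul (64 / 3 : ℝ)
    rwa [mul_zero] at this
  filter_upwards [h1.eventually (gt_mem_nhds hε)] with k hk z hz
  rw [dist_eq_norm]
  exact (lim_sub_le hS h hn hm k (by simpa using hz)).trans_lt hk

theorem lower_bound (h0 : F 0 = 1) (h : ∀ k, F (k + 1) = F k * (1 + X ^ n k) ^ M k)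
    (hn : ∀ k, k + 1 ≤ n k) (hMn : ∀ k, M k ≤ n k) {z : ℂ} (hz : ‖z‖ < 1) :
    ∃ c : ℝ, 0 < c ∧ ∀ᶠ k in atTop, c ≤ ‖aeval z (F k)‖ := by
  set r := ‖z‖ with hr
  have hr0 : 0 ≤ r := norm_nonneg _
  have hfac : ∀ k, aeval z (F (k + 1)) = aeval z (F k) * (1 + z ^ n k) ^ M k := by
    intro k
    rw [h k, map_mul, map_pow, map_add, map_one, map_pow, aeval_X]
  have hne : ∀ k, aeval z (F k) ≠ 0 := by
    intro k
    induction k with
    | zero => rw [h0, map_one]; exact one_ne_zero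
    | succ k ih =>
      rw [hfac]
      refine mul_ne_zero ih (pow_ne_zero _ ?_)
      intro hcon
      have h1 : ‖z ^ n k‖ = 1 := by
        have : z ^ n k = -1 := by linear_combination hcon
        rw [this]; simp
      rw [norm_pow] at h1
      have h2 : ‖z‖ ^ n k < 1 := pow_lt_one₀ hr0 hz (by have := hn k; omega)
      linarith
  set w : ℕ → ℝ := fun k => n k * r ^ n k with hw
  have hw0 : ∀ k, 0 ≤ w k := fun k => by positivity
  have hws : Summable w := by
    obtain ⟨ρ, hρ0, hρ1, hρr⟩ : ∃ ρ : ℝ, 0 ≤ ρ ∧ ρ < 1 ∧ ρ ^ 2 = r := by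
      refine ⟨√r, Real.sqrt_nonneg _, ?_, Real.sq_sqrt hr0⟩
      rw [Real.sqrt_lt' one_pos]; simpa using hz
    obtain ⟨C, hC⟩ : ∃ C, ∀ m : ℕ, |(m : ℝ) * ρ ^ m| ≤ C := by
      have h1 := tendsto_self_mul_const_pow_of_lt_one hρ0 hρ1
      obtain ⟨C, hC⟩ := (Metric.isBounded_range_of_tendsto _ h1).exists_norm_le
      exact ⟨C, fun m => hC _ (mem_range_self m)⟩
    have hC0 : 0 ≤ C := (abs_nonneg _).trans (hC 0)
    refine Summable.of_nonneg_of_le hw0 (fun k => ?_)
      ((summable_geometric_of_lt_one hρ0 hρ1).mul_left C)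
    have h1 : r ^ n k = ρ ^ n k * ρ ^ n k := by rw [← hρr, ← pow_mul, ← pow_add]; congr 1; ring
    simp only [hw]
    rw [h1, ← mul_assoc]
    have h2 : (n k : ℝ) * ρ ^ n k ≤ C := (le_abs_self _).trans (hC _)
    have h3 : ρ ^ n k ≤ ρ ^ k := pow_le_pow_of_le_one hρ0 hρ1.le (by have := hn k; omega)
    exact mul_le_mul h2 h3 (by positivity) hC0
  obtain ⟨J, hJ⟩ : ∃ J, ∑' i, w (i + J) < 1 / 2 :=
    ((tendsto_sum_nat_add w).eventually (gt_mem_nhds (by norm_num : (0 : ℝ) < 1 / 2))).exists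
  have hsum : ∀ m, ∑ i ∈ Finset.range m, w (i + J) ≤ 1 / 2 := by
    intro m
    have h1 : Summable fun i => w (i + J) := (summable_nat_add_iff J).mpr hws
    exact (h1.sum_le_tsum _ (fun i _ => hw0 _)).trans hJ.le
  have hind : ∀ m, ‖aeval z (F J)‖ * (1 - ∑ i ∈ Finset.range m, w (i + J)) ≤
      ‖aeval z (F (m + J))‖ := by
    intro m
    induction m with
    | zero => simp
    | succ m ih =>
      rw [show m + 1 + J = (m + J) + 1 by ring, hfac, norm_mul, Finset.sum_range_succ]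
      have h1 := hsum m
      have h1' : 0 ≤ ∑ i ∈ Finset.range m, w (i + J) := Finset.sum_nonneg fun i _ => hw0 _
      have h2 : 1 - w (m + J) ≤ ‖(1 + z ^ n (m + J)) ^ M (m + J)‖ := by
        have hrn : r ^ n (m + J) ≤ 1 := pow_le_one₀ hr0 hz.le
        have h3 : 1 - r ^ n (m + J) ≤ ‖1 + z ^ n (m + J)‖ := by
          have := norm_sub_norm_le (1 : ℂ) (-(z ^ n (m + J)))
          rw [norm_one, norm_neg, norm_pow, sub_neg_eq_add] at this
          exact this
        have h4 := one_add_mul_le_pow (a := -(r ^ n (m + J))) (by linarith) (M (m + J))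
        have h5 : (1 - r ^ n (m + J)) ^ M (m + J) ≤ ‖1 + z ^ n (m + J)‖ ^ M (m + J) :=
          pow_le_pow_left₀ (by linarith) h3 _
        have h6 : (M (m + J) : ℝ) * r ^ n (m + J) ≤ w (m + J) := by
          simp only [hw]
          have : (M (m + J) : ℝ) ≤ n (m + J) := by exact_mod_cast hMn _
          gcongr
        rw [norm_pow]
        rw [← sub_eq_add_neg] at h4
        linarith
      have h7 := norm_nonneg (aeval z (F J))
      have h8 : 0 ≤ ‖aeval z (F J)‖ * (1 - ∑ i ∈ Finset.range m, w (i + J)) :=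
        mul_nonneg h7 (by linarith)
      calc ‖aeval z (F J)‖ * (1 - (∑ i ∈ Finset.range m, w (i + J) + w (m + J)))
          ≤ ‖aeval z (F J)‖ * (1 - ∑ i ∈ Finset.range m, w (i + J)) * (1 - w (m + J)) := by
            have := hw0 (m + J)
            nlinarith [mul_nonneg h7 (mul_nonneg h1' this)]
        _ ≤ ‖aeval z (F J)‖ * (1 - ∑ i ∈ Finset.range m, w (i + J)) *
            ‖(1 + z ^ n (m + J)) ^ M (m + J)‖ := mul_le_mul_of_nonneg_left h2 h8
        _ ≤ ‖aeval z (F (m + J))‖ * ‖(1 + z ^ n (m + J)) ^ M (m + J)‖ :=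
            mul_le_mul_of_nonneg_right ih (norm_nonneg _)
  refine ⟨‖aeval z (F J)‖ / 2, half_pos (norm_pos_iff.mpr (hne J)), ?_⟩
  filter_upwards [eventually_ge_atTop J] with k hk
  obtain ⟨m, rfl⟩ := Nat.exists_eq_add_of_le hk
  have h1 := hind m
  have h2 := hsum m
  have h3 := norm_nonneg (aeval z (F J))
  rw [add_comm J m]
  nlinarith

end Limit

end Pool.Agent.Helper506.PosArea
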